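import Pool.Agent.PRH.HDef

/-!
# Sparse sequences and the separation of the phases (module SymK)

HEADER. `Σ = ℤ → Bool` is compact and metrizable (countable product). `YL L` is closed,
`YL (L + 1) ⊆ YL L`.

`isClosed_YL`: intersection of clopen conditions on two coordinates.

`shift_iter`: `A^[m * k] (π ω) = π (fun i => ω (i + k))` by induction on `k`.

`exists_L`: it suffices to find one `L₁` (as `YL` is decreasing).
(1) `{ω | π ω ∈ U}` is a neighbourhood of `dl`: it contains `{ω | ∀ i, |i| ≤ R → ω i = dl i}` for some `R`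
(basis of the product topology), and `ω ∈ YL L`, `ω 0 = true`, `L > R` imply `ω i = false` for
`0 < |i| ≤ R`.
(2) Suppose that for every `L` there are `ω_L, ω'_L ∈ YL L`, `ω'_L 0 = true`, `0 < t_L < m` with
`A^[t_L] (π ω_L) = π ω'_L`. Pass to a subsequence: `t_L = t` constant, `ω_L → ω`, `ω'_L → ω'` (compactness;
or use an ultrafilter / the hyperfilter on `ℕ`). The limits have at most one `1` (for `i < j` with
`ω i = ω j = true` we have `ω_L i = ω_L j = true` for large `L` in the subsequence, so `L ≤ j - i`,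
impossible for large `L`), `ω' 0 = true`, so `ω' = dl`; `A^[t] (π ω) = π dl`.
Case `ω = 0` (no `1`): `ω` is fixed by the shift, so `A^[m] (π ω) = π ω` and `A^[m] (π dl) =
A^[t] (A^[m] (π ω)) = π dl`, so `dl (i + 1) = dl i` for all `i`: false.
Case `ω = ` the sequence with a single `1` at the place `k`.
 If `k ≤ 0`: `ω i = dl (i + |k|)`, so `π ω = A^[m |k|] (π dl)` and `A^[t + m |k|] (π dl) = π dl`, period
 `s = t + m |k| > 0`; then `A^[m s] (π dl) = π dl`, i.e. `dl (i + s) = dl i`: false for `i = 0`.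
 If `k > 0`: `dl i = ω (i + k)`, so `π dl = A^[m k] (π ω)` and `A^[m k] (π ω) = A^[t] (π ω)`, `m k ≥ m > t`;
 `A^[t]` is injective, so `A^[m k - t] (π ω) = π ω`, and with `s = m k - t > 0`,
 `A^[m s] (π ω) = π ω`, `ω (i + s) = ω i`: false for `i = k - s`... (`ω (k) = true`, `ω (k + s) = false`).
-/

open Set Filter Topology

namespace PRH

theorem isClosed_YL (L : ℕ) : IsClosed (YL L) := by
  have h : YL L = ⋂ (i : ℤ) (j : ℤ), (fun ω : ℤ → Bool => (ω i, ω j)) ⁻¹'
      {q : Bool × Bool | q.1 = true → q.2 = true → i < j → (L : ℤ) ≤ j - i} := by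
    ext ω
    simp only [YL, mem_setOf_eq, mem_iInter, mem_preimage]
  rw [h]
  refine isClosed_iInter fun i => isClosed_iInter fun j => ?_
  exact (isClosed_discrete _).preimage ((continuous_apply i).prodMk (continuous_apply j))

theorem SymK_mono {L L' : ℕ} (h : L ≤ L') : YL L' ⊆ YL L := by
  intro ω hω i j hi hj hij
  have := hω i j hi hj hij
  omega

theorem IsHorseshoe.iter {N : Type*} [TopologicalSpace N] {A : N → N} {m : ℕ}
    {π : (ℤ → Bool) → N} (h : IsHorseshoe A m π) (k : ℕ) (ω : ℤ → Bool) :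
    A^[m * k] (π ω) = π (fun i => ω (i + k)) := by
  induction k generalizing ω with
  | zero => simp
  | succ k ih =>
    rw [Nat.mul_succ, Function.iterate_add_apply, h.semi, ih]
    congr 1
    funext i
    congr 1
    push_cast
    ring

/-- a sequence which belongs to all `YL L` has at most one `1` -/
theorem SymK_one {ω : ℤ → Bool} (h : ∀ L, ω ∈ YL L) {i j : ℤ} (hi : ω i = true) (hj : ω j = true) :
    i = j := by
  by_contra hne
  rcases lt_or_gt_of_ne hne with h1 | h1
  · have := h ((j - i).toNat + 1) i j hi hj h1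
    omega
  · have := h ((i - j).toNat + 1) j i hj hi h1
    omega

theorem SymK_dl {ω : ℤ → Bool} (h : ∀ L, ω ∈ YL L) {k : ℤ} (hk : ω k = true) (i : ℤ) :
    ω i = dl (i - k) := by
  by_cases hik : i = k
  · subst hik
    rw [hk]
    simp [dl]
  · have h1 : ω i ≠ true := fun hi => hik (SymK_one h hi hk)
    have h2 : ω i = false := by simpa using h1
    rw [h2]
    have h3 : i - k ≠ 0 := sub_ne_zero.2 hik
    simp [dl, h3]

theorem SymK_iter_fix {N : Type*} {A : N → N} {s : ℕ} {x : N} (h : A^[s] x = x) (m : ℕ) :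
    A^[m * s] x = x := by
  rw [mul_comm, Function.iterate_mul]
  exact Function.iterate_fixed h m

/-- the limit argument -/
theorem SymK_lim {N : Type*} [TopologicalSpace N] {A : N → N} {m : ℕ}
    {π : (ℤ → Bool) → N} (h : IsHorseshoe A m π)
    (hA' : Function.Injective A) {ω ω' : ℤ → Bool} (h1 : ∀ L, ω ∈ YL L) (h2 : ∀ L, ω' ∈ YL L)
    (h0 : ω' 0 = true) {t : ℕ} (ht : 0 < t) (htm : t < m) (he : A^[t] (π ω) = π ω') : False := by
  have hd : ω' = dl := by
    funext i
    rw [SymK_dl h2 h0 i, sub_zero]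
  rw [hd] at he
  by_cases hz : ∃ k, ω k = true
  · obtain ⟨k, hk⟩ := hz
    have hω := SymK_dl h1 hk
    rcases le_or_gt k 0 with hk0 | hk0
    · obtain ⟨q, hq⟩ := Int.eq_ofNat_of_zero_le (neg_nonneg.2 hk0)
      have e1 : π ω = A^[m * q] (π dl) := by
        rw [h.iter]
        congr 1
        funext i
        rw [hω i]
        congr 1
        omega
      rw [e1, ← Function.iterate_add_apply] at he
      have e2 := SymK_iter_fix he m
      rw [h.iter] at e2
      have e3 := congrFun (h.inj e2) 0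
      have e4 : (0 : ℤ) + ((t + m * q : ℕ) : ℤ) ≠ 0 := by
        push_cast
        positivity
      simp only [dl] at e3
      rw [decide_eq_false e4] at e3
      simp at e3
    · obtain ⟨q, hq⟩ := Int.eq_ofNat_of_zero_le hk0.le
      have hq1 : 1 ≤ q := by omega
      have e1 : π dl = A^[m * q] (π ω) := by
        rw [h.iter]
        congr 1
        funext i
        rw [hω]
        congr 1
        omega
      have hmq : m ≤ m * q := Nat.le_mul_of_pos_right m hq1
      have e2 : A^[t] (A^[m * q - t] (π ω)) = A^[t] (π ω) := by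
        rw [← Function.iterate_add_apply, Nat.add_sub_cancel' (by omega), ← e1, he]
      have e3 := hA'.iterate t e2
      have e4 := SymK_iter_fix e3 m
      rw [h.iter] at e4
      have e5 := congrFun (h.inj e4) k
      rw [hk] at e5
      have e6 := SymK_one h1 e5 hk
      have e7 : ((m * q - t : ℕ) : ℤ) = 0 := by linarith
      have e8 : m * q - t = 0 := by exact_mod_cast e7
      omega
  · push Not at hz
    have hω : ∀ i, ω i = false := fun i => by simpa using hz i
    have e1 : A^[m] (π ω) = π ω := by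
      rw [h.semi]
      congr 1
      funext i
      rw [hω, hω]
    have e2 : A^[m] (π dl) = π dl := by
      rw [← he, ← Function.iterate_add_apply, Nat.add_comm, Function.iterate_add_apply, e1]
    rw [h.semi] at e2
    have e3 := congrFun (h.inj e2) 0
    simp [dl] at e3

theorem IsHorseshoe.exists_L {N : Type*} [TopologicalSpace N] [T2Space N] {A : N → N} {m : ℕ}
    {π : (ℤ → Bool) → N} (h : IsHorseshoe A m π) (hA : Continuous A)
    (hA' : Function.Injective A) {U : Set N} (hU : U ∈ 𝓝 (π dl)) :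
    ∃ L₁ : ℕ, ∀ L : ℕ, L₁ ≤ L → (∀ ω ∈ YL L, ω 0 = true → π ω ∈ U) ∧
      ∀ ω ∈ YL L, ∀ ω' ∈ YL L, ω' 0 = true → ∀ t : ℕ, 0 < t → t < m → A^[t] (π ω) ≠ π ω' := by
  -- the neighbourhood
  have hpre : π ⁻¹' U ∈ 𝓝 dl := h.cont.continuousAt hU
  obtain ⟨R, hR⟩ : ∃ R : ℕ, ∀ ω : ℤ → Bool, (∀ i : ℤ, |i| ≤ R → ω i = dl i) → π ω ∈ U := by
    rw [nhds_pi, Filter.mem_pi] at hpre
    obtain ⟨I, hI, t, ht, hIt⟩ := hpre
    obtain ⟨R, hR⟩ : ∃ R : ℕ, ∀ i ∈ I, |i| ≤ R := by
      obtain ⟨b, hb⟩ := (hI.image fun i : ℤ => i.natAbs).bddAbove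
      refine ⟨b, fun i hi => ?_⟩
      have := hb ⟨i, hi, rfl⟩
      simp only at this
      rw [Int.abs_eq_natAbs]
      exact_mod_cast this
    refine ⟨R, fun ω hω => hIt ?_⟩
    intro i hi
    rw [hω i (hR i hi)]
    exact mem_of_mem_nhds (ht i)
  -- the return times
  obtain ⟨L₂, hL₂⟩ : ∃ L₂ : ℕ, ∀ ω ∈ YL L₂, ∀ ω' ∈ YL L₂, ω' 0 = true → ∀ t : ℕ, 0 < t → t < m →
      A^[t] (π ω) ≠ π ω' := by
    by_contra hcon
    push Not at hcon
    let K : ℕ → ℕ → Set ((ℤ → Bool) × (ℤ → Bool)) := fun t L =>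
      {q | q.1 ∈ YL L ∧ q.2 ∈ YL L ∧ q.2 0 = true ∧ A^[t] (π q.1) = π q.2}
    have hKc : ∀ t L, IsClosed (K t L) := by
      intro t L
      have e : K t L = (Prod.fst ⁻¹' YL L) ∩ ((Prod.snd ⁻¹' YL L) ∩
          ({q : (ℤ → Bool) × (ℤ → Bool) | q.2 0 = true} ∩
            {q : (ℤ → Bool) × (ℤ → Bool) | A^[t] (π q.1) = π q.2})) := rfl
      rw [e]
      refine ((isClosed_YL L).preimage continuous_fst).inter (((isClosed_YL L).preimage continuous_snd).inter
        (IsClosed.inter ?_ ?_))
      · exact isClosed_eq ((continuous_apply 0).comp continuous_snd) continuous_const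
      · exact isClosed_eq ((hA.iterate t).comp (h.cont.comp continuous_fst)) (h.cont.comp continuous_snd)
    have hKm : ∀ t {L L' : ℕ}, L ≤ L' → K t L' ⊆ K t L := by
      rintro t L L' hL q ⟨q1, q2, q3⟩
      exact ⟨SymK_mono hL q1, SymK_mono hL q2, q3⟩
    obtain ⟨t, ht0, htm, hne⟩ : ∃ t : ℕ, 0 < t ∧ t < m ∧ ∀ L, (K t L).Nonempty := by
      by_contra hc
      push Not at hc
      have hsel : ∀ t : ℕ, ∃ L : ℕ, 0 < t → t < m → K t L = ∅ := by
        intro t
        by_cases h1 : 0 < t ∧ t < m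
        · obtain ⟨L, hL⟩ := hc t h1.1 h1.2
          exact ⟨L, fun _ _ => hL⟩
        · exact ⟨0, fun h2 h3 => absurd ⟨h2, h3⟩ h1⟩
      choose g hg using hsel
      obtain ⟨ω, hω, ω', hω', h0, t, ht0, htm, he⟩ := hcon (∑ t ∈ Finset.range m, g t)
      have h1 : g t ≤ ∑ t ∈ Finset.range m, g t :=
        Finset.single_le_sum (fun _ _ => Nat.zero_le _) (Finset.mem_range.2 htm)
      have h2 : (ω, ω') ∈ K t (g t) := hKm t h1 ⟨hω, hω', h0, he⟩
      rw [hg t ht0 htm] at h2
      exact h2
    obtain ⟨q, hq⟩ := IsCompact.nonempty_iInter_of_sequence_nonempty_isCompact_isClosed (K t)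
      (fun L => hKm t (Nat.le_succ L)) hne (hKc t 0).isCompact (hKc t)
    rw [mem_iInter] at hq
    exact SymK_lim h hA' (fun L => (hq L).1) (fun L => (hq L).2.1) (hq 0).2.2.1 ht0 htm (hq 0).2.2.2
  refine ⟨max L₂ (R + 1), fun L hL => ⟨?_, ?_⟩⟩
  · intro ω hω h0
    apply hR
    intro i hi
    have hRL : R + 1 ≤ L := (le_max_right _ _).trans hL
    by_cases h1 : i = 0
    · subst h1
      rw [h0]
      simp [dl]
    · have h2 : ω i ≠ true := by
        intro h2
        have hi' := abs_le.1 hi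
        rcases lt_or_gt_of_ne h1 with h3 | h3
        · have := hω i 0 h2 h0 h3
          omega
        · have := hω 0 i h0 h2 h3
          omega
      have h3 : ω i = false := by simpa using h2
      rw [h3]
      simp [dl, h1]
  · intro ω hω ω' hω' h0 t ht htm
    have hLL : L₂ ≤ L := (le_max_left _ _).trans hL
    exact hL₂ ω (SymK_mono hLL hω) ω' (SymK_mono hLL hω') h0 t ht htm

end PRH
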