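import Pool.Agent.PRH.HDef

/-!
# The periodic sequence of a word (module SymSeq)

HEADER. Let `n_tot = TT n k > 0`, `T_l = TT n l`. The trigger places are the integers
`τ = T_l + z n_tot` (`l < k`, `z ∈ ℤ`), of type `a l`. Every integer `i` lies in exactly one interval
`[τ, τ⁺)`, where `τ = T_l + z n_tot` and `τ⁺ = T_{l+1} + z n_tot` is the next trigger place
(`T_k = T_0 + n_tot`); `τ⁺ - τ = n l ≥ 2 L + 2 J`.
Put `ω i = true` iff `i` is a trigger place, or `i = τ - (L + a l)` for a trigger place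
`τ = T_l + z n_tot`: in formulas
`ω i = true ↔ ∃ z : ℤ, ∃ l < k, i = T_l + z n_tot ∨ i = T_l + z n_tot - (L + a l)`.
The set of places of the `1`s is, in increasing order: `..., τ - (L + a(τ)), τ, τ⁺ - (L + a(τ⁺)), τ⁺, ...`
with the gaps `L + a(τ) ∈ [L, L + J)` and `τ⁺ - (L + a(τ⁺)) - τ ≥ 2 L + 2 J - L - J = L + J ≥ L`.
So `ω ∈ YL L`, and `ω` is periodic with the period `n_tot`. A place `i` with `ω i = true` and
`ω (i - (L + b)) = true` for some `b < J` is a trigger place (for the other places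
`i = τ⁺ - (L + a(τ⁺))` the preceding `1` is `τ`, at distance `≥ L + J > L + b`, and the places before are
farther; use that `i - (L + b)` would be a `1` strictly between `τ` and `i`...). Places strictly between
`T_l` and `T_{l+1}` are not trigger places.

HINT. A convenient way: first prove that two different trigger places differ by at least
`M := 2 L + 2 J` (for `τ = T_l + z n_tot`, `τ' = T_{l'} + z' n_tot`: extend `n` periodically,
`n' i = n (i % k)`, and `T'` to `ℤ`; or treat `z = z'` (then `T_l - T_{l'}` is a sum of `n`'s) and `z < z'`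
(`T_{l'} + (z' - z) n_tot - T_l ≥ n_tot - T_l ≥ n l`...)). Everything else follows from this
separation and `omega`: if `P` is the set of trigger places with types, `1`s at `τ` and `τ - (L + a τ)`,
`0 ≤ a τ < J`.
-/

open Set Filter Topology

namespace PRH

theorem SymSeq_succ (n : ℕ → ℕ) (l : ℕ) : TT n (l + 1) = TT n l + n l := Finset.sum_range_succ _ _

theorem SymSeq_mono (n : ℕ → ℕ) : Monotone (TT n) :=
  monotone_nat_of_le_succ fun l => by
    rw [SymSeq_succ]
    exact Nat.le_add_right _ _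

/-- the trigger places -/
theorem SymSeq_tri (n : ℕ → ℕ) {k l l' : ℕ} (hl : l < k) (hl' : l' < k) (z z' : ℤ) :
    (z = z' ∧ l = l') ∨ (TT n l : ℤ) + z * TT n k + n l ≤ TT n l' + z' * TT n k ∨
      (TT n l' : ℤ) + z' * TT n k + n l' ≤ TT n l + z * TT n k := by
  have key : ∀ {l l' : ℕ} (_ : l < k) (z z' : ℤ), z < z' →
      (TT n l : ℤ) + z * TT n k + n l ≤ TT n l' + z' * TT n k := by
    intro l l' hl z z' h
    have h1 : TT n l + n l ≤ TT n k := by
      rw [← SymSeq_succ]
      exact SymSeq_mono n hl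
    have h2 : (TT n l : ℤ) + n l ≤ TT n k := by exact_mod_cast h1
    have h3 : (z + 1) * (TT n k : ℤ) ≤ z' * TT n k :=
      mul_le_mul_of_nonneg_right (by omega) (Int.natCast_nonneg _)
    have h4 : (0 : ℤ) ≤ TT n l' := Int.natCast_nonneg _
    linarith
  have key2 : ∀ {l l' : ℕ} (z : ℤ), l < l' →
      (TT n l : ℤ) + z * TT n k + n l ≤ TT n l' + z * TT n k := by
    intro l l' z h
    have h1 : TT n l + n l ≤ TT n l' := by
      rw [← SymSeq_succ]
      exact SymSeq_mono n h
    have h2 : (TT n l : ℤ) + n l ≤ TT n l' := by exact_mod_cast h1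
    linarith
  rcases lt_trichotomy z z' with h | h | h
  · exact Or.inr (Or.inl (key hl z z' h))
  · subst h
    rcases lt_trichotomy l l' with h' | h' | h'
    · exact Or.inr (Or.inl (key2 z h'))
    · exact Or.inl ⟨rfl, h'⟩
    · exact Or.inr (Or.inr (key2 z h'))
  · exact Or.inr (Or.inr (key hl' z' z h))

open Classical in
/-- the sequence of the word -/
noncomputable def SymSeq_om {J : ℕ} (L : ℕ) (a : ℕ → Fin J) (n : ℕ → ℕ) (k : ℕ) (i : ℤ) : Bool :=
  decide (∃ z : ℤ, ∃ l < k, i = TT n l + z * TT n k ∨ i = TT n l + z * TT n k - (L + (a l : ℕ)))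

theorem exists_word_seq {J L : ℕ} (hL : J ≤ L) (a : ℕ → Fin J) (n : ℕ → ℕ) {k : ℕ} (hk : 0 < k)
    (hn : ∀ i, 2 * L + 2 * J ≤ n i) :
    ∃ ω : ℤ → Bool, ω ∈ YL L ∧ (∀ i : ℤ, ω (i + TT n k) = ω i) ∧
      ∀ l < k, ω (TT n l) = true ∧ ω ((TT n l : ℤ) - (L + (a l : ℕ))) = true ∧
        ∀ i : ℤ, (TT n l : ℤ) < i → i < TT n (l + 1) →
          ¬ (ω i = true ∧ ∃ b : Fin J, ω (i - (L + (b : ℕ))) = true) := by
  have _ := hk
  have hiff : ∀ i, SymSeq_om L a n k i = true ↔ ∃ z : ℤ, ∃ l < k, i = TT n l + z * TT n k ∨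
      i = TT n l + z * TT n k - (L + (a l : ℕ)) := by
    intro i
    simp only [SymSeq_om, decide_eq_true_eq]
  refine ⟨SymSeq_om L a n k, ?_, ?_, ?_⟩
  · intro i j hi hj hij
    rw [hiff] at hi hj
    obtain ⟨z, l, hl, hi⟩ := hi
    obtain ⟨z', l', hl', hj⟩ := hj
    have h1 := hn l
    have h2 := hn l'
    have h3 := (a l).2
    have h4 := (a l').2
    rcases SymSeq_tri n hl hl' z z' with ⟨rfl, rfl⟩ | h | h
    · omega
    · omega
    · omega
  · intro i
    rw [Bool.eq_iff_iff, hiff, hiff]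
    constructor
    · rintro ⟨z, l, hl, h⟩
      refine ⟨z - 1, l, hl, ?_⟩
      rw [sub_mul, one_mul]
      omega
    · rintro ⟨z, l, hl, h⟩
      refine ⟨z + 1, l, hl, ?_⟩
      rw [add_mul, one_mul]
      omega
  · intro l hl
    refine ⟨?_, ?_, ?_⟩
    · rw [hiff]
      exact ⟨0, l, hl, Or.inl (by simp)⟩
    · rw [hiff]
      exact ⟨0, l, hl, Or.inr (by simp)⟩
    · rintro i hi1 hi2 ⟨hi, b, hb⟩
      rw [hiff] at hi hb
      obtain ⟨z', l', hl', hi⟩ := hi
      obtain ⟨z'', l'', hl'', hb⟩ := hb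
      have h1 := hn l
      have h2 := hn l'
      have h2' := hn l''
      have h3 := (a l).2
      have h4 := (a l').2
      have h5 := (a l'').2
      have h6 := b.2
      have h7 : (TT n (l + 1) : ℤ) = TT n l + n l := by exact_mod_cast SymSeq_succ n l
      rcases hi with hi | hi
      · rcases SymSeq_tri n hl hl' 0 z' with ⟨rfl, rfl⟩ | h | h
        · omega
        · omega
        · omega
      · rcases SymSeq_tri n hl'' hl' z'' z' with ⟨rfl, rfl⟩ | h | h
        · omega
        · omega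
        · omega

end PRH
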