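import Pool.Agent.PRH.LocFam2
import Pool.Agent.OmSt.Scale

/-!
# Families with several triggers (module FamJ)

HEADER. For `a : Fin J` apply `exists_localFam2` with `e a`, `c a`, `K₁ = C a`,
`K₂ = D ∪ ⋃ b ≠ a, C b` (compact, hence closed): `Ψ a`, `ρ a`, `W₁ a ⊇ C a`, `W₂ a ⊇ D ∪ ⋃ b ≠ a, C b`.
Let `pr a : (Fin J → V) →L V` be the projection (`ContinuousLinearMap.proj a`), `V = E × (E →L[ℝ] E)`, and
`Ψ'_a = (Ψ a).reparam (pr a)` (`Fam.reparam_apply`: `Ψ'_a.toFun v x = (Ψ a).toFun (v a) x`).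
By induction on a finset `s` of `Fin J` (`Finset.induction_on`) there is `Φ_s : Fam F X (Fin J → V)` with
`Φ_s v (Θ.symm (p, q)) = Θ.symm (p, q)` whenever `q ∈ ⋂ a ∈ s, W₂ a`, and, for `b ∈ s`, near `v = 0`, the
affine formula with parameter `v b` for `q ∈ W₁ b ∩ ⋂ a ∈ s \ {b}, W₂ a`: `Φ_{insert a s} = Ψ'_a ∘ Φ_s`
(`Fam.comp`; `Fam.comp_apply`). For `s = ∅` take the constant family of identity maps
(`Diffeomorph.refl`); a convenient choice: `Fam.reparam` of any family with the zero map, or a direct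
construction: `⟨fun _ => Diffeomorph.refl _ _ _, ..⟩`, smoothness `contMDiffAt_snd`.
Finally `s = univ`, `W a = W₁ a ∩ ⋂ b ≠ a, W₂ b ⊇ C a`, `WD = ⋂ a, W₂ a ⊇ D`, `ρ = min over a of ρ a` (and `1`).
-/

open Set Filter Topology Manifold ContDiff Metric
open scoped NNReal

namespace PRH

open OmSt

variable {E : Type*} [NormedAddCommGroup E] [NormedSpace ℝ E] [FiniteDimensional ℝ E]
  {E' : Type*} [NormedAddCommGroup E'] [NormedSpace ℝ E'] [FiniteDimensional ℝ E']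
  {F : Type*} [NormedAddCommGroup F] [NormedSpace ℝ F]
  {M : Type*} [TopologicalSpace M] [ChartedSpace E M] [IsManifold 𝓘(ℝ, E) ∞ M]
  {N : Type*} [TopologicalSpace N] [T2Space N] [ChartedSpace E' N] [IsManifold 𝓘(ℝ, E') ∞ N]
  {X : Type*} [TopologicalSpace X] [T2Space X] [ChartedSpace F X] [IsManifold 𝓘(ℝ, F) ∞ X]

omit [FiniteDimensional ℝ E] [FiniteDimensional ℝ E'] [IsManifold 𝓘(ℝ, E) ∞ M] [T2Space N]
  [IsManifold 𝓘(ℝ, E') ∞ N] [T2Space X] [IsManifold 𝓘(ℝ, F) ∞ X] in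
theorem FamJ_comp (Θ : Diffeomorph 𝓘(ℝ, F) (𝓘(ℝ, E).prod 𝓘(ℝ, E')) X (M × N) ∞) {J : ℕ}
    (Ψ : Fin J → Fam F X (E × (E →L[ℝ] E))) (W₂ : Fin J → Set N)
    (hfix : ∀ a, ∀ v, ∀ p : M, ∀ q ∈ W₂ a, (Ψ a).toFun v (Θ.symm (p, q)) = Θ.symm (p, q))
    (s : Finset (Fin J)) :
    ∃ Φ : Fam F X (Fin J → E × (E →L[ℝ] E)),
      (∀ v, ∀ p : M, ∀ q : N, (∀ a ∈ s, q ∈ W₂ a) →
        Φ.toFun v (Θ.symm (p, q)) = Θ.symm (p, q)) ∧
      (∀ b ∈ s, ∀ v, ∀ p p' : M, ∀ q : N, (∀ a ∈ s, a ≠ b → q ∈ W₂ a) →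
        (Ψ b).toFun (v b) (Θ.symm (p, q)) = Θ.symm (p', q) →
        Φ.toFun v (Θ.symm (p, q)) = Θ.symm (p', q)) := by
  classical
  induction s using Finset.induction_on with
  | empty =>
    refine ⟨⟨fun _ => Diffeomorph.refl 𝓘(ℝ, F) X ∞, fun x => rfl, ?_⟩, ?_, ?_⟩
    · exact Eventually.of_forall fun v x => contMDiffAt_snd
    · intro v p q _
      rfl
    · intro b hb
      exact absurd hb (Finset.notMem_empty b)
  | insert a s ha ih =>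
    obtain ⟨Φ, h1, h2⟩ := ih
    let L : (Fin J → E × (E →L[ℝ] E)) →L[ℝ] E × (E →L[ℝ] E) :=
      ContinuousLinearMap.proj (R := ℝ) (φ := fun _ : Fin J => E × (E →L[ℝ] E)) a
    refine ⟨((Ψ a).reparam L).comp Φ, ?_, ?_⟩
    · intro v p q hq
      rw [Fam.comp_apply, h1 v p q (fun c hc => hq c (Finset.mem_insert_of_mem hc)),
        Fam.reparam_apply]
      exact hfix a _ p q (hq a (Finset.mem_insert_self a s))
    · intro b hb v p p' q hq hpp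
      rw [Fam.comp_apply, Fam.reparam_apply]
      rcases Finset.mem_insert.1 hb with rfl | hbs
      · rw [h1 v p q (fun c hc => hq c (Finset.mem_insert_of_mem hc) (by
          rintro rfl
          exact ha hc))]
        exact hpp
      · rw [h2 b hbs v p p' q (fun c hc hcb => hq c (Finset.mem_insert_of_mem hc) hcb) hpp]
        exact hfix a _ p' q (hq a (Finset.mem_insert_self a s) (by
          rintro rfl
          exact ha hbs))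

theorem exists_famJ (Θ : Diffeomorph 𝓘(ℝ, F) (𝓘(ℝ, E).prod 𝓘(ℝ, E')) X (M × N) ∞)
    (ι : F ≃L[ℝ] E × E') {J : ℕ} {e : Fin J → OpenPartialHomeomorph M E}
    (he : ∀ a, e a ∈ IsManifold.maximalAtlas 𝓘(ℝ, E) ∞ M) {c : Fin J → E}
    (hc : ∀ a, c a ∈ (e a).target) {q : N} {C : Fin J → Set N} {D : Set N}
    (hC : ∀ a, IsCompact (C a)) (hD : IsCompact D) (hCC : ∀ a b, a ≠ b → Disjoint (C a) (C b))
    (hCD : ∀ a, Disjoint (C a) D) (hCs : ∀ a, C a ⊆ (chartAt E' q).source) :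
    ∃ (Ψ : Fam F X (Fin J → E × (E →L[ℝ] E))) (ρ : ℝ) (W : Fin J → Set N) (WD : Set N), 0 < ρ ∧
      (∀ a, closedBall (c a) ρ ⊆ (e a).target) ∧ (∀ a, IsOpen (W a)) ∧ IsOpen WD ∧
      (∀ a, C a ⊆ W a) ∧ D ⊆ WD ∧
      (∀ v, ∀ p : M, ∀ q ∈ WD, Ψ.toFun v (Θ.symm (p, q)) = Θ.symm (p, q)) ∧
      ∀ᶠ v in 𝓝 (0 : Fin J → E × (E →L[ℝ] E)), ∀ a, ∀ y ∈ closedBall (c a) ρ,
        y + ((v a).1 + (v a).2 (y - c a)) ∈ (e a).target ∧ ∀ q ∈ W a,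
        Ψ.toFun v (Θ.symm ((e a).symm y, q)) =
          Θ.symm ((e a).symm (y + ((v a).1 + (v a).2 (y - c a))), q) := by
  classical
  have hloc : ∀ a : Fin J, ∃ (Ψ : Fam F X (E × (E →L[ℝ] E))) (ρ : ℝ) (W₁ W₂ : Set N), 0 < ρ ∧
      closedBall (c a) ρ ⊆ (e a).target ∧ IsOpen W₁ ∧ IsOpen W₂ ∧ C a ⊆ W₁ ∧
      (D ∪ ⋃ b : {b : Fin J // b ≠ a}, C b.1) ⊆ W₂ ∧
      (∀ v, ∀ p : M, ∀ q ∈ W₂, Ψ.toFun v (Θ.symm (p, q)) = Θ.symm (p, q)) ∧
      ∀ᶠ v in 𝓝 (0 : E × (E →L[ℝ] E)), ∀ y ∈ closedBall (c a) ρ,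
        y + (v.1 + v.2 (y - c a)) ∈ (e a).target ∧ ∀ q ∈ W₁,
        Ψ.toFun v (Θ.symm ((e a).symm y, q)) =
          Θ.symm ((e a).symm (y + (v.1 + v.2 (y - c a))), q) := by
    intro a
    refine exists_localFam2 Θ ι (he a) (hc a) (q := q) (hC a) ?_ ?_ (hCs a)
    · exact hD.isClosed.union (isClosed_iUnion_of_finite fun b => (hC b.1).isClosed)
    · rw [Set.disjoint_union_right]
      refine ⟨hCD a, ?_⟩
      rw [Set.disjoint_iUnion_right]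
      intro b
      exact hCC a b.1 b.2.symm
  choose Ψ ρ W₁ W₂ hρ hball hW₁ hW₂ hCW₁ hKW₂ hfix hev using hloc
  obtain ⟨Φ, hΦ1, hΦ2⟩ := FamJ_comp Θ Ψ W₂ hfix Finset.univ
  obtain ⟨ρ₀, hρ₀, hρa⟩ : ∃ ρ₀ : ℝ, 0 < ρ₀ ∧ ∀ a, ρ₀ ≤ ρ a := by
    rcases isEmpty_or_nonempty (Fin J) with hJ | hJ
    · exact ⟨1, one_pos, fun a => (hJ.false a).elim⟩
    · obtain ⟨a₀, ha₀⟩ := Finite.exists_min ρ
      exact ⟨ρ a₀, hρ a₀, ha₀⟩
  refine ⟨Φ, ρ₀, fun a => W₁ a ∩ ⋂ b : {b : Fin J // b ≠ a}, W₂ b.1, ⋂ a, W₂ a, hρ₀,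
    fun a => (closedBall_subset_closedBall (hρa a)).trans (hball a), ?_, ?_, ?_, ?_, ?_, ?_⟩
  · intro a
    exact (hW₁ a).inter (isOpen_iInter_of_finite fun b => hW₂ b.1)
  · exact isOpen_iInter_of_finite fun a => hW₂ a
  · intro a x hx
    refine ⟨hCW₁ a hx, ?_⟩
    rw [Set.mem_iInter]
    intro b
    apply hKW₂ b.1
    right
    rw [Set.mem_iUnion]
    exact ⟨⟨a, b.2.symm⟩, hx⟩
  · intro x hx
    rw [Set.mem_iInter]
    intro a
    exact hKW₂ a (Or.inl hx)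
  · intro v p q hq
    rw [Set.mem_iInter] at hq
    exact hΦ1 v p q fun a _ => hq a
  · rw [Filter.eventually_all]
    intro a
    have hpr : Tendsto (fun v : Fin J → E × (E →L[ℝ] E) => v a) (𝓝 0) (𝓝 0) := by
      have := (continuous_apply (A := fun _ : Fin J => E × (E →L[ℝ] E)) a).tendsto 0
      exact this
    filter_upwards [hpr.eventually (hev a)] with v hv y hy
    obtain ⟨h1, h2⟩ := hv y (closedBall_subset_closedBall (hρa a) hy)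
    refine ⟨h1, ?_⟩
    rintro q ⟨hq1, hq2⟩
    rw [Set.mem_iInter] at hq2
    exact hΦ2 a (Finset.mem_univ a) v _ _ q (fun b _ hb => hq2 ⟨b, hb⟩) (h2 q hq1)

end PRH
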