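import Pool.Agent.PRH.PDef

/-!
# The derivative of a composition in charts (module ChainDeriv)

HEADER. Induction on `K`. Let `H_K = comps h K`. `H_K (P 0) = P K`, `H_K` is continuous at `P 0`, and
`HasFDerivAt (fun u => ch K (H_K ((ch 0).symm u))) (prods Dv K) (ch 0 (P 0))`.
`K = 0`: near `ch 0 (P 0)` (in the target of `ch 0`) the map is `ch 0 ((ch 0).symm u) = u`: `HasFDerivAt id`
with `1`. Step: near `u₀ = ch 0 (P 0)`: `H_K ((ch 0).symm u) ∈ (ch K).source` by continuity, so
`ch (K+1) (h K (H_K ((ch 0).symm u))) = (fun w => ch (K+1) (h K ((ch K).symm w))) (ch K (H_K ((ch 0).symm u)))`,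
and the chain rule applies at `ch K (H_K (P 0)) = ch K (P K)`.
-/

open Set Filter Topology

namespace PRH

theorem ChainDeriv_pt {M : Type*} {h : ℕ → M → M} {P : ℕ → M} {K : ℕ}
    (hh : ∀ j < K, h j (P j) = P (j + 1)) : comps h K (P 0) = P K := by
  induction K with
  | zero => rfl
  | succ K ih =>
    show h K (comps h K (P 0)) = P (K + 1)
    rw [ih fun j hj => hh j (Nat.lt_succ_of_lt hj)]
    exact hh K (Nat.lt_succ_self K)

theorem ChainDeriv_cont {M : Type*} [TopologicalSpace M] {h : ℕ → M → M} {P : ℕ → M} {K : ℕ}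
    (hh : ∀ j < K, h j (P j) = P (j + 1)) (hc : ∀ j < K, ContinuousAt (h j) (P j)) :
    ContinuousAt (comps h K) (P 0) := by
  induction K with
  | zero => exact continuousAt_id
  | succ K ih =>
    have h1 := ih (fun j hj => hh j (Nat.lt_succ_of_lt hj)) fun j hj => hc j (Nat.lt_succ_of_lt hj)
    have h2 : comps h K (P 0) = P K := ChainDeriv_pt fun j hj => hh j (Nat.lt_succ_of_lt hj)
    have h3 : ContinuousAt (h K) (comps h K (P 0)) := by
      rw [h2]
      exact hc K (Nat.lt_succ_self K)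
    exact ContinuousAt.comp h3 h1

theorem chain_deriv {E : Type*} [NormedAddCommGroup E] [NormedSpace ℝ E] {M : Type*}
    [TopologicalSpace M] {h : ℕ → M → M} {P : ℕ → M} {ch : ℕ → OpenPartialHomeomorph M E}
    {Dv : ℕ → E →L[ℝ] E} {K : ℕ} (hs : ∀ j ≤ K, P j ∈ (ch j).source)
    (hh : ∀ j < K, h j (P j) = P (j + 1)) (hc : ∀ j < K, ContinuousAt (h j) (P j))
    (hd : ∀ j < K, HasFDerivAt (fun u => ch (j + 1) (h j ((ch j).symm u))) (Dv j) (ch j (P j))) :
    HasFDerivAt (fun u => ch K (comps h K ((ch 0).symm u))) (prods Dv K) (ch 0 (P 0)) := by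
  induction K with
  | zero =>
    have h0 : P 0 ∈ (ch 0).source := hs 0 le_rfl
    have h1 : HasFDerivAt (fun u : E => u) (1 : E →L[ℝ] E) (ch 0 (P 0)) := hasFDerivAt_id _
    refine h1.congr_of_eventuallyEq ?_
    filter_upwards [(ch 0).open_target.mem_nhds ((ch 0).map_source h0)] with u hu
    exact (ch 0).right_inv hu
  | succ K ih =>
    have hh' : ∀ j < K, h j (P j) = P (j + 1) := fun j hj => hh j (Nat.lt_succ_of_lt hj)
    have hc' : ∀ j < K, ContinuousAt (h j) (P j) := fun j hj => hc j (Nat.lt_succ_of_lt hj)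
    have h1 := ih (fun j hj => hs j (Nat.le_succ_of_le hj)) hh' hc'
      fun j hj => hd j (Nat.lt_succ_of_lt hj)
    have hP : comps h K (P 0) = P K := ChainDeriv_pt hh'
    have hC : ContinuousAt (comps h K) (P 0) := ChainDeriv_cont hh' hc'
    have h0 : P 0 ∈ (ch 0).source := hs 0 (Nat.zero_le _)
    have hK : P K ∈ (ch K).source := hs K (Nat.le_succ K)
    have hl : (ch 0).symm (ch 0 (P 0)) = P 0 := (ch 0).left_inv h0
    have h2 : HasFDerivAt (fun u => ch (K + 1) (h K ((ch K).symm u))) (Dv K)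
        (ch K (comps h K ((ch 0).symm (ch 0 (P 0))))) := by
      rw [hl, hP]
      exact hd K (Nat.lt_succ_self K)
    have h3 := HasFDerivAt.comp (ch 0 (P 0)) h2 h1
    have h4 : ContinuousAt (fun u => comps h K ((ch 0).symm u)) (ch 0 (P 0)) := by
      have h5 : ContinuousAt (ch 0).symm (ch 0 (P 0)) :=
        (ch 0).continuousAt_symm ((ch 0).map_source h0)
      have h6 : ContinuousAt (comps h K) ((ch 0).symm (ch 0 (P 0))) := by
        rw [hl]
        exact hC
      exact ContinuousAt.comp h6 h5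
    have h7 : ∀ᶠ u in 𝓝 (ch 0 (P 0)), comps h K ((ch 0).symm u) ∈ (ch K).source := by
      refine h4.eventually_mem ((ch K).open_source.mem_nhds ?_)
      rw [hl, hP]
      exact hK
    refine h3.congr_of_eventuallyEq ?_
    filter_upwards [h7] with u hu
    show ch (K + 1) (h K (comps h K ((ch 0).symm u))) =
      ch (K + 1) (h K ((ch K).symm (ch K (comps h K ((ch 0).symm u)))))
    rw [(ch K).left_inv hu]

end PRH
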