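import Pool.Agent.PRH.PDef

/-!
# Product charts (module PChart)

HEADER. The formulas follow from `simp [pchart]` (`mem_univ`, `Set.ext`).
Membership in the maximal atlas: by `mem_maximalAtlas_iff` (or `IsManifold.mem_maximalAtlas_iff`) we
have to show, for every chart `φ` of the atlas of `X`, that `(pchart ..).symm.trans φ` and
`φ.symm.trans (pchart ..)` are in `contDiffGroupoid ∞ 𝓘(ℝ, F)`, i.e. that these maps and their inverses are
`C^∞` on their sources (`mem_groupoid_of_pregroupoid`, `contDiffPregroupoid`; with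
`𝓘(ℝ, F) = id` the conditions are `ContDiffOn ℝ ∞ ...`; see the proofs in
`Mathlib/Geometry/Manifold/ContMDiff/Atlas.lean` near `mem_groupoid`). All the maps are compositions of
`ContMDiffOn` maps: `φ`, `φ.symm` (`contMDiffOn_of_mem_maximalAtlas`), `Θ`, `Θ.symm`
(`Diffeomorph.contMDiff`), `e`, `e.symm`, `e'`, `e'.symm` and the linear maps `ι`, `ι.symm`.
Convenient: first show `ContMDiffOn 𝓘(ℝ, F) 𝓘(ℝ, F) ∞ (pchart ..) (pchart ..).source` and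
`ContMDiffOn 𝓘(ℝ, F) 𝓘(ℝ, F) ∞ (pchart ..).symm (pchart ..).target` (compose; use
`ContMDiffOn.prodMap`/`prodMk`, `modelWithCornersSelf_prod`, `chartedSpaceSelf_prod` to pass between
`𝓘(ℝ, E × E')` and `𝓘(ℝ, E).prod 𝓘(ℝ, E')`), then `contMDiffOn_iff_contDiffOn` for the compositions with `φ`.
-/

open Set Filter Topology Manifold ContDiff Metric

namespace PRH

variable {E : Type*} [NormedAddCommGroup E] [NormedSpace ℝ E]
  {E' : Type*} [NormedAddCommGroup E'] [NormedSpace ℝ E']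
  {F : Type*} [NormedAddCommGroup F] [NormedSpace ℝ F]
  {M : Type*} [TopologicalSpace M] [ChartedSpace E M]
  {N : Type*} [TopologicalSpace N] [ChartedSpace E' N]
  {X : Type*} [TopologicalSpace X] [ChartedSpace F X]
  (Θ : Diffeomorph 𝓘(ℝ, F) (𝓘(ℝ, E).prod 𝓘(ℝ, E')) X (M × N) ∞)
  (ι : F ≃L[ℝ] E × E') (e : OpenPartialHomeomorph M E) (e' : OpenPartialHomeomorph N E')

theorem pchart_apply (x : X) : pchart Θ ι e e' x = ι.symm (e (Θ x).1, e' (Θ x).2) := rfl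

theorem pchart_symm_apply (u : F) :
    (pchart Θ ι e e').symm u = Θ.symm (e.symm (ι u).1, e'.symm (ι u).2) := rfl

theorem mem_pchart_source (x : X) :
    x ∈ (pchart Θ ι e e').source ↔ (Θ x).1 ∈ e.source ∧ (Θ x).2 ∈ e'.source := by
  simp [pchart]

theorem mem_pchart_target (u : F) :
    u ∈ (pchart Θ ι e e').target ↔ (ι u).1 ∈ e.target ∧ (ι u).2 ∈ e'.target := by
  simp [pchart]

variable {e e'} in
theorem contMDiffOn_pchart [IsManifold 𝓘(ℝ, E) ∞ M] [IsManifold 𝓘(ℝ, E') ∞ N]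
    (he : e ∈ IsManifold.maximalAtlas 𝓘(ℝ, E) ∞ M)
    (he' : e' ∈ IsManifold.maximalAtlas 𝓘(ℝ, E') ∞ N) :
    ContMDiffOn 𝓘(ℝ, F) 𝓘(ℝ, F) ∞ (pchart Θ ι e e') (pchart Θ ι e e').source := by
  have h1 : ContMDiffOn 𝓘(ℝ, F) 𝓘(ℝ, E) ∞ (fun x => e (Θ x).1) (pchart Θ ι e e').source :=
    (contMDiffOn_of_mem_maximalAtlas he).comp
      (contMDiff_fst.comp Θ.contMDiff).contMDiffOn
      (fun x hx => ((mem_pchart_source Θ ι e e' x).1 hx).1)
  have h2 : ContMDiffOn 𝓘(ℝ, F) 𝓘(ℝ, E') ∞ (fun x => e' (Θ x).2) (pchart Θ ι e e').source :=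
    (contMDiffOn_of_mem_maximalAtlas he').comp
      (contMDiff_snd.comp Θ.contMDiff).contMDiffOn
      (fun x hx => ((mem_pchart_source Θ ι e e' x).1 hx).2)
  have h3 : ContMDiffOn 𝓘(ℝ, F) 𝓘(ℝ, E × E') ∞ (fun x => (e (Θ x).1, e' (Θ x).2))
      (pchart Θ ι e e').source := h1.prodMk_space h2
  have h4 : ContMDiff 𝓘(ℝ, E × E') 𝓘(ℝ, F) ∞ ι.symm := ι.symm.contDiff.contMDiff
  exact h4.comp_contMDiffOn h3

variable {e e'} in
theorem contMDiffOn_pchart_symm [IsManifold 𝓘(ℝ, E) ∞ M] [IsManifold 𝓘(ℝ, E') ∞ N]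
    (he : e ∈ IsManifold.maximalAtlas 𝓘(ℝ, E) ∞ M)
    (he' : e' ∈ IsManifold.maximalAtlas 𝓘(ℝ, E') ∞ N) :
    ContMDiffOn 𝓘(ℝ, F) 𝓘(ℝ, F) ∞ (pchart Θ ι e e').symm (pchart Θ ι e e').target := by
  have h0 : ContMDiff 𝓘(ℝ, F) 𝓘(ℝ, E × E') ∞ ι := ι.contDiff.contMDiff
  have h1 : ContMDiffOn 𝓘(ℝ, F) 𝓘(ℝ, E) ∞ (fun u => e.symm (ι u).1) (pchart Θ ι e e').target :=
    (contMDiffOn_symm_of_mem_maximalAtlas he).comp
      ((ContinuousLinearMap.fst ℝ E E').contDiff.contMDiff.comp h0).contMDiffOn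
      (fun x hx => ((mem_pchart_target Θ ι e e' x).1 hx).1)
  have h2 : ContMDiffOn 𝓘(ℝ, F) 𝓘(ℝ, E') ∞ (fun u => e'.symm (ι u).2) (pchart Θ ι e e').target :=
    (contMDiffOn_symm_of_mem_maximalAtlas he').comp
      ((ContinuousLinearMap.snd ℝ E E').contDiff.contMDiff.comp h0).contMDiffOn
      (fun x hx => ((mem_pchart_target Θ ι e e' x).1 hx).2)
  exact Θ.symm.contMDiff.comp_contMDiffOn (h1.prodMk h2)

variable {e e'} in
theorem pchart_mem_maximalAtlas [IsManifold 𝓘(ℝ, E) ∞ M] [IsManifold 𝓘(ℝ, E') ∞ N]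
    [IsManifold 𝓘(ℝ, F) ∞ X] (he : e ∈ IsManifold.maximalAtlas 𝓘(ℝ, E) ∞ M)
    (he' : e' ∈ IsManifold.maximalAtlas 𝓘(ℝ, E') ∞ N) :
    pchart Θ ι e e' ∈ IsManifold.maximalAtlas 𝓘(ℝ, F) ∞ X := by
  exact (IsManifold.mem_maximalAtlas_iff_contMDiffOn _).2
    ⟨contMDiffOn_pchart Θ ι he he', contMDiffOn_pchart_symm Θ ι he he'⟩

end PRH
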