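import Pool.Agent.PRH.AffT2
import Pool.Agent.PRH.PChart

/-!
# Local families on the product (module LocFam2)

HEADER. Compare `OmSt.exists_localFam` (Pool/Agent/OmSt/Fam.lean), whose proof is the model.

1. The function `χ : E' → ℝ`. Let `e' = chartAt E' q`, `K₁ ⊆ e'.source` compact, `K₂` closed, disjoint from
`K₁`. `K₁' = e' '' K₁` is compact in the open set `O = e'.target ∩ e'.symm ⁻¹' K₂ᶜ`. Choose open sets with
compact closures `K₁' ⊆ G₁`, `closure G₁ ⊆ G₂`, `closure G₂ ⊆ O` (`exists_compact_between` twice) and a smooth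
`χ : E' → [0,1]` with `χ = 1` on `closure G₁` and `tsupport χ ⊆ closure G₂`... (`exists_contDiff_...`, e.g.
`exists_contMDiffMap_zero_one_of_isClosed`/`exists_smooth_tsupport_subset`/
`exists_contDiff_tsupport_subset`; or `exists_msmooth...`: any smooth Urysohn function of two disjoint
closed sets of `E'`, one of which (`G₂ᶜ`) has relatively compact complement). So
`tsupport χ ⊆ O` is compact.
`W₁ = e'.source ∩ e' ⁻¹' G₁` is open and contains `K₁`; `χ (e' q) = 1` for `q ∈ W₁`.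
`W₂ = (e'.symm '' tsupport χ)ᶜ` is open (`e'.symm '' tsupport χ` is compact, hence closed in the Hausdorff
space `N`) and contains `K₂`; for `q ∈ W₂ ∩ e'.source` we have `e' q ∉ tsupport χ`, `χ (e' q) = 0`.

2. Choose `R > 0` with `closedBall c R ⊆ e.target`. `exists_affT2` gives `T`, `δ`. The compact set
`K = ι.symm '' (closedBall c R ×ˢ tsupport χ)` is contained in the target of `κ = pchart Θ ι e e'`
(`mem_pchart_target`). For `‖v‖ < δ`, `exists_glue_diffeo` (chart `κ ∈ maximalAtlas`) gives the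
diffeomorphism `glue κ (T v)` of `X`; otherwise take the identity. Joint smoothness near `v = 0`:
`glue_contMDiffAt`, exactly as in `exists_localFam`.

3. Formulas: let `x = Θ.symm (p, q)`. If `q ∈ W₂`: either `x ∉ κ.source`: then `glue κ (T v) x = x`
(`glue_of_not_mem`); or `x ∈ κ.source` and `T v (κ x) = κ x` as `χ (ι (κ x)).2 = χ (e' q) = 0`, so
`glue κ (T v) x = κ.symm (κ x) = x`.
If `p = e.symm y`, `y ∈ closedBall c (R/2)`, `q ∈ W₁`: `x ∈ κ.source`, `κ x = ι.symm (y, e' q)`,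
`T v (κ x) = ι.symm (y + (v.1 + v.2 (y - c)), e' q)`, and
`glue κ (T v) x = κ.symm (..) = Θ.symm (e.symm (y + ...), e'.symm (e' q)) = Θ.symm (e.symm (y + ..), q)`.
`y + (v.1 + v.2 (y - c)) ∈ e.target` for small `v`: the homeomorphism `τ` maps `K` into itself
(`mapsTo_of_eq_self`), so `κ.target` into itself; with `ρ = R / 2`.
-/

open Set Filter Topology Manifold ContDiff Metric
open scoped NNReal

namespace PRH

open OmSt

variable {E : Type*} [NormedAddCommGroup E] [NormedSpace ℝ E] [FiniteDimensional ℝ E]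
  {E' : Type*} [NormedAddCommGroup E'] [NormedSpace ℝ E'] [FiniteDimensional ℝ E']
  {F : Type*} [NormedAddCommGroup F] [NormedSpace ℝ F]
  {M : Type*} [TopologicalSpace M] [ChartedSpace E M] [IsManifold 𝓘(ℝ, E) ∞ M]
  {N : Type*} [TopologicalSpace N] [T2Space N] [ChartedSpace E' N] [IsManifold 𝓘(ℝ, E') ∞ N]
  {X : Type*} [TopologicalSpace X] [T2Space X] [ChartedSpace F X] [IsManifold 𝓘(ℝ, F) ∞ X]

theorem locFam2_chi {O K : Set E'} (hO : IsOpen O) (hK : IsCompact K) (hKO : K ⊆ O) :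
    ∃ (χ : E' → ℝ) (G : Set E'), ContDiff ℝ ∞ χ ∧ HasCompactSupport χ ∧ tsupport χ ⊆ O ∧
      IsOpen G ∧ K ⊆ G ∧ ∀ η ∈ G, χ η = 1 := by
  obtain ⟨L, hL, hKL, hLO⟩ := exists_compact_between hK hO hKO
  obtain ⟨f, hf1, hf2, -⟩ := exists_contMDiffMap_one_nhds_of_subset_interior (n := (⊤ : ℕ∞))
    𝓘(ℝ, E') hK.isClosed hKL
  have hsupp : Function.support f ⊆ L := by
    intro x hx
    by_contra hc
    exact hx (hf2 x hc)
  have hts : tsupport f ⊆ L := closure_minimal hsupp hL.isClosed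
  obtain ⟨G, hG, hKG, hG1⟩ := eventually_nhdsSet_iff_exists.1 hf1
  exact ⟨f, G, f.contMDiff.contDiff, hL.of_isClosed_subset (isClosed_tsupport _) hts,
    hts.trans hLO, hG, hKG, fun η hη => hG1 η hη⟩

theorem exists_localFam2 (Θ : Diffeomorph 𝓘(ℝ, F) (𝓘(ℝ, E).prod 𝓘(ℝ, E')) X (M × N) ∞)
    (ι : F ≃L[ℝ] E × E') {e : OpenPartialHomeomorph M E}
    (he : e ∈ IsManifold.maximalAtlas 𝓘(ℝ, E) ∞ M) {c : E} (hc : c ∈ e.target) {q : N}
    {K₁ K₂ : Set N} (hK₁ : IsCompact K₁) (hK₂ : IsClosed K₂) (hK : Disjoint K₁ K₂)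
    (hKs : K₁ ⊆ (chartAt E' q).source) :
    ∃ (Ψ : Fam F X (E × (E →L[ℝ] E))) (ρ : ℝ) (W₁ W₂ : Set N), 0 < ρ ∧
      closedBall c ρ ⊆ e.target ∧ IsOpen W₁ ∧ IsOpen W₂ ∧ K₁ ⊆ W₁ ∧ K₂ ⊆ W₂ ∧
      (∀ v, ∀ p : M, ∀ q ∈ W₂, Ψ.toFun v (Θ.symm (p, q)) = Θ.symm (p, q)) ∧
      ∀ᶠ v in 𝓝 (0 : E × (E →L[ℝ] E)), ∀ y ∈ closedBall c ρ, 
        y + (v.1 + v.2 (y - c)) ∈ e.target ∧ ∀ q ∈ W₁,
        Ψ.toFun v (Θ.symm (e.symm y, q)) = Θ.symm (e.symm (y + (v.1 + v.2 (y - c))), q) := by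
  classical
  set e' := chartAt E' q with he'
  have hO : IsOpen (e'.target ∩ e'.symm ⁻¹' K₂ᶜ) := e'.isOpen_inter_preimage_symm hK₂.isOpen_compl
  have hK1c : IsCompact (e' '' K₁) := hK₁.image_of_continuousOn (e'.continuousOn.mono hKs)
  have hK1O : e' '' K₁ ⊆ e'.target ∩ e'.symm ⁻¹' K₂ᶜ := by
    rintro _ ⟨k, hk, rfl⟩
    refine ⟨e'.map_source (hKs hk), ?_⟩
    change e'.symm (e' k) ∉ K₂
    rw [e'.left_inv (hKs hk)]
    exact fun h => Set.disjoint_left.1 hK hk h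
  obtain ⟨χ, G, hχ, hχc, hχO, hG, hKG, hG1⟩ := locFam2_chi hO hK1c hK1O
  have hχt : tsupport χ ⊆ e'.target := fun η hη => (hχO hη).1
  -- the radius
  obtain ⟨R, hR, hRs⟩ := nhds_basis_closedBall.mem_iff.1 (e.open_target.mem_nhds hc)
  obtain ⟨T, δ, hδ0, hTs, hTid, hTχ, hT0, hTin, hex⟩ := exists_affT2 ι c hR hχ hχc
  set K : Set F := ι.symm '' (closedBall c R ×ˢ tsupport χ) with hKdef
  have hKc : IsCompact K := ((isCompact_closedBall c R).prod hχc).image ι.symm.continuous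
  set κ := pchart Θ ι e e' with hκ
  have hκm : κ ∈ IsManifold.maximalAtlas 𝓘(ℝ, F) ∞ X :=
    pchart_mem_maximalAtlas Θ ι he (IsManifold.chart_mem_maximalAtlas q)
  have hKt : K ⊆ κ.target := by
    rintro _ ⟨⟨y, η⟩, ⟨hy, hη⟩, rfl⟩
    rw [hκ, mem_pchart_target, ι.apply_symm_apply]
    exact ⟨hRs hy, hχt hη⟩
  have hex2 : ∀ v : E × (E →L[ℝ] E), ∃ ψ : Diffeomorph 𝓘(ℝ, F) 𝓘(ℝ, F) X X ∞,
      (‖v‖ < δ → ∀ x, ψ x = glue κ (T v) x) ∧ (¬ ‖v‖ < δ → ∀ x, ψ x = x) := by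
    intro v
    by_cases hv : ‖v‖ < δ
    · obtain ⟨τ, hτ, h2, h3⟩ := hex v hv
      obtain ⟨ψ, hψ⟩ := exists_glue_diffeo hκm hKc hKt h2 h3 (fun y hy => by
        rw [hτ]; exact hTid v y hy)
      refine ⟨ψ, fun _ x => ?_, fun h => absurd hv h⟩
      rw [hψ]
      have : (τ : F → F) = T v := funext hτ
      rw [this]
    · exact ⟨Diffeomorph.refl _ _ _, fun h => absurd h hv, fun _ x => rfl⟩
  choose Ψ hΨ1 hΨ2 using hex2
  have hev : ∀ᶠ v in 𝓝 (0 : E × (E →L[ℝ] E)), ‖v‖ < δ := by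
    filter_upwards [ball_mem_nhds (0 : E × (E →L[ℝ] E)) hδ0] with v hv
    simpa using hv
  have hδ1 : 0 < (R / 2) / (1 + R / 2) := by positivity
  have hev' : ∀ᶠ v in 𝓝 (0 : E × (E →L[ℝ] E)), ‖v‖ < (R / 2) / (1 + R / 2) := by
    filter_upwards [ball_mem_nhds (0 : E × (E →L[ℝ] E)) hδ1] with v hv
    simpa using hv
  have hTt : ∀ v : E × (E →L[ℝ] E), ‖v‖ < δ → ∀ y ∈ κ.target, T v y ∈ κ.target := by
    intro v hv y hy
    by_cases h : y ∈ K
    · obtain ⟨τ, hτ, -, -⟩ := hex v hv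
      have : MapsTo τ K K :=
        mapsTo_of_eq_self τ.injective (fun y hy => by rw [hτ]; exact hTid v y hy)
      have h2 := this h
      rw [hτ] at h2
      exact hKt h2
    · rwa [hTid v y h]
  refine ⟨⟨Ψ, ?_, ?_⟩, R / 2, e'.source ∩ e' ⁻¹' G, (e'.symm '' tsupport χ)ᶜ, by positivity,
    (closedBall_subset_closedBall (by linarith)).trans hRs, e'.isOpen_inter_preimage hG,
    (isClosed_image_symm e' hχc hχt).isOpen_compl, ?_, ?_, ?_, ?_⟩
  · intro x
    rw [hΨ1 0 (by simpa using hδ0) x]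
    by_cases hx : x ∈ κ.source
    · rw [glue_of_mem κ _ hx, hT0, κ.left_inv hx]
    · exact glue_of_not_mem κ _ hx
  · filter_upwards [hev] with v hv
    intro x
    have h2 := glue_contMDiffAt hκm hKc hKt (T := T) (v₀ := v)
      (Eventually.of_forall fun w => hTid w) (hTt v hv)
      (fun y => hTs.contDiffAt) x
    refine h2.congr_of_eventuallyEq ?_
    have h3 : ∀ᶠ p : (E × (E →L[ℝ] E)) × X in 𝓝 (v, x), ‖p.1‖ < δ :=
      (continuous_fst.norm.continuousAt (x := (v, x))).eventually (Iio_mem_nhds hv)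
    filter_upwards [h3] with p hp
    exact hΨ1 _ hp _
  · intro k hk
    exact ⟨hKs hk, hKG ⟨k, hk, rfl⟩⟩
  · rintro k hk ⟨η, hη, rfl⟩
    exact (hχO hη).2 hk
  · intro v p q' hq'
    by_cases hv : ‖v‖ < δ
    · change Ψ v (Θ.symm (p, q')) = Θ.symm (p, q')
      rw [hΨ1 v hv]
      by_cases hx : Θ.symm (p, q') ∈ κ.source
      · rw [glue_of_mem κ _ hx, hTχ v, κ.left_inv hx]
        rw [hκ, mem_pchart_source, Θ.apply_symm_apply] at hx
        rw [hκ, pchart_apply, ι.apply_symm_apply, Θ.apply_symm_apply]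
        refine image_eq_zero_of_notMem_tsupport fun h => hq' ⟨e' q', h, ?_⟩
        exact e'.left_inv hx.2
      · exact glue_of_not_mem κ _ hx
    · exact hΨ2 v hv _
  · filter_upwards [hev, hev'] with v hv hv'
    intro y hy
    have hyK : y ∈ closedBall c R := closedBall_subset_closedBall (by linarith) hy
    have hyt : y ∈ e.target := hRs hyK
    refine ⟨hRs ?_, ?_⟩
    · rw [mem_closedBall, dist_eq_norm] at hy ⊢
      have e1 : y + (v.1 + v.2 (y - c)) - c = (y - c) + (v.1 + v.2 (y - c)) := by abel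
      rw [e1]
      have h1 : ‖v.1‖ ≤ ‖v‖ := norm_fst_le v
      have h2 : ‖v.2‖ ≤ ‖v‖ := norm_snd_le v
      have h3 : ‖v.2 (y - c)‖ ≤ ‖v‖ * (R / 2) := by
        refine (v.2.le_opNorm _).trans ?_
        gcongr
      have h4 : ‖v‖ * (1 + R / 2) ≤ R / 2 := by
        rw [lt_div_iff₀ (by positivity)] at hv'
        exact hv'.le
      calc ‖(y - c) + (v.1 + v.2 (y - c))‖ ≤ ‖y - c‖ + (‖v.1‖ + ‖v.2 (y - c)‖) :=
            (norm_add_le _ _).trans (by gcongr; exact norm_add_le _ _)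
        _ ≤ R / 2 + (‖v‖ + ‖v‖ * (R / 2)) := by gcongr
        _ ≤ R := by linarith
    · rintro q' ⟨hq's, hq'G⟩
      change Ψ v (Θ.symm (e.symm y, q')) = _
      have hx : Θ.symm (e.symm y, q') ∈ κ.source := by
        rw [hκ, mem_pchart_source, Θ.apply_symm_apply]
        exact ⟨e.map_target hyt, hq's⟩
      have h1 : κ (Θ.symm (e.symm y, q')) = ι.symm (y, e' q') := by
        rw [hκ, pchart_apply, Θ.apply_symm_apply]
        change ι.symm (e (e.symm y), e' q') = _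
        rw [e.right_inv hyt]
      rw [hΨ1 v hv, glue_of_mem κ _ hx, h1, hTin v y hy (e' q') (hG1 _ hq'G), hκ,
        pchart_symm_apply, ι.apply_symm_apply]
      change Θ.symm (e.symm (y + (v.1 + v.2 (y - c))), e'.symm (e' q')) = _
      rw [e'.left_inv hq's]

end PRH
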