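import Pool.Agent.OmSt2.Final3

/-!
# Products: definitions
-/

open Set Filter Topology Manifold ContDiff Metric

namespace PRH

variable {E : Type*} [NormedAddCommGroup E] [NormedSpace ℝ E]
  {E' : Type*} [NormedAddCommGroup E'] [NormedSpace ℝ E']
  {F : Type*} [NormedAddCommGroup F] [NormedSpace ℝ F]
  {M : Type*} [TopologicalSpace M] [ChartedSpace E M]
  {N : Type*} [TopologicalSpace N] [ChartedSpace E' N]
  {X : Type*} [TopologicalSpace X] [ChartedSpace F X]

/-- Product charts of `X ≅ M × N`: `x ↦ ι⁻¹ (e p, e' q)`, `Θ x = (p, q)`. -/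
noncomputable def pchart (Θ : Diffeomorph 𝓘(ℝ, F) (𝓘(ℝ, E).prod 𝓘(ℝ, E')) X (M × N) ∞)
    (ι : F ≃L[ℝ] E × E') (e : OpenPartialHomeomorph M E) (e' : OpenPartialHomeomorph N E') :
    OpenPartialHomeomorph X F :=
  (Θ.toHomeomorph.toOpenPartialHomeomorph.trans (e.prod e')).trans
    ι.symm.toHomeomorph.toOpenPartialHomeomorph

/-- Compositions `h (j - 1) ∘ ⋯ ∘ h 0`. -/
def comps {M : Type*} (h : ℕ → M → M) : ℕ → M → M
  | 0 => id
  | (j + 1) => h j ∘ comps h j

/-- Products `D (j - 1) * ⋯ * D 0`. -/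
def prods {A : Type*} [Monoid A] (D : ℕ → A) : ℕ → A
  | 0 => 1
  | (j + 1) => D j * prods D j

end PRH
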