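import Pool.Agent.PRH.Bridge
import Pool.Agent.PRH.PDef
import Pool.Agent.PCE.DerivBound

/-!
# Bounded vectors of a product (module NBProd)

HEADER. Let `p₁ = fst ∘ Θ : X → M`, `p₂ = snd ∘ Θ : X → N` (smooth). `p₁ (f x) = g (p₁ x)`, hence
`p₁ (zi f i x) = zi g i (p₁ x)` for all `i : ℤ` (for negative `i` use the injectivity of `g`), and the chain rule
gives `D p₁ (f^i x) (Df^i v) = Dg^i (D p₁ v)`. By `exists_deriv_bound` (Pool/Agent/PCE/DerivBound.lean) there is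
a constant `C` with `rnorm (D p₁ v) ≤ C rnorm v`. So if `v` (at `z`) is bounded for `f`, `D p₁ v` (at `p₁ z`) is
bounded for `g`, hence `0`, and `D p₂ v = 0`. As `D Θ v = (D p₁ v, D p₂ v)` and `D Θ` is injective (`Θ` is a
diffeomorphism), `v = 0`. (`mfderiv` of `fst ∘ Θ`: `mfderiv_comp`, `mfderiv_fst`.)
`ω`: if `z ∈ ω_f(x)` then `p₁ z ∈ ω_g(p₁ x)` (continuity: `mem_omegaL_iff`, or
`MapClusterPt.continuousAt_comp`), `p₂ z ∈ ω_A(p₂ x)`.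
-/

open Set Filter Topology Manifold ContDiff Metric OmSt

namespace PRH

variable {E : Type*} [NormedAddCommGroup E] [NormedSpace ℝ E] [FiniteDimensional ℝ E]
  {E' : Type*} [NormedAddCommGroup E'] [NormedSpace ℝ E'] [FiniteDimensional ℝ E']
  {F : Type*} [NormedAddCommGroup F] [NormedSpace ℝ F] [FiniteDimensional ℝ F]
  {M : Type*} [MetricSpace M] [CompactSpace M] [ChartedSpace E M] [IsManifold 𝓘(ℝ, E) ∞ M]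
  {N : Type*} [MetricSpace N] [CompactSpace N] [ChartedSpace E' N] [IsManifold 𝓘(ℝ, E') ∞ N]
  {X : Type*} [MetricSpace X] [CompactSpace X] [ChartedSpace F X] [IsManifold 𝓘(ℝ, F) ∞ X]
  {r : ℕ∞}

omit [FiniteDimensional ℝ E] [FiniteDimensional ℝ F] [CompactSpace M] [IsManifold 𝓘(ℝ, E) ∞ M]
  [CompactSpace X] [IsManifold 𝓘(ℝ, F) ∞ X] in
theorem NBProd_zi {f : Dyn F X r} {g : Dyn E M r} {p : X → M} (hpf : ∀ x, p (f x) = g (p x))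
    (i : ℤ) (y : X) : p (zi f.toEquiv i y) = zi g.toEquiv i (p y) := by
  obtain ⟨n, rfl | rfl⟩ := Int.eq_nat_or_neg i
  · rw [zi_nat, zi_nat]
    have h1 : Function.Semiconj p f.toEquiv g.toEquiv := fun x => hpf x
    exact h1.iterate_right n y
  · rw [zi_neg, zi_neg]
    have h1 : Function.Semiconj p f.toEquiv.symm g.toEquiv.symm := by
      intro x
      apply g.toEquiv.injective
      have h2 : g.toEquiv (p (f.toEquiv.symm x)) = p (f.toEquiv (f.toEquiv.symm x)) :=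
        (hpf _).symm
      rw [h2, Equiv.apply_symm_apply, Equiv.apply_symm_apply]
    exact h1.iterate_right n y

theorem NBProd_factor (hr : 1 ≤ r) {f : Dyn F X r} {g : Dyn E M r} {p : X → M}
    (hp : ContMDiff 𝓘(ℝ, F) 𝓘(ℝ, E) 1 p) (hpf : ∀ x, p (f x) = g (p x))
    (γM : RMetric E M) (γX : RMetric F X) {x : X} (hg : (lcoc g hr γM).NB (omegaL g (p x)))
    {z : X} (hz : z ∈ omegaL f x) {v : F} {K : ℝ}
    (hv : ∀ i : ℤ, (lcoc f hr γX).nn z v i ≤ K) :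
    (mfderiv 𝓘(ℝ, F) 𝓘(ℝ, E) p z : F →L[ℝ] E) v = 0 := by
  obtain ⟨C, hC, hb⟩ := exists_deriv_bound (E := F) (E' := E) p hp γX γM
  refine hg (p z) ?_ _ (C * K) ?_
  · have h1 : MapClusterPt (p z) atTop (p ∘ fun n => f^[n] x) :=
      MapClusterPt.continuousAt_comp hp.continuous.continuousAt hz
    have h2 : (p ∘ fun n => f^[n] x) = fun n => g^[n] (p x) := by
      funext n
      have h3 : Function.Semiconj p f g := fun x => hpf x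
      exact h3.iterate_right n x
    rw [h2] at h1
    exact h1
  · intro i
    have hfun : (p ∘ zi f.toEquiv i) = (zi g.toEquiv i ∘ p) := by
      funext y
      exact NBProd_zi hpf i y
    have hpd : ∀ y, MDifferentiableAt 𝓘(ℝ, F) 𝓘(ℝ, E) p y := fun y =>
      (hp y).mdifferentiableAt one_ne_zero
    have hfd : ∀ y, MDifferentiableAt 𝓘(ℝ, F) 𝓘(ℝ, F) (zi f.toEquiv i) y := fun y =>
      (contMDiff_zi f hr i y).mdifferentiableAt one_ne_zero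
    have hgd : ∀ y, MDifferentiableAt 𝓘(ℝ, E) 𝓘(ℝ, E) (zi g.toEquiv i) y := fun y =>
      (contMDiff_zi g hr i y).mdifferentiableAt one_ne_zero
    have e1 : mfderiv 𝓘(ℝ, F) 𝓘(ℝ, E) (p ∘ zi f.toEquiv i) z =
        (mfderiv 𝓘(ℝ, F) 𝓘(ℝ, E) p (zi f.toEquiv i z)).comp
          (mfderiv 𝓘(ℝ, F) 𝓘(ℝ, F) (zi f.toEquiv i) z) :=
      mfderiv_comp z (hpd _) (hfd _)
    have e2 : mfderiv 𝓘(ℝ, F) 𝓘(ℝ, E) (zi g.toEquiv i ∘ p) z =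
        (mfderiv 𝓘(ℝ, E) 𝓘(ℝ, E) (zi g.toEquiv i) (p z)).comp
          (mfderiv 𝓘(ℝ, F) 𝓘(ℝ, E) p z) :=
      mfderiv_comp z (hgd _) (hpd _)
    have e3 : (mfderiv 𝓘(ℝ, E) 𝓘(ℝ, E) (zi g.toEquiv i) (p z) : E →L[ℝ] E)
        ((mfderiv 𝓘(ℝ, F) 𝓘(ℝ, E) p z : F →L[ℝ] E) v) =
        (mfderiv 𝓘(ℝ, F) 𝓘(ℝ, E) p (zi f.toEquiv i z) : F →L[ℝ] E)
          ((mfderiv 𝓘(ℝ, F) 𝓘(ℝ, F) (zi f.toEquiv i) z : F →L[ℝ] F) v) := by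
      have e4 : (mfderiv 𝓘(ℝ, F) 𝓘(ℝ, E) (p ∘ zi f.toEquiv i) z : F →L[ℝ] E) v =
          (mfderiv 𝓘(ℝ, F) 𝓘(ℝ, E) (zi g.toEquiv i ∘ p) z : F →L[ℝ] E) v := by
        rw [hfun]
      rw [e1, e2] at e4
      exact e4.symm
    change rnorm γM (zi g.toEquiv i (p z)) ((D (zi g.toEquiv i) (p z) : E →L[ℝ] E)
        ((mfderiv 𝓘(ℝ, F) 𝓘(ℝ, E) p z : F →L[ℝ] E) v)) ≤ C * K
    have e5 := hb (zi f.toEquiv i z) ((D (zi f.toEquiv i) z : F →L[ℝ] F) v)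
    have e6 : rnorm γM (zi g.toEquiv i (p z)) ((D (zi g.toEquiv i) (p z) : E →L[ℝ] E)
        ((mfderiv 𝓘(ℝ, F) 𝓘(ℝ, E) p z : F →L[ℝ] E) v)) =
        rnorm γM (p (zi f.toEquiv i z)) ((mfderiv 𝓘(ℝ, F) 𝓘(ℝ, E) p (zi f.toEquiv i z) : F →L[ℝ] E)
          ((D (zi f.toEquiv i) z : F →L[ℝ] F) v)) := by
      rw [NBProd_zi hpf i z]
      exact congrArg (rnorm γM (zi g.toEquiv i (p z))) e3
    rw [e6]
    refine e5.trans (mul_le_mul_of_nonneg_left ?_ hC.le)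
    exact hv i

theorem NB_prod (hr : 1 ≤ r) (Θ : Diffeomorph 𝓘(ℝ, F) (𝓘(ℝ, E).prod 𝓘(ℝ, E')) X (M × N) ∞)
    {g : Dyn E M r} {A : Dyn E' N r} {f : Dyn F X r}
    (hf : ∀ x, Θ (f x) = (g (Θ x).1, A (Θ x).2)) (γM : RMetric E M) (γN : RMetric E' N)
    (γX : RMetric F X) {x : X} (hg : (lcoc g hr γM).NB (omegaL g (Θ x).1))
    (hA : (lcoc A hr γN).NB (omegaL A (Θ x).2)) : (lcoc f hr γX).NB (omegaL f x) := by
  intro z hz v K hv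
  have hΘ : ContMDiff 𝓘(ℝ, F) (𝓘(ℝ, E).prod 𝓘(ℝ, E')) 1 Θ := Θ.contMDiff.of_le (by simp)
  have hΘd : MDifferentiableAt 𝓘(ℝ, F) (𝓘(ℝ, E).prod 𝓘(ℝ, E')) Θ z :=
    (hΘ z).mdifferentiableAt one_ne_zero
  have h1 : (mfderiv 𝓘(ℝ, F) 𝓘(ℝ, E) (Prod.fst ∘ Θ) z : F →L[ℝ] E) v = 0 :=
    NBProd_factor hr (f := f) (g := g) (contMDiff_fst.comp hΘ)
      (fun y => by simp only [Function.comp_apply, hf]) γM γX hg hz hv
  have h2 : (mfderiv 𝓘(ℝ, F) 𝓘(ℝ, E') (Prod.snd ∘ Θ) z : F →L[ℝ] E') v = 0 :=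
    NBProd_factor hr (f := f) (g := A) (contMDiff_snd.comp hΘ)
      (fun y => by simp only [Function.comp_apply, hf]) γN γX hA hz hv
  have e1 : mfderiv 𝓘(ℝ, F) 𝓘(ℝ, E) (Prod.fst ∘ Θ) z =
      (mfderiv (𝓘(ℝ, E).prod 𝓘(ℝ, E')) 𝓘(ℝ, E) Prod.fst (Θ z)).comp
        (mfderiv 𝓘(ℝ, F) (𝓘(ℝ, E).prod 𝓘(ℝ, E')) Θ z) :=
    mfderiv_comp z mdifferentiableAt_fst hΘd
  have e2 : mfderiv 𝓘(ℝ, F) 𝓘(ℝ, E') (Prod.snd ∘ Θ) z =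
      (mfderiv (𝓘(ℝ, E).prod 𝓘(ℝ, E')) 𝓘(ℝ, E') Prod.snd (Θ z)).comp
        (mfderiv 𝓘(ℝ, F) (𝓘(ℝ, E).prod 𝓘(ℝ, E')) Θ z) :=
    mfderiv_comp z mdifferentiableAt_snd hΘd
  rw [e1, mfderiv_fst] at h1
  rw [e2, mfderiv_snd] at h2
  have h3 : (mfderiv 𝓘(ℝ, F) (𝓘(ℝ, E).prod 𝓘(ℝ, E')) Θ z : F →L[ℝ] E × E') v = 0 :=
    Prod.ext h1 h2
  have hΘs : MDifferentiableAt (𝓘(ℝ, E).prod 𝓘(ℝ, E')) 𝓘(ℝ, F) Θ.symm (Θ z) :=
    ((Θ.symm.contMDiff.of_le (by simp) : ContMDiff (𝓘(ℝ, E).prod 𝓘(ℝ, E')) 𝓘(ℝ, F) 1 Θ.symm)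
      (Θ z)).mdifferentiableAt one_ne_zero
  have e3 : mfderiv 𝓘(ℝ, F) 𝓘(ℝ, F) (Θ.symm ∘ Θ) z =
      (mfderiv (𝓘(ℝ, E).prod 𝓘(ℝ, E')) 𝓘(ℝ, F) Θ.symm (Θ z)).comp
        (mfderiv 𝓘(ℝ, F) (𝓘(ℝ, E).prod 𝓘(ℝ, E')) Θ z) :=
    mfderiv_comp z hΘs hΘd
  have e4 : (Θ.symm ∘ Θ : X → X) = id := by
    funext y
    simp
  rw [e4, mfderiv_id] at e3
  have e5 : (ContinuousLinearMap.id ℝ F) v =
      (mfderiv (𝓘(ℝ, E).prod 𝓘(ℝ, E')) 𝓘(ℝ, F) Θ.symm (Θ z) : E × E' →L[ℝ] F)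
        ((mfderiv 𝓘(ℝ, F) (𝓘(ℝ, E).prod 𝓘(ℝ, E')) Θ z : F →L[ℝ] E × E') v) :=
    congrArg (fun L : F →L[ℝ] F => L v) e3
  rw [h3, map_zero] at e5
  exact e5

end PRH
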