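import Pool.Agent.OmSt2.Final3

/-!
# Stability relative to a class of perturbations

`AStab f N m₀`: the consequences of `Ω`-stability which are used in the proof that a stable
diffeomorphism with hyperbolic recurrence satisfies Axiom A. They hold in particular for the
factors of `Ω`-stable products.
-/

open Set Filter Topology Manifold ContDiff Metric

namespace PRH

open OmSt

universe u v

/-- `N` is a set of diffeomorphisms containing `f`, open with respect to smooth families, all
periodic points of its elements are hyperbolic, their numbers are finite, and if `g ∈ N` agrees with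
`f` on the set `LL f m` (`m₀ ∣ m`) then the periodic points of `g` in the limit sets of recurrent
points which contain fixed points of `f ^ m` belong to `LL f m`. -/
structure AStab {E : Type u} [NormedAddCommGroup E] [NormedSpace ℝ E] {M : Type v} [MetricSpace M]
    [CompactSpace M] [ChartedSpace E M] {r : ℕ∞} (f : Dyn E M r) (N : Set (Dyn E M r)) (m₀ : ℕ) :
    Prop where
  pos : 0 < m₀
  mem : f ∈ N
  fam : ∀ {V : Type u} [NormedAddCommGroup V] [NormedSpace ℝ V] (Ψ : Fam E M V) (g : Dyn E M r),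
    g ∈ N → ∀ᶠ v in 𝓝 (0 : V), pert g (Ψ.toFun v) ∈ N
  hyp : ∀ g ∈ N, ∀ (p : M) (n : ℕ), 0 < n → g^[n] p = p → IsHyp (D g^[n] p : E →L[ℝ] E)
  fin : ∀ g ∈ N, ∀ n : ℕ, 0 < n → {x | g^[n] x = x}.Finite
  cnt : ∀ g ∈ N, ∀ m : ℕ, 0 < m → m₀ ∣ m → PH f.toHomeomorph →
    EqOn g f (LL f.toHomeomorph m) → ∀ q, f^[m] q = q → ∀ z, Recurrent g z → q ∈ omegaL g z →
    ∀ p ∈ omegaL g z, p ∈ Function.periodicPts g → p ∈ LL f.toHomeomorph m

variable {E : Type u} [NormedAddCommGroup E] [NormedSpace ℝ E] {M : Type v} [MetricSpace M]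
  [CompactSpace M] [ChartedSpace E M] {r : ℕ∞} {f : Dyn E M r} {N : Set (Dyn E M r)} {m₀ : ℕ}

theorem AStab.isHyp (h : AStab f N m₀) (_ : 1 ≤ r) {g : Dyn E M r} (hg : g ∈ N) {p : M} {n : ℕ}
    (hn : 0 < n) (hp : g^[n] p = p) : IsHyp (D g^[n] p : E →L[ℝ] E) := h.hyp g hg p n hn hp

theorem AStab.fix_finite (h : AStab f N m₀) (_ : 1 ≤ r) (n : ℕ) (hn : 0 < n) (g : Dyn E M r)
    (hg : g ∈ N) : {x | g^[n] x = x}.Finite := h.fin g hg n hn

end PRH
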