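import Pool.Agent.PRH.Iter
import Pool.Agent.PRH.PDef

/-!
# One perturbation followed by a segment (module AffStep)

`prm c V p B` is the parameter of the affine perturbation (in the chart at `c`) with the linear part
`1 + B` which maps `p` to `V`; `alf c v` is the affine perturbation with the parameter `v`.

HEADER.
* `alf_prm`: `chartAt E c p + (prm.1 + B (chart p - chart c)) = chart V`, then `(chartAt E c).left_inv`.
* `alf_cont`: composition of continuous maps (`(chartAt E c).continuousAt`, `continuousAt_symm`).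
* `norm_prm_lt`: triangle inequality: `‖prm.1‖ ≤ ‖chart V - chart c‖ + ‖chart p - chart c‖ + ‖B‖ ‖chart p - chart c‖`,
  `‖prm‖ = max ‖prm.1‖ ‖B‖`. Choose `ε ≤ 1`, `ε < δ`, such that `dist z (c i) < ε` implies
  `z ∈ (chartAt E (c i)).source` and `‖chart z - chart (c i)‖ < min (δ / 3) ρ` (continuity of the charts), for
  the two values of `i`.
* `hasFDerivAt_alf`: near `u₀ = chartAt E c p`: `alf c v ((chartAt E c).symm u) = (chartAt E c).symm (aff u)`,
  `aff u = u + (v.1 + v.2 (u - chartAt E c c))` has the derivative `1 + v.2`, `aff u₀ = chartAt E c V`; so the map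
  is `chG g^[k] c c' ∘ aff`, and `chG g^[k] c c'` is differentiable at `chartAt E c V`
  (`contDiffAt_chart_iterate`, Pool/Agent/OmSt/Hyper.lean).
-/

open Set Filter Topology Manifold ContDiff Metric OmSt

namespace PRH

section

variable {E : Type*} [NormedAddCommGroup E] [NormedSpace ℝ E]
  {M : Type*} [TopologicalSpace M] [ChartedSpace E M] {r : ℕ∞}

/-- The parameter of the affine perturbation. -/
noncomputable def prm (c V p : M) (B : E →L[ℝ] E) : E × (E →L[ℝ] E) :=
  (chartAt E c V - chartAt E c p - B (chartAt E c p - chartAt E c c), B)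

/-- The affine perturbation. -/
noncomputable def alf (c : M) (v : E × (E →L[ℝ] E)) (p : M) : M :=
  (chartAt E c).symm (chartAt E c p + (v.1 + v.2 (chartAt E c p - chartAt E c c)))

theorem AffStep_val (c V p : M) (B : E →L[ℝ] E) :
    chartAt E c p + ((prm c V p B).1 + (prm c V p B).2 (chartAt E c p - chartAt E c c)) =
      chartAt E c V := by
  unfold prm
  simp only
  abel

theorem alf_prm {c V : M} (p : M) (B : E →L[ℝ] E) (hV : V ∈ (chartAt E c).source) :
    alf c (prm c V p B) p = V := by
  unfold alf
  rw [AffStep_val]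
  exact (chartAt E c).left_inv hV

theorem alf_cont {c V p : M} (B : E →L[ℝ] E) (hV : V ∈ (chartAt E c).source)
    (hp : p ∈ (chartAt E c).source) : ContinuousAt (alf c (prm c V p B)) p := by
  have h1 : ContinuousAt (chartAt E c) p := (chartAt E c).continuousAt hp
  have h2 : ContinuousAt (fun q : M => chartAt E c q + ((prm c V p B).1 +
      (prm c V p B).2 (chartAt E c q - chartAt E c c))) p :=
    h1.add (continuousAt_const.add
      ((prm c V p B).2.continuous.continuousAt.comp (h1.sub continuousAt_const)))
  have h3 : ContinuousAt (chartAt E c).symm (chartAt E c p + ((prm c V p B).1 +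
      (prm c V p B).2 (chartAt E c p - chartAt E c c))) := by
    rw [AffStep_val]
    exact (chartAt E c).continuousAt_symm ((chartAt E c).map_source hV)
  exact ContinuousAt.comp (f := fun q : M => chartAt E c q + ((prm c V p B).1 +
      (prm c V p B).2 (chartAt E c q - chartAt E c c))) h3 h2

theorem hasFDerivAt_alf [IsManifold 𝓘(ℝ, E) ∞ M] (g : Dyn E M r) (hr : 1 ≤ r) (k : ℕ)
    {c c' V p : M} (B : E →L[ℝ] E) (hV : V ∈ (chartAt E c).source)
    (hp : p ∈ (chartAt E c).source) (hg : g^[k] V ∈ (chartAt E c').source) :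
    HasFDerivAt (fun u => chartAt E c' (g^[k] (alf c (prm c V p B) ((chartAt E c).symm u))))
      (fderiv ℝ (chG g^[k] c c') (chartAt E c V) * (1 + B)) (chartAt E c p) := by
  have hl : (chartAt E c).symm (chartAt E c V) = V := (chartAt E c).left_inv hV
  have h1 : ContDiffAt ℝ 1 (fun z => chartAt E c' (g^[k] ((chartAt E c).symm z)))
      (chartAt E c V) :=
    contDiffAt_chart_iterate hr (IsManifold.chart_mem_maximalAtlas c)
      (IsManifold.chart_mem_maximalAtlas c') k ((chartAt E c).map_source hV) (by rw [hl]; exact hg)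
  have h2 : HasFDerivAt (chG g^[k] c c') (fderiv ℝ (chG g^[k] c c') (chartAt E c V))
      (chartAt E c V) := (h1.differentiableAt one_ne_zero).hasFDerivAt
  set v := prm c V p B with hv
  have hv2 : v.2 = B := rfl
  have h3 : HasFDerivAt (fun u : E => u + (v.1 + v.2 (u - chartAt E c c)))
      (1 + B) (chartAt E c p) := by
    have h4 : HasFDerivAt (fun u : E => u) (1 : E →L[ℝ] E) (chartAt E c p) := hasFDerivAt_id _
    have h5 : HasFDerivAt (fun u : E => v.2 (u - chartAt E c c)) (v.2 * (1 : E →L[ℝ] E))
        (chartAt E c p) := v.2.hasFDerivAt.comp (chartAt E c p) (h4.sub_const (chartAt E c c))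
    have h6 := h4.add (h5.const_add v.1)
    rw [mul_one, hv2] at h6
    exact h6
  have h7 : chartAt E c p + (v.1 + v.2 (chartAt E c p - chartAt E c c)) = chartAt E c V :=
    AffStep_val c V p B
  rw [← h7] at h2
  have h8 := HasFDerivAt.comp (f := fun u : E => u + (v.1 + v.2 (u - chartAt E c c)))
    (chartAt E c p) h2 h3
  rw [h7] at h8
  refine h8.congr_of_eventuallyEq ?_
  filter_upwards [(chartAt E c).open_target.mem_nhds ((chartAt E c).map_source hp)] with u hu
  show chartAt E c' (g^[k] (alf c v ((chartAt E c).symm u))) = _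
  unfold alf
  rw [(chartAt E c).right_inv hu]
  rfl

end

theorem norm_prm_lt {E : Type*} [NormedAddCommGroup E] [NormedSpace ℝ E]
    {M : Type*} [MetricSpace M] [ChartedSpace E M] (c : Fin 2 → M) {δ ρ : ℝ} (hδ : 0 < δ)
    (hρ : 0 < ρ) : ∃ ε > 0,
    (∀ i, ∀ z, dist z (c i) < ε → z ∈ (chartAt E (c i)).source ∧
      chartAt E (c i) z ∈ ball (chartAt E (c i) (c i)) ρ) ∧
    ∀ i, ∀ V p : M, ∀ B : E →L[ℝ] E, dist V (c i) < ε → dist p (c i) < ε → ‖B‖ < ε →
      ‖prm (c i) V p B‖ < δ := by
  have h1 : ∀ i : Fin 2, ∃ e > 0, ∀ z, dist z (c i) < e → z ∈ (chartAt E (c i)).source ∧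
      chartAt E (c i) z ∈ ball (chartAt E (c i) (c i)) (min (δ / 4) ρ) := by
    intro i
    have h2 : ∀ᶠ z in 𝓝 (c i), z ∈ (chartAt E (c i)).source ∧
        chartAt E (c i) z ∈ ball (chartAt E (c i) (c i)) (min (δ / 4) ρ) := by
      refine Filter.Eventually.and ((chartAt E (c i)).open_source.mem_nhds
        (mem_chart_source E (c i))) ?_
      exact ((chartAt E (c i)).continuousAt (mem_chart_source E (c i))).eventually_mem
        (ball_mem_nhds _ (lt_min (by linarith) hρ))
    obtain ⟨e, he, h3⟩ := Metric.eventually_nhds_iff.1 h2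
    exact ⟨e, he, fun z hz => h3 hz⟩
  choose e he h1 using h1
  refine ⟨min (min (e 0) (e 1)) (min 1 (δ / 2)), by
    have := he 0
    have := he 1
    positivity, ?_, ?_⟩
  · intro i z hz
    have hz' : dist z (c i) < e i := by
      have h4 : min (min (e 0) (e 1)) (min 1 (δ / 2)) ≤ e i := by
        fin_cases i
        · exact (min_le_left _ _).trans (min_le_left _ _)
        · exact (min_le_left _ _).trans (min_le_right _ _)
      exact hz.trans_le h4
    obtain ⟨h5, h6⟩ := h1 i z hz'
    exact ⟨h5, ball_subset_ball (min_le_right _ _) h6⟩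
  · intro i V p B hV hp hB
    have h4 : min (min (e 0) (e 1)) (min 1 (δ / 2)) ≤ e i := by
      fin_cases i
      · exact (min_le_left _ _).trans (min_le_left _ _)
      · exact (min_le_left _ _).trans (min_le_right _ _)
    have h5 := (h1 i V (hV.trans_le h4)).2
    have h6 := (h1 i p (hp.trans_le h4)).2
    rw [mem_ball, dist_eq_norm] at h5 h6
    have h7 := h5.trans_le (min_le_left _ _)
    have h8 := h6.trans_le (min_le_left _ _)
    have hB1 : ‖B‖ < 1 := hB.trans_le ((min_le_right _ _).trans (min_le_left _ _))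
    have hB2 : ‖B‖ < δ / 2 := hB.trans_le ((min_le_right _ _).trans (min_le_right _ _))
    unfold prm
    rw [Prod.norm_def]
    refine max_lt ?_ (by simpa using hB2.trans (by linarith))
    have h9 : ‖B (chartAt E (c i) p - chartAt E (c i) (c i))‖ ≤
        1 * ‖chartAt E (c i) p - chartAt E (c i) (c i)‖ :=
      (B.le_opNorm _).trans (mul_le_mul_of_nonneg_right hB1.le (norm_nonneg _))
    have h10 : chartAt E (c i) V - chartAt E (c i) p
        - B (chartAt E (c i) p - chartAt E (c i) (c i)) =
        (chartAt E (c i) V - chartAt E (c i) (c i)) - (chartAt E (c i) p - chartAt E (c i) (c i))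
          - B (chartAt E (c i) p - chartAt E (c i) (c i)) := by abel
    show ‖chartAt E (c i) V - chartAt E (c i) p
        - B (chartAt E (c i) p - chartAt E (c i) (c i))‖ < δ
    rw [h10]
    have h11 := norm_sub_le ((chartAt E (c i) V - chartAt E (c i) (c i)) -
      (chartAt E (c i) p - chartAt E (c i) (c i))) (B (chartAt E (c i) p - chartAt E (c i) (c i)))
    have h12 := norm_sub_le (chartAt E (c i) V - chartAt E (c i) (c i))
      (chartAt E (c i) p - chartAt E (c i) (c i))
    linarith

end PRH
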