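import Pool.Agent.OmSt.Fam

/-!
# Families which are affine in one factor (module AffT2)

HEADER. Compare `OmSt.exists_affT` (Pool/Agent/OmSt/Fam.lean), whose proof is the model.
Let `β : ContDiffBump c` with the radii `R / 2 < R`. On `E × E'` let
`H (y, η) = (χ η * β y, (χ η * β y) • (y - c)) : ℝ × E`: smooth with compact support
(in `closedBall c R × tsupport χ`), so both components are Lipschitz with constants `C₁, C₂`
(`ContDiff.lipschitzWith_of_hasCompactSupport`). Put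
`T v u = ι.symm ((ι u).1 + ((χ (ι u).2 * β (ι u).1) • v.1 + v.2 ((χ (ι u).2 * β (ι u).1) • ((ι u).1 - c))),
(ι u).2)`.
Smoothness in `(v, u)`, the identity off the compact set, `T 0 = id`, and the formulas are immediate.
For small `v` the map `h (y, η) = (χ β • v.1 + v.2 (χ β • (y - c)), 0)` on `E × E'` is Lipschitz with the
constant `(C₁ + C₂) ‖v‖ < 1` (norm of the product = maximum), so by `OmSt.diffeo_of_lip` (with the complete
space `E × E'`) there is `τ₀ : E × E' ≃ₜ E × E'` smooth with smooth inverse, `τ₀ z = z + h z`; put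
`τ = ι ≫ τ₀ ≫ ι.symm` (homeomorphism of `F`); smooth because `ι`, `ι.symm` are.
-/

open Set Filter Topology Manifold ContDiff Metric
open scoped NNReal

namespace PRH

open OmSt

variable {E : Type*} [NormedAddCommGroup E] [NormedSpace ℝ E] [FiniteDimensional ℝ E]
  {E' : Type*} [NormedAddCommGroup E'] [NormedSpace ℝ E'] [FiniteDimensional ℝ E']
  {F : Type*} [NormedAddCommGroup F] [NormedSpace ℝ F]

theorem exists_affT2 (ι : F ≃L[ℝ] E × E') (c : E) {R : ℝ} (hR : 0 < R) {χ : E' → ℝ}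
    (hχ : ContDiff ℝ ∞ χ) (hχc : HasCompactSupport χ) :
    ∃ T : (E × (E →L[ℝ] E)) → F → F, ∃ δ > 0,
      (ContDiff ℝ ∞ fun p : (E × (E →L[ℝ] E)) × F => T p.1 p.2) ∧
      (∀ v u, u ∉ ι.symm '' (closedBall c R ×ˢ tsupport χ) → T v u = u) ∧
      (∀ v u, χ (ι u).2 = 0 → T v u = u) ∧ (∀ u, T 0 u = u) ∧
      (∀ v, ∀ y ∈ closedBall c (R / 2), ∀ η, χ η = 1 →
        T v (ι.symm (y, η)) = ι.symm (y + (v.1 + v.2 (y - c)), η)) ∧
      ∀ v, ‖v‖ < δ → ∃ τ : F ≃ₜ F, (∀ u, τ u = T v u) ∧ ContDiff ℝ ∞ τ ∧ ContDiff ℝ ∞ τ.symm := by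
  let β : ContDiffBump c := ⟨R / 2, R, by positivity, by linarith⟩
  have hβs : ContDiff ℝ ∞ β := β.contDiff
  set g : E × E' → ℝ := fun z => χ z.2 * β z.1 with hg
  set k : E × E' → E := fun z => (χ z.2 * β z.1) • (z.1 - c) with hk
  have hgs : ContDiff ℝ ∞ g := (hχ.comp contDiff_snd).mul (hβs.comp contDiff_fst)
  have hks : ContDiff ℝ ∞ k := hgs.smul (contDiff_fst.sub contDiff_const)
  set K : Set (E × E') := closedBall c R ×ˢ tsupport χ with hK
  have hKc : IsCompact K := (isCompact_closedBall c R).prod hχc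
  have hg0 : ∀ z ∉ K, g z = 0 := by
    intro z hz
    by_cases h1 : z.2 ∈ tsupport χ
    · have h2 : z.1 ∉ closedBall c R := fun h => hz ⟨h, h1⟩
      have h3 : β z.1 = 0 := β.zero_of_le_dist (by
        have : R < dist z.1 c := by simpa [mem_closedBall] using h2
        exact this.le)
      show χ z.2 * β z.1 = 0
      rw [h3, mul_zero]
    · show χ z.2 * β z.1 = 0
      rw [image_eq_zero_of_notMem_tsupport h1, zero_mul]
  have hk0 : ∀ z, g z = 0 → k z = 0 := by
    intro z hz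
    show g z • (z.1 - c) = 0
    rw [hz, zero_smul]
  have hgc : HasCompactSupport g := HasCompactSupport.intro hKc hg0
  have hkc : HasCompactSupport k := HasCompactSupport.intro hKc fun z hz => hk0 z (hg0 z hz)
  obtain ⟨C₁, hC₁⟩ := ContDiff.lipschitzWith_of_hasCompactSupport hgc hgs (by simp)
  obtain ⟨C₂, hC₂⟩ := ContDiff.lipschitzWith_of_hasCompactSupport hkc hks (by simp)
  have hδ0 : 0 < 1 / (2 * ((C₁ : ℝ) + C₂ + 1)) := by positivity
  have hT0 : ∀ (v : E × (E →L[ℝ] E)) (u : F), g (ι u) = 0 →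
      ι.symm ((ι u).1 + (g (ι u) • v.1 + v.2 (k (ι u))), (ι u).2) = u := by
    intro v u h
    rw [h, hk0 _ h, zero_smul, map_zero, add_zero, add_zero]
    exact ι.symm_apply_apply u
  refine ⟨fun v u => ι.symm ((ι u).1 + (g (ι u) • v.1 + v.2 (k (ι u))), (ι u).2),
    1 / (2 * ((C₁ : ℝ) + C₂ + 1)), hδ0, ?_, ?_, ?_, ?_, ?_, ?_⟩
  · refine ι.symm.contDiff.comp ?_
    have e0 : ContDiff ℝ ∞ fun p : (E × (E →L[ℝ] E)) × F => ι p.2 := ι.contDiff.comp contDiff_snd
    refine ContDiff.prodMk (e0.fst.add (ContDiff.add ?_ ?_)) e0.snd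
    · exact (hgs.comp e0).smul contDiff_fst.fst
    · exact contDiff_fst.snd.clm_apply (hks.comp e0)
  · intro v u hu
    refine hT0 v u (hg0 _ fun h => hu ⟨ι u, h, ι.symm_apply_apply u⟩)
  · intro v u hu
    refine hT0 v u ?_
    show χ (ι u).2 * β (ι u).1 = 0
    rw [hu, zero_mul]
  · intro u
    show ι.symm ((ι u).1 + (g (ι u) • (0 : E) + (0 : E →L[ℝ] E) (k (ι u))), (ι u).2) = u
    rw [smul_zero, ContinuousLinearMap.zero_apply, add_zero, add_zero]
    exact ι.symm_apply_apply u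
  · intro v y hy η hη
    have hβ : β y = 1 := β.one_of_mem_closedBall hy
    show ι.symm ((ι (ι.symm (y, η))).1 + (g (ι (ι.symm (y, η))) • v.1 +
      v.2 (k (ι (ι.symm (y, η))))), (ι (ι.symm (y, η))).2) = _
    rw [ι.apply_symm_apply]
    have h1 : g (y, η) = 1 := by
      show χ η * β y = 1
      rw [hη, hβ, mul_one]
    have h2 : k (y, η) = y - c := by
      show g (y, η) • (y - c) = y - c
      rw [h1, one_smul]
    rw [h1, h2, one_smul]
  · intro v hv
    have hlip : LipschitzWith ((C₁ + C₂) * ‖v‖₊)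
        (fun z : E × E' => ((g z • v.1 + v.2 (k z), 0) : E × E')) := by
      refine LipschitzWith.of_dist_le_mul fun y z => ?_
      have e1 : (g y • v.1 + v.2 (k y)) - (g z • v.1 + v.2 (k z)) =
          (g y - g z) • v.1 + v.2 (k y - k z) := by
        rw [map_sub, sub_smul]
        abel
      have h1 := hC₁.dist_le_mul y z
      have h2 := hC₂.dist_le_mul y z
      have h0 : dist ((g y • v.1 + v.2 (k y), 0) : E × E') (g z • v.1 + v.2 (k z), 0) =
          ‖(g y • v.1 + v.2 (k y)) - (g z • v.1 + v.2 (k z))‖ := by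
        rw [Prod.dist_eq, dist_self, max_eq_left dist_nonneg, dist_eq_norm]
      rw [h0, e1]
      rw [dist_eq_norm (g y) (g z)] at h1
      rw [dist_eq_norm (k y) (k z)] at h2
      have h3 : ‖v.1‖ ≤ ‖v‖ := norm_fst_le v
      have h4 : ‖v.2‖ ≤ ‖v‖ := norm_snd_le v
      calc ‖(g y - g z) • v.1 + v.2 (k y - k z)‖
          ≤ ‖g y - g z‖ * ‖v.1‖ + ‖v.2‖ * ‖k y - k z‖ := by
            refine (norm_add_le _ _).trans (add_le_add ?_ (v.2.le_opNorm _))
            rw [norm_smul]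
        _ ≤ (C₁ * dist y z) * ‖v‖ + ‖v‖ * (C₂ * dist y z) := by gcongr
        _ = ((C₁ + C₂) * ‖v‖₊ : ℝ≥0) * dist y z := by push_cast; ring
    have hs : ContDiff ℝ ∞ (fun z : E × E' => ((g z • v.1 + v.2 (k z), 0) : E × E')) :=
      ((hgs.smul contDiff_const).add (v.2.contDiff.comp hks)).prodMk contDiff_const
    have hlt : (C₁ + C₂) * ‖v‖₊ < 1 := by
      have : ((C₁ : ℝ) + C₂) * ‖v‖ < 1 := by
        calc ((C₁ : ℝ) + C₂) * ‖v‖ ≤ (C₁ + C₂) * (1 / (2 * ((C₁ : ℝ) + C₂ + 1))) := by gcongr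
          _ < 1 := by
            rw [mul_one_div, div_lt_one (by positivity)]
            linarith [C₁.2, C₂.2]
      exact_mod_cast this
    obtain ⟨τ₀, hτ, hτs, hτs'⟩ := diffeo_of_lip hs hlip hlt
    refine ⟨(ι.toHomeomorph.trans τ₀).trans ι.symm.toHomeomorph, ?_, ?_, ?_⟩
    · intro u
      show ι.symm (τ₀ (ι u)) = _
      rw [hτ]
      have : ι u + ((g (ι u) • v.1 + v.2 (k (ι u)), 0) : E × E') =
          ((ι u).1 + (g (ι u) • v.1 + v.2 (k (ι u))), (ι u).2) := by
        refine Prod.ext rfl ?_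
        show (ι u).2 + 0 = (ι u).2
        exact add_zero _
      rw [this]
    · exact ι.symm.contDiff.comp (hτs.comp ι.contDiff)
    · exact ι.symm.contDiff.comp (hτs'.comp ι.contDiff)

end PRH
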