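import Pool.Agent.PRH.Coc
import Pool.Agent.PCE.Split

/-!
# The derivative cocycle of a diffeomorphism (module Bridge)

HEADER. Facts on `zi`: `zi_zero`, `zi_add`, `zi_nat`, `zi_neg` (Pool/Agent/OmSt/Isol.lean); `D` is `mfderiv`
(Pool/Agent/OmSt/Base.lean: `D_comp`, `D_id`, `Dyn.mdiff`, `Dyn.mdiff_symm`, `mdiff_iterate`,
`contMDiff_iterate`).

* `contMDiff_zi`: `zi g.toEquiv i` is `C^1`: for `i = n`: `g^[n]`, for `i = -n`: `g.symm^[n]`
  (`Int.eq_nat_or_neg`, `funext`, `zi_nat`, `zi_neg`, `contMDiff_iterate`, `Dyn.contMDiff_one`).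
* `A_zero`: `zi σ 0 = id`, `D_id`. `A_add`: `zi σ (i + j) = zi σ i ∘ zi σ j`, `D_comp`.
* `T b x = Dc b x`, `T' b x = Dc' b x`, `Dc_mul` (Pool/Agent/OmSt2/Split.lean).
* `cont`: `Dc b' (zi i x) * D (zi i) x * Dc' b x = fderiv ℝ (chG (zi i) b b') (chartAt E b x)` for `x` near `z`
  (`fderiv_chG`), and the right side is continuous at `z` because `chG (zi i) b b'` is `C^1` at
  `chartAt E b z` (`contDiffAt_chart` as in `contDiffAt_chart_iterate`, Pool/Agent/OmSt/Hyper.lean, and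
  `continuousAt_fderiv_chG`, Pool/Agent/OmSt2/Cov.lean: same proofs with `zi i` instead of `g`).
* `N z v = rnorm γ z v`: a norm (see Pool/Agent/PCE/Ext.lean `ext_rnorm_smul`, `ext_rnorm_add_le`, or prove it
  from `γ.symm`, `γ.pos`: Cauchy-Schwarz); positivity: `γ.pos`.
* `N_cont`: see the proof of `exists_comparison` (Pool/Agent/OmSt2/RM2.lean): for the base point `b` of a chart,
  `γ' y = inCoordinates ... b y b y (γ.inner y)` is a continuous function of `y` (`continuousAt_hom_bundle`) and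
  `γ.inner y (Dc' b y w) (Dc' b y w) = γ' y w w` for `y ∈ (chartAt E b).source` (`inC₂`, `Dc_Dc'`). That gives
  `ContinuousAt` at `(b, w)`. For a general point `z ∈ (chartAt E b).source`: write
  `Dc' b y w = Dc' z y ((Dc z y * Dc' b y) w)` near `z` and use that `Dc z y * Dc' b y` is continuous at `y = z`
  (`cont` with `i = 0`, i.e. `fderiv_chG` for the identity) and the continuity at `(z, ·)`.
-/

open Set Filter Topology Manifold ContDiff Metric OmSt

set_option linter.unusedSectionVars false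

namespace PRH

variable {E : Type*} [NormedAddCommGroup E] [NormedSpace ℝ E] [FiniteDimensional ℝ E]
  {M : Type*} [MetricSpace M] [ChartedSpace E M] [IsManifold 𝓘(ℝ, E) ∞ M] {r : ℕ∞}

theorem bridge_rnorm_smul (γ : RMetric E M) (x : M) (c : ℝ) (v : E) :
    rnorm γ x (c • v : E) = |c| * rnorm γ x v := by
  let Q : E →L[ℝ] E →L[ℝ] ℝ := γ.inner x
  have h1 : Q (c • v) (c • v) = c ^ 2 * Q v v := by
    rw [map_smul, map_smul]
    simp only [smul_apply, smul_eq_mul]
    ring
  unfold rnorm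
  change √(Q (c • v) (c • v)) = |c| * √(Q v v)
  rw [h1, Real.sqrt_mul (sq_nonneg c), Real.sqrt_sq_eq_abs]

theorem bridge_rnorm_add_le (γ : RMetric E M) (x : M) (v w : E) :
    rnorm γ x (v + w : E) ≤ rnorm γ x v + rnorm γ x w := by
  let Q : E →L[ℝ] E →L[ℝ] ℝ := γ.inner x
  have hsymm : ∀ a b : E, Q a b = Q b a := fun a b => γ.symm x a b
  have hnn : ∀ a : E, 0 ≤ Q a a := by
    intro a
    by_cases ha : a = 0
    · rw [ha]; simp
    · exact (γ.pos x a ha).le
  have hCS : (Q v w) ^ 2 ≤ Q v v * Q w w := by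
    by_cases hw : w = 0
    · rw [hw]; simp
    have hpos : 0 < Q w w := γ.pos x w hw
    have h1 := hnn (Q w w • v - Q v w • w)
    have h2 : Q (Q w w • v - Q v w • w) (Q w w • v - Q v w • w) =
        Q w w * (Q w w * Q v v - (Q v w) ^ 2) := by
      simp only [map_sub, map_smul, sub_apply, smul_apply, smul_eq_mul]
      rw [hsymm w v]
      ring
    rw [h2] at h1
    have h3 := nonneg_of_mul_nonneg_right h1 hpos
    linarith
  have h1 : Q (v + w) (v + w) = Q v v + 2 * Q v w + Q w w := by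
    simp only [map_add, add_apply]
    rw [hsymm w v]
    ring
  unfold rnorm
  change √(Q (v + w) (v + w)) ≤ √(Q v v) + √(Q w w)
  rw [Real.sqrt_le_left (by positivity), h1, add_sq, Real.sq_sqrt (hnn v), Real.sq_sqrt (hnn w)]
  have h2 : Q v w ≤ √(Q v v) * √(Q w w) := by
    rw [← Real.sqrt_mul (hnn v)]
    exact (le_abs_self _).trans (Real.abs_le_sqrt hCS)
  linarith

theorem bridge_zi_nat (g : Dyn E M r) (n : ℕ) : zi g.toEquiv (n : ℤ) = g^[n] :=
  funext fun x => zi_nat g.toEquiv n x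

theorem bridge_zi_neg (g : Dyn E M r) (n : ℕ) : zi g.toEquiv (-(n : ℤ)) = g.symm^[n] :=
  funext fun x => zi_neg g.toEquiv n x

theorem bridge_zi_zero (g : Dyn E M r) : zi g.toEquiv 0 = id :=
  funext fun x => zi_zero g.toEquiv x

theorem contMDiff_zi (g : Dyn E M r) (hr : 1 ≤ r) (i : ℤ) :
    ContMDiff 𝓘(ℝ, E) 𝓘(ℝ, E) 1 (zi g.toEquiv i) := by
  obtain ⟨n, rfl | rfl⟩ := i.eq_nat_or_neg
  · rw [bridge_zi_nat]
    exact contMDiff_iterate (Dyn.contMDiff_one g hr) n
  · rw [bridge_zi_neg]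
    exact contMDiff_iterate (Dyn.contMDiff_one g.symm hr) n

theorem bridge_mdiff_zi (g : Dyn E M r) (hr : 1 ≤ r) (i : ℤ) :
    MDifferentiable 𝓘(ℝ, E) 𝓘(ℝ, E) (zi g.toEquiv i) :=
  (contMDiff_zi g hr i).mdifferentiable (by simp)

theorem D_zi_add (g : Dyn E M r) (hr : 1 ≤ r) (i j : ℤ) (z : M) :
    (D (zi g.toEquiv (i + j)) z : E →L[ℝ] E) =
      (D (zi g.toEquiv i) (zi g.toEquiv j z) : E →L[ℝ] E) * D (zi g.toEquiv j) z := by
  have e : zi g.toEquiv (i + j) = zi g.toEquiv i ∘ zi g.toEquiv j :=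
    funext fun x => zi_add g.toEquiv i j x
  rw [e]
  exact D_comp (bridge_mdiff_zi g hr i _) (bridge_mdiff_zi g hr j z)

theorem bridge_contDiffAt {G : M → M} (hG : ContMDiff 𝓘(ℝ, E) 𝓘(ℝ, E) 1 G) {b b' z : M}
    (hz : z ∈ (chartAt E b).source) (hGz : G z ∈ (chartAt E b').source) :
    ContDiffAt ℝ 1 (chG G b b') (chartAt E b z) := by
  have h1 := contDiffAt_chart (V := ℝ) (v := 0) (G := fun p : ℝ × M => G p.2)
    (z := chartAt E b z) (n := 1) (IsManifold.chart_mem_maximalAtlas b)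
    (IsManifold.chart_mem_maximalAtlas b') (contMDiffAt_comp_snd hG.contMDiffAt 0)
    ((chartAt E b).map_source hz) (by rw [(chartAt E b).left_inv hz]; exact hGz)
  exact h1.comp _ (contDiffAt_const.prodMk contDiffAt_id)

theorem bridge_cont {G : M → M} (hG : ContMDiff 𝓘(ℝ, E) 𝓘(ℝ, E) 1 G) {b b' z : M}
    (hz : z ∈ (chartAt E b).source) (hGz : G z ∈ (chartAt E b').source) :
    ContinuousAt (fun x => (Dc b' (G x) : E →L[ℝ] E) * D G x * Dc' b x) z := by
  have h1 : ContinuousAt (fun y => fderiv ℝ (chG G b b') (chartAt E b y)) z :=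
    ContinuousAt.comp (f := chartAt E b) (g := fderiv ℝ (chG G b b'))
      ((bridge_contDiffAt hG hz hGz).continuousAt_fderiv (by simp)) ((chartAt E b).continuousAt hz)
  refine h1.congr ?_
  filter_upwards [(chartAt E b).open_source.mem_nhds hz,
    hG.continuous.continuousAt ((chartAt E b').open_source.mem_nhds hGz)] with y hy1 hy2
  exact fderiv_chG (hG.mdifferentiable (by simp) y) hy1 hy2

theorem bridge_N_cont (γ : RMetric E M) {b z : M} (hz : z ∈ (chartAt E b).source) (w : E) :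
    ContinuousAt (fun p : M × E => rnorm γ p.1 ((Dc' b p.1 : E →L[ℝ] E) p.2)) (z, w) := by
  have hzs : z ∈ (chartAt E z).source := mem_chart_source E z
  have h1 : ContinuousAt (fun x => (Dc z x : E →L[ℝ] E) * Dc' b x) z := by
    have h2 := bridge_cont (G := (id : M → M)) (b := b) (b' := z) (z := z) contMDiff_id hz hzs
    refine h2.congr (Filter.Eventually.of_forall fun y => ?_)
    change (Dc z y : E →L[ℝ] E) * D id y * Dc' b y = _
    rw [D_id, mul_one]
  have h2 : Tendsto (fun p : M × E => ((Dc z p.1 : E →L[ℝ] E) * Dc' b p.1 : E →L[ℝ] E) p.2)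
      (𝓝 (z, w)) (𝓝 (((Dc z z : E →L[ℝ] E) * Dc' b z : E →L[ℝ] E) w)) :=
    spl_clm_apply (h1.tendsto.comp continuousAt_fst.tendsto) continuousAt_snd.tendsto
  have h3 := spl_tendsto_rnorm γ z (l := 𝓝 (z, w)) (y := fun p : M × E => p.1)
    continuousAt_fst.tendsto (v := fun p => (Dc' b p.1 : E →L[ℝ] E) p.2) h2
    (Filter.Eventually.of_forall fun p => rfl)
  have h4 : (Dc' z z : E →L[ℝ] E) (((Dc z z : E →L[ℝ] E) * Dc' b z : E →L[ℝ] E) w) =
      (Dc' b z : E →L[ℝ] E) w :=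
    Dc'_Dc hzs _
  rw [h4] at h3
  exact h3

/-- The derivative cocycle. -/
noncomputable def lcoc (g : Dyn E M r) (hr : 1 ≤ r) (γ : RMetric E M) : LCoc M E where
  G := g.toHomeomorph
  A := fun i z => D (zi g.toEquiv i) z
  A_zero := by
    intro z
    rw [bridge_zi_zero]
    exact D_id z
  A_add := fun i j z => D_zi_add g hr i j z
  S := fun b => (chartAt E b).source
  S_open := fun b => (chartAt E b).open_source
  S_self := fun b => mem_chart_source E b
  T := fun b z => Dc b z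
  T' := fun b z => Dc' b z
  T_mul := fun b z hz => (Dc_mul hz).1
  T_mul' := fun b z hz => (Dc_mul hz).2
  cont := fun i b b' z hz hz' => bridge_cont (contMDiff_zi g hr i) hz hz'
  N := fun z v => rnorm γ z v
  N_smul := fun z c v => bridge_rnorm_smul γ z c v
  N_add := fun z v w => bridge_rnorm_add_le γ z v w
  N_pos := fun z v hv => Real.sqrt_pos.2 (γ.pos z v hv)
  N_cont := fun b z hz w => bridge_N_cont γ hz w

theorem lcoc_G (g : Dyn E M r) (hr : 1 ≤ r) (γ : RMetric E M) :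
    (lcoc g hr γ).G = g.toHomeomorph := rfl

theorem lcoc_nn (g : Dyn E M r) (hr : 1 ≤ r) (γ : RMetric E M) (z : M) (v : E) (i : ℤ) :
    (lcoc g hr γ).nn z v i = rnorm γ (zi g.toEquiv i z) ((D (zi g.toEquiv i) z : E →L[ℝ] E) v) := rfl

theorem lcoc_N (g : Dyn E M r) (hr : 1 ≤ r) (γ : RMetric E M) (z : M) (v : E) :
    (lcoc g hr γ).N z v = rnorm γ z v := rfl

/-- The matrices of the segments are derivatives in charts. -/
theorem lcoc_X (g : Dyn E M r) (hr : 1 ≤ r) (γ : RMetric E M) {c V : Fin 2 → M}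
    {n : Fin 2 → Fin 2 → ℕ} (i j : Fin 2) (hV : V i ∈ (chartAt E (c i)).source)
    (hV' : g^[n i j] (V i) ∈ (chartAt E (c j)).source) :
    (lcoc g hr γ).X c V n i j = fderiv ℝ (chG g^[n i j] (c i) (c j)) (chartAt E (c i) (V i)) := by
  have h1 : (lcoc g hr γ).X c V n i j =
      (Dc (c j) (zi g.toEquiv (n i j) (V i)) : E →L[ℝ] E) * D (zi g.toEquiv (n i j)) (V i) *
        Dc' (c i) (V i) := rfl
  rw [h1, bridge_zi_nat, fderiv_chG (mdiff_iterate (Dyn.mdiff g hr) _ (V i)) hV hV']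

end PRH
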