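import Pool.Agent.OmSt2.Final3

/-!
# Counting pairs of periodic points (module CntConj)

HEADER. `RR f x w`: `x` and `w` belong to the `ω`-limit set of one recurrent point.
Let `h : Ω(f) ≃ₜ Ω(f')` be the conjugacy (`OmegaConj`), `H` its extension to `X`. Exactly as in `PH.count`
(Pool/Agent/OmSt2/Count.lean, facts `hHω`, `hHrec`, `hHfix`, `hback`; `conj_omega`): for `x, w ∈ Ω(f)`:
`RR f x w ↔ RR f' (H x) (H w)`, and `f^[k] x = x ↔ f'^[k] (H x) = H x`. Periodic points are nonwandering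
(`mem_nonwandering_of_recurrent`, `recurrent_of_periodic`).
Let `F = {x | f^[m] x = x}`, `F' = {x | f'^[m] x = x}`: finite, `F ⊆ F'` (`hF`) and `H` maps `F` bijectively onto `F'`:
so `F = F'`.
Fix `n > 0`. For `x` put `W x = {w | f^[n] w = w ∧ RR f x w}`, `W' x = {w | f'^[n] w = w ∧ RR f' x w}`: finite sets
(subsets of `Fix(f^n)`, `Fix(f'^n)`). For `x ∈ F`, `H` maps `W x` bijectively onto `W' (H x)`:
`ncard (W x) = ncard (W' (H x))`. By `hR`, `W x ⊆ W' x` for `x ∈ F`. Since `H : F → F` is a bijection,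
`∑_{x ∈ F} ncard (W' x) = ∑_{x ∈ F} ncard (W' (H x)) = ∑_{x ∈ F} ncard (W x)`; with `ncard (W x) ≤ ncard (W' x)`
all these are equalities (`Finset.sum_eq_sum_iff_of_le`), so `W x = W' x` (`Set.eq_of_subset_of_ncard_le`).
Now if `x ∈ F'`, `f'^[n] w = w`, `n > 0`, `RR f' x w`: `x ∈ F`, `w ∈ W' x = W x`.
-/

open Set Filter Topology Metric

namespace PRH

open OmSt

variable {X : Type*} [MetricSpace X] [CompactSpace X]

/-- `x` and `w` belong to the `ω`-limit set of one recurrent point. -/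
def RR (f : X → X) (x w : X) : Prop := ∃ ζ, Recurrent f ζ ∧ x ∈ omegaL f ζ ∧ w ∈ omegaL f ζ

/-- The points `w` of period `n` which are related to `x`. -/
def CntConj_W (f : X → X) (n : ℕ) (x : X) : Set X := {w | f^[n] w = w ∧ RR f x w}

theorem CntConj_ext {f g : X ≃ₜ X} (hc : OmegaConj f g) :
    ∃ H : X → X, InjOn H (nonwandering f) ∧
      (∀ x ∈ nonwandering f, ∀ y ∈ omegaL f x, H y ∈ omegaL g (H x)) ∧
      (∀ x ∈ nonwandering f, ∀ k, f^[k] x = x → g^[k] (H x) = H x) ∧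
      ∀ z ∈ nonwandering g, ∃ x ∈ nonwandering f, H x = z ∧
        (∀ w ∈ omegaL g z, ∃ y ∈ omegaL f x, H y = w) ∧ (∀ k, g^[k] z = z → f^[k] x = x) := by
  classical
  obtain ⟨h, hh⟩ := hc
  obtain ⟨h', hh'⟩ : ∃ h' : nonwandering g ≃ₜ nonwandering f,
      (∀ x y : nonwandering g, (y : X) = g x → (h' y : X) = f (h' x)) ∧ h' = h.symm := by
    refine ⟨h.symm, fun x y hxy => ?_, rfl⟩
    have h1 := hh (h.symm x) ⟨f (h.symm x),
      nonwandering_apply f.isOpenMap f.continuous (h.symm x).2⟩ rfl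
    rw [h.apply_symm_apply] at h1
    have h2 : h ⟨f (h.symm x), nonwandering_apply f.isOpenMap f.continuous (h.symm x).2⟩ = y :=
      Subtype.ext (h1.trans hxy.symm)
    rw [← h2, h.symm_apply_apply]
  obtain ⟨hh', hsymm⟩ := hh'
  set H : X → X := fun x => if hx : x ∈ nonwandering f then (h ⟨x, hx⟩ : X) else x with hH
  have hHx : ∀ x (hx : x ∈ nonwandering f), H x = h ⟨x, hx⟩ := fun x hx => by simp [hH, hx]
  refine ⟨H, ?_, ?_, ?_, ?_⟩
  · intro a ha b hb hab
    rw [hHx a ha, hHx b hb] at hab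
    have := h.injective (Subtype.ext hab)
    exact congrArg Subtype.val this
  · intro x hx y hy
    rw [hHx x hx, hHx y (omegaL_subset_nonwandering f x hy)]
    exact conj_omega f.isOpenMap f.continuous hh ⟨x, hx⟩
      ⟨y, omegaL_subset_nonwandering f x hy⟩ hy
  · intro x hx k hk
    rw [hHx x hx]
    have h1 := OmegaConj.iterate f.isOpenMap f.continuous hh k ⟨x, hx⟩
      ⟨f^[k] x, nonwandering_iterate f.isOpenMap f.continuous hx k⟩ rfl
    rw [← h1]
    congr 2
    exact Subtype.ext hk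
  · intro z hz
    refine ⟨h' ⟨z, hz⟩, (h' ⟨z, hz⟩).2, ?_, fun w hw => ?_, fun k hk => ?_⟩
    · rw [hHx _ (h' ⟨z, hz⟩).2]
      subst hsymm
      simp
    · have hwΩ := omegaL_subset_nonwandering g z hw
      refine ⟨h' ⟨w, hwΩ⟩, conj_omega g.isOpenMap g.continuous hh' ⟨z, hz⟩ ⟨w, hwΩ⟩ hw, ?_⟩
      rw [hHx _ (h' ⟨w, hwΩ⟩).2]
      subst hsymm
      simp
    · have h1 := OmegaConj.iterate g.isOpenMap g.continuous hh' k ⟨z, hz⟩
        ⟨g^[k] z, nonwandering_iterate g.isOpenMap g.continuous hz k⟩ rfl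
      rw [← h1]
      congr 2
      exact Subtype.ext hk

theorem CntConj_RR_left {f : X → X} {x w : X} (h : RR f x w) :
    x ∈ nonwandering f ∧ w ∈ nonwandering f := by
  obtain ⟨ζ, -, h1, h2⟩ := h
  exact ⟨omegaL_subset_nonwandering f ζ h1, omegaL_subset_nonwandering f ζ h2⟩

theorem cnt_conj {f f' : X ≃ₜ X} (hc : OmegaConj f f') (hfin : ∀ n > 0, {x | f^[n] x = x}.Finite)
    (hfin' : ∀ n > 0, {x | f'^[n] x = x}.Finite) {m : ℕ} (hm : 0 < m)
    (hF : ∀ x, f^[m] x = x → f'^[m] x = x)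
    (hR : ∀ x, f^[m] x = x → ∀ w, RR f x w → RR f' x w ∧ ∀ n, f^[n] w = w → f'^[n] w = w)
    {x w : X} (hx : f'^[m] x = x) (hw : w ∈ Function.periodicPts f') (hxw : RR f' x w) :
    RR f x w := by
  classical
  obtain ⟨H, hHinj, hHω, hHfix, hback⟩ := CntConj_ext hc
  have hHrec : ∀ x, Recurrent f x → Recurrent f' (H x) := fun x hx =>
    recurrent_of_mem (hHω x (mem_nonwandering_of_recurrent hx) x (mem_omegaL_self hx))
  have hRf : ∀ a b, RR f a b → RR f' (H a) (H b) := by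
    rintro a b ⟨ζ, h1, h2, h3⟩
    have hζ := mem_nonwandering_of_recurrent h1
    exact ⟨H ζ, hHrec ζ h1, hHω ζ hζ a h2, hHω ζ hζ b h3⟩
  have hRb : ∀ a ∈ nonwandering f, ∀ b ∈ nonwandering f, RR f' (H a) (H b) → RR f a b := by
    rintro a ha b hb ⟨ζ', h1, h2, h3⟩
    obtain ⟨ζ, hζ, h4, h5, -⟩ := hback ζ' (mem_nonwandering_of_recurrent h1)
    have key : ∀ c ∈ nonwandering f, H c ∈ omegaL f' ζ' → c ∈ omegaL f ζ := by
      intro c hc1 hc2
      obtain ⟨y, hy1, hy2⟩ := h5 _ hc2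
      rw [← hHinj (omegaL_subset_nonwandering f ζ hy1) hc1 hy2]
      exact hy1
    refine ⟨ζ, recurrent_of_mem (key ζ hζ ?_), key a ha h2, key b hb h3⟩
    rw [h4]
    exact mem_omegaL_self h1
  -- the fixed points
  have hΩ : ∀ k > 0, ∀ a, f^[k] a = a → a ∈ nonwandering f := fun k hk a ha =>
    mem_nonwandering_of_recurrent (recurrent_of_periodic hk ha)
  have hΩ' : ∀ k > 0, ∀ a, f'^[k] a = a → a ∈ nonwandering f' := fun k hk a ha =>
    mem_nonwandering_of_recurrent (recurrent_of_periodic hk ha)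
  have hinjF : InjOn H {x | f^[m] x = x} := hHinj.mono fun a ha => hΩ m hm a ha
  have hHF : H '' {x | f^[m] x = x} = {x | f'^[m] x = x} := by
    ext z
    constructor
    · rintro ⟨a, ha, rfl⟩
      exact hHfix a (hΩ m hm a ha) m ha
    · intro hz
      obtain ⟨a, ha, h1, -, h3⟩ := hback z (hΩ' m hm z hz)
      exact ⟨a, h3 m hz, h1⟩
  have hFF : {x | f^[m] x = x} = {x | f'^[m] x = x} := by
    refine Set.eq_of_subset_of_ncard_le (fun a ha => hF a ha) ?_ (hfin' m hm)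
    rw [← hHF, hinjF.ncard_image]
  -- the counting
  obtain ⟨n, hn, hwn⟩ := hw
  have hWfin : ∀ a, (CntConj_W f n a).Finite := fun a => (hfin n hn).subset fun b hb => hb.1
  have hWfin' : ∀ a, (CntConj_W f' n a).Finite := fun a => (hfin' n hn).subset fun b hb => hb.1
  have hWH : ∀ a, f^[m] a = a → (CntConj_W f' n (H a)).ncard = (CntConj_W f n a).ncard := by
    intro a ha
    have haΩ := hΩ m hm a ha
    have h1 : H '' (CntConj_W f n a) = CntConj_W f' n (H a) := by
      ext z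
      constructor
      · rintro ⟨b, ⟨hb1, hb2⟩, rfl⟩
        exact ⟨hHfix b (hΩ n hn b hb1) n hb1, hRf a b hb2⟩
      · rintro ⟨hz1, hz2⟩
        obtain ⟨b, hb, h1, -, h3⟩ := hback z (hΩ' n hn z hz1)
        refine ⟨b, ⟨h3 n hz1, hRb a haΩ b hb ?_⟩, h1⟩
        rw [h1]
        exact hz2
    rw [← h1, (hHinj.mono fun b hb => hΩ n hn b hb.1).ncard_image]
  have hsub : ∀ a, f^[m] a = a → CntConj_W f n a ⊆ CntConj_W f' n a := by
    rintro a ha b ⟨hb1, hb2⟩
    obtain ⟨h1, h2⟩ := hR a ha b hb2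
    exact ⟨h2 n hb1, h1⟩
  have hle : ∀ a ∈ (hfin m hm).toFinset, (CntConj_W f n a).ncard ≤ (CntConj_W f' n a).ncard := by
    intro a ha
    rw [Set.Finite.mem_toFinset] at ha
    exact Set.ncard_le_ncard (hsub a ha) (hWfin' a)
  have himg : (hfin m hm).toFinset.image H = (hfin m hm).toFinset := by
    apply Finset.coe_injective
    rw [Finset.coe_image, Set.Finite.coe_toFinset, hHF, hFF]
  have hsum : ∑ a ∈ (hfin m hm).toFinset, (CntConj_W f n a).ncard =
      ∑ a ∈ (hfin m hm).toFinset, (CntConj_W f' n a).ncard := by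
    have h1 : ∑ a ∈ (hfin m hm).toFinset.image H, (CntConj_W f' n a).ncard =
        ∑ a ∈ (hfin m hm).toFinset, (CntConj_W f' n (H a)).ncard := by
      apply Finset.sum_image
      intro a ha b hb hab
      exact hinjF ((hfin m hm).mem_toFinset.1 ha) ((hfin m hm).mem_toFinset.1 hb) hab
    rw [himg] at h1
    rw [h1]
    exact Finset.sum_congr rfl fun a ha => (hWH a ((hfin m hm).mem_toFinset.1 ha)).symm
  have heq := (Finset.sum_eq_sum_iff_of_le hle).1 hsum
  have hxF : f^[m] x = x := by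
    have h1 : x ∈ {x | f'^[m] x = x} := hx
    rw [← hFF] at h1
    exact h1
  have h1 := heq x ((hfin m hm).mem_toFinset.2 hxF)
  have h2 : CntConj_W f n x = CntConj_W f' n x :=
    Set.eq_of_subset_of_ncard_le (hsub x hxF) h1.ge (hWfin' x)
  have h3 : w ∈ CntConj_W f' n x := ⟨hwn, hxw⟩
  rw [← h2] at h3
  exact h3.2

end PRH
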