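import Pool.Agent.OmSt2.Final3

/-!
# Recurrence and limit sets of powers (module RecPow)

HEADER. Use `mem_omegaL_iff` (Pool/Agent/OmSt/Chain.lean), `recurrent_of_mem`, `mem_omegaL_self`
(Pool/Agent/OmSt2/Piece.lean; `Recurrent f z ↔ z ∈ omegaL f z`).

`omegaL_pow_split`: `p ∈ ω_f(z)`: some residue class `j` modulo `m` contains, for every `ε` and `N`, times `n ≥ N`
with `dist (f^[n] z) p < ε` (pigeonhole: if for every `j < m` there are `ε_j`, `N_j` without such times, take the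
minimum and the maximum). So `p ∈ ω_{f^m}(f^j z)`. Now `f^[j]` is a homeomorphism commuting with `f^[m]`, so
`ω_{f^m}(f^j z) = f^j (ω_{f^m}(z))` (for `p' = (f^j)⁻¹ p`: continuity of the inverse of `f^[j]`).

`omegaL_trans`: `x ∈ ω_f(y)`, `y ∈ ω_f(z)` imply `x ∈ ω_f(z)` (`omegaL_subset` with the closed invariant set `ω_f(z)`).

`recurrent_pow`: let `G = f^[m]` (as a homeomorphism, or as a map; the statement is about the map `f^[m]`). By
`omegaL_pow_split` `z = f^j p'`, `p' ∈ ω_G(z)`, i.e. `z ∈ ω_G(f^j z)` (`z = f^j p'`, `f^j` maps `ω_G(z)` onto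
`ω_G(f^j z)`). Apply `f^j`: `f^j z ∈ ω_G(f^{2j} z)`, ...; by transitivity `z ∈ ω_G(f^{i j} z)` for all `i ≥ 1`, in
particular `z ∈ ω_G(f^{m j} z) = ω_G(G^j z) = ω_G(z)`.
-/

open Set Filter Topology Metric

namespace PRH

open OmSt

variable {X : Type*} [MetricSpace X] [CompactSpace X]

theorem omegaL_pow_split {f : X ≃ₜ X} {m : ℕ} (hm : 0 < m) {z p : X} (hp : p ∈ omegaL f z) :
    ∃ (j : ℕ) (p' : X), p' ∈ omegaL f^[m] z ∧ f^[j] p' = p := by
  have hp' := mem_omegaL_iff.1 hp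
  obtain ⟨j, hj⟩ : ∃ j : Fin m, ∀ ε > 0, ∀ N : ℕ, ∃ n ≥ N, dist (f^[m * n + j] z) p < ε := by
    by_contra hcon
    push Not at hcon
    choose ε hε N hN using hcon
    have : Nonempty (Fin m) := ⟨⟨0, hm⟩⟩
    obtain ⟨j0, hj0⟩ := Finite.exists_min ε
    obtain ⟨j1, hj1⟩ := Finite.exists_max N
    obtain ⟨n, hn, hn'⟩ := hp' (ε j0) (hε j0) (m * (N j1 + 1))
    have h1 : N j1 + 1 ≤ n / m := by
      rw [Nat.le_div_iff_mul_le hm, mul_comm]
      exact hn
    have h2 := hN ⟨n % m, Nat.mod_lt n hm⟩ (n / m) ((hj1 _).trans (by omega))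
    rw [Nat.div_add_mod n m] at h2
    have h3 := hj0 ⟨n % m, Nat.mod_lt n hm⟩
    linarith
  refine ⟨j, f.symm^[(j : ℕ)] p, ?_, ?_⟩
  · rw [mem_omegaL_iff]
    intro ε hε N
    have hc : Continuous f.symm^[(j : ℕ)] := f.symm.continuous.iterate _
    obtain ⟨δ, hδ, hδ'⟩ := Metric.continuousAt_iff.1 (hc.continuousAt (x := p)) ε hε
    obtain ⟨n, hn, hn'⟩ := hj δ hδ N
    refine ⟨n, hn, ?_⟩
    have h1 := hδ' hn'
    have h2 : f.symm^[(j : ℕ)] (f^[m * n + j] z) = (f^[m])^[n] z := by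
      rw [add_comm, Function.iterate_add_apply, ← Function.iterate_mul]
      exact (Function.LeftInverse.iterate f.left_inv (j : ℕ)) _
    rwa [h2] at h1
  · exact (Function.LeftInverse.iterate f.right_inv (j : ℕ)) _

theorem RecPow_trans {G : X → X} (hG : Continuous G) {x y w : X} (h1 : x ∈ omegaL G y)
    (h2 : y ∈ omegaL G w) : x ∈ omegaL G w := by
  rw [mem_omegaL_iff] at h1 h2 ⊢
  intro ε hε N
  obtain ⟨n, hn, hn'⟩ := h1 (ε / 2) (by positivity) N
  obtain ⟨δ, hδ, hδ'⟩ := Metric.continuousAt_iff.1 ((hG.iterate n).continuousAt (x := y)) (ε / 2)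
    (by positivity)
  obtain ⟨k, _, hk⟩ := h2 δ hδ 0
  refine ⟨n + k, by omega, ?_⟩
  rw [Function.iterate_add_apply]
  calc dist (G^[n] (G^[k] w)) x ≤ dist (G^[n] (G^[k] w)) (G^[n] y) + dist (G^[n] y) x :=
        dist_triangle _ _ _
    _ < ε / 2 + ε / 2 := add_lt_add (hδ' hk) hn'
    _ = ε := by ring

omit [CompactSpace X] in
theorem RecPow_map {G F : X → X} (hF : Continuous F) (hc : Function.Commute F G) {x y : X}
    (h : x ∈ omegaL G y) : F x ∈ omegaL G (F y) := by
  have h1 : MapClusterPt (F x) atTop (F ∘ fun n => G^[n] y) :=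
    MapClusterPt.continuousAt_comp hF.continuousAt h
  have h2 : (F ∘ fun n => G^[n] y) = fun n => G^[n] (F y) := by
    funext n
    exact hc.iterate_right n y
  rw [h2] at h1
  exact h1

theorem recurrent_pow {f : X ≃ₜ X} {m : ℕ} (hm : 0 < m) {z : X} (hz : Recurrent f z) :
    Recurrent f^[m] z := by
  obtain ⟨j, p', hp', hj⟩ := omegaL_pow_split hm (mem_omegaL_self hz)
  have hG : Continuous f^[m] := f.continuous.iterate m
  have hcomm : ∀ i : ℕ, Function.Commute f^[i] f^[m] := fun i =>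
    Function.Commute.iterate_iterate (Function.Commute.refl _) i m
  have h1 : z ∈ omegaL f^[m] (f^[j] z) := by
    have := RecPow_map (f.continuous.iterate j) (hcomm j) hp'
    rwa [hj] at this
  have h2 : ∀ i : ℕ, z ∈ omegaL f^[m] (f^[(i + 1) * j] z) := by
    intro i
    induction i with
    | zero => simpa using h1
    | succ i ih =>
      have h3 := RecPow_map (f.continuous.iterate j) (hcomm j) ih
      rw [← Function.iterate_add_apply] at h3
      have h4 : j + (i + 1) * j = (i + 1 + 1) * j := by ring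
      rw [h4] at h3
      exact RecPow_trans hG h1 h3
  have h3 := h2 (m - 1)
  rw [Nat.sub_add_cancel hm, Function.iterate_mul] at h3
  intro U hU N
  obtain ⟨ε, hε, hεU⟩ := Metric.mem_nhds_iff.1 hU
  obtain ⟨n, hn, hn'⟩ := mem_omegaL_iff.1 h3 ε hε N
  refine ⟨n + j, by omega, hεU ?_⟩
  rw [Function.iterate_add_apply]
  exact hn'

end PRH
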