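import Pool.Agent.PRH.ProdDyn
import Pool.Agent.PRH.RecPow
import Pool.Agent.PRH.CntConj

/-!
# The counting argument for products (module CntProd)

HEADER. Let `f = prodDyn Θ g A`, `f' = prodDyn Θ g' A`, `m > 0`, `A^[m] a₀ = a₀`. `L = LL g m` is `g`-invariant
(`LL_zinv`) and `g' = g` on `L`, so the orbits of `g` and `g'` of points of `L` agree (`eqOn_iterate`).

Apply `cnt_conj` (for `f.toHomeomorph`, `f'.toHomeomorph`).
`hF`: let `f^[m] x = x`, `Θ x = (q, b)`: `g^[m] q = q`, `A^[m] b = b` (`prodDyn_iter`), `q ∈ L` (`PH.exists_piece_of_fix`,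
`piece_subset_LL`), `g'^[m] q = g^[m] q = q`, so `f'^[m] x = x`.
`hR`: let `f^[m] x = x`, `ζ` recurrent for `f`, `x, w ∈ ω_f(ζ)`; `z = (Θ ζ).1` is recurrent for `g`,
`q = (Θ x).1 ∈ ω_g(z)` (projection of the limit set: continuity), `g^[m] q = q`. `z` lies in a piece `P` of `g`
(`PH.exists_piece_of_recurrent`), `P` is closed and invariant, so `q ∈ ω_g(z) ⊆ P` (`omegaL_subset`) and `P ⊆ L`
(`piece_subset_LL`). So `z ∈ L`, and `f'^[k] ζ = f^[k] ζ` for all `k : ℕ` (first components agree by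
`eqOn_iterate`, second components are `A^[k]`). Hence `Recurrent f' ζ`, `ω_{f'}(ζ) = ω_f(ζ)`: `RR f' x w`. And
`(Θ w).1 ∈ ω_g(z) ⊆ P ⊆ L`, so `f'^[n] w = f^[n] w` for all `n`.

Now let `q` with `g^[m] q = q`, `z` recurrent for `g'`, `q, p ∈ ω_{g'}(z)`, `p` periodic for `g'`.
1. `omegaL_pow_split` for `g'`, `z`, `q`: `q = g'^[j] q'`, `q' ∈ ω_{g'^m}(z)`. Put `z₁ = g'^[j] z`: then
   `q ∈ ω_{g'^m}(z₁)` (apply `g'^[j]`, continuous, commuting with `g'^[m]`); `z₁` is recurrent for `g'` and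
   `p ∈ ω_{g'}(z) = ω_{g'}(z₁)` (`omegaL_congr`-type argument / shift of time).
2. `omegaL_pow_split` for `g'`, `z₁`, `p`: `p = g'^[i] p'`, `p' ∈ ω_{g'^m}(z₁)`. `p'` is periodic for `g'`
   (`g'^[k] p = p` gives `g'^[k] p' = p'` by injectivity of `g'^[i]`).
3. `ζ = Θ.symm (z₁, a₀)`: `f'^[m k] ζ = Θ.symm ((g'^[m])^[k] z₁, a₀)` (`A^[m] a₀ = a₀`). By `recurrent_pow` `z₁` is
   recurrent for `g'^[m]`, so `ζ` is recurrent for `f'`; `x = Θ.symm (q, a₀) ∈ ω_{f'}(ζ)`,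
   `w = Θ.symm (p', a₀) ∈ ω_{f'}(ζ)`. `f'^[m] x = x`: `g'^[m] q = g^[m] q = q` as `q ∈ L`. `w` is periodic for `f'`
   (`f'^[k m] w = w`).
4. `cnt_conj`: `RR f x w` (and `f^[m] x = x`), and, as in `hR`, `(Θ w).1 = p' ∈ L`. `L` is invariant under `g`, and
   `g' = g` on `L`, so `p = g'^[i] p' ∈ L`.
-/

open Set Filter Topology Manifold ContDiff Metric

namespace PRH

open OmSt

theorem CntProd_semi {X Y : Type*} [MetricSpace X] [CompactSpace X] [MetricSpace Y] [CompactSpace Y] {f : X → X} {g : Y → Y} {π : X → Y}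
    (hπ : Continuous π) (hs : ∀ k x, π (f^[k] x) = g^[k] (π x)) {x y : X} (h : y ∈ omegaL f x) :
    π y ∈ omegaL g (π x) := by
  rw [mem_omegaL_iff] at h ⊢
  intro ε hε N
  obtain ⟨δ, hδ, hδε⟩ := Metric.continuous_iff.1 hπ y ε hε
  obtain ⟨n, hn, hn'⟩ := h δ hδ N
  refine ⟨n, hn, ?_⟩
  rw [← hs]
  exact hδε _ hn'

theorem CntProd_iterate_comm {X : Type*} (f : X → X) (j m k : ℕ) (x : X) :
    f^[j] ((f^[m])^[k] x) = (f^[m])^[k] (f^[j] x) := by
  rw [← Function.iterate_mul, ← Function.iterate_add_apply, ← Function.iterate_add_apply, add_comm]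

theorem CntProd_shift {X : Type*} [MetricSpace X] [CompactSpace X] {f : X → X} {z p : X} (h : p ∈ omegaL f z) (j : ℕ) :
    p ∈ omegaL f (f^[j] z) := by
  rw [mem_omegaL_iff] at h ⊢
  intro ε hε N
  obtain ⟨n, hn, hn'⟩ := h ε hε (N + j)
  refine ⟨n - j, by omega, ?_⟩
  rw [← Function.iterate_add_apply, Nat.sub_add_cancel (by omega)]
  exact hn'

theorem CntProd_pow {X : Type*} [MetricSpace X] [CompactSpace X] {f : X → X} {m : ℕ} (hm : 0 < m) {z p : X}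
    (h : p ∈ omegaL f^[m] z) : p ∈ omegaL f z := by
  rw [mem_omegaL_iff] at h ⊢
  intro ε hε N
  obtain ⟨n, hn, hn'⟩ := h ε hε N
  refine ⟨m * n, le_trans hn (Nat.le_mul_of_pos_left _ hm), ?_⟩
  rw [Function.iterate_mul]
  exact hn'

theorem CntProd_congr {X : Type*} [MetricSpace X] [CompactSpace X] {f g : X → X} {z : X}
    (h : ∀ k, g^[k] z = f^[k] z) : omegaL g z = omegaL f z := by
  ext y
  rw [mem_omegaL_iff, mem_omegaL_iff]
  simp only [h]

variable {E : Type*} [NormedAddCommGroup E] [NormedSpace ℝ E]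
  {E' : Type*} [NormedAddCommGroup E'] [NormedSpace ℝ E']
  {F : Type*} [NormedAddCommGroup F] [NormedSpace ℝ F]
  {M : Type*} [MetricSpace M] [CompactSpace M] [ChartedSpace E M]
  {N : Type*} [MetricSpace N] [CompactSpace N] [ChartedSpace E' N]
  {X : Type*} [MetricSpace X] [CompactSpace X] [ChartedSpace F X] {r : ℕ∞}

theorem CntProd_fst (Θ : Diffeomorph 𝓘(ℝ, F) (𝓘(ℝ, E).prod 𝓘(ℝ, E')) X (M × N) ∞)
    (g : Dyn E M r) (A : Dyn E' N r) (n : ℕ) (x : X) :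
    (prodDyn Θ g A)^[n] x = Θ.symm (g^[n] (Θ x).1, A^[n] (Θ x).2) := by
  have h1 : x = Θ.symm ((Θ x).1, (Θ x).2) := (Θ.symm_apply_apply x).symm
  conv_lhs => rw [h1]
  exact prodDyn_iter Θ g A n _ _

theorem CntProd_key (Θ : Diffeomorph 𝓘(ℝ, F) (𝓘(ℝ, E).prod 𝓘(ℝ, E')) X (M × N) ∞)
    {g g' : Dyn E M r} {A : Dyn E' N r} (hPH : PH g.toHomeomorph)
    {m : ℕ} (hm : 0 < m) (heq : EqOn g' g (LL g.toHomeomorph m)) {x w : X}
    (hx : (prodDyn Θ g A)^[m] x = x) (h : RR (prodDyn Θ g A) x w) :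
    (RR (prodDyn Θ g' A) x w ∧ ∀ n, (prodDyn Θ g' A)^[n] w = (prodDyn Θ g A)^[n] w) ∧
      (Θ w).1 ∈ LL g.toHomeomorph m := by
  obtain ⟨ζ, h1, h2, h3⟩ := h
  have hit : ∀ y ∈ LL g.toHomeomorph m, ∀ k, g'^[k] y = g^[k] y ∧ g^[k] y ∈ LL g.toHomeomorph m :=
    fun y hy k => eqOn_iterate (f := g.toHomeomorph) (g := g'.toHomeomorph) LL_zinv heq hy k
  have hπ : Continuous fun y : X => (Θ y).1 := continuous_fst.comp Θ.continuous
  have hs : ∀ k y, (fun y : X => (Θ y).1) ((prodDyn Θ g A)^[k] y) = g^[k] ((fun y : X => (Θ y).1) y) := by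
    intro k y
    show (Θ ((prodDyn Θ g A)^[k] y)).1 = g^[k] (Θ y).1
    rw [CntProd_fst, Θ.apply_symm_apply]
  have hζ : ζ ∈ omegaL (prodDyn Θ g A) ζ := mem_omegaL_self (f := (prodDyn Θ g A).toHomeomorph) h1
  have hz : Recurrent g.toHomeomorph (Θ ζ).1 :=
    recurrent_of_mem (f := g.toHomeomorph) (CntProd_semi hπ hs hζ)
  obtain ⟨P, hP, hzP⟩ := hPH.exists_piece_of_recurrent hz
  have hsub : omegaL g.toHomeomorph (Θ ζ).1 ⊆ P :=
    omegaL_subset hP.1.isClosed hP.1.zinv.mapsTo hzP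
  have hqP : (Θ x).1 ∈ P := hsub (CntProd_semi hπ hs h2)
  have hpP : (Θ w).1 ∈ P := hsub (CntProd_semi hπ hs h3)
  have hq : g.toHomeomorph^[m] (Θ x).1 = (Θ x).1 := by
    have h4 := hs m x
    have h5 : (Θ ((prodDyn Θ g A)^[m] x)).1 = g^[m] (Θ x).1 := h4
    rw [hx] at h5
    exact h5.symm
  have hPL : P ⊆ LL g.toHomeomorph m := piece_subset_LL hP hqP hq
  have hagree : ∀ y : X, (Θ y).1 ∈ LL g.toHomeomorph m → ∀ k, (prodDyn Θ g' A)^[k] y =
      (prodDyn Θ g A)^[k] y := by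
    intro y hy k
    rw [CntProd_fst, CntProd_fst, (hit _ hy k).1]
  refine ⟨⟨⟨ζ, ?_, ?_, ?_⟩, hagree w (hPL hpP)⟩, hPL hpP⟩
  · apply recurrent_of_mem (f := (prodDyn Θ g' A).toHomeomorph)
    show ζ ∈ omegaL (prodDyn Θ g' A) ζ
    rw [CntProd_congr (hagree ζ (hPL hzP))]
    exact hζ
  · rw [CntProd_congr (hagree ζ (hPL hzP))]
    exact h2
  · rw [CntProd_congr (hagree ζ (hPL hzP))]
    exact h3

theorem cnt_prod (Θ : Diffeomorph 𝓘(ℝ, F) (𝓘(ℝ, E).prod 𝓘(ℝ, E')) X (M × N) ∞)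
    {g g' : Dyn E M r} {A : Dyn E' N r} (hc : OmegaConj (prodDyn Θ g A) (prodDyn Θ g' A))
    (hfin : ∀ n > 0, {x | (prodDyn Θ g A)^[n] x = x}.Finite)
    (hfin' : ∀ n > 0, {x | (prodDyn Θ g' A)^[n] x = x}.Finite) (hPH : PH g.toHomeomorph)
    {m : ℕ} (hm : 0 < m) {a₀ : N} (ha : A^[m] a₀ = a₀) (heq : EqOn g' g (LL g.toHomeomorph m))
    {q z p : M} (hq : g^[m] q = q) (hz : Recurrent g' z) (hqz : q ∈ omegaL g' z)
    (hpz : p ∈ omegaL g' z) (hp : p ∈ Function.periodicPts g') : p ∈ LL g.toHomeomorph m := by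
  have hit : ∀ y ∈ LL g.toHomeomorph m, ∀ k, g'^[k] y = g^[k] y ∧ g^[k] y ∈ LL g.toHomeomorph m :=
    fun y hy k => eqOn_iterate (f := g.toHomeomorph) (g := g'.toHomeomorph) LL_zinv heq hy k
  have hfixL : ∀ y : M, g^[m] y = y → y ∈ LL g.toHomeomorph m := by
    intro y hy
    obtain ⟨P, hP, hyP⟩ := hPH.exists_piece_of_fix hm hy
    exact piece_subset_LL hP hyP hy hyP
  have hqL := hfixL q hq
  have hq' : g'^[m] q = q := by rw [(hit q hqL m).1, hq]
  -- step 1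
  obtain ⟨j, q', hq'1, hq'2⟩ := omegaL_pow_split (f := g'.toHomeomorph) hm hqz
  have hcont : ∀ i : ℕ, Continuous g'^[i] := fun i => g'.continuous.iterate i
  have h1 : q ∈ omegaL g'^[m] (g'^[j] z) := by
    rw [← hq'2]
    exact CntProd_semi (f := g'^[m]) (g := g'^[m]) (hcont j)
      (fun k x => CntProd_iterate_comm g' j m k x) hq'1
  have hz1 : Recurrent g'.toHomeomorph (g'^[j] z) := by
    apply recurrent_of_mem
    have h2 : z ∈ omegaL g' z := mem_omegaL_self (f := g'.toHomeomorph) hz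
    refine CntProd_semi (f := g') (g := g') (hcont j) (fun k x => ?_) h2
    rw [← Function.iterate_add_apply, ← Function.iterate_add_apply, add_comm]
  have hp1 : p ∈ omegaL g'.toHomeomorph (g'^[j] z) := CntProd_shift hpz j
  -- step 2
  obtain ⟨i, p', hp'1, hp'2⟩ := omegaL_pow_split (f := g'.toHomeomorph) hm hp1
  obtain ⟨k, hk, hkp⟩ := hp
  have hkp' : g'^[k] p' = p' := by
    have h2 : Function.Injective g'^[i] := g'.injective.iterate i
    apply h2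
    have h3 : g'^[i] p' = p := hp'2
    rw [← Function.iterate_add_apply, add_comm, Function.iterate_add_apply, h3]
    exact hkp
  -- step 3
  have hσ : Continuous fun u : M => Θ.symm (u, a₀) :=
    Θ.symm.continuous.comp (continuous_id.prodMk continuous_const)
  have hak : ∀ k, (A^[m])^[k] a₀ = a₀ := fun k => Function.iterate_fixed ha k
  have hσs : ∀ k u, (fun u : M => Θ.symm (u, a₀)) ((g'^[m])^[k] u) =
      ((prodDyn Θ g' A)^[m])^[k] ((fun u : M => Θ.symm (u, a₀)) u) := by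
    intro k u
    show Θ.symm ((g'^[m])^[k] u, a₀) = ((prodDyn Θ g' A)^[m])^[k] (Θ.symm (u, a₀))
    rw [← Function.iterate_mul, ← Function.iterate_mul, prodDyn_iter, Function.iterate_mul A, hak]
  have hlift : ∀ u, u ∈ omegaL g'^[m] (g'^[j] z) →
      Θ.symm (u, a₀) ∈ omegaL (prodDyn Θ g' A) (Θ.symm (g'^[j] z, a₀)) := fun u hu =>
    CntProd_pow hm (CntProd_semi hσ hσs hu)
  have hrec : g'^[j] z ∈ omegaL g'^[m] (g'^[j] z) := by
    have h2 := recurrent_pow (f := g'.toHomeomorph) hm hz1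
    exact mem_omegaL_iff.2 fun ε hε N => h2 _ (ball_mem_nhds _ hε) N
  have hRR : RR (prodDyn Θ g' A) (Θ.symm (q, a₀)) (Θ.symm (p', a₀)) :=
    ⟨Θ.symm (g'^[j] z, a₀), recurrent_of_mem (f := (prodDyn Θ g' A).toHomeomorph) (hlift _ hrec),
      hlift q h1, hlift p' hp'1⟩
  have hx : (prodDyn Θ g' A)^[m] (Θ.symm (q, a₀)) = Θ.symm (q, a₀) := by
    rw [prodDyn_iter, hq', ha]
  have hx0 : (prodDyn Θ g A)^[m] (Θ.symm (q, a₀)) = Θ.symm (q, a₀) := by
    rw [prodDyn_iter, hq, ha]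
  have hw : Θ.symm (p', a₀) ∈ Function.periodicPts (prodDyn Θ g' A) := by
    refine ⟨k * m, Nat.mul_pos hk hm, ?_⟩
    show (prodDyn Θ g' A)^[k * m] (Θ.symm (p', a₀)) = Θ.symm (p', a₀)
    rw [prodDyn_iter]
    have h2 : g'^[k * m] p' = p' := by
      rw [Function.iterate_mul]
      exact Function.iterate_fixed hkp' m
    have h3 : A^[k * m] a₀ = a₀ := by
      rw [mul_comm, Function.iterate_mul]
      exact hak k
    rw [h2, h3]
  -- step 4
  have h4 : RR (prodDyn Θ g A) (Θ.symm (q, a₀)) (Θ.symm (p', a₀)) := by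
    refine cnt_conj (f := (prodDyn Θ g A).toHomeomorph) (f' := (prodDyn Θ g' A).toHomeomorph) hc hfin
      hfin' hm ?_ ?_ hx hw hRR
    · intro x hx
      have hx' : (prodDyn Θ g A)^[m] x = x := hx
      have h5 : g^[m] (Θ x).1 = (Θ x).1 := by
        have h6 := congrArg Θ hx'
        rw [CntProd_fst, Θ.apply_symm_apply] at h6
        exact congrArg Prod.fst h6
      show (prodDyn Θ g' A)^[m] x = x
      rw [CntProd_fst, (hit _ (hfixL _ h5) m).1, ← CntProd_fst]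
      exact hx'
    · intro x hx w hxw
      obtain ⟨⟨h5, h6⟩, -⟩ := CntProd_key Θ hPH hm heq hx hxw
      refine ⟨h5, fun n hn => ?_⟩
      show (prodDyn Θ g' A)^[n] w = w
      rw [h6 n]
      exact hn
  have h5 := (CntProd_key Θ hPH hm heq hx0 h4).2
  rw [Θ.apply_symm_apply] at h5
  have h6 : g'^[i] p' = p := hp'2
  rw [← h6, (hit p' h5 i).1]
  exact (hit p' h5 i).2

end PRH
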