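import Mathlib

/-!
# Products along walks on a graph with two vertices: definitions

`X i j` (`i, j ∈ {0, 1}`) are linear maps (segments from the vertex `i` to the vertex `j`).
A letter is a triple `(i, j, B)`; it stands for the map `(1 + B) * X i j`.
-/

open Set Filter Topology

namespace PRH

variable {E : Type*} [NormedAddCommGroup E] [NormedSpace ℝ E]

/-- Letters `(i, j, B)`. -/
abbrev Letter (E : Type*) [NormedAddCommGroup E] [NormedSpace ℝ E] : Type _ :=
  Fin 2 × Fin 2 × (E →L[ℝ] E)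

/-- `Walk X 𝓛 i j T`: `T` is the product (from the right to the left) along a nonempty walk from
the vertex `i` to the vertex `j` with letters in `𝓛`. -/
inductive Walk (X : Fin 2 → Fin 2 → E →L[ℝ] E) (𝓛 : Set (Letter E)) :
    Fin 2 → Fin 2 → (E →L[ℝ] E) → Prop
  | single {i j : Fin 2} {B : E →L[ℝ] E} (h : (i, j, B) ∈ 𝓛) : Walk X 𝓛 i j ((1 + B) * X i j)
  | snoc {i j k : Fin 2} {T B : E →L[ℝ] E} (hw : Walk X 𝓛 i j T) (h : (j, k, B) ∈ 𝓛) :
      Walk X 𝓛 i k ((1 + B) * X j k * T)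

/-- `Reach X ε n i j T`: `T` is the product along a walk from `i` to `j` with at most `n` different
letters, with perturbations of norm less than `ε`. -/
def Reach (X : Fin 2 → Fin 2 → E →L[ℝ] E) (ε : ℝ) (n : ℕ) (i j : Fin 2) (T : E →L[ℝ] E) : Prop :=
  ∃ 𝓛 : Set (Letter E), 𝓛.encard ≤ n ∧ (∀ l ∈ 𝓛, ‖l.2.2‖ < ε) ∧ Walk X 𝓛 i j T

end PRH
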