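import Pool.Agent.OmSt2.PHyp
import Pool.Agent.PRH.WalkDef

/-!
# Linear cocycles over homeomorphisms (definitions)

An abstract version of the derivative cocycle of a diffeomorphism of a closed manifold: all the
fibres are the model space `E`, `T b z` is the trivialization with centre `b` at the point `z` (the
derivative of the chart at `b`), `T' b z` its inverse, `N z` a norm on the fibre at `z`.
-/

open Set Filter Topology Metric OmSt

namespace PRH

/-- Linear cocycles. -/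
structure LCoc (Z : Type*) [MetricSpace Z] (E : Type*) [NormedAddCommGroup E]
    [NormedSpace ℝ E] where
  /-- the homeomorphism -/
  G : Z ≃ₜ Z
  /-- the cocycle: `A i z` is the derivative of the `i`-th iterate at `z` -/
  A : ℤ → Z → E →L[ℝ] E
  A_zero : ∀ z, A 0 z = 1
  A_add : ∀ i j z, A (i + j) z = A i (zi G.toEquiv j z) * A j z
  /-- domains of the trivializations -/
  S : Z → Set Z
  S_open : ∀ b, IsOpen (S b)
  S_self : ∀ b, b ∈ S b
  /-- trivializations -/
  T : Z → Z → E →L[ℝ] E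
  /-- their inverses -/
  T' : Z → Z → E →L[ℝ] E
  T_mul : ∀ b, ∀ z ∈ S b, T b z * T' b z = 1
  T_mul' : ∀ b, ∀ z ∈ S b, T' b z * T b z = 1
  cont : ∀ (i : ℤ) (b b' z : Z), z ∈ S b → zi G.toEquiv i z ∈ S b' →
    ContinuousAt (fun x => T b' (zi G.toEquiv i x) * A i x * T' b x) z
  /-- the norms of the fibres -/
  N : Z → E → ℝ
  N_smul : ∀ z (c : ℝ) v, N z (c • v) = |c| * N z v
  N_add : ∀ z v w, N z (v + w) ≤ N z v + N z w
  N_pos : ∀ z v, v ≠ 0 → 0 < N z v
  N_cont : ∀ b z, z ∈ S b → ∀ w : E, ContinuousAt (fun p : Z × E => N p.1 (T' b p.1 p.2)) (z, w)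

variable {Z : Type*} [MetricSpace Z] {E : Type*} [NormedAddCommGroup E] [NormedSpace ℝ E]

namespace LCoc

/-- Convergence of tangent vectors: `v k` (at the point `z k`) converges to `v'` (at `z'`). -/
def Conv (C : LCoc Z E) (z : ℕ → Z) (v : ℕ → E) (z' : Z) (v' : E) : Prop :=
  Tendsto z atTop (𝓝 z') ∧ Tendsto (fun k => C.T z' (z k) (v k)) atTop (𝓝 (C.T z' z' v'))

/-- `N` of the image of `v` (at `z`) under the `i`-th iterate. -/
def nn (C : LCoc Z E) (z : Z) (v : E) (i : ℤ) : ℝ := C.N (zi C.G.toEquiv i z) (C.A i z v)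

/-- Bounded tangent vectors over `Λ` vanish. -/
def NB (C : LCoc Z E) (Λ : Set Z) : Prop :=
  ∀ z ∈ Λ, ∀ (v : E) (K : ℝ), (∀ i : ℤ, C.nn z v i ≤ K) → v = 0

/-- The matrices of the segments: `V i` is a point near the centre `c i` whose `n i j`-th iterate is
near `c j`. -/
def X (C : LCoc Z E) (c V : Fin 2 → Z) (n : Fin 2 → Fin 2 → ℕ) (i j : Fin 2) : E →L[ℝ] E :=
  C.T (c j) (zi C.G.toEquiv (n i j) (V i)) * C.A (n i j) (V i) * C.T' (c i) (V i)

/-- The consequence of `Ω`-stability which is used: products along closed walks with perturbations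
have no nonzero fixed vectors. -/
def Star (C : LCoc Z E) : Prop :=
  ∀ J : ℕ, ∃ L₀ : ℕ, ∀ c : Fin 2 → Z, ∃ ε > 0, ∀ (V : Fin 2 → Z) (n : Fin 2 → Fin 2 → ℕ),
    (∀ i, dist (V i) (c i) < ε) →
    (∀ i j, L₀ ≤ n i j ∧ dist (zi C.G.toEquiv (n i j) (V i)) (c j) < ε) →
    ∀ T : E →L[ℝ] E, Reach (C.X c V n) ε J 0 0 T → ∀ v : E, T v = v → v = 0

end LCoc

end PRH
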