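import Pool.Agent.PRH.Coc

/-!
# Basic facts on linear cocycles and convergence of vectors (module CocBasic)

HEADER.

* `N_zero`: `N z (0 • v) = |0| * N z v`. `N_nonneg`: `0` or `N_pos`. `N_neg`: `N_smul` with `c = -1`.
* `A_neg_mul`: `A_add (-i) i`. `A_mul_neg`: `A_add i (-i)` at the point `zi i z`.
  `A_injective` from `A_neg_mul`.
* `nn_add`: `nn z v (i + j) = nn (zi j z) (A j z v) i` (`A_add`, `zi_add`).
* `Conv.add`, `Conv.smul`, `Conv.sum`: the maps `T z' (z k)` are linear.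
* `Conv.chart`: let `Conv z v z' v'`, `z' ∈ S b`. For large `k`, `z k ∈ S z' ∩ S b` (open sets), and then
  `T b (z k) (v k) = (T b (z k) * T' z' (z k)) (T z' (z k) (v k))` (`T_mul'`). The operators
  `T b x * T' z' x` are continuous at `x = z'` by `cont 0 z' b z'` (`A_zero`, `zi_zero`). Hence the limit
  is `(T b z' * T' z' z') (T z' z' v') = T b z' v'`. (Evaluation `(L, w) ↦ L w` is continuous:
  `Tendsto.clm_apply`.)
* `Conv.of_chart`: if `z k → z'`, `z' ∈ S b`, `T b (z k) (v k) → w`, then `Conv z v z' (T' b z' w)`: the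
  same argument with the operators `T z' x * T' b x` (`cont 0 b z' z'`).
* `Conv.map`: `zi i` is continuous; `T z'' (zi i (z k)) (A i (z k) (v k)) =
  (T z'' (zi i (z k)) * A i (z k) * T' z' (z k)) (T z' (z k) (v k))` with `z'' = zi i z'`, for large `k`;
  use `cont i z' z'' z'`.
* `Conv.norm`: `N (z k) (v k) = N (z k) (T' z' (z k) (T z' (z k) (v k)))` for large `k` and
  `N_cont z' z'`.
* `Conv.nn`: `Conv.map` and `Conv.norm`.
* `Conv.comp`: subsequences.
-/

open Set Filter Topology Metric OmSt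

namespace PRH

namespace LCoc

variable {Z : Type*} [MetricSpace Z] {E : Type*} [NormedAddCommGroup E] [NormedSpace ℝ E]
  (C : LCoc Z E)

theorem N_zero (z : Z) : C.N z 0 = 0 := by
  have h := C.N_smul z 0 (0 : E)
  simpa using h

theorem N_nonneg (z : Z) (v : E) : 0 ≤ C.N z v := by
  by_cases h : v = 0
  · rw [h, C.N_zero]
  · exact (C.N_pos z v h).le

theorem N_neg (z : Z) (v : E) : C.N z (-v) = C.N z v := by
  have h := C.N_smul z (-1) v
  simpa using h

theorem A_neg_mul (i : ℤ) (z : Z) : C.A (-i) (zi C.G.toEquiv i z) * C.A i z = 1 := by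
  rw [← C.A_add, neg_add_cancel, C.A_zero]

theorem A_mul_neg (i : ℤ) (z : Z) : C.A i z * C.A (-i) (zi C.G.toEquiv i z) = 1 := by
  have h := C.A_add i (-i) (zi C.G.toEquiv i z)
  rw [← zi_add, neg_add_cancel, zi_zero, add_neg_cancel, C.A_zero] at h
  exact h.symm

theorem A_injective (i : ℤ) (z : Z) : Function.Injective (C.A i z) := by
  intro v w h
  have h1 : ∀ v, (C.A (-i) (zi C.G.toEquiv i z)) (C.A i z v) = v := by
    intro v
    have := congrArg (fun L : E →L[ℝ] E => L v) (C.A_neg_mul i z)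
    exact this
  rw [← h1 v, h, h1]

theorem nn_zero (z : Z) (v : E) : C.nn z v 0 = C.N z v := by
  unfold nn
  rw [zi_zero, C.A_zero]
  rfl

theorem nn_nonneg (z : Z) (v : E) (i : ℤ) : 0 ≤ C.nn z v i := C.N_nonneg _ _

theorem nn_pos (z : Z) {v : E} (hv : v ≠ 0) (i : ℤ) : 0 < C.nn z v i := by
  apply C.N_pos
  intro h
  apply hv
  apply C.A_injective i z
  rw [h, map_zero]

theorem nn_smul (z : Z) (c : ℝ) (v : E) (i : ℤ) : C.nn z (c • v) i = |c| * C.nn z v i := by
  unfold nn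
  rw [map_smul, C.N_smul]

theorem nn_add_le (z : Z) (v w : E) (i : ℤ) : C.nn z (v + w) i ≤ C.nn z v i + C.nn z w i := by
  unfold nn
  rw [map_add]
  exact C.N_add _ _ _

theorem nn_shift (z : Z) (v : E) (i j : ℤ) :
    C.nn (zi C.G.toEquiv j z) (C.A j z v) i = C.nn z v (i + j) := by
  unfold nn
  rw [C.A_add, zi_add]
  rfl

theorem continuous_zi (G : Z ≃ₜ Z) (i : ℤ) : Continuous (zi G.toEquiv i) := by
  obtain ⟨n, rfl | rfl⟩ := i.eq_nat_or_neg
  · have e : zi G.toEquiv (n : ℤ) = (G : Z → Z)^[n] := by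
      funext x
      rw [zi_nat]
      rfl
    rw [e]
    exact G.continuous.iterate n
  · have e : zi G.toEquiv (-(n : ℤ)) = (G.symm : Z → Z)^[n] := by
      funext x
      rw [zi_neg]
      rfl
    rw [e]
    exact G.symm.continuous.iterate n

variable {C}
variable {z : ℕ → Z} {v w : ℕ → E} {z' : Z} {v' w' : E}

theorem Conv.add (h : C.Conv z v z' v') (h' : C.Conv z w z' w') :
    C.Conv z (fun k => v k + w k) z' (v' + w') := by
  refine ⟨h.1, ?_⟩
  simp only [map_add]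
  exact h.2.add h'.2

theorem Conv.smul (h : C.Conv z v z' v') {a : ℕ → ℝ} {a' : ℝ} (ha : Tendsto a atTop (𝓝 a')) :
    C.Conv z (fun k => a k • v k) z' (a' • v') := by
  refine ⟨h.1, ?_⟩
  simp only [map_smul]
  exact ha.smul h.2

theorem Conv.sum {n : ℕ} {u : Fin n → ℕ → E} {u' : Fin n → E} (h : ∀ j, C.Conv z (u j) z' (u' j))
    (hz : Tendsto z atTop (𝓝 z')) (a : Fin n → ℝ) :
    C.Conv z (fun k => ∑ j, a j • u j k) z' (∑ j, a j • u' j) := by
  refine ⟨hz, ?_⟩
  simp only [map_sum, map_smul]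
  exact tendsto_finsetSum _ fun j _ => (h j).2.const_smul (a j)

theorem Conv.comp (h : C.Conv z v z' v') {φ : ℕ → ℕ} (hφ : Tendsto φ atTop atTop) :
    C.Conv (z ∘ φ) (v ∘ φ) z' v' :=
  ⟨h.1.comp hφ, h.2.comp hφ⟩

theorem CocBasic_lim {z : ℕ → Z} {z' : Z} (hz : Tendsto z atTop (𝓝 z')) {b b' : Z} (hb : z' ∈ C.S b)
    (i : ℤ) (hb' : zi C.G.toEquiv i z' ∈ C.S b') {x : ℕ → E} {x' : E} (hx : Tendsto x atTop (𝓝 x')) :
    Tendsto (fun k => C.T b' (zi C.G.toEquiv i (z k)) (C.A i (z k) (C.T' b (z k) (x k)))) atTop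
      (𝓝 (C.T b' (zi C.G.toEquiv i z') (C.A i z' (C.T' b z' x')))) := by
  have h1 : Tendsto (fun k => C.T b' (zi C.G.toEquiv i (z k)) * C.A i (z k) * C.T' b (z k)) atTop
      (𝓝 (C.T b' (zi C.G.toEquiv i z') * C.A i z' * C.T' b z')) :=
    (C.cont i b b' z' hb hb').tendsto.comp hz
  exact ((isBoundedBilinearMap_apply (𝕜 := ℝ) (E := E) (F := E)).continuous.tendsto
    (C.T b' (zi C.G.toEquiv i z') * C.A i z' * C.T' b z', x')).comp (h1.prodMk_nhds hx)

theorem CocBasic_mem {z : ℕ → Z} {z' : Z} (hz : Tendsto z atTop (𝓝 z')) {b : Z} (hb : z' ∈ C.S b) :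
    ∀ᶠ k in atTop, z k ∈ C.S b := hz.eventually ((C.S_open b).mem_nhds hb)

theorem CocBasic_inv {b z : Z} (hz : z ∈ C.S b) (v : E) : C.T' b z (C.T b z v) = v := by
  have := congrArg (fun L : E →L[ℝ] E => L v) (C.T_mul' b z hz)
  exact this

theorem CocBasic_lim0 {z : ℕ → Z} {z' : Z} (hz : Tendsto z atTop (𝓝 z')) {b b' : Z} (hb : z' ∈ C.S b)
    (hb' : z' ∈ C.S b') {x : ℕ → E} {x' : E} (hx : Tendsto x atTop (𝓝 x')) :
    Tendsto (fun k => C.T b' (z k) (C.T' b (z k) (x k))) atTop (𝓝 (C.T b' z' (C.T' b z' x'))) := by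
  have h := CocBasic_lim (C := C) hz hb 0 (by rw [zi_zero]; exact hb') hx
  simp only [zi_zero, C.A_zero] at h
  exact h

theorem Conv.chart (h : C.Conv z v z' v') {b : Z} (hb : z' ∈ C.S b) :
    Tendsto (fun k => C.T b (z k) (v k)) atTop (𝓝 (C.T b z' v')) := by
  have h1 := CocBasic_lim0 (C := C) h.1 (C.S_self z') hb h.2
  rw [CocBasic_inv (C.S_self z')] at h1
  refine h1.congr' ?_
  filter_upwards [CocBasic_mem (C := C) h.1 (C.S_self z')] with k hk
  rw [CocBasic_inv hk]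

theorem Conv.of_chart (hz : Tendsto z atTop (𝓝 z')) {b : Z} (hb : z' ∈ C.S b) {w₀ : E}
    (h : Tendsto (fun k => C.T b (z k) (v k)) atTop (𝓝 w₀)) : C.Conv z v z' (C.T' b z' w₀) := by
  refine ⟨hz, ?_⟩
  have h1 := CocBasic_lim0 (C := C) hz hb (C.S_self z') h
  refine h1.congr' ?_
  filter_upwards [CocBasic_mem (C := C) hz hb] with k hk
  rw [CocBasic_inv hk]

theorem Conv.map (h : C.Conv z v z' v') (i : ℤ) :
    C.Conv (fun k => zi C.G.toEquiv i (z k)) (fun k => C.A i (z k) (v k)) (zi C.G.toEquiv i z')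
      (C.A i z' v') := by
  refine ⟨((continuous_zi C.G i).tendsto z').comp h.1, ?_⟩
  have h1 := CocBasic_lim (C := C) h.1 (C.S_self z') i (C.S_self (zi C.G.toEquiv i z')) h.2
  rw [CocBasic_inv (C.S_self z')] at h1
  refine h1.congr' ?_
  filter_upwards [CocBasic_mem (C := C) h.1 (C.S_self z')] with k hk
  rw [CocBasic_inv hk]

theorem Conv.norm (h : C.Conv z v z' v') :
    Tendsto (fun k => C.N (z k) (v k)) atTop (𝓝 (C.N z' v')) := by
  have h1 := (C.N_cont z' z' (C.S_self z') (C.T z' z' v')).tendsto.comp (h.1.prodMk_nhds h.2)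
  simp only [CocBasic_inv (C.S_self z')] at h1
  refine h1.congr' ?_
  filter_upwards [CocBasic_mem (C := C) h.1 (C.S_self z')] with k hk
  change C.N (z k) (C.T' z' (z k) (C.T z' (z k) (v k))) = _
  rw [CocBasic_inv hk]

theorem Conv.nn (h : C.Conv z v z' v') (i : ℤ) :
    Tendsto (fun k => C.nn (z k) (v k) i) atTop (𝓝 (C.nn z' v' i)) :=
  Conv.norm (Conv.map h i)

end LCoc

end PRH
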