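import Pool.Agent.PRH.CocBasic

/-!
# Compactness for linear cocycles (module CocCpt)

HEADER.

`coercive`: for every point `b` there are `c > 0` with `c * ‖w‖ ≤ N y (T' b y w)` for all `y` near `b` and
all `w`. Proof: on the unit sphere `Σ` of `E` (compact) the function `(y, w) ↦ N y (T' b y w)` is
continuous at the points `(b, w)` (`N_cont`), with positive values at `(b, w)` (`T' b b w ≠ 0`). So for
every `w ∈ Σ` there are `c_w > 0` and a neighbourhood of `(b, w)` where it is `> c_w`; finitely many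
neighbourhoods cover `{b} × Σ` (tube lemma: `IsCompact.eventually_forall_of_forall_eventually` applied
after the choice of the minimum `c` of `w ↦ N b (T' b b w)` on `Σ`, `c / 2`). Then use homogeneity. If `E`
is trivial take `c = 1`.

`exists_conv`: `Z` compact: `z (φ k) → z'` for a subsequence. For large `k`, `z (φ k) ∈ S z'` and
`v = T' z' (z k) (T z' (z k) v)`, so `c ‖T z' (z k) (v k)‖ ≤ N (z k) (v k) ≤ K`: the vectors
`T z' (z k) (v k)` are bounded, pass to a convergent subsequence (`E` is proper: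
`FiniteDimensional.proper_real`), with limit `w`; put `v' = T' z' z' w` and use `Conv.of_chart`.

`exists_conv_fin`: repeat for `j : Fin n` (induction on `n`; the base point converges already).

`exists_bound`: otherwise there are `z k, v k` with `nn (z k) (v k) i > k * N (z k) (v k)`; normalize
`nn (z k) (v k) i = 1` (`v k ≠ 0`); then `N (z k) (v k) < 1 / k` is bounded; a subsequence converges,
`Conv`, the limit `v'` has `N z' v' = 0`, so `v' = 0`, but `nn z' v' i = 1`: contradiction.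
-/

open Set Filter Topology Metric OmSt

namespace PRH

namespace LCoc

variable {Z : Type*} [MetricSpace Z] {E : Type*} [NormedAddCommGroup E] [NormedSpace ℝ E]
  [FiniteDimensional ℝ E] (C : LCoc Z E)

theorem coercive (b : Z) : ∃ c > 0, ∀ᶠ y in 𝓝 b, ∀ w : E, c * ‖w‖ ≤ C.N y (C.T' b y w) := by
  have : ProperSpace E := FiniteDimensional.proper_real E
  have hcpt : IsCompact (sphere (0 : E) 1) := isCompact_sphere _ _
  -- from the sphere to all vectors
  have hom : ∀ (c : ℝ) (y : Z), (∀ u ∈ sphere (0 : E) 1, c ≤ C.N y (C.T' b y u)) →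
      ∀ w : E, c * ‖w‖ ≤ C.N y (C.T' b y w) := by
    intro c y h w
    by_cases hw : w = 0
    · rw [hw, norm_zero, mul_zero]
      exact C.N_nonneg _ _
    · have hn : 0 < ‖w‖ := norm_pos_iff.2 hw
      have hu : ‖w‖⁻¹ • w ∈ sphere (0 : E) 1 := by
        rw [mem_sphere_zero_iff_norm, norm_smul, norm_inv, norm_norm, inv_mul_cancel₀ hn.ne']
      have h1 := h _ hu
      rw [map_smul, C.N_smul, abs_of_pos (inv_pos.2 hn)] at h1
      calc c * ‖w‖ ≤ (‖w‖⁻¹ * C.N y (C.T' b y w)) * ‖w‖ := by gcongr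
        _ = C.N y (C.T' b y w) := by
          rw [mul_comm, ← mul_assoc, mul_inv_cancel₀ hn.ne', one_mul]
  rcases (sphere (0 : E) 1).eq_empty_or_nonempty with he | hne
  · refine ⟨1, one_pos, Eventually.of_forall fun y => hom 1 y ?_⟩
    intro u hu
    rw [he] at hu
    exact absurd hu (notMem_empty _)
  · have hg : Continuous fun w : E => C.N b (C.T' b b w) := by
      rw [continuous_iff_continuousAt]
      intro w
      have h1 := C.N_cont b b (C.S_self b) w
      have h2 : ContinuousAt (fun w : E => ((b, w) : Z × E)) w :=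
        (Continuous.prodMk_right b).continuousAt
      exact ContinuousAt.comp (f := fun w : E => ((b, w) : Z × E)) (x := w) h1 h2
    obtain ⟨w₀, hw₀, hmin⟩ := hcpt.exists_isMinOn hne hg.continuousOn
    have hpos : 0 < C.N b (C.T' b b w₀) := by
      apply C.N_pos
      intro h0
      have h1 : C.T b b (C.T' b b w₀) = w₀ := by
        have := C.T_mul b b (C.S_self b)
        exact congrArg (fun L : E →L[ℝ] E => L w₀) this
      rw [h0, map_zero] at h1
      rw [← h1, mem_sphere_zero_iff_norm, norm_zero] at hw₀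
      exact zero_ne_one hw₀
    refine ⟨C.N b (C.T' b b w₀) / 2, half_pos hpos, ?_⟩
    have h3 : ∀ᶠ y in 𝓝 b, ∀ u ∈ sphere (0 : E) 1, C.N b (C.T' b b w₀) / 2 < C.N y (C.T' b y u) := by
      refine hcpt.eventually_forall_of_forall_eventually
        (P := fun y u => C.N b (C.T' b b w₀) / 2 < C.N y (C.T' b y u)) ?_
      intro u hu
      have h1 := C.N_cont b b (C.S_self b) u
      have h2 : C.N b (C.T' b b w₀) / 2 < C.N b (C.T' b b u) := by
        have h4 : C.N b (C.T' b b w₀) ≤ C.N b (C.T' b b u) := hmin hu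
        linarith
      exact h1.eventually (lt_mem_nhds h2)
    filter_upwards [h3] with y hy
    exact hom _ y fun u hu => (hy u hu).le

variable [CompactSpace Z]

theorem exists_conv {z : ℕ → Z} {v : ℕ → E} {K : ℝ} (h : ∀ k, C.N (z k) (v k) ≤ K) :
    ∃ (φ : ℕ → ℕ) (z' : Z) (v' : E), StrictMono φ ∧ C.Conv (z ∘ φ) (v ∘ φ) z' v' := by
  have : ProperSpace E := FiniteDimensional.proper_real E
  obtain ⟨z', -, φ₁, hφ₁, hz⟩ := isCompact_univ.tendsto_subseq (x := z) fun n => mem_univ _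
  obtain ⟨c, hc, hcoe⟩ := C.coercive z'
  have hb : ∀ᶠ k in atTop, C.T z' (z (φ₁ k)) (v (φ₁ k)) ∈ closedBall (0 : E) (K / c) := by
    filter_upwards [hz.eventually hcoe, hz.eventually ((C.S_open z').mem_nhds (C.S_self z'))] with k h1 h2
    have h3 : C.T' z' (z (φ₁ k)) (C.T z' (z (φ₁ k)) (v (φ₁ k))) = v (φ₁ k) := by
      have := C.T_mul' z' _ h2
      exact congrArg (fun L : E →L[ℝ] E => L (v (φ₁ k))) this
    have h4 : c * ‖C.T z' (z (φ₁ k)) (v (φ₁ k))‖ ≤
        C.N (z (φ₁ k)) (C.T' z' (z (φ₁ k)) (C.T z' (z (φ₁ k)) (v (φ₁ k)))) := h1 _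
    rw [h3] at h4
    rw [mem_closedBall_zero_iff, le_div_iff₀ hc, mul_comm]
    exact h4.trans (h _)
  obtain ⟨w₀, -, φ₂, hφ₂, hw⟩ := tendsto_subseq_of_frequently_bounded isBounded_closedBall hb.frequently
  refine ⟨φ₁ ∘ φ₂, z', C.T' z' z' w₀, hφ₁.comp hφ₂, ?_⟩
  exact Conv.of_chart (hz.comp hφ₂.tendsto_atTop) (C.S_self z') hw

theorem exists_conv_fin {n : ℕ} {z : ℕ → Z} {v : Fin n → ℕ → E} {K : ℝ}
    (h : ∀ j k, C.N (z k) (v j k) ≤ K) :
    ∃ (φ : ℕ → ℕ) (z' : Z) (v' : Fin n → E), StrictMono φ ∧ Tendsto (z ∘ φ) atTop (𝓝 z') ∧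
      ∀ j, C.Conv (z ∘ φ) (v j ∘ φ) z' (v' j) := by
  induction n with
  | zero =>
    obtain ⟨z', -, φ, hφ, hz⟩ := isCompact_univ.tendsto_subseq (x := z) fun n => mem_univ _
    exact ⟨φ, z', fun j => j.elim0, hφ, hz, fun j => j.elim0⟩
  | succ n ih =>
    obtain ⟨φ, z', v', hφ, hz, hv⟩ := ih (v := fun j => v j.succ) fun j k => h j.succ k
    obtain ⟨ψ, z'', v'', hψ, hc⟩ := C.exists_conv (z := z ∘ φ) (v := v 0 ∘ φ) (K := K)
      fun k => h 0 (φ k)
    have hz2 : Tendsto ((z ∘ φ) ∘ ψ) atTop (𝓝 z') := hz.comp hψ.tendsto_atTop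
    have hzz : z'' = z' := tendsto_nhds_unique hc.1 hz2
    rw [hzz] at hc
    refine ⟨φ ∘ ψ, z', Fin.cons v'' v', hφ.comp hψ, hz2, ?_⟩
    intro j
    refine Fin.cases ?_ ?_ j
    · exact hc
    · intro j
      exact (hv j).comp hψ.tendsto_atTop

theorem exists_bound (i : ℤ) : ∃ K > 0, ∀ (z : Z) (v : E), C.nn z v i ≤ K * C.N z v := by
  by_contra hcon
  push Not at hcon
  have hcon' : ∀ k : ℕ, ∃ (z : Z) (v : E), ((k : ℝ) + 1) * C.N z v < C.nn z v i := fun k =>
    hcon ((k : ℝ) + 1) (by positivity)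
  choose z v hzv using hcon'
  have hnn : ∀ k, 0 < C.nn (z k) (v k) i := by
    intro k
    have h1 := C.N_nonneg (z k) (v k)
    have h2 := hzv k
    have h3 : 0 ≤ ((k : ℝ) + 1) * C.N (z k) (v k) := by positivity
    linarith
  obtain ⟨u, hu⟩ : ∃ u : ℕ → E, u = fun k => (C.nn (z k) (v k) i)⁻¹ • v k := ⟨_, rfl⟩
  have hu1 : ∀ k, C.nn (z k) (u k) i = 1 := by
    intro k
    rw [hu]
    show C.nn (z k) ((C.nn (z k) (v k) i)⁻¹ • v k) i = 1
    rw [C.nn_smul, abs_of_pos (inv_pos.2 (hnn k)), inv_mul_cancel₀ (hnn k).ne']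
  have hu2 : ∀ k, C.N (z k) (u k) ≤ 1 / ((k : ℝ) + 1) := by
    intro k
    rw [hu]
    show C.N (z k) ((C.nn (z k) (v k) i)⁻¹ • v k) ≤ _
    have hk : (0 : ℝ) < (k : ℝ) + 1 := by positivity
    rw [C.N_smul, abs_of_pos (inv_pos.2 (hnn k)), le_div_iff₀ hk, mul_assoc,
      inv_mul_le_iff₀ (hnn k), mul_one, mul_comm]
    exact (hzv k).le
  obtain ⟨φ, z', v', hφ, hC⟩ := C.exists_conv (z := z) (v := u) (K := 1) fun k => by
    refine (hu2 k).trans ?_
    rw [div_le_one (by positivity)]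
    linarith [Nat.cast_nonneg (α := ℝ) k]
  have h1 : Tendsto (fun k => C.N ((z ∘ φ) k) ((u ∘ φ) k)) atTop (𝓝 (C.N z' v')) := hC.norm
  have h2 : C.N z' v' ≤ 0 := by
    refine le_of_tendsto_of_tendsto h1 (tendsto_one_div_add_atTop_nhds_zero_nat (𝕜 := ℝ)) ?_
    refine Eventually.of_forall fun k => ?_
    refine (hu2 (φ k)).trans ?_
    have h3 : (k : ℝ) ≤ φ k := by exact_mod_cast hφ.id_le k
    show 1 / ((φ k : ℝ) + 1) ≤ 1 / ((k : ℝ) + 1)
    gcongr
  have h3 : v' = 0 := by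
    by_contra hne
    exact absurd (C.N_pos z' v' hne) (not_lt.2 h2)
  have h4 : Tendsto (fun k => C.nn ((z ∘ φ) k) ((u ∘ φ) k) i) atTop (𝓝 (C.nn z' v' i)) := hC.nn i
  have h5 : (fun k => C.nn ((z ∘ φ) k) ((u ∘ φ) k) i) = fun _ => (1 : ℝ) := by
    funext k
    exact hu1 (φ k)
  rw [h5] at h4
  have h6 := tendsto_nhds_unique h4 tendsto_const_nhds
  rw [h3] at h6
  have h7 : C.nn z' 0 i = 0 := by
    unfold nn
    rw [map_zero, C.N_zero]
  rw [h7] at h6
  exact zero_ne_one h6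

end LCoc

end PRH
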