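import Mathlib

open Set Filter Topology

namespace PRH

variable {E : Type*} [NormedAddCommGroup E] [NormedSpace ℝ E]

/-- `w` is a basis of `E` which consists of eigenvectors of `Q`, with positive eigenvalues
`μ 0 < μ 1 < ...`. -/
structure EigB (Q : E →L[ℝ] E) {d : ℕ} (w : Fin d → E) (μ : Fin d → ℝ) : Prop where
  li : LinearIndependent ℝ w
  card : d = Module.finrank ℝ E
  mono : StrictMono μ
  pos : ∀ i, 0 < μ i
  eig : ∀ i, Q (w i) = μ i • w i

end PRH
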