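import Pool.Agent.PRH.LinPert
import Pool.Agent.PRH.EigDef

/-!
# From the eigenvector to a vector of the fast part (module FromEig)

HEADER. Write `y = ∑_{j ≥ i} c j • w j`. Choose a real `s` such that `α = c i + s ≠ 0` and
`|s| ‖w i‖` is small, so that `y' = y + s • w i ≠ 0` and (by `exists_pert`, applied to `x = y'`, target
`y`) there is `β₂`, `‖β₂‖ < δ`, `(1 + β₂) y' = y` (need `|s| ‖w i‖ < δ ‖y'‖`; `‖y'‖ ≥ ‖y‖ - |s| ‖w i‖`).
Let `ξ_m = α⁻¹ • ∑_{j > i} (μ i / μ j)^m c j • w j → 0` (as `0 < μ i / μ j < 1`), so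
`Q^m ξ_m = μ i ^ m α⁻¹ ∑_{j > i} c j w j` and
`Q^m (w i + ξ_m) = μ i ^ m • α⁻¹ • y'`. For large `m`, `‖ξ_m‖ < δ ‖w i‖`, and `exists_pert` gives `β₁` with
`‖β₁‖ < δ`, `(1 + β₁) (w i) = w i + ξ_m`. Then `(1 + β₂) (Q^m ((1 + β₁) (w i))) = κ • y` with
`κ = μ i ^ m / α`.
-/

open Set Filter Topology

namespace PRH

variable {E : Type*} [NormedAddCommGroup E] [NormedSpace ℝ E]

theorem FromEig_repr {d : ℕ} {w : Fin d → E} {S : Set (Fin d)} {y : E}
    (hy : y ∈ Submodule.span ℝ (w '' S)) :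
    ∃ c : Fin d → ℝ, (∀ j, j ∉ S → c j = 0) ∧ y = ∑ j, c j • w j := by
  obtain ⟨l, hl, rfl⟩ := (Finsupp.mem_span_image_iff_linearCombination ℝ).1 hy
  refine ⟨l, (Finsupp.mem_supported' ℝ l).1 hl, ?_⟩
  rw [Finsupp.linearCombination_apply]
  exact Finsupp.sum_fintype _ _ (fun j => zero_smul _ _)

theorem FromEig_pow {Q : E →L[ℝ] E} {d : ℕ} {w : Fin d → E} {μ : Fin d → ℝ} (h : EigB Q w μ)
    (m : ℕ) (c : Fin d → ℝ) : (Q ^ m) (∑ j, c j • w j) = ∑ j, (c j * μ j ^ m) • w j := by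
  induction m with
  | zero => simp
  | succ m ih =>
    have e : (Q ^ (m + 1)) (∑ j, c j • w j) = Q ((Q ^ m) (∑ j, c j • w j)) := by
      rw [pow_succ']
      rfl
    rw [e, ih, map_sum]
    refine Finset.sum_congr rfl (fun j _ => ?_)
    rw [map_smul, h.eig, smul_smul, pow_succ]
    congr 1
    ring

theorem FromEig_upd {d : ℕ} (w : Fin d → E) (c : Fin d → ℝ) (i : Fin d) (s : ℝ) :
    ∑ j, c j • w j + s • w i = ∑ j, (Function.update c i (c i + s)) j • w j := by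
  classical
  have h1 : ∀ j, (Function.update c i (c i + s)) j • w j = c j • w j + (if j = i then s • w i else 0) := by
    intro j
    by_cases hj : j = i
    · subst hj
      rw [Function.update_self, if_pos rfl, add_smul]
    · rw [Function.update_of_ne hj, if_neg hj, add_zero]
  rw [Finset.sum_congr rfl (fun j _ => h1 j), Finset.sum_add_distrib]
  congr 1
  rw [Finset.sum_ite_eq' Finset.univ i]
  simp

theorem from_eig {Q : E →L[ℝ] E} {d : ℕ} {w : Fin d → E} {μ : Fin d → ℝ} (h : EigB Q w μ)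
    {i : Fin d} {y : E} (hy : y ∈ Submodule.span ℝ (w '' Ici i)) (hy0 : y ≠ 0) {δ : ℝ}
    (hδ : 0 < δ) : ∃ β₁ β₂ : E →L[ℝ] E, ‖β₁‖ < δ ∧ ‖β₂‖ < δ ∧ ∃ m : ℕ, 0 < m ∧
      ∃ κ : ℝ, κ ≠ 0 ∧ (1 + β₂) ((Q ^ m) ((1 + β₁) (w i))) = κ • y := by
  obtain ⟨c, hc, rfl⟩ := FromEig_repr hy
  have hyn : 0 < ‖∑ j, c j • w j‖ := norm_pos_iff.2 hy0
  have hwi : w i ≠ 0 := h.li.ne_zero i
  have hwn : 0 < ‖w i‖ := norm_pos_iff.2 hwi
  obtain ⟨s, hs1, hs2⟩ : ∃ s : ℝ, c i + s ≠ 0 ∧ |s| * ‖w i‖ < δ / (1 + δ) * ‖∑ j, c j • w j‖ := by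
    by_cases h0 : c i = 0
    · refine ⟨δ / (1 + δ) * ‖∑ j, c j • w j‖ / (2 * ‖w i‖), ?_, ?_⟩
      · rw [h0, zero_add]
        positivity
      · rw [abs_of_pos (by positivity)]
        have e : δ / (1 + δ) * ‖∑ j, c j • w j‖ / (2 * ‖w i‖) * ‖w i‖
            = δ / (1 + δ) * ‖∑ j, c j • w j‖ / 2 := by
          field_simp
        rw [e]
        have : 0 < δ / (1 + δ) * ‖∑ j, c j • w j‖ := by positivity
        linarith
    · refine ⟨0, by rwa [add_zero], ?_⟩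
      rw [abs_zero, zero_mul]
      positivity
  have hy'n : ‖∑ j, c j • w j‖ - |s| * ‖w i‖ ≤ ‖∑ j, c j • w j + s • w i‖ := by
    have h1 := norm_sub_le (∑ j, c j • w j + s • w i) (s • w i)
    rw [add_sub_cancel_right, norm_smul, Real.norm_eq_abs] at h1
    linarith
  have hkey : |s| * ‖w i‖ < δ * ‖∑ j, c j • w j + s • w i‖ := by
    have h1 : (1 + δ) * (|s| * ‖w i‖) < δ * ‖∑ j, c j • w j‖ := by
      have h2 := mul_lt_mul_of_pos_left hs2 (by linarith : (0 : ℝ) < 1 + δ)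
      have h3 : (1 + δ) * (δ / (1 + δ) * ‖∑ j, c j • w j‖) = δ * ‖∑ j, c j • w j‖ := by
        field_simp
      linarith
    have h4 := mul_le_mul_of_nonneg_left hy'n hδ.le
    linarith
  have hy'0 : ∑ j, c j • w j + s • w i ≠ 0 := by
    intro h0
    rw [h0, norm_zero, mul_zero] at hkey
    exact absurd hkey (not_lt.2 (by positivity))
  obtain ⟨β₂, hβ₂, hβ₂'⟩ := exists_pert (x := ∑ j, c j • w j + s • w i) (y := ∑ j, c j • w j) hy'0
    (δ := δ) (by
      rw [← sub_sub, sub_self, zero_sub, norm_neg, norm_smul, Real.norm_eq_abs]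
      exact hkey)
  obtain ⟨c', hc'⟩ : ∃ c', c' = Function.update c i (c i + s) := ⟨_, rfl⟩
  have hc'i : c' i = c i + s := by rw [hc', Function.update_self]
  have hc'i0 : c' i ≠ 0 := by rw [hc'i]; exact hs1
  have hc'0 : ∀ j, j < i → c' j = 0 := by
    intro j hj
    rw [hc', Function.update_of_ne hj.ne]
    exact hc j (fun h => absurd h (not_le.2 hj))
  rw [FromEig_upd, ← hc'] at hβ₂'
  have hlim : Tendsto (fun m : ℕ => ∑ j, ((c' i)⁻¹ * c' j * (μ i / μ j) ^ m) • w j) atTop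
      (𝓝 (∑ j, if j = i then w i else 0)) := by
    refine tendsto_finset_sum _ (fun j _ => ?_)
    rcases lt_trichotomy j i with hj | hj | hj
    · rw [if_neg hj.ne, hc'0 j hj]
      simp only [mul_zero, zero_mul, zero_smul]
      exact tendsto_const_nhds
    · subst hj
      rw [if_pos rfl, div_self (h.pos j).ne', inv_mul_cancel₀ hc'i0]
      simp only [one_pow, mul_one, one_smul]
      exact tendsto_const_nhds
    · rw [if_neg hj.ne']
      have h1 : Tendsto (fun m : ℕ => (μ i / μ j) ^ m) atTop (𝓝 0) :=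
        tendsto_pow_atTop_nhds_zero_of_lt_one (div_pos (h.pos i) (h.pos j)).le
          ((div_lt_one (h.pos j)).2 (h.mono hj))
      have h2 := (h1.const_mul ((c' i)⁻¹ * c' j)).smul_const (w j)
      rw [mul_zero, zero_smul] at h2
      exact h2
  rw [Finset.sum_ite_eq' Finset.univ i, if_pos (Finset.mem_univ i)] at hlim
  have hev : ∀ᶠ m : ℕ in atTop, ‖∑ j, ((c' i)⁻¹ * c' j * (μ i / μ j) ^ m) • w j - w i‖
      < δ * ‖w i‖ := by
    refine Tendsto.eventually_lt (hlim.sub tendsto_const_nhds).norm tendsto_const_nhds ?_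
    rw [sub_self, norm_zero]
    positivity
  obtain ⟨m, hm, hm0⟩ := (hev.and (eventually_gt_atTop 0)).exists
  obtain ⟨β₁, hβ₁, hβ₁'⟩ := exists_pert (x := w i)
    (y := ∑ j, ((c' i)⁻¹ * c' j * (μ i / μ j) ^ m) • w j) hwi hm
  refine ⟨β₁, β₂, hβ₁, hβ₂, m, hm0, μ i ^ m * (c' i)⁻¹, ?_, ?_⟩
  · exact mul_ne_zero (pow_ne_zero _ (h.pos i).ne') (inv_ne_zero hc'i0)
  · rw [hβ₁', FromEig_pow h]
    have e1 : ∑ j, ((c' i)⁻¹ * c' j * (μ i / μ j) ^ m * μ j ^ m) • w j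
        = (μ i ^ m * (c' i)⁻¹) • ∑ j, c' j • w j := by
      rw [Finset.smul_sum]
      refine Finset.sum_congr rfl (fun j _ => ?_)
      rw [smul_smul]
      congr 1
      have := (h.pos j).ne'
      rw [div_pow]
      field_simp
    rw [e1, map_smul, hβ₂']

end PRH
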