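import Pool.Agent.PRH.EigDef

/-!
# The choice of the eigenvectors (module Select)

HEADER. `w`, `w'` are bases of `E` (`card`, `li`). `finrank (span (w '' Ici i)) = d - i` and
`finrank (span (w' '' Iic i')) = i' + 1` (`finrank_span_set_eq_card`/`finrank_span_eq_card` for linearly
independent families), and an injective linear map preserves the dimension
(`LinearMap.finrank_map_eq`/`Submodule.finrank_map_le`...). Two subspaces of `E` whose dimensions add up
to more than `d` have a nonzero common vector (`Submodule.finrank_sup_add_finrank_inf_eq`).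
Case `i₀ ≤ i₁`: take `i = i₀`, `i' = i₁`, `y₁ = w' i₁` (`S y₁ = κ • w i₀ ∈ span (w '' Iic i₀)`); for
`y₂`: `(d - i₀) + (i₁ + 1) > d`, so `R (span (w '' Ici i₀)) ∩ span (w' '' Iic i₁) ≠ 0`.
Case `i₁ < i₀`: take `i = i' = i₀`; `1 < μ' i₁ < μ' i₀`. For `y₂`: `(d - i₀) + (i₀ + 1) > d`; for `y₁`:
`S (span (w' '' Ici i₀))` and `span (w '' Iic i₀)`: `(d - i₀) + (i₀ + 1) > d`.
-/

open Set Filter Topology

namespace PRH

variable {E : Type*} [NormedAddCommGroup E] [NormedSpace ℝ E] [FiniteDimensional ℝ E]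

theorem Select_finrank {d : ℕ} {w : Fin d → E} (hw : LinearIndependent ℝ w) (s : Set (Fin d))
    [Fintype s] : Module.finrank ℝ (Submodule.span ℝ (w '' s)) = Fintype.card s := by
  have h : LinearIndependent ℝ (fun x : s => w x) := hw.comp _ Subtype.val_injective
  rw [Set.image_eq_range]
  exact finrank_span_eq_card h

theorem Select_dim {d : ℕ} {w w' : Fin d → E} (hw : LinearIndependent ℝ w)
    (hw' : LinearIndependent ℝ w') (hd : d = Module.finrank ℝ E) {R : E →L[ℝ] E}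
    (hR : Function.Injective R) {i i' : Fin d} (hi : (i : ℕ) ≤ i') :
    ∃ y : E, y ≠ 0 ∧ y ∈ Submodule.span ℝ (w '' Ici i) ∧
      R y ∈ Submodule.span ℝ (w' '' Iic i') := by
  classical
  set A := Submodule.span ℝ (w '' Ici i) with hA
  set B := Submodule.span ℝ (w' '' Iic i') with hB
  have hR' : Function.Injective (R : E →ₗ[ℝ] E) := hR
  have e1 : Module.finrank ℝ A = d - i := by
    rw [hA, Select_finrank hw]
    simp
  have e2 : Module.finrank ℝ B = i' + 1 := by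
    rw [hB, Select_finrank hw']
    simp
  have e3 : Module.finrank ℝ (A.map (R : E →ₗ[ℝ] E)) = Module.finrank ℝ A :=
    (LinearEquiv.finrank_eq (Submodule.equivMapOfInjective (R : E →ₗ[ℝ] E) hR' A)).symm
  have e4 := Submodule.finrank_sup_add_finrank_inf_eq (A.map (R : E →ₗ[ℝ] E)) B
  have e5 := Submodule.finrank_le (A.map (R : E →ₗ[ℝ] E) ⊔ B)
  have hne : A.map (R : E →ₗ[ℝ] E) ⊓ B ≠ ⊥ := by
    intro hbot
    rw [hbot, finrank_bot, e3, e1, e2] at e4
    have := i.isLt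
    omega
  obtain ⟨z, hz, hz0⟩ := Submodule.exists_mem_ne_zero_of_ne_bot hne
  rw [Submodule.mem_inf, Submodule.mem_map] at hz
  obtain ⟨⟨y, hy, rfl⟩, hzB⟩ := hz
  refine ⟨y, ?_, hy, hzB⟩
  rintro rfl
  exact hz0 (map_zero _)

theorem select {Q Q' : E →L[ℝ] E} {d : ℕ} {w w' : Fin d → E} {μ μ' : Fin d → ℝ}
    (h : EigB Q w μ) (h' : EigB Q' w' μ') {R S : E →L[ℝ] E} (hR : Function.Injective R)
    (hS : Function.Injective S) {i₀ i₁ : Fin d} (h0 : μ i₀ < 1) (h1 : 1 < μ' i₁) {κ : ℝ}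
    (hSu : S (w' i₁) = κ • w i₀) :
    ∃ i i' : Fin d, μ i < 1 ∧ 1 < μ' i' ∧
      (∃ y₁ : E, y₁ ≠ 0 ∧ y₁ ∈ Submodule.span ℝ (w' '' Ici i') ∧
        S y₁ ∈ Submodule.span ℝ (w '' Iic i)) ∧
      ∃ y₂ : E, y₂ ≠ 0 ∧ y₂ ∈ Submodule.span ℝ (w '' Ici i) ∧
        R y₂ ∈ Submodule.span ℝ (w' '' Iic i') := by
  rcases le_or_gt (i₀ : ℕ) i₁ with hle | hlt
  · refine ⟨i₀, i₁, h0, h1, ⟨w' i₁, h'.li.ne_zero i₁,
      Submodule.subset_span ⟨i₁, Set.mem_Ici.2 le_rfl, rfl⟩, ?_⟩, Select_dim h.li h'.li h.card hR hle⟩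
    rw [hSu]
    exact Submodule.smul_mem _ _ (Submodule.subset_span ⟨i₀, Set.mem_Iic.2 le_rfl, rfl⟩)
  · exact ⟨i₀, i₀, h0, h1.trans (h'.mono (Fin.lt_def.2 hlt)), Select_dim h'.li h.li h.card hS le_rfl,
      Select_dim h.li h'.li h.card hR le_rfl⟩

end PRH
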