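import Pool.Agent.PRH.LinPert
import Pool.Agent.PRH.EigDef

/-!
# From a vector of the slow part to the eigenvector (module ToEig)

HEADER. Write `y = ∑_{j ≤ i} c j • w j` (`y ∈ span (w '' Iic i)`), `α = c i`. Choose a real `s` with
`α + s ≠ 0` and `|s| ‖w i‖ < δ ‖y‖` (e.g. `s = 0` if `α ≠ 0`, else small positive) and, by
`exists_pert`, `β₁` with `‖β₁‖ < δ` and `(1 + β₁) y = y + s • w i =: y'`. Then
`Q^m y' = μ i ^ m • ((α + s) • w i + ∑_{j < i} (μ j / μ i)^m c j • w j)`, and the sum tends to `0` as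
`m → ∞` because `0 < μ j / μ i < 1` for `j < i`. So for large `m` the vector
`z_m = (μ i ^ m)⁻¹ • Q^m y'` is as close as we like to `(α + s) • w i ≠ 0`, and `exists_pert` gives `β₂`
with `‖β₂‖ < δ`, `(1 + β₂) z_m = (α + s) • w i` (need `‖(α + s) • w i - z_m‖ < δ ‖z_m‖`: the left side
tends to `0`, the right side to `δ ‖(α + s) • w i‖ > 0`). `κ = μ i ^ m * (α + s)`.
-/

open Set Filter Topology

namespace PRH

variable {E : Type*} [NormedAddCommGroup E] [NormedSpace ℝ E]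

theorem ToEig_repr {d : ℕ} {w : Fin d → E} {S : Set (Fin d)} {y : E}
    (hy : y ∈ Submodule.span ℝ (w '' S)) :
    ∃ c : Fin d → ℝ, (∀ j, j ∉ S → c j = 0) ∧ y = ∑ j, c j • w j := by
  obtain ⟨l, hl, rfl⟩ := (Finsupp.mem_span_image_iff_linearCombination ℝ).1 hy
  refine ⟨l, (Finsupp.mem_supported' ℝ l).1 hl, ?_⟩
  rw [Finsupp.linearCombination_apply]
  exact Finsupp.sum_fintype _ _ (fun j => zero_smul _ _)

theorem ToEig_pow {Q : E →L[ℝ] E} {d : ℕ} {w : Fin d → E} {μ : Fin d → ℝ} (h : EigB Q w μ)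
    (m : ℕ) (c : Fin d → ℝ) : (Q ^ m) (∑ j, c j • w j) = ∑ j, (c j * μ j ^ m) • w j := by
  induction m with
  | zero => simp
  | succ m ih =>
    have e : (Q ^ (m + 1)) (∑ j, c j • w j) = Q ((Q ^ m) (∑ j, c j • w j)) := by
      rw [pow_succ']
      rfl
    rw [e, ih, map_sum]
    refine Finset.sum_congr rfl (fun j _ => ?_)
    rw [map_smul, h.eig, smul_smul, pow_succ]
    congr 1
    ring

theorem ToEig_upd {d : ℕ} (w : Fin d → E) (c : Fin d → ℝ) (i : Fin d) (s : ℝ) :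
    ∑ j, c j • w j + s • w i = ∑ j, (Function.update c i (c i + s)) j • w j := by
  classical
  have h1 : ∀ j, (Function.update c i (c i + s)) j • w j = c j • w j + (if j = i then s • w i else 0) := by
    intro j
    by_cases hj : j = i
    · subst hj
      rw [Function.update_self, if_pos rfl, add_smul]
    · rw [Function.update_of_ne hj, if_neg hj, add_zero]
  rw [Finset.sum_congr rfl (fun j _ => h1 j), Finset.sum_add_distrib]
  congr 1
  rw [Finset.sum_ite_eq' Finset.univ i]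
  simp

theorem to_eig {Q : E →L[ℝ] E} {d : ℕ} {w : Fin d → E} {μ : Fin d → ℝ} (h : EigB Q w μ)
    {i : Fin d} {y : E} (hy : y ∈ Submodule.span ℝ (w '' Iic i)) (hy0 : y ≠ 0) {δ : ℝ}
    (hδ : 0 < δ) : ∃ β₁ β₂ : E →L[ℝ] E, ‖β₁‖ < δ ∧ ‖β₂‖ < δ ∧ ∃ m : ℕ, 0 < m ∧
      ∃ κ : ℝ, κ ≠ 0 ∧ (1 + β₂) ((Q ^ m) ((1 + β₁) y)) = κ • w i := by
  obtain ⟨c, hc, rfl⟩ := ToEig_repr hy
  have hyn : 0 < ‖∑ j, c j • w j‖ := norm_pos_iff.2 hy0
  have hwi : w i ≠ 0 := h.li.ne_zero i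
  have hwn : 0 < ‖w i‖ := norm_pos_iff.2 hwi
  obtain ⟨s, hs1, hs2⟩ : ∃ s : ℝ, c i + s ≠ 0 ∧ |s| * ‖w i‖ < δ * ‖∑ j, c j • w j‖ := by
    by_cases h0 : c i = 0
    · refine ⟨δ * ‖∑ j, c j • w j‖ / (2 * ‖w i‖), ?_, ?_⟩
      · rw [h0, zero_add]
        positivity
      · rw [abs_of_pos (by positivity)]
        have e : δ * ‖∑ j, c j • w j‖ / (2 * ‖w i‖) * ‖w i‖ = δ * ‖∑ j, c j • w j‖ / 2 := by
          field_simp
        rw [e]
        have : 0 < δ * ‖∑ j, c j • w j‖ := by positivity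
        linarith
    · refine ⟨0, by rwa [add_zero], ?_⟩
      rw [abs_zero, zero_mul]
      positivity
  obtain ⟨β₁, hβ₁, hβ₁'⟩ := exists_pert (x := ∑ j, c j • w j) (y := ∑ j, c j • w j + s • w i) hy0
    (δ := δ) (by rw [add_sub_cancel_left, norm_smul, Real.norm_eq_abs]; exact hs2)
  obtain ⟨c', hc'⟩ : ∃ c', c' = Function.update c i (c i + s) := ⟨_, rfl⟩
  have hc'i : c' i = c i + s := by rw [hc', Function.update_self]
  have hc'0 : ∀ j, i < j → c' j = 0 := by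
    intro j hj
    rw [hc', Function.update_of_ne hj.ne']
    exact hc j (fun h => absurd h (not_le.2 hj))
  rw [ToEig_upd, ← hc'] at hβ₁'
  have hlim : Tendsto (fun m : ℕ => ∑ j, (c' j * (μ j / μ i) ^ m) • w j) atTop
      (𝓝 (∑ j, if j = i then c' i • w i else 0)) := by
    refine tendsto_finset_sum _ (fun j _ => ?_)
    rcases lt_trichotomy j i with hj | hj | hj
    · rw [if_neg hj.ne]
      have h1 : Tendsto (fun m : ℕ => (μ j / μ i) ^ m) atTop (𝓝 0) :=
        tendsto_pow_atTop_nhds_zero_of_lt_one (div_pos (h.pos j) (h.pos i)).le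
          ((div_lt_one (h.pos i)).2 (h.mono hj))
      have h2 := (h1.const_mul (c' j)).smul_const (w j)
      rw [mul_zero, zero_smul] at h2
      exact h2
    · subst hj
      rw [if_pos rfl, div_self (h.pos j).ne']
      simp only [one_pow, mul_one]
      exact tendsto_const_nhds
    · rw [if_neg hj.ne', hc'0 j hj]
      simp only [zero_mul, zero_smul]
      exact tendsto_const_nhds
  rw [Finset.sum_ite_eq' Finset.univ i, if_pos (Finset.mem_univ i)] at hlim
  have hαw : 0 < ‖c' i • w i‖ := by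
    rw [norm_smul]
    exact mul_pos (by rw [norm_pos_iff, hc'i]; exact hs1) hwn
  have hev : ∀ᶠ m : ℕ in atTop, ‖c' i • w i - ∑ j, (c' j * (μ j / μ i) ^ m) • w j‖
      < δ * ‖∑ j, (c' j * (μ j / μ i) ^ m) • w j‖ := by
    refine Tendsto.eventually_lt (tendsto_const_nhds.sub hlim).norm (hlim.norm.const_mul δ) ?_
    rw [sub_self, norm_zero]
    positivity
  obtain ⟨m, hm, hm0⟩ := (hev.and (eventually_gt_atTop 0)).exists
  obtain ⟨zm, hzm⟩ : ∃ zm, zm = ∑ j, (c' j * (μ j / μ i) ^ m) • w j := ⟨_, rfl⟩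
  rw [← hzm] at hm
  have hzm0 : zm ≠ 0 := by
    intro h0
    rw [h0, norm_zero, mul_zero] at hm
    exact absurd hm (not_lt.2 (norm_nonneg _))
  obtain ⟨β₂, hβ₂, hβ₂'⟩ := exists_pert (x := zm) (y := c' i • w i) hzm0 hm
  refine ⟨β₁, β₂, hβ₁, hβ₂, m, hm0, μ i ^ m * c' i, ?_, ?_⟩
  · exact mul_ne_zero (pow_ne_zero _ (h.pos i).ne') (by rw [hc'i]; exact hs1)
  · rw [hβ₁', ToEig_pow h]
    have e1 : ∑ j, (c' j * μ j ^ m) • w j = μ i ^ m • zm := by
      rw [hzm, Finset.smul_sum]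
      refine Finset.sum_congr rfl (fun j _ => ?_)
      rw [smul_smul]
      congr 1
      have := (h.pos i).ne'
      rw [div_pow]
      field_simp
    rw [e1, map_smul, hβ₂', smul_smul]

end PRH
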