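import Mathlib

/-!
# Tuning (module Tune)

HEADER. Choose `a₀ ≥ 1` with `(1 + δ / 2) ^ a₀ > 1 / μ` and then `b ≥ 1` with `μ' ^ b * K * μ ^ a₀ > 1`.
Let `a` be the least natural number with `μ ^ a * (μ' ^ b * K) ≤ 1` (exists as `μ ^ a → 0`). Then
`a > a₀ ≥ 1` (for `a ≤ a₀` we have `μ ^ a ≥ μ ^ a₀`), and `μ ^ (a - 1) * (μ' ^ b * K) > 1`, so
`t = μ ^ a * (μ' ^ b * K) ∈ (μ, 1]`. Put `η = t ^ (-(1 / a)) - 1 ≥ 0` (real power); `(1 + η) ^ a = 1 / t`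
and `(1 + η) ^ a < 1 / μ < (1 + δ / 2) ^ a₀ ≤ (1 + δ / 2) ^ a`, so `η < δ / 2 < δ`. Finally
`((1 + η) μ) ^ a * μ' ^ b * K = (1 + η) ^ a * t = 1`.
-/

open Set Filter Topology

namespace PRH

theorem tune {μ μ' K δ : ℝ} (h0 : 0 < μ) (h1 : μ < 1) (h' : 1 < μ') (hK : 0 < K) (hδ : 0 < δ) :
    ∃ a b : ℕ, 0 < a ∧ 0 < b ∧ ∃ η : ℝ, 0 ≤ η ∧ η < δ ∧
      ((1 + η) * μ) ^ a * μ' ^ b * K = 1 := by
  obtain ⟨a₀, ha₀⟩ := pow_unbounded_of_one_lt (1 / μ) (show 1 < 1 + δ / 2 by linarith)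
  obtain ⟨b, hb⟩ := pow_unbounded_of_one_lt (1 / (K * μ ^ a₀)) h'
  have hKμ : 0 < K * μ ^ a₀ := mul_pos hK (pow_pos h0 _)
  have hb1 : 1 / (K * μ ^ a₀) < μ' ^ (b + 1) :=
    hb.trans_le (pow_le_pow_right₀ h'.le (Nat.le_succ b))
  set T : ℝ := μ' ^ (b + 1) * K with hT
  have hT0 : 0 < T := mul_pos (pow_pos (by linarith) _) hK
  have hTa : 1 < μ ^ a₀ * T := by
    rw [div_lt_iff₀ hKμ] at hb1
    calc (1 : ℝ) < μ' ^ (b + 1) * (K * μ ^ a₀) := hb1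
      _ = μ ^ a₀ * T := by rw [hT]; ring
  have hex : ∃ n : ℕ, μ ^ n * T ≤ 1 := by
    obtain ⟨n, hn⟩ := exists_pow_lt_of_lt_one (show 0 < 1 / T by positivity) h1
    refine ⟨n, ?_⟩
    rw [lt_div_iff₀ hT0] at hn
    exact hn.le
  classical
  set a := Nat.find hex with ha
  have ha1 : μ ^ a * T ≤ 1 := Nat.find_spec hex
  have ha2 : a₀ < a := by
    by_contra h
    push Not at h
    have h2 : μ ^ a₀ ≤ μ ^ a := pow_le_pow_of_le_one h0.le h1.le h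
    have h3 : μ ^ a₀ * T ≤ μ ^ a * T := mul_le_mul_of_nonneg_right h2 hT0.le
    linarith
  have ha0 : 0 < a := by omega
  have ha3 : 1 < μ ^ (a - 1) * T := by
    have := Nat.find_min hex (m := a - 1) (by omega)
    push Not at this
    exact this
  set t : ℝ := μ ^ a * T with ht
  have ht0 : 0 < t := mul_pos (pow_pos h0 _) hT0
  have htμ : μ < t := by
    have h2 : μ ^ a = μ ^ (a - 1) * μ := by
      rw [← pow_succ]
      congr 1
      omega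
    rw [ht, h2]
    calc μ = μ * 1 := (mul_one μ).symm
      _ < μ * (μ ^ (a - 1) * T) := mul_lt_mul_of_pos_left ha3 h0
      _ = μ ^ (a - 1) * μ * T := by ring
  set s : ℝ := (t⁻¹) ^ ((a : ℝ)⁻¹) with hs
  have hs0 : 0 ≤ s := Real.rpow_nonneg (inv_nonneg.2 ht0.le) _
  have hsa : s ^ a = t⁻¹ := Real.rpow_inv_natCast_pow (inv_nonneg.2 ht0.le) ha0.ne'
  have hs1 : 1 ≤ s := by
    by_contra h
    push Not at h
    have h2 : s ^ a < 1 := pow_lt_one₀ hs0 h ha0.ne'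
    rw [hsa] at h2
    have h3 : 1 ≤ t⁻¹ := (one_le_inv₀ ht0).2 ha1
    linarith
  have hs2 : s < 1 + δ / 2 := by
    by_contra h
    push Not at h
    have h2 : (1 + δ / 2) ^ a₀ ≤ (1 + δ / 2) ^ a := pow_le_pow_right₀ (by linarith) ha2.le
    have h3 : (1 + δ / 2) ^ a ≤ s ^ a := pow_le_pow_left₀ (by linarith) h a
    rw [hsa] at h3
    have h4 : t⁻¹ < 1 / μ := by
      rw [← one_div]
      exact one_div_lt_one_div_of_lt h0 htμ
    linarith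
  refine ⟨a, b + 1, ha0, Nat.succ_pos b, s - 1, by linarith, by linarith, ?_⟩
  have h5 : 1 + (s - 1) = s := by ring
  rw [h5, mul_pow, hsa, mul_assoc, ← hT, mul_assoc, ← ht]
  exact inv_mul_cancel₀ ht0.ne'

end PRH
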