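import Pool.Agent.PRH.EigBasis
import Pool.Agent.PRH.ToEig
import Pool.Agent.PRH.FromEig
import Pool.Agent.PRH.Select
import Pool.Agent.PRH.Tune

/-!
# The main lemma of linear algebra (module LemmaL)

HEADER. Let `d = dim E`, `P = (1 + B₀) * X 0 0`, `P' = (1 + B₁) * X 1 1`, `S = (1 + B₂) * X 1 0`,
`R = X 0 1` (letter with `B = 0`). All are injective (`‖B‖ < 1`).
1. `exists_eigenbasis` for `P`, `u`, `lam` (vertex 0): `Q`, `w`, `μ`, `j₀`, `w j₀ = u`,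
   `μ j₀ = lam ^ N < 1`, budget `d`; for `P'`, `u'`, `lam'` (vertex 1): `Q'`, `w'`, `μ'`, `j₁`,
   `w' j₁ = u'`, `μ' j₁ = lam' ^ N' > 1`, budget `d`.
2. `select` with `R`, `S`, `i₀ = j₀`, `i₁ = j₁`, `S (w' j₁) = κ • w j₀`: `i, i', y₁, y₂`.
   Write `e = w i`, `e' = w' i'`.
3. The numbers `δ`: `δ₁` from `Reach.scal_pow` for `Q`; `δ₂` from `Reach.pert_pow` for `Q`;
   `δ₃` from `Reach.pert` for the one letter walk `R : 0 → 1`; `δ₄` from `Reach.pert_pow` for `Q'`;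
   `δ₅` from `Reach.pert` for the one letter walk `S : 1 → 0`. Let `δ` be the minimum.
4. `from_eig` (vertex 0, `y₂ ∈ span (w '' Ici i)`): `β₁, β₂, m₁, κ₁`:
   `(1 + β₂) (Q^m₁ ((1 + β₁) e)) = κ₁ y₂`.
   `to_eig` (vertex 1, `R y₂ ∈ span (w' '' Iic i')`, `R y₂ ≠ 0`): `β₃, β₄, m₂, κ₂`:
   `(1 + β₄) (Q'^m₂ ((1 + β₃) (R y₂))) = κ₂ e'`.
   `from_eig` (vertex 1, `y₁`): `β₅, β₆, m₃, κ₃`: `(1 + β₆) (Q'^m₃ ((1 + β₅) e')) = κ₃ y₁`.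
   `to_eig` (vertex 0, `S y₁`): `β₇, β₈, m₄, κ₄`: `(1 + β₈) (Q^m₄ ((1 + β₇) (S y₁))) = κ₄ e`.
5. `tune` with `μ i < 1 < μ' i'`, `K = |κ₁ κ₂ κ₃ κ₄|`, `δ`: `a, b, η`.
6. The closed walk at `0` (from the right to the left):
   `T = [(1+β₈) Q^m₄] [(1+β₇) S] [(1+β₆) Q'^m₃] [(1+β₅) Q'^b] [(1+β₄) Q'^m₂] [(1+β₃) R]
        [(1+β₂) Q^m₁] [(1+β₁) ((1+η) Q)^a]`
   with the budgets `d+1, 2, d+1, d+1, d+1, 2, d+1, d+2`; total `6 d + 11 ≤ 8 d + 20`.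
   `T e = ((1+η) μ i)^a (μ' i')^b κ₁ κ₂ κ₃ κ₄ • e = ± e`.
   So `T * T` (same budget: `Reach.pow` with `m = 2`) fixes `e ≠ 0`.
-/

open Set Filter Topology

namespace PRH

variable {E : Type*} [NormedAddCommGroup E] [NormedSpace ℝ E] [FiniteDimensional ℝ E]

omit [FiniteDimensional ℝ E] in
theorem LemmaL_inj {B : E →L[ℝ] E} (hB : ‖B‖ < 1) {F : E →L[ℝ] E} (hF : Function.Injective F) :
    Function.Injective ((1 + B) * F : E →L[ℝ] E) := by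
  have h1 : Function.Injective (1 + B : E →L[ℝ] E) := by
    refine (injective_iff_map_eq_zero (1 + B : E →L[ℝ] E)).2 fun x hx => ?_
    have h2 : x + B x = 0 := hx
    have h3 : ‖x‖ ≤ ‖B‖ * ‖x‖ := by
      have h4 : x = -B x := by
        rw [← sub_eq_zero, sub_neg_eq_add]
        exact h2
      calc ‖x‖ = ‖B x‖ := by
            conv_lhs => rw [h4]
            exact norm_neg _
        _ ≤ ‖B‖ * ‖x‖ := B.le_opNorm x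
    by_contra hne
    have h5 := norm_pos_iff.2 hne
    nlinarith
  intro x y hxy
  exact hF (h1 hxy)

omit [FiniteDimensional ℝ E] in
theorem LemmaL_pow {Q : E →L[ℝ] E} {v : E} {c : ℝ} (h : Q v = c • v) (n : ℕ) :
    (Q ^ n) v = c ^ n • v := by
  induction n with
  | zero => rw [pow_zero, pow_zero, one_smul]; rfl
  | succ n ih =>
    rw [pow_succ']
    show Q ((Q ^ n) v) = _
    rw [ih, map_smul, h, smul_smul, pow_succ]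

theorem lemmaL {X : Fin 2 → Fin 2 → E →L[ℝ] E} (hX : ∀ i j, Function.Injective (X i j)) {ε : ℝ}
    (hε : ε ≤ 1) {B₀ B₁ B₂ : E →L[ℝ] E} (hB₀ : ‖B₀‖ < ε) (hB₁ : ‖B₁‖ < ε) (hB₂ : ‖B₂‖ < ε)
    {u u' : E} (hu : u ≠ 0) (hu' : u' ≠ 0) {lam lam' κ : ℝ} (hl : 0 < lam) (hl1 : lam < 1)
    (hl' : 1 < lam') (hκ : κ ≠ 0) (h0 : (1 + B₀) (X 0 0 u) = lam • u)
    (h1 : (1 + B₁) (X 1 1 u') = lam' • u') (h2 : (1 + B₂) (X 1 0 u') = κ • u) :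
    ∃ T : E →L[ℝ] E, Reach X ε (8 * Module.finrank ℝ E + 20) 0 0 T ∧ ∃ v : E, v ≠ 0 ∧ T v = v := by
  have hε0 : 0 < ε := lt_of_le_of_lt (norm_nonneg _) hB₀
  obtain ⟨Q, hQ, w, μ, hw, j₀, N, hN, hwj, hμj⟩ := exists_eigenbasis
    (Reach.of_letter (X := X) (i := 0) (j := 0) hB₀) (LemmaL_inj (hB₀.trans_le hε) (hX 0 0)) hu hl h0
  obtain ⟨Q', hQ', w', μ', hw', j₁, N', hN', hwj', hμj'⟩ := exists_eigenbasis
    (Reach.of_letter (X := X) (i := 1) (j := 1) hB₁) (LemmaL_inj (hB₁.trans_le hε) (hX 1 1)) hu'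
    (by linarith : 0 < lam') h1
  have hSr : Reach X ε 1 1 0 ((1 + B₂) * X 1 0) := Reach.of_letter hB₂
  have hRr : Reach X ε 1 0 1 ((1 + 0) * X 0 1) := Reach.of_letter (by rw [norm_zero]; exact hε0)
  have hRi : Function.Injective ((1 + 0) * X 0 1 : E →L[ℝ] E) :=
    LemmaL_inj (by rw [norm_zero]; norm_num) (hX 0 1)
  have hSi : Function.Injective ((1 + B₂) * X 1 0 : E →L[ℝ] E) := LemmaL_inj (hB₂.trans_le hε) (hX 1 0)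
  obtain ⟨i, i', hi, hi', ⟨y₁, hy₁, hy₁a, hy₁b⟩, y₂, hy₂, hy₂a, hy₂b⟩ :=
    select hw hw' hRi hSi (i₀ := j₀) (i₁ := j₁) (κ := κ) (by rw [hμj]; exact pow_lt_one₀ hl.le hl1 hN.ne')
      (by rw [hμj']; exact one_lt_pow₀ hl' hN'.ne') (by rw [hwj, hwj']; exact h2)
  set S : E →L[ℝ] E := (1 + B₂) * X 1 0 with hS
  set R : E →L[ℝ] E := (1 + 0) * X 0 1 with hR
  obtain ⟨δ₁, hδ₁, hd₁⟩ := hQ.scal_pow
  obtain ⟨δ₂, hδ₂, hd₂⟩ := hQ.pert_pow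
  obtain ⟨δ₃, hδ₃, hd₃⟩ := hRr.pert
  obtain ⟨δ₄, hδ₄, hd₄⟩ := hQ'.pert_pow
  obtain ⟨δ₅, hδ₅, hd₅⟩ := hSr.pert
  obtain ⟨δ, hδ, hδa, hδb, hδc, hδd, hδe⟩ : ∃ δ : ℝ, 0 < δ ∧ δ ≤ δ₁ ∧ δ ≤ δ₂ ∧ δ ≤ δ₃ ∧ δ ≤ δ₄ ∧ δ ≤ δ₅ := by
    refine ⟨min δ₁ (min δ₂ (min δ₃ (min δ₄ δ₅))), ?_, ?_, ?_, ?_, ?_, ?_⟩
    · exact lt_min hδ₁ (lt_min hδ₂ (lt_min hδ₃ (lt_min hδ₄ hδ₅)))
    · exact min_le_left _ _
    · exact (min_le_right _ _).trans (min_le_left _ _)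
    · exact (min_le_right _ _).trans ((min_le_right _ _).trans (min_le_left _ _))
    · exact (min_le_right _ _).trans ((min_le_right _ _).trans ((min_le_right _ _).trans
        (min_le_left _ _)))
    · exact (min_le_right _ _).trans ((min_le_right _ _).trans ((min_le_right _ _).trans
        (min_le_right _ _)))
  have hRy : R y₂ ≠ 0 := fun h => hy₂ (hRi (h.trans (map_zero R).symm))
  have hSy : S y₁ ≠ 0 := fun h => hy₁ (hSi (h.trans (map_zero S).symm))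
  obtain ⟨β₁, β₂, hβ₁, hβ₂, m₁, hm₁, κ₁, hκ₁, e₁⟩ := from_eig hw hy₂a hy₂ hδ
  obtain ⟨β₃, β₄, hβ₃, hβ₄, m₂, hm₂, κ₂, hκ₂, e₂⟩ := to_eig hw' hy₂b hRy hδ
  obtain ⟨β₅, β₆, hβ₅, hβ₆, m₃, hm₃, κ₃, hκ₃, e₃⟩ := from_eig hw' hy₁a hy₁ hδ
  obtain ⟨β₇, β₈, hβ₇, hβ₈, m₄, hm₄, κ₄, hκ₄, e₄⟩ := to_eig hw hy₁b hSy hδ
  have hK : 0 < |κ₁ * κ₂ * κ₃ * κ₄| :=
    abs_pos.2 (mul_ne_zero (mul_ne_zero (mul_ne_zero hκ₁ hκ₂) hκ₃) hκ₄)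
  obtain ⟨a, b, ha, hb, η, hη0, hη, hab⟩ := tune (hw.pos i) hi hi' hK hδ
  have r1 := hd₁ η hη0 (hη.trans_le hδa) β₁ (hβ₁.trans_le hδa) a ha
  have r2 := hd₂ β₂ (hβ₂.trans_le hδb) m₁ hm₁
  have r3 := hd₃ β₃ (hβ₃.trans_le hδc)
  have r4 := hd₄ β₄ (hβ₄.trans_le hδd) m₂ hm₂
  have r5 := hd₄ β₅ (hβ₅.trans_le hδd) b hb
  have r6 := hd₄ β₆ (hβ₆.trans_le hδd) m₃ hm₃
  have r7 := hd₅ β₇ (hβ₇.trans_le hδe)
  have r8 := hd₂ β₈ (hβ₈.trans_le hδb) m₄ hm₄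
  have rT := ((((((r1.trans r2).trans r3).trans r4).trans r5).trans r6).trans r7).trans r8
  have rT2 := (rT.pow (m := 2) (by norm_num)).mono le_rfl
    (n' := 8 * Module.finrank ℝ E + 20) (by omega)
  refine ⟨_, rT2, w i, hw.li.ne_zero i, ?_⟩
  set c : ℝ := ((1 + η) * μ i) ^ a with hc
  have q1 : (((1 + η) • Q) ^ a) (w i) = c • w i := by
    refine LemmaL_pow ?_ a
    show (1 + η) • Q (w i) = _
    rw [hw.eig, smul_smul]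
  have q5 : (Q' ^ b) (w' i') = μ' i' ^ b • w' i' := LemmaL_pow (hw'.eig i') b
  have s1 : ((1 + β₂) * Q ^ m₁) (((1 + β₁) * ((1 + η) • Q) ^ a) (w i)) = (c * κ₁) • y₂ := by
    show (1 + β₂) ((Q ^ m₁) ((1 + β₁) ((((1 + η) • Q) ^ a) (w i)))) = _
    rw [q1, map_smul, map_smul, map_smul, e₁, smul_smul]
  have s2 : ((1 + β₄) * Q' ^ m₂) (((1 + β₃) * R) ((c * κ₁) • y₂)) = (c * κ₁ * κ₂) • w' i' := by
    show (1 + β₄) ((Q' ^ m₂) ((1 + β₃) (R ((c * κ₁) • y₂)))) = _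
    rw [map_smul, map_smul, map_smul, map_smul, e₂, smul_smul]
  have s3 : ((1 + β₆) * Q' ^ m₃) (((1 + β₅) * Q' ^ b) ((c * κ₁ * κ₂) • w' i')) =
      (c * κ₁ * κ₂ * μ' i' ^ b * κ₃) • y₁ := by
    show (1 + β₆) ((Q' ^ m₃) ((1 + β₅) ((Q' ^ b) ((c * κ₁ * κ₂) • w' i')))) = _
    rw [map_smul, q5, smul_smul, map_smul, map_smul, map_smul, e₃, smul_smul]
  have s4 : ((1 + β₈) * Q ^ m₄) (((1 + β₇) * S) ((c * κ₁ * κ₂ * μ' i' ^ b * κ₃) • y₁)) =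
      (c * κ₁ * κ₂ * μ' i' ^ b * κ₃ * κ₄) • w i := by
    show (1 + β₈) ((Q ^ m₄) ((1 + β₇) (S ((c * κ₁ * κ₂ * μ' i' ^ b * κ₃) • y₁)))) = _
    rw [map_smul, map_smul, map_smul, map_smul, e₄, smul_smul]
  set t : ℝ := c * κ₁ * κ₂ * μ' i' ^ b * κ₃ * κ₄ with ht
  have ht2 : t ^ 2 = 1 := by
    have h3 : t = c * μ' i' ^ b * (κ₁ * κ₂ * κ₃ * κ₄) := by
      rw [ht]
      ring
    have h4 : t ^ 2 = (c * μ' i' ^ b * |κ₁ * κ₂ * κ₃ * κ₄|) ^ 2 := by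
      rw [h3, mul_pow, mul_pow _ |κ₁ * κ₂ * κ₃ * κ₄|, sq_abs]
    rw [h4, hc, hab, one_pow]
  have hT : (((1 + β₈) * Q ^ m₄) * (((1 + β₇) * S) * (((1 + β₆) * Q' ^ m₃) * (((1 + β₅) * Q' ^ b) *
      (((1 + β₄) * Q' ^ m₂) * (((1 + β₃) * R) * (((1 + β₂) * Q ^ m₁) *
        ((1 + β₁) * ((1 + η) • Q) ^ a)))))))) (w i) = t • w i := by
    show ((1 + β₈) * Q ^ m₄) (((1 + β₇) * S) (((1 + β₆) * Q' ^ m₃) (((1 + β₅) * Q' ^ b)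
      (((1 + β₄) * Q' ^ m₂) (((1 + β₃) * R) (((1 + β₂) * Q ^ m₁)
        (((1 + β₁) * ((1 + η) • Q) ^ a) (w i)))))))) = _
    rw [s1, s2, s3, s4]
  rw [LemmaL_pow hT 2, ht2, one_smul]

end PRH
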