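import Mathlib

/-!
# Rank one perturbations (module LinPert)

HEADER.

`exists_pert`: Let `φ : E →L ℝ` with `φ x = 1`, `‖φ‖ = 1 / ‖x‖` (`exists_dual_vector`: a functional `g`
with `‖g‖ = 1`, `g x = ‖x‖`; take `φ = ‖x‖⁻¹ • g`), `β = φ.smulRight (y - x)`. Then
`‖β‖ ≤ ‖φ‖ ‖y - x‖ < δ` and `(1 + β) x = x + (y - x) = y`.
-/

open Set Filter Topology

namespace PRH

variable {E : Type*} [NormedAddCommGroup E] [NormedSpace ℝ E]

/-- A small linear perturbation which maps `x` to a given nearby vector `y`. -/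
theorem exists_pert {x y : E} (hx : x ≠ 0) {δ : ℝ} (h : ‖y - x‖ < δ * ‖x‖) :
    ∃ β : E →L[ℝ] E, ‖β‖ < δ ∧ (1 + β) x = y := by
  have hx0 : 0 < ‖x‖ := norm_pos_iff.2 hx
  obtain ⟨g, hg1, hg2⟩ := exists_dual_vector ℝ x hx0.ne'
  have hg3 : g x = ‖x‖ := by simpa using hg2
  refine ⟨(‖x‖⁻¹ • g).smulRight (y - x), ?_, ?_⟩
  · rw [ContinuousLinearMap.norm_smulRight_apply, norm_smul, norm_inv, norm_norm, hg1, mul_one,
      inv_mul_lt_iff₀ hx0, mul_comm]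
    exact h
  · have h2 : ((‖x‖⁻¹ • g : E →L[ℝ] ℝ)) x = 1 := by
      change ‖x‖⁻¹ * g x = 1
      rw [hg3, inv_mul_cancel₀ hx0.ne']
    rw [_root_.add_apply, one_apply_eq_self,
      ContinuousLinearMap.smulRight_apply, h2, one_smul]
    abel

end PRH
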