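import Pool.Agent.PRH.CocBasic
import Pool.Agent.PRH.LemmaL
import Pool.Agent.PRH.LinPert

/-!
# The forbidden configuration (module Config)

HEADER. `Star` with `J = 8 * finrank E + 20` gives `L₀`; for `c` it gives `ε₀ > 0`. Let
`ε = min (min ε₀ 1) ρ`, where `ball (c j) ρ ⊆ S (c j)` for `j = 0, 1` (`S_open`, `S_self`). Let `V, n`
satisfy the closeness conditions with `ε`. Every `X i j = T (c j) _ * A _ _ * T' (c i) (V i)` is
injective: `T' (c i) (V i)` is injective by `T_mul` (`V i ∈ S (c i)`), `A_injective`, `T (c j) _` is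
injective by `T_mul'`. `X 0 0 u ≠ 0`, so `exists_pert` (with `x = X 0 0 u`, `y = lam • u`) gives `B₀`,
`‖B₀‖ < ε`, `(1 + B₀) (X 0 0 u) = lam • u`; the same for `B₁`; `B₂ = 0`. Apply `lemmaL` (with `ε ≤ 1`) and
`Reach.mono` (`ε ≤ ε₀`) and the property of `Star`.
-/

open Set Filter Topology Metric OmSt

namespace PRH

namespace LCoc

variable {Z : Type*} [MetricSpace Z] {E : Type*} [NormedAddCommGroup E] [NormedSpace ℝ E]
  [FiniteDimensional ℝ E] {C : LCoc Z E}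

theorem Star.config (hS : C.Star) : ∃ L₀ : ℕ, ∀ c : Fin 2 → Z, ∃ ε > 0,
    (∀ j, ball (c j) ε ⊆ C.S (c j)) ∧
    ∀ (V : Fin 2 → Z) (n : Fin 2 → Fin 2 → ℕ), (∀ i, dist (V i) (c i) < ε) →
    (∀ i j, L₀ ≤ n i j ∧ dist (zi C.G.toEquiv (n i j) (V i)) (c j) < ε) →
    ∀ (u u' : E) (lam lam' κ : ℝ), u ≠ 0 → u' ≠ 0 → 0 < lam → lam < 1 → 1 < lam' → κ ≠ 0 →
      ‖lam • u - C.X c V n 0 0 u‖ < ε * ‖C.X c V n 0 0 u‖ →
      ‖lam' • u' - C.X c V n 1 1 u'‖ < ε * ‖C.X c V n 1 1 u'‖ →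
      C.X c V n 1 0 u' = κ • u → False := by
  obtain ⟨L₀, hL₀⟩ := hS (8 * Module.finrank ℝ E + 20)
  refine ⟨L₀, fun c => ?_⟩
  obtain ⟨ε₀, hε₀, H⟩ := hL₀ c
  have hb : ∀ j, ∃ ρ > 0, ball (c j) ρ ⊆ C.S (c j) := fun j =>
    Metric.isOpen_iff.1 (C.S_open _) _ (C.S_self _)
  choose ρ hρ hbρ using hb
  obtain ⟨ε, hε, hε0, hε1, hερ⟩ : ∃ ε > 0, ε ≤ ε₀ ∧ ε ≤ 1 ∧ ∀ j, ε ≤ ρ j := by
    refine ⟨min (min ε₀ 1) (min (ρ 0) (ρ 1)), lt_min (lt_min hε₀ one_pos) (lt_min (hρ 0) (hρ 1)),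
      (min_le_left _ _).trans (min_le_left _ _), (min_le_left _ _).trans (min_le_right _ _), ?_⟩
    intro j
    fin_cases j
    · exact (min_le_right _ _).trans (min_le_left _ _)
    · exact (min_le_right _ _).trans (min_le_right _ _)
  have hball : ∀ j, ball (c j) ε ⊆ C.S (c j) := fun j =>
    (ball_subset_ball (hερ j)).trans (hbρ j)
  refine ⟨ε, hε, hball, ?_⟩
  intro V n hV hn u u' lam lam' κ hu hu' h0 h1 h1' hκ hu0 hu1 hu2
  have hinj : ∀ i j, Function.Injective (C.X c V n i j) := by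
    intro i j
    have i1 : Function.Injective (C.T' (c i) (V i)) := by
      intro v w hvw
      have hm : V i ∈ C.S (c i) := hball i (by rw [mem_ball]; exact hV i)
      have e := C.T_mul (c i) (V i) hm
      have e1 : ∀ x, C.T (c i) (V i) (C.T' (c i) (V i) x) = x := by
        intro x
        have := congrArg (fun f : E →L[ℝ] E => f x) e
        simpa using this
      rw [← e1 v, ← e1 w, hvw]
    have i2 : Function.Injective (C.T (c j) (zi C.G.toEquiv (n i j) (V i))) := by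
      intro v w hvw
      have hm : zi C.G.toEquiv (n i j) (V i) ∈ C.S (c j) :=
        hball j (by rw [mem_ball]; exact (hn i j).2)
      have e := C.T_mul' (c j) _ hm
      have e1 : ∀ x, C.T' (c j) (zi C.G.toEquiv (n i j) (V i))
          (C.T (c j) (zi C.G.toEquiv (n i j) (V i)) x) = x := by
        intro x
        have := congrArg (fun f : E →L[ℝ] E => f x) e
        simpa using this
      rw [← e1 v, ← e1 w, hvw]
    have i3 := C.A_injective (n i j) (V i)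
    intro v w hvw
    apply i1
    apply i3
    apply i2
    exact hvw
  have hx0 : C.X c V n 0 0 u ≠ 0 := by
    intro h
    apply hu
    apply hinj 0 0
    rw [h, map_zero]
  have hx1 : C.X c V n 1 1 u' ≠ 0 := by
    intro h
    apply hu'
    apply hinj 1 1
    rw [h, map_zero]
  obtain ⟨B₀, hB₀, e0⟩ := exists_pert hx0 hu0
  obtain ⟨B₁, hB₁, e1⟩ := exists_pert hx1 hu1
  obtain ⟨T, hT, v, hv, hTv⟩ := lemmaL hinj hε1 hB₀ hB₁ (B₂ := 0) (by rw [norm_zero]; exact hε)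
    hu hu' h0 h1 h1' hκ e0 e1 (by rw [add_zero]; simpa using hu2)
  exact hv (H V n (fun i => (hV i).trans_le hε0)
    (fun i j => ⟨(hn i j).1, (hn i j).2.trans_le hε0⟩) T (hT.mono hε0 le_rfl) v hTv)

end LCoc

end PRH
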