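import Pool.Agent.PRH.HalfMax

/-!
# Unbounded vectors: uniform backward estimates (module Record)

HEADER. Let `n₀ ≥ 1` be the number of `NB.halfMax` and `K₀ ≥ 1` with `nn z v i ≤ K₀ N z v` for all
`|i| ≤ n₀` (`exists_bound`). Let `z ∈ Λ`, `V` a subspace with `V ⊓ Sp z = ⊥`.

(a) There is `n₁ ≥ 2 n₀` such that for every `v ∈ V`, `v ≠ 0`, there is `i ≤ n₁` (`i : ℕ`) with
`nn z v i > K₀ N z v`. Otherwise for every `m` there is `v_m ∈ V`, `N z v_m = 1` (normalize), with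
`nn z v_m i ≤ K₀` for all `0 ≤ i ≤ m`. The sequence `v_m` lies in the compact set
(closed bounded set of the finite dimensional space `E`; use `exists_conv` for the constant sequence
`z`, or `coercive z`); a limit point `v' ∈ V` (`V` closed), `N z v' = 1`, has `nn z v' i ≤ K₀` for all
`i ≥ 0`, so `v' ∈ Sp z ⊓ V = ⊥`, `v' = 0`: contradiction. (With `Conv` for constant `z`: `v_m → v'` in `E`
because `T z z` is invertible.)

(b) Let `n ≥ n₁`, `v ∈ V`, `v ≠ 0`, `a_j = nn z v j`, and let `p ≤ n` be such that `a_p` is the maximum of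
`a_0, ..., a_n`. Then `a_p ≥ max > K₀ a_0`. So `p > n₀` (`a_j ≤ K₀ a_0` for `j ≤ n₀`).
If `p ≤ n - n₀` then `halfMax` at `zi p z ∈ Λ` gives `|i| ≤ n₀` with `2 a_p ≤ a_{p + i} ≤ a_p`
(`0 ≤ p + i ≤ n`), so `a_p = 0`: contradiction (`nn_pos`). So `n - n₀ < p ≤ n` and
`a_p = nn (zi n z) (A n z v) (p - n) ≤ K₀ N (zi n z) (A n z v) = K₀ a_n`. Hence `a_j ≤ a_p ≤ K₀ a_n` for all
`0 ≤ j ≤ n`.
-/

open Set Filter Topology Metric OmSt

namespace PRH

namespace LCoc

variable {Z : Type*} [MetricSpace Z] [CompactSpace Z] {E : Type*} [NormedAddCommGroup E]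
  [NormedSpace ℝ E] [FiniteDimensional ℝ E] {C : LCoc Z E}

/-- a vector of `V` becomes larger than `K` times its initial value, uniformly -/
theorem Record_a {z : Z} {V : Submodule ℝ E} (hV : V ⊓ C.Sp z = ⊥) (K : ℝ) :
    ∃ n₁ : ℕ, ∀ v ∈ V, v ≠ 0 → ∃ i ≤ n₁, K * C.N z v < C.nn z v (i : ℕ) := by
  by_contra hcon
  push Not at hcon
  choose v hvV hv0 hv using hcon
  have hpos : ∀ n, 0 < C.N z (v n) := fun n => C.N_pos z _ (hv0 n)
  set w : ℕ → E := fun n => (C.N z (v n))⁻¹ • v n with hw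
  have hwV : ∀ n, w n ∈ V := fun n => V.smul_mem _ (hvV n)
  have hw1 : ∀ n, C.N z (w n) = 1 := by
    intro n
    simp only [hw]
    rw [C.N_smul, abs_of_pos (inv_pos.2 (hpos n)), inv_mul_cancel₀ (hpos n).ne']
  have hw2 : ∀ (n i : ℕ), i ≤ n → C.nn z (w n) i ≤ K := by
    intro n i hi
    have h1 := hv n i hi
    simp only [hw]
    rw [C.nn_smul, abs_of_pos (inv_pos.2 (hpos n)), inv_mul_le_iff₀ (hpos n), mul_comm]
    exact h1
  obtain ⟨φ, z', v', hφ, hconv⟩ := C.exists_conv (z := fun _ => z) (v := w) (K := 1) (fun k => (hw1 k).le)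
  have hzz : z' = z := by
    have h1 : Tendsto (fun _ : ℕ => z) atTop (𝓝 z') := hconv.1
    exact tendsto_nhds_unique h1 tendsto_const_nhds |>.symm ▸ rfl
  subst hzz
  have hN : C.N z' v' = 1 := by
    have h1 := hconv.norm
    have h2 : (fun k => C.N (((fun _ => z') ∘ φ : ℕ → Z) k) ((w ∘ φ) k)) = fun _ => (1 : ℝ) := by
      funext k
      exact hw1 (φ k)
    rw [h2] at h1
    exact (tendsto_nhds_unique h1 tendsto_const_nhds)
  -- the limit belongs to `V`
  have hlim : Tendsto (w ∘ φ) atTop (𝓝 v') := by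
    have h1 : Tendsto (fun k => C.T z' z' (w (φ k))) atTop (𝓝 (C.T z' z' v')) := hconv.2
    have h2 : Tendsto (fun k => C.T' z' z' (C.T z' z' (w (φ k)))) atTop (𝓝 (C.T' z' z' (C.T z' z' v'))) :=
      ((C.T' z' z').continuous.tendsto _).comp h1
    have h3 : ∀ u : E, C.T' z' z' (C.T z' z' u) = u := by
      intro u
      have := C.T_mul' z' z' (C.S_self z')
      exact congrArg (fun L : E →L[ℝ] E => L u) this
    rw [h3] at h2
    have h4 : (fun k => C.T' z' z' (C.T z' z' (w (φ k)))) = w ∘ φ := by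
      funext k
      exact h3 _
    rw [h4] at h2
    exact h2
  have hvV' : v' ∈ V := by
    have hcl : IsClosed (V : Set E) := V.closed_of_finiteDimensional
    exact hcl.mem_of_tendsto hlim (Eventually.of_forall fun k => hwV _)
  have hSp : v' ∈ C.Sp z' := by
    rw [C.mem_Sp]
    refine ⟨K, fun i => ?_⟩
    refine le_of_tendsto (hconv.nn i) ?_
    filter_upwards [eventually_ge_atTop i] with k hk
    exact hw2 _ _ (hk.trans (hφ.id_le k))
  have h0 : v' ∈ V ⊓ C.Sp z' := ⟨hvV', hSp⟩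
  rw [hV, Submodule.mem_bot] at h0
  rw [h0, C.N_zero] at hN
  exact zero_ne_one hN

theorem NB.record {Λ : Set Z} (hΛ : IsClosed Λ) (hinv : ∀ z ∈ Λ, ∀ i : ℤ, zi C.G.toEquiv i z ∈ Λ)
    (h : C.NB Λ) : ∃ K : ℝ, 0 < K ∧ ∀ z ∈ Λ, ∀ V : Submodule ℝ E, V ⊓ C.Sp z = ⊥ →
      ∃ n₁ : ℕ, ∀ n : ℕ, n₁ ≤ n → ∀ v ∈ V, ∀ j : ℕ, j ≤ n → C.nn z v j ≤ K * C.nn z v n := by
  obtain ⟨m₀, hm₀⟩ := NB.halfMax hΛ h
  have hb : ∀ i : ℤ, ∃ K > 0, ∀ (z : Z) (v : E), C.nn z v i ≤ K * C.N z v := fun i => C.exists_bound i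
  choose K hK0 hK using hb
  set K₀ := 1 + ∑ i ∈ Finset.Icc (-(m₀ : ℤ)) m₀, K i with hK₀
  have hKsum : ∀ i : ℤ, |i| ≤ m₀ → K i ≤ K₀ := by
    intro i hi
    have hi' := abs_le.1 hi
    have := Finset.single_le_sum (f := K) (fun j _ => (hK0 j).le) (Finset.mem_Icc.2 hi')
    linarith
  have hK₀1 : 1 ≤ K₀ := by
    have := Finset.sum_nonneg (s := Finset.Icc (-(m₀ : ℤ)) m₀) (f := K) (fun j _ => (hK0 j).le)
    linarith
  refine ⟨K₀, by linarith, ?_⟩
  intro z hz V hV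
  obtain ⟨n₁, hn₁⟩ := Record_a hV K₀
  refine ⟨n₁, ?_⟩
  intro n hn v hv j hj
  by_cases hv0 : v = 0
  · subst hv0
    have h0 : ∀ i : ℤ, C.nn z (0 : E) i = 0 := by
      intro i
      have := C.nn_smul z 0 (0 : E) i
      simpa using this
    rw [h0, h0, mul_zero]
  set a : ℕ → ℝ := fun n => C.nn z v n with ha
  have hapos : ∀ i, 0 < a i := fun i => C.nn_pos z hv0 i
  have ha00 : a 0 = C.N z v := by
    simp only [ha, Nat.cast_zero]
    exact C.nn_zero z v
  -- the maximum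
  obtain ⟨p, hp, hmax⟩ : ∃ p ≤ n, ∀ i ≤ n, a i ≤ a p := by
    obtain ⟨p, hp, hmax⟩ := Finset.exists_max_image (Finset.range (n + 1)) a ⟨0, by simp⟩
    exact ⟨p, Nat.lt_succ_iff.1 (Finset.mem_range.1 hp),
      fun i hi => hmax i (Finset.mem_range.2 (Nat.lt_succ_iff.2 hi))⟩
  have hbig : K₀ * a 0 < a p := by
    obtain ⟨i, hi, hi'⟩ := hn₁ v hv hv0
    rw [ha00]
    exact hi'.trans_le (hmax i (hi.trans hn))
  have hpm : m₀ < p := by
    by_contra hc
    push Not at hc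
    have h1 : a p ≤ K₀ * a 0 := by
      rw [ha00]
      refine (hK p z v).trans (mul_le_mul_of_nonneg_right (hKsum p ?_) (C.N_nonneg z v))
      rw [abs_of_nonneg (Int.natCast_nonneg p)]
      exact_mod_cast hc
    linarith
  have hpn : n < p + m₀ := by
    by_contra hc
    push Not at hc
    obtain ⟨i', hi', h2⟩ := hm₀ (zi C.G.toEquiv p z) (hinv z hz p) (C.A p z v)
    rw [C.nn_shift] at h2
    have hi'' := abs_le.1 hi'
    have h3 : 0 ≤ i' + p := by omega
    obtain ⟨q, hq⟩ := Int.eq_ofNat_of_zero_le h3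
    rw [hq] at h2
    have h4 : a q ≤ a p := hmax q (by omega)
    have h5 : 2 * a p ≤ a q := h2
    have := hapos p
    linarith
  have hlast : a p ≤ K₀ * a n := by
    have h1 := hK ((p : ℤ) - n) (zi C.G.toEquiv n z) (C.A n z v)
    rw [C.nn_shift, sub_add_cancel] at h1
    refine h1.trans (mul_le_mul_of_nonneg_right (hKsum _ ?_) (C.N_nonneg _ _))
    rw [abs_le]
    constructor <;> omega
  exact (hmax j hj).trans hlast

end LCoc

end PRH
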