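import Pool.Agent.PRH.Grass
import Pool.Agent.PRH.Record

/-!
# The dimensions over an ω-limit set (module Dim)

HEADER. `Λ = ω(x)`, `x ∈ Λ`, `y ∈ Λ`. There is a strictly increasing sequence `m k : ℕ` with
`z_k := zi (m k) x → y` (`mem_omegaL_iff`; `zi_nat`: `zi (n : ℤ) x = G^[n] x`).

`finrank_Sp_le`: `V k := Sp (z_k)` has constant dimension `c = dim Sp x` (`finrank_Sp_zi`).
`exists_lim_fibres`: `φ`, `v j k ∈ Sp (z_(φ k))`, `Conv` to `v' j` at `y`, `v'` linearly independent. By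
`NB.Sp_decay` (`z_k ∈ Λ`): `nn (z) (v j k) n ≤ c₀ N (z) (v j k)` for all `n : ℕ` (as `μ^n ≤ 1`); in the limit
(`Conv.nn`, `Conv.norm`) `nn y (v' j) n ≤ c₀ N y (v' j)`: `v' j ∈ Sp y`. So `c ≤ dim Sp y`
(`LinearIndependent.fintype_card_le_finrank` in the subspace, or `finrank_span_eq_card` and
`Submodule.finrank_mono`).

`le_finrank_Up`: let `V₀` be a complement of `Sp x` (`Submodule.exists_isCompl`),
`c = dim V₀ = dim E - dim Sp x`, `V₀ ⊓ Sp x = ⊥`; `NB.record` at `z = x`: `n₁`. For `k` with `m k ≥ n₁`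
(shift the sequence so that this holds for all `k`) put `V k = V₀.map (A (m k) x)` (dimension `c`, as
`A` is injective). `exists_lim_fibres`: `v j k = A (m _) x (u j k)` with `u j k ∈ V₀`. For `i : ℕ` and `m _ ≥ i`:
`nn (z) (v j k) (-i) = nn x (u j k) (m _ - i) ≤ K nn x (u j k) (m _) = K N (z) (v j k)`.
In the limit `nn y (v' j) (-i) ≤ K N y (v' j)` for all `i`: `v' j ∈ Up y`. So `c ≤ dim Up y`.

`isCompl`: `dim Sp y + dim Up y ≥ dim Sp x + (dim E - dim Sp x) = dim E` and `Sp y ⊓ Up y = ⊥`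
(`NB.disjoint`), so they are complementary (`Submodule.eq_top_of_finrank_eq`, 
`Submodule.finrank_sup_add_finrank_inf_eq`).
-/

open Set Filter Topology Metric OmSt

namespace PRH

namespace LCoc

variable {Z : Type*} [MetricSpace Z] [CompactSpace Z] {E : Type*} [NormedAddCommGroup E]
  [NormedSpace ℝ E] [FiniteDimensional ℝ E] {C : LCoc Z E}

omit [CompactSpace Z] [FiniteDimensional ℝ E] in
theorem Dim_seq {x y : Z} (hy : y ∈ omegaL C.G x) :
    ∃ m : ℕ → ℕ, StrictMono m ∧ Tendsto (fun k => zi C.G.toEquiv (m k : ℤ) x) atTop (𝓝 y) := by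
  have h : MapClusterPt y atTop (fun n : ℕ => (⇑C.G)^[n] x) := hy
  obtain ⟨m, hm, ht⟩ := h.tendsto_subseq
  refine ⟨m, hm, ht.congr fun k => ?_⟩
  rw [zi_nat]
  rfl

omit [FiniteDimensional ℝ E] in
theorem Dim_inv {x y : Z} (hy : y ∈ omegaL C.G x) (i : ℤ) : zi C.G.toEquiv i y ∈ omegaL C.G x := by
  obtain ⟨m, hm, ht⟩ := Dim_seq hy
  rw [mem_omegaL_iff]
  intro ε hε N
  have h1 : Tendsto (fun k => zi C.G.toEquiv i (zi C.G.toEquiv (m k : ℤ) x)) atTop
      (𝓝 (zi C.G.toEquiv i y)) := ((continuous_zi C.G i).tendsto y).comp ht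
  have h2 : ∀ᶠ k in atTop, dist (zi C.G.toEquiv i (zi C.G.toEquiv (m k : ℤ) x)) (zi C.G.toEquiv i y) < ε :=
    h1.eventually (Metric.ball_mem_nhds _ hε)
  obtain ⟨k, hk, hk2⟩ := (h2.and (hm.tendsto_atTop.eventually_ge_atTop (N + i.natAbs))).exists
  refine ⟨(i + m k).toNat, ?_, ?_⟩
  · have := Int.natAbs_neg i ▸ Int.le_natAbs (a := -i)
    omega
  · have h3 : ((i + m k).toNat : ℤ) = i + m k := by
      apply Int.toNat_of_nonneg
      have := Int.natAbs_neg i ▸ Int.le_natAbs (a := -i)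
      omega
    have h4 : zi C.G.toEquiv ((i + m k).toNat : ℤ) x = (⇑C.G)^[(i + m k).toNat] x := by
      rw [zi_nat]
      rfl
    rw [← h4, h3, zi_add]
    exact hk

theorem NB.finrank_Sp_le {x : Z} (hx : x ∈ omegaL C.G x) (h : C.NB (omegaL C.G x)) {y : Z}
    (hy : y ∈ omegaL C.G x) :
    Module.finrank ℝ (C.Sp x) ≤ Module.finrank ℝ (C.Sp y) := by
  obtain ⟨c₀, μ, hc₀, hμ, hμ1, hdec⟩ := h.Sp_decay (isClosed_omegaL _ _) fun z hz i => Dim_inv hz i
  obtain ⟨m, hm, ht⟩ := Dim_seq hy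
  obtain ⟨φ, v, v', hφ, hv, hli, hcv⟩ := C.exists_lim_fibres ht (fun k => C.Sp (zi C.G.toEquiv (m k : ℤ) x))
    (c := Module.finrank ℝ (C.Sp x)) fun k => C.finrank_Sp_zi x (m k)
  have hmem : ∀ j, v' j ∈ C.Sp y := by
    intro j
    refine ⟨c₀ * C.N y (v' j), fun n => ?_⟩
    refine le_of_tendsto_of_tendsto' ((hcv j).nn n) ((hcv j).norm.const_mul c₀) fun k => ?_
    have h1 := hdec (zi C.G.toEquiv (m (φ k) : ℤ) x) (Dim_inv hx _) (v j k) (hv j k) n
    refine h1.trans ?_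
    have h2 := C.N_nonneg (zi C.G.toEquiv (m (φ k) : ℤ) x) (v j k)
    have h3 : μ ^ n ≤ 1 := pow_le_one₀ hμ.le hμ1.le
    have h4 : c₀ * μ ^ n ≤ c₀ := by
      have := mul_le_mul_of_nonneg_left h3 hc₀.le
      linarith
    exact mul_le_mul_of_nonneg_right h4 h2
  have hw : LinearIndependent ℝ (fun j => (⟨v' j, hmem j⟩ : C.Sp y)) :=
    LinearIndependent.of_comp (C.Sp y).subtype hli
  have := hw.fintype_card_le_finrank
  simpa using this

theorem NB.le_finrank_Up {x : Z} (hx : x ∈ omegaL C.G x) (h : C.NB (omegaL C.G x)) {y : Z}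
    (hy : y ∈ omegaL C.G x) :
    Module.finrank ℝ E ≤ Module.finrank ℝ (C.Sp x) + Module.finrank ℝ (C.Up y) := by
  obtain ⟨V₀, hV₀⟩ := (C.Sp x).exists_isCompl
  obtain ⟨K, hK, hrec⟩ := h.record (isClosed_omegaL _ _) fun z hz i => Dim_inv hz i
  obtain ⟨n₁, hn₁⟩ := hrec x hx V₀ hV₀.symm.inf_eq_bot
  obtain ⟨m, hm, ht⟩ := Dim_seq hy
  have ht' : Tendsto (fun k => zi C.G.toEquiv (m (k + n₁) : ℤ) x) atTop (𝓝 y) :=
    ht.comp (tendsto_add_atTop_nat n₁)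
  have hfr : ∀ k, Module.finrank ℝ (V₀.map (C.A (m (k + n₁) : ℤ) x : E →ₗ[ℝ] E)) = Module.finrank ℝ V₀ :=
    fun k => (Submodule.equivMapOfInjective _ (C.A_injective _ x) V₀).finrank_eq.symm
  obtain ⟨φ, v, v', hφ, hv, hli, hcv⟩ := C.exists_lim_fibres ht'
    (fun k => V₀.map (C.A (m (k + n₁) : ℤ) x : E →ₗ[ℝ] E)) hfr
  have hmem : ∀ j, v' j ∈ C.Up y := by
    intro j
    refine ⟨K * C.N y (v' j), fun i => ?_⟩
    refine le_of_tendsto_of_tendsto ((hcv j).nn (-(i : ℤ))) ((hcv j).norm.const_mul K) ?_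
    filter_upwards [hφ.tendsto_atTop.eventually_ge_atTop i] with k hk
    obtain ⟨u, hu, hvu⟩ := hv j k
    have h0 : φ k + n₁ ≤ m (φ k + n₁) := hm.id_le _
    have e1 : C.nn (zi C.G.toEquiv (m (φ k + n₁) : ℤ) x) (v j k) (-(i : ℤ)) =
        C.nn x u ((m (φ k + n₁) - i : ℕ) : ℤ) := by
      rw [← hvu]
      show C.nn (zi C.G.toEquiv (m (φ k + n₁) : ℤ) x) (C.A (m (φ k + n₁) : ℤ) x u) (-(i : ℤ)) = _
      rw [C.nn_shift]
      congr 1
      omega
    have e2 : C.N (zi C.G.toEquiv (m (φ k + n₁) : ℤ) x) (v j k) = C.nn x u (m (φ k + n₁) : ℤ) := by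
      rw [← hvu]
      rfl
    show C.nn (zi C.G.toEquiv (m (φ k + n₁) : ℤ) x) (v j k) (-(i : ℤ)) ≤
      K * C.N (zi C.G.toEquiv (m (φ k + n₁) : ℤ) x) (v j k)
    rw [e1, e2]
    exact hn₁ _ (by omega) u hu _ (by omega)
  have hw : LinearIndependent ℝ (fun j => (⟨v' j, hmem j⟩ : C.Up y)) :=
    LinearIndependent.of_comp (C.Up y).subtype hli
  have h1 := hw.fintype_card_le_finrank
  rw [Fintype.card_fin] at h1
  have h2 := Submodule.finrank_add_eq_of_isCompl hV₀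
  omega

theorem NB.isCompl {x : Z} (hx : x ∈ omegaL C.G x) (h : C.NB (omegaL C.G x)) {y : Z}
    (hy : y ∈ omegaL C.G x) : IsCompl (C.Sp y) (C.Up y) := by
  have hd := NB.disjoint h hy
  refine ⟨hd, ?_⟩
  rw [codisjoint_iff]
  apply Submodule.eq_top_of_finrank_eq
  have h1 := Submodule.finrank_sup_add_finrank_inf_eq (C.Sp y) (C.Up y)
  rw [hd.eq_bot, finrank_bot, add_zero] at h1
  have h2 := h.finrank_Sp_le hx hy
  have h3 := h.le_finrank_Up hx hy
  have h4 := Submodule.finrank_le (C.Sp y ⊔ C.Up y)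
  omega

end LCoc

end PRH
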