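import Mathlib

/-!
# One more eigenvector by a small perturbation (module EigStep)

HEADER. Let `W = span (w i)`, `k < dim E`, so `W ≠ ⊤`. Let `C` be a complement of `W`
(`Submodule.exists_isCompl`), `p : E →L E` the projection onto `C` along `W`
(`Submodule.linearProjOfIsCompl`, composed with the inclusion, continuous by
`LinearMap.toContinuousLinearMap`): `p v = 0 ↔ v ∈ W`, `p v = v ↔ v ∈ C`, `p ∘ p = p`,
`v - p v ∈ W`. As `Q W ⊆ W` (indeed `Q (w i) = μ i • w i`) we have `p (Q v) = p (Q (p v))`, hence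
`p (Q^n v) = p (Q^n (p v))` for all `n`.
`Q W = W`: (`μ i ≠ 0`) so `p (Q v) = 0 → Q v ∈ W = Q W → v ∈ W` (injectivity). Therefore, for
`v ∈ C`, `v ≠ 0`, `p (Q^n v) ≠ 0` for all `n`.
Fix `v ∈ C \ {0}` and put `a n = p (Q^n v) ∈ C \ {0}`; `a (n + N) = p (Q^N (a n))`.
The normalized vectors `‖a n‖⁻¹ • a n` lie on the (compact) unit sphere; hence for every `η > 0` there are
`n < n'` with `‖ ‖a n'‖⁻¹ • a n' - ‖a n‖⁻¹ • a n ‖ < η` (a convergent subsequence is Cauchy).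
Put `N = n' - n ≥ 1`, `x = ‖a n‖⁻¹ • a n` (unit vector in `C`), `x' = ‖a n'‖⁻¹ • a n'`,
`ρ = ‖a n'‖ / ‖a n‖ > 0`: `p (Q^N x) = ρ • x'`, `‖x' - x‖ < η`.
Choose a functional `ℓ` with `‖ℓ‖ = 1`, `ℓ x' = 1` (`exists_dual_vector`) and let
`B_s = (ℓ ∘ p).smulRight ((1 + s) • x - x')` for a real `s` with `0 ≤ s < η`:
`B_s` vanishes on `W`, `‖B_s‖ ≤ ‖p‖ (‖x - x'‖ + s ‖x‖) < 2 η ‖p‖` (if `p = 0` everything is trivial; in
fact `p ≠ 0`). Take `η` with `2 η (‖p‖ + 1) ≤ min δ 1`. Then `‖B_s‖ < δ`, `‖B_s‖ < 1`.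
`Q^N x = ρ x' + z` with `z ∈ W` (since `p (Q^N x) = ρ x'`, `p x' = x'`), so
`(1 + B_s) (Q^N x) = ρ x' + z + B_s (ρ x') = ρ x' + z + ρ ((1 + s) x - x') = ρ (1 + s) x + z`.
Choose `s ∈ [0, η)` such that `μ' = ρ (1 + s) ≠ μ i ^ N` for all `i` (finitely many forbidden values;
`(1 + s) ρ` takes infinitely many values). Write `z = ∑ b i • w i` and
`w' = x + ∑ c i • w i` with `c i = b i / (μ' - μ i ^ N)`. Then
`(1 + B) (Q^N w') = μ' x + z + ∑ c i μ i^N w i = μ' • w'`.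
Linear independence: `p w' = x ≠ 0` so `w' ∉ W` (`LinearIndependent.finSnoc'` or similar).
Injectivity of `(1 + B) * Q ^ N`: `‖B‖ < 1`, so `(1 + B) v = 0 → ‖v‖ = ‖B v‖ ≤ ‖B‖ ‖v‖ → v = 0`.
-/

open Set Filter Topology

namespace PRH

variable {E : Type*} [NormedAddCommGroup E] [NormedSpace ℝ E] [FiniteDimensional ℝ E]

/-- If the injective map `Q` has `k < dim E` linearly independent eigenvectors with different positive
eigenvalues, then a product `(1 + B) Q^N` with a small `B` has the same eigenvectors and one more, again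
with different positive eigenvalues. -/
theorem eig_step {k : ℕ} {Q : E →L[ℝ] E} (hQ : Function.Injective Q) {w : Fin k → E}
    (hw : LinearIndependent ℝ w) {μ : Fin k → ℝ} (hμ0 : ∀ i, 0 < μ i)
    (hQw : ∀ i, Q (w i) = μ i • w i) (hk : k < Module.finrank ℝ E) {δ : ℝ} (hδ : 0 < δ) :
    ∃ N : ℕ, 0 < N ∧ ∃ B : E →L[ℝ] E, ‖B‖ < δ ∧ Function.Injective ((1 + B) * Q ^ N : E →L[ℝ] E) ∧
      (∀ i, ((1 + B) * Q ^ N : E →L[ℝ] E) (w i) = μ i ^ N • w i) ∧
      ∃ (w' : E) (μ' : ℝ), w' ∉ Submodule.span ℝ (range w) ∧ 0 < μ' ∧ (∀ i, μ' ≠ μ i ^ N) ∧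
        ((1 + B) * Q ^ N : E →L[ℝ] E) w' = μ' • w' := by
  classical
  set W : Submodule ℝ E := Submodule.span ℝ (range w) with hWdef
  have hWtop : W ≠ ⊤ := by
    intro h
    have h1 := finrank_span_eq_card hw
    rw [← hWdef, h, finrank_top, Fintype.card_fin] at h1
    omega
  obtain ⟨C, hC⟩ := W.exists_isCompl
  let p : E →L[ℝ] E := LinearMap.toContinuousLinearMap
    (C.subtype ∘ₗ Submodule.projectionOnto C W hC.symm)
  have hpv : ∀ v, p v = (Submodule.projectionOnto C W hC.symm v : E) := fun v => rfl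
  have hp0 : ∀ v, p v = 0 ↔ v ∈ W := by
    intro v
    rw [hpv]
    rw [Submodule.coe_eq_zero]
    exact Submodule.projectionOnto_apply_eq_zero_iff hC.symm
  have hpC : ∀ v ∈ C, p v = v := by
    intro v hv
    rw [hpv]
    exact congrArg Subtype.val (Submodule.projectionOnto_apply_left hC.symm ⟨v, hv⟩)
  have hpm : ∀ v, p v ∈ C := fun v => by rw [hpv]; exact Submodule.coe_mem _
  have hpp : ∀ v, p (p v) = p v := fun v => hpC _ (hpm v)
  have hdiff : ∀ v, v - p v ∈ W := by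
    intro v
    rw [← hp0, map_sub, hpp, sub_self]
  have hwW : ∀ i, w i ∈ W := fun i => Submodule.subset_span (mem_range_self i)
  have hQW : ∀ v ∈ W, Q v ∈ W := by
    intro v hv
    have h1 : W ≤ W.comap (Q : E →ₗ[ℝ] E) := by
      refine Submodule.span_le.2 ?_
      rintro _ ⟨i, rfl⟩
      change Q (w i) ∈ W
      rw [hQw i]
      exact W.smul_mem _ (hwW i)
    exact h1 hv
  have hQW' : ∀ v, Q v ∈ W → v ∈ W := by
    intro v hv
    have h1 : W ≤ W.map (Q : E →ₗ[ℝ] E) := by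
      refine Submodule.span_le.2 ?_
      rintro _ ⟨i, rfl⟩
      refine ⟨(μ i)⁻¹ • w i, W.smul_mem _ (hwW i), ?_⟩
      change Q ((μ i)⁻¹ • w i) = w i
      rw [map_smul, hQw i, smul_smul, inv_mul_cancel₀ (hμ0 i).ne', one_smul]
    obtain ⟨u, hu, huv⟩ := h1 hv
    have : u = v := hQ huv
    rwa [← this]
  have hQnW : ∀ (n : ℕ) (v : E), v ∈ W → (Q ^ n) v ∈ W := by
    intro n
    induction n with
    | zero => intro v hv; simpa using hv
    | succ n ih => intro v hv; rw [pow_succ]; exact ih _ (hQW v hv)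
  have hQnW' : ∀ (n : ℕ) (v : E), (Q ^ n) v ∈ W → v ∈ W := by
    intro n
    induction n with
    | zero => intro v hv; simpa using hv
    | succ n ih => intro v hv; rw [pow_succ] at hv; exact hQW' _ (ih _ hv)
  have hQnw : ∀ (n : ℕ) (i : Fin k), (Q ^ n) (w i) = μ i ^ n • w i := by
    intro n i
    induction n with
    | zero => simp
    | succ n ih =>
      rw [pow_succ]
      change (Q ^ n) (Q (w i)) = _
      rw [hQw, map_smul, ih, smul_smul, pow_succ, mul_comm]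
  have hQninj : ∀ n : ℕ, Function.Injective (Q ^ n : E →L[ℝ] E) := by
    intro n
    induction n with
    | zero => intro u u' h; simpa using h
    | succ n ih => intro u u' h; rw [pow_succ] at h; exact hQ (ih h)
  have hpQ : ∀ (n : ℕ) (v : E), p ((Q ^ n) v) = p ((Q ^ n) (p v)) := by
    intro n v
    have h1 : p ((Q ^ n) (v - p v)) = 0 := (hp0 _).2 (hQnW n _ (hdiff v))
    rw [map_sub, map_sub, sub_eq_zero] at h1
    exact h1
  obtain ⟨v, hv⟩ : ∃ v, v ∉ W := by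
    by_contra h
    push Not at h
    exact hWtop (eq_top_iff.2 fun v _ => h v)
  have ha0 : ∀ n : ℕ, p ((Q ^ n) v) ≠ 0 := fun n h => hv (hQnW' n v ((hp0 _).1 h))
  -- the number `η`
  obtain ⟨η, hη, hη1, hη2⟩ : ∃ η : ℝ, 0 < η ∧ 2 * η * (‖p‖ + 1) ≤ δ ∧ 2 * η * (‖p‖ + 1) ≤ 1 := by
    have hp1 : 0 < ‖p‖ + 1 := by positivity
    refine ⟨min δ 1 / (2 * (‖p‖ + 1)), by positivity, ?_, ?_⟩
    · have : 2 * (min δ 1 / (2 * (‖p‖ + 1))) * (‖p‖ + 1) = min δ 1 := by field_simp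
      rw [this]; exact min_le_left _ _
    · have : 2 * (min δ 1 / (2 * (‖p‖ + 1))) * (‖p‖ + 1) = min δ 1 := by field_simp
      rw [this]; exact min_le_right _ _
  obtain ⟨n, n', hnn, hclose⟩ : ∃ n n' : ℕ, n < n' ∧
      ‖‖p ((Q ^ n') v)‖⁻¹ • p ((Q ^ n') v) - ‖p ((Q ^ n) v)‖⁻¹ • p ((Q ^ n) v)‖ < η := by
    have hmem : ∀ n : ℕ, ‖p ((Q ^ n) v)‖⁻¹ • p ((Q ^ n) v) ∈ Metric.sphere (0 : E) 1 := by
      intro n
      rw [mem_sphere_zero_iff_norm, norm_smul, norm_inv, norm_norm,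
        inv_mul_cancel₀ (norm_ne_zero_iff.2 (ha0 n))]
    obtain ⟨a, -, φ, hφ, hlim⟩ := (isCompact_sphere (0 : E) 1).tendsto_subseq hmem
    have hc := hlim.cauchySeq
    obtain ⟨N, hN⟩ := Metric.cauchySeq_iff'.1 hc η hη
    refine ⟨φ N, φ (N + 1), hφ (Nat.lt_succ_self N), ?_⟩
    have := hN (N + 1) (Nat.le_succ N)
    rwa [dist_eq_norm] at this
  set a := p ((Q ^ n) v) with ha
  set a' := p ((Q ^ n') v) with ha'
  set x : E := ‖a‖⁻¹ • a with hx
  set x' : E := ‖a'‖⁻¹ • a' with hx'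
  have hapos : 0 < ‖a‖ := norm_pos_iff.2 (ha0 n)
  have hapos' : 0 < ‖a'‖ := norm_pos_iff.2 (ha0 n')
  have hxn : ‖x‖ = 1 := by rw [hx, norm_smul, norm_inv, norm_norm, inv_mul_cancel₀ hapos.ne']
  have hxn' : ‖x'‖ = 1 := by rw [hx', norm_smul, norm_inv, norm_norm, inv_mul_cancel₀ hapos'.ne']
  obtain ⟨N, hNpos, hN⟩ : ∃ N : ℕ, 0 < N ∧ n' = N + n := ⟨n' - n, by omega, by omega⟩
  have haa : a' = p ((Q ^ N) a) := by
    rw [ha', hN, pow_add]
    exact hpQ N _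
  set ρ : ℝ := ‖a'‖ / ‖a‖ with hρ
  have hρ0 : 0 < ρ := div_pos hapos' hapos
  have hpx : p x = x := by rw [hx, map_smul, ha, hpp]
  have hpx' : p x' = x' := by rw [hx', map_smul, ha', hpp]
  have hQx : p ((Q ^ N) x) = ρ • x' := by
    rw [hx, map_smul, map_smul, ← haa, hx', smul_smul, hρ]
    congr 1
    field_simp
  set z := (Q ^ N) x - ρ • x' with hz
  have hzW : z ∈ W := by
    rw [← hp0, hz, map_sub, hQx, map_smul p ρ x', hpx', sub_self]
  obtain ⟨ℓ, hℓ1, hℓ2⟩ := exists_dual_vector ℝ x' (norm_ne_zero_iff.1 (by rw [hxn']; norm_num))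
  have hℓx : ℓ x' = 1 := by
    have : ℓ x' = ‖x'‖ := by simpa using hℓ2
    rw [this, hxn']
  -- the parameter `s`
  obtain ⟨s, hs0, hsη, hs⟩ : ∃ s : ℝ, 0 ≤ s ∧ s < η ∧ ∀ i, ρ * (1 + s) ≠ μ i ^ N := by
    have hinf : (Ico (0 : ℝ) η).Infinite := Ico_infinite hη
    have hfin : (range fun i => μ i ^ N / ρ - 1).Finite := finite_range _
    obtain ⟨s, hs1, hs2⟩ := (hinf.sdiff hfin).nonempty
    refine ⟨s, hs1.1, hs1.2, fun i h => hs2 ⟨i, ?_⟩⟩
    change μ i ^ N / ρ - 1 = s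
    rw [← h]
    field_simp
    ring
  let B : E →L[ℝ] E := (ℓ ∘L p).smulRight ((1 + s) • x - x')
  have hBv : ∀ u, B u = ℓ (p u) • ((1 + s) • x - x') := fun u => rfl
  have hBnorm : ‖B‖ < 2 * η * (‖p‖ + 1) := by
    have h1 : ‖B‖ ≤ ‖ℓ ∘L p‖ * ‖(1 + s) • x - x'‖ := by
      rw [ContinuousLinearMap.norm_smulRight_apply]
    have h2 : ‖ℓ ∘L p‖ ≤ ‖p‖ := by
      refine (ContinuousLinearMap.opNorm_comp_le ℓ p).trans ?_
      rw [hℓ1, one_mul]
    have h3 : ‖(1 + s) • x - x'‖ < 2 * η := by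
      have h4 : (1 + s) • x - x' = s • x - (x' - x) := by rw [add_smul, one_smul]; abel
      rw [h4]
      refine (norm_sub_le _ _).trans_lt ?_
      rw [norm_smul, hxn, mul_one, Real.norm_eq_abs, abs_of_nonneg hs0]
      linarith
    calc ‖B‖ ≤ ‖p‖ * ‖(1 + s) • x - x'‖ := h1.trans (by gcongr)
      _ ≤ ‖p‖ * (2 * η) := by gcongr
      _ < 2 * η * (‖p‖ + 1) := by nlinarith [norm_nonneg p]
  have hBδ : ‖B‖ < δ := hBnorm.trans_le hη1
  have hB1 : ‖B‖ < 1 := hBnorm.trans_le hη2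
  have hBW : ∀ u ∈ W, B u = 0 := by
    intro u hu
    rw [hBv, (hp0 u).2 hu, map_zero, zero_smul]
  have hmul : ∀ u, ((1 + B) * Q ^ N : E →L[ℝ] E) u = (Q ^ N) u + B ((Q ^ N) u) := fun u => rfl
  have hQNw : ∀ i, (Q ^ N) (w i) = μ i ^ N • w i := hQnw N
  have heig : ∀ i, ((1 + B) * Q ^ N : E →L[ℝ] E) (w i) = μ i ^ N • w i := by
    intro i
    rw [hmul, hQNw, map_smul, hBW _ (hwW i), smul_zero, add_zero]
  obtain ⟨b, hb⟩ : ∃ b : Fin k → ℝ, ∑ i, b i • w i = z := by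
    have := (Submodule.mem_span_range_iff_exists_fun ℝ).1 hzW
    exact this
  set μ' : ℝ := ρ * (1 + s) with hμ'
  have hμ'0 : 0 < μ' := by positivity
  let c : Fin k → ℝ := fun i => b i / (μ' - μ i ^ N)
  have hc : ∀ i, c i * μ' = b i + c i * μ i ^ N := by
    intro i
    have h1 : μ' - μ i ^ N ≠ 0 := sub_ne_zero.2 (hs i)
    have h2 : c i * (μ' - μ i ^ N) = b i := div_mul_cancel₀ _ h1
    linear_combination h2
  have hsumW : ∑ i, c i • w i ∈ W := W.sum_mem fun i _ => W.smul_mem _ (hwW i)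
  refine ⟨N, hNpos, B, hBδ, ?_, heig, x + ∑ i, c i • w i, μ', ?_, hμ'0, hs, ?_⟩
  · intro u u' huu
    refine hQninj N ?_
    have h1 : (Q ^ N) u + B ((Q ^ N) u) = (Q ^ N) u' + B ((Q ^ N) u') := huu
    have h2 : (Q ^ N) u - (Q ^ N) u' = - B ((Q ^ N) u - (Q ^ N) u') := by
      rw [map_sub]
      have : (Q ^ N) u - (Q ^ N) u' = B ((Q ^ N) u') - B ((Q ^ N) u) := by
        rw [sub_eq_sub_iff_add_eq_add, h1]; abel
      rw [this]; abel
    by_contra hne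
    have h3 : 0 < ‖(Q ^ N) u - (Q ^ N) u'‖ := norm_pos_iff.2 (sub_ne_zero.2 hne)
    have h4 : ‖(Q ^ N) u - (Q ^ N) u'‖ ≤ ‖B‖ * ‖(Q ^ N) u - (Q ^ N) u'‖ := by
      conv_lhs => rw [h2, norm_neg]
      exact B.le_opNorm _
    nlinarith
  · intro hmem
    have h1 : p (x + ∑ i, c i • w i) = 0 := (hp0 _).2 hmem
    rw [map_add, (hp0 _).2 hsumW, add_zero, hpx] at h1
    rw [h1, norm_zero] at hxn
    norm_num at hxn
  · rw [hmul, map_add]
    have h1 : (Q ^ N) x = ρ • x' + z := by rw [hz]; abel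
    have h2 : (Q ^ N) (∑ i, c i • w i) = ∑ i, (c i * μ i ^ N) • w i := by
      rw [map_sum]
      refine Finset.sum_congr rfl fun i _ => ?_
      rw [map_smul, hQNw, smul_smul]
    have h3 : (Q ^ N) (∑ i, c i • w i) ∈ W := hQnW N _ hsumW
    rw [map_add, hBW _ h3, add_zero, h1, map_add, map_smul, hBW _ hzW, add_zero, hBv, hpx', hℓx,
      one_smul, h2, ← hb]
    have h4 : μ' • ∑ i, c i • w i = ∑ i, b i • w i + ∑ i, (c i * μ i ^ N) • w i := by
      rw [Finset.smul_sum, ← Finset.sum_add_distrib]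
      refine Finset.sum_congr rfl fun i _ => ?_
      rw [smul_smul, ← add_smul, ← hc, mul_comm]
    rw [smul_add, h4, hμ', mul_smul, add_smul, one_smul, smul_add, smul_sub, smul_add]
    abel

end PRH
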