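import Pool.Agent.PRH.Walk
import Pool.Agent.PRH.EigStep
import Pool.Agent.PRH.EigDef

/-!
# A product with simple real spectrum (module EigBasis)

HEADER. By induction on `k`, `1 ≤ k ≤ d = dim E`:
`∃ Q, Reach X ε k i i Q ∧ Injective Q ∧ ∃ (w : Fin k → E) (μ : Fin k → ℝ), LinearIndependent w ∧
 Injective μ ∧ (∀ j, 0 < μ j) ∧ (∀ j, Q (w j) = μ j • w j) ∧ ∃ j₀ N, 0 < N ∧ w j₀ = u ∧ μ j₀ = lam ^ N`.
`k = 1`: `Q = P`, `w = fun _ => u`, `μ = fun _ => lam`, `N = 1`.
Step `k < d`: `Reach.pert_pow` for `Q` gives `δ`; `eig_step` with this `δ` gives `N', B, w', μ'`; the new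
`Q` is `(1 + B) * Q ^ N'` (`Reach ... (k + 1)`), `w` is `Fin.snoc w w'`
(`linearIndependent_finSnoc`), `μ` is `Fin.snoc (fun j => μ j ^ N') μ'` (injective because `x ↦ x ^ N'` is
injective on positive numbers and `μ' ≠ μ j ^ N'`), `j₀.castSucc`, `N * N'`.
For `k = d` sort: `σ = Tuple.sort μ`, `w ∘ σ`, `μ ∘ σ` is monotone and injective, hence strictly
monotone.
-/

open Set Filter Topology

namespace PRH

variable {E : Type*} [NormedAddCommGroup E] [NormedSpace ℝ E] [FiniteDimensional ℝ E]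

theorem EigBasis_snoc_inj {k : ℕ} {μ : Fin k → ℝ} (h0 : ∀ j, 0 < μ j)
    (hinj : Function.Injective μ) {N : ℕ} (hN : 0 < N) {μ' : ℝ} (hne : ∀ j, μ' ≠ μ j ^ N) :
    Function.Injective (Fin.snoc (fun j => μ j ^ N) μ' : Fin (k + 1) → ℝ) := by
  intro a b hab
  induction a using Fin.lastCases with
  | last =>
    induction b using Fin.lastCases with
    | last => rfl
    | cast b =>
      rw [Fin.snoc_last, Fin.snoc_castSucc] at hab
      exact absurd hab (hne b)
  | cast a =>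
    induction b using Fin.lastCases with
    | last =>
      rw [Fin.snoc_last, Fin.snoc_castSucc] at hab
      exact absurd hab.symm (hne a)
    | cast b =>
      rw [Fin.snoc_castSucc, Fin.snoc_castSucc] at hab
      have h1 : μ a = μ b := (pow_left_inj₀ (h0 a).le (h0 b).le hN.ne').1 hab
      rw [hinj h1]

theorem EigBasis_ind {X : Fin 2 → Fin 2 → E →L[ℝ] E} {ε : ℝ} {i : Fin 2} {P : E →L[ℝ] E}
    (hP : Reach X ε 1 i i P) (hinj : Function.Injective P) {u : E} (hu : u ≠ 0) {lam : ℝ}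
    (hlam : 0 < lam) (hPu : P u = lam • u) (k : ℕ) (hk : 1 ≤ k) :
    k ≤ Module.finrank ℝ E → ∃ Q : E →L[ℝ] E, Reach X ε k i i Q ∧ Function.Injective Q ∧
      ∃ (w : Fin k → E) (μ : Fin k → ℝ), LinearIndependent ℝ w ∧ Function.Injective μ ∧
        (∀ j, 0 < μ j) ∧ (∀ j, Q (w j) = μ j • w j) ∧
          ∃ (j : Fin k) (N : ℕ), 0 < N ∧ w j = u ∧ μ j = lam ^ N := by
  induction k, hk using Nat.le_induction with
  | base =>
    intro _
    refine ⟨P, hP, hinj, fun _ => u, fun _ => lam, ?_, ?_, fun _ => hlam, fun _ => hPu, 0, 1,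
      one_pos, rfl, (pow_one _).symm⟩
    · exact (linearIndependent_unique_iff (v := fun _ : Fin 1 => u)).2 hu
    · intro a b _
      exact Subsingleton.elim _ _
  | succ k hk ih =>
    intro hk1
    obtain ⟨Q, hQ, hQi, w, μ, hw, hμi, hμ0, hQw, j₀, N₀, hN₀, hj1, hj2⟩ := ih (by omega)
    obtain ⟨δ, hδ, hpert⟩ := hQ.pert_pow
    obtain ⟨N, hN, B, hB, hBi, hBw, w', μ', hw', hμ', hne, heig⟩ :=
      eig_step hQi hw hμ0 hQw (by omega) hδ
    refine ⟨(1 + B) * Q ^ N, hpert B hB N hN, hBi, Fin.snoc w w', Fin.snoc (fun j => μ j ^ N) μ',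
      ?_, EigBasis_snoc_inj hμ0 hμi hN hne, ?_, ?_, j₀.castSucc, N₀ * N, Nat.mul_pos hN₀ hN, ?_, ?_⟩
    · exact linearIndependent_finSnoc.2 ⟨hw, hw'⟩
    · intro j
      induction j using Fin.lastCases with
      | last => rw [Fin.snoc_last]; exact hμ'
      | cast j => rw [Fin.snoc_castSucc]; exact pow_pos (hμ0 j) N
    · intro j
      induction j using Fin.lastCases with
      | last => rw [Fin.snoc_last, Fin.snoc_last]; exact heig
      | cast j => rw [Fin.snoc_castSucc, Fin.snoc_castSucc]; exact hBw j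
    · rw [Fin.snoc_castSucc]; exact hj1
    · rw [Fin.snoc_castSucc, hj2, pow_mul]

theorem exists_eigenbasis {X : Fin 2 → Fin 2 → E →L[ℝ] E} {ε : ℝ} {i : Fin 2} {P : E →L[ℝ] E}
    (hP : Reach X ε 1 i i P) (hinj : Function.Injective P) {u : E} (hu : u ≠ 0) {lam : ℝ}
    (hlam : 0 < lam) (hPu : P u = lam • u) :
    ∃ Q : E →L[ℝ] E, Reach X ε (Module.finrank ℝ E) i i Q ∧
      ∃ (w : Fin (Module.finrank ℝ E) → E) (μ : Fin (Module.finrank ℝ E) → ℝ), EigB Q w μ ∧
        ∃ (j : Fin (Module.finrank ℝ E)) (N : ℕ), 0 < N ∧ w j = u ∧ μ j = lam ^ N := by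
  have hd : 1 ≤ Module.finrank ℝ E := by
    have : Nontrivial E := ⟨⟨u, 0, hu⟩⟩
    exact Module.finrank_pos
  obtain ⟨Q, hQ, -, w, μ, hw, hμi, hμ0, hQw, j₀, N₀, hN₀, hj1, hj2⟩ :=
    EigBasis_ind hP hinj hu hlam hPu _ hd le_rfl
  refine ⟨Q, hQ, w ∘ Tuple.sort μ, μ ∘ Tuple.sort μ, ?_, (Tuple.sort μ).symm j₀, N₀, hN₀, ?_, ?_⟩
  · exact {
      li := hw.comp _ (Tuple.sort μ).injective
      card := rfl
      mono := (Tuple.monotone_sort μ).strictMono_of_injective
        (hμi.comp (Tuple.sort μ).injective)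
      pos := fun j => hμ0 _
      eig := fun j => hQw _ }
  · simp only [Function.comp, Equiv.apply_symm_apply]; exact hj1
  · simp only [Function.comp, Equiv.apply_symm_apply]; exact hj2

end PRH
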