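import Pool.Agent.OmSt2.Induct
import Pool.Agent.PRH.FConn

/-!
# Cycles of pieces give cycles of periodic orbits (adapted from OmSt2.Induct)
-/

open Set Filter Topology Manifold ContDiff Metric

set_option linter.unusedSectionVars false

namespace PRH

open OmSt

universe u v

variable {E : Type u} [NormedAddCommGroup E] [NormedSpace ℝ E] [FiniteDimensional ℝ E]
  {M : Type v} [MetricSpace M] [CompactSpace M] [ChartedSpace E M] [IsManifold 𝓘(ℝ, E) ∞ M]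
  {r : ℕ∞}

/-- One step: the connection `x l` is replaced. -/
theorem AStab.connect_step {N : Set (Dyn E M r)} {f₀ : Dyn E M r} {m₀ : ℕ}
    (hN : AStab f₀ N m₀) (hr : 1 ≤ r) {s : Finset M}
    {K : M → Set M} {ρ₀ : ℝ} (hc : Cov E s K ρ₀) {f : Dyn E M r} {L : Set M}
    (hL : IsClosed L) (hLinv : Inv f L) {n : ℕ} {P S : ℕ → Set M} (hPL : ∀ i ≤ n, P i ⊆ L)
    (hP : ∀ i ≤ n, Inv f (P i)) (hPD : ∀ i ≤ n, ∃ κ, DHyp s K f (P i) κ)
    (hPD' : ∀ i ≤ n, ∃ κ, DHyp s K f.symm (P i) κ) (hPct : ∀ i ≤ n, CT f.toHomeomorph (P i))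
    (hdis : ∀ i < n, ∀ j < n, (P i ∩ P j).Nonempty → i = j)
    {q : ℕ → M} (hq : ∀ i ≤ n, q i ∈ P i)
    (hS : ∀ i, S i = range fun k : ℤ => zi f.toEquiv k (q i)) (hSc : ∀ i ≤ n, IsClosed (S i))
    {l : ℕ} (hl : l < n) {g : Dyn E M r} (hg : g ∈ N) (hfg : NearEq f g L) {x : ℕ → M}
    (hxL : ∀ i < n, x i ∉ L)
    (hx : ∀ i < n, omegaL g.symm (x i) ⊆ P i ∧ omegaL g (x i) ⊆ P (i + 1))
    (hxS : ∀ i < l, omegaL g.symm (x i) ⊆ S i ∧ omegaL g (x i) ⊆ S (i + 1)) :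
    ∃ g' ∈ N, NearEq f g' L ∧ ∃ x' : ℕ → M, (∀ i < n, x' i ∉ L) ∧
      (∀ i < n, omegaL g'.symm (x' i) ⊆ P i ∧ omegaL g' (x' i) ⊆ P (i + 1)) ∧
      ∀ i < l + 1, omegaL g'.symm (x' i) ⊆ S i ∧ omegaL g' (x' i) ⊆ S (i + 1) := by
  classical
  have hSP : ∀ i ≤ n, S i ⊆ P i := by
    intro i hi
    rw [hS i]
    rintro _ ⟨k, rfl⟩
    exact hP i hi _ (hq i hi) k
  have hziL : ∀ y ∈ L, ∀ k, zi g.toEquiv k y = zi f.toEquiv k y := fun y hy k =>
    hfg.zi hLinv hy k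
  have hPg : ∀ i ≤ n, Inv g (P i) := fun i hi => (hfg.mono (hPL i hi)).inv (hP i hi)
  have hne : ∀ i < n, i ≠ l → ∀ k : ℤ, zi g.toEquiv k (x i) ≠ x l := by
    intro i hi hil k hk
    refine hil (hdis i hi l hl ?_)
    obtain ⟨z, hz⟩ := omegaL_nonempty g.symm (x l)
    refine ⟨z, (hx i hi).1 ?_, (hx l hl).1 hz⟩
    rw [← hk] at hz
    exact omegaL_symm_zi g.toHomeomorph k (x i) hz
  have haway : ∀ i : ℕ, ∃ U ∈ 𝓝 (x l), i < n → i ≠ l → ∀ k : ℤ, zi g.toEquiv k (x i) ∉ U := by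
    intro i
    by_cases hi : i < n ∧ i ≠ l
    · obtain ⟨U, hU, hUk⟩ := exists_away' (f := g.toHomeomorph) hL
        ((hx i hi.1).2.trans (hPL _ (by omega))) ((hx i hi.1).1.trans (hPL _ hi.1.le)) (hxL l hl)
      exact ⟨U, hU, fun _ _ k hk => hne i hi.1 hi.2 k (hUk k hk)⟩
    · exact ⟨univ, univ_mem, fun h1 h2 => absurd ⟨h1, h2⟩ hi⟩
  choose U hU hUk using haway
  obtain ⟨κ, hκ⟩ := hPD l hl.le
  obtain ⟨κ', hκ'⟩ := hPD' (l + 1) hl
  obtain ⟨g', hg', W, hWc, hWU, hWL, hgW, a, haW, ha1, ha2⟩ := hN.connect hr hc hg hL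
    (hPL l hl.le) (hPL (l + 1) hl) (hPg l hl.le) (hPg (l + 1) hl)
    (hκ.near hc hfg (hP l hl.le) (hPL l hl.le))
    (DHyp.near hc (hfg.symm hLinv) (hP (l + 1) hl).symm (hPL (l + 1) hl) hκ')
    ((hPct l hl.le).congr (g := g.toHomeomorph) fun y hy => hfg.eqOn (hPL l hl.le hy))
    ((hPct (l + 1) hl).congr (g := g.toHomeomorph) fun y hy => hfg.eqOn (hPL (l + 1) hl hy))
    (hq l hl.le) (hq (l + 1) hl) (S := S l) (S' := S (l + 1)) (hSc l hl.le)
    (fun k => by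
      rw [hziL _ (hPL l hl.le (hq l hl.le)), hS l]
      exact ⟨k, rfl⟩) (hSP l hl.le) (hSc (l + 1) hl)
    (fun k => by
      rw [hziL _ (hPL (l + 1) hl (hq (l + 1) hl)), hS (l + 1)]
      exact ⟨k, rfl⟩) (hSP (l + 1) hl) (c := x l) (hxL l hl) (hx l hl).1 (hx l hl).2
    (U₀ := ⋂ i ∈ Finset.range n, U i) ((Filter.biInter_finset_mem _).2 fun i _ => hU i)
  have hzi : ∀ i < n, i ≠ l → ∀ k, zi g'.toEquiv k (x i) = zi g.toEquiv k (x i) := by
    intro i hi hil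
    refine zi_eq_of fun k => hgW _ fun hkW => ?_
    have h1 := mem_iInter₂.1 (hWU hkW) i (Finset.mem_range.2 hi)
    exact hUk i hi hil k h1
  refine ⟨g', hg', hfg.step hWc hWL hgW, Function.update x l a, fun i hi => ?_, fun i hi => ?_,
    fun i hi => ?_⟩
  · by_cases hil : i = l
    · subst hil
      rw [Function.update_self]
      exact hWL a haW
    · rw [Function.update_of_ne hil]
      exact hxL i hi
  · by_cases hil : i = l
    · subst hil
      rw [Function.update_self]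
      exact ⟨ha1.trans (hSP i hi.le), ha2.trans (hSP (i + 1) hi)⟩
    · rw [Function.update_of_ne hil]
      have h1 := omegaL_eq_of (hzi i hi hil)
      exact ⟨h1.2.trans (hx i hi).1, h1.1.trans (hx i hi).2⟩
  · by_cases hil : i = l
    · subst hil
      rw [Function.update_self]
      exact ⟨ha1, ha2⟩
    · rw [Function.update_of_ne hil]
      have h1 := omegaL_eq_of (hzi i (by omega) hil)
      have h2 := hxS i (by omega)
      exact ⟨h1.2.trans h2.1, h1.1.trans h2.2⟩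

/-- **A cycle of pieces gives a cycle of periodic orbits, after perturbation.** -/
theorem AStab.exists_lcyc {N : Set (Dyn E M r)} {f : Dyn E M r} {m₀ : ℕ} (hN : AStab f N m₀)
    (hr : 1 ≤ r) (hrec : HypRec f) (hf : PH f.toHomeomorph) {n : ℕ} {P : ℕ → Set M}
    {y : ℕ → M} (h : PCyc f.toHomeomorph n P y) :
    ∃ m > 0, m₀ ∣ m ∧ ∃ g ∈ N, ∃ p x, LCyc f g (LL f.toHomeomorph m) m n p x := by
  have hfN := hN.mem
  classical
  obtain ⟨s, K, ρ₀, hc, -⟩ := exists_cov (M := M) E (U := fun _ => univ) (fun b => univ_mem)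
  have hex : ∀ A : Set M, ∃ z : M, Piece f.toHomeomorph A →
      z ∈ A ∧ z ∈ Function.periodicPts f := by
    intro A
    by_cases hA : Piece f.toHomeomorph A
    · obtain ⟨z, hz⟩ := hA.1.nonempty
      obtain ⟨w, -, hw⟩ := mem_closure_iff.1 (hf.dense_periodic hA hz) univ isOpen_univ (mem_univ z)
      exact ⟨w, fun _ => hw⟩
    · exact ⟨y 0, fun h => absurd h hA⟩
  choose q₀ hq₀ using hex
  set q : ℕ → M := fun i => q₀ (P i) with hq
  have hqP : ∀ i ≤ n, q i ∈ P i := fun i hi => (hq₀ _ (h.piece i hi)).1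
  obtain ⟨m', hm', hfix'⟩ := exists_common_period (f := f)
    (S := q '' {i | i ≤ n}) ((Set.finite_le_nat n).image q) (by
      rintro _ ⟨i, hi, rfl⟩
      exact (hq₀ _ (h.piece i hi)).2)
  obtain ⟨m, hm, hdvd, hfix⟩ : ∃ m, 0 < m ∧ m₀ ∣ m ∧ ∀ x ∈ q '' {i | i ≤ n}, f^[m] x = x := by
    refine ⟨m' * m₀, Nat.mul_pos hm' hN.pos, dvd_mul_left _ _, fun x hx => ?_⟩
    have h1 : Function.IsPeriodicPt f m' x := hfix' x hx
    exact h1.mul_const m₀
  have hqm : ∀ i ≤ n, f^[m] (q i) = q i := fun i hi => hfix _ ⟨i, hi, rfl⟩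
  set L : Set M := LL f.toHomeomorph m with hLdef
  have hL : IsClosed L := hf.isClosed_LL hm
  have hLinv : Inv f L := LL_zinv (f := f.toHomeomorph)
  have hPL : ∀ i ≤ n, P i ⊆ L := fun i hi =>
    piece_subset_LL (h.piece i hi) (hqP i hi) (hqm i hi)
  have hPinv : ∀ i ≤ n, Inv f (P i) := fun i hi => (h.piece i hi).1.zinv
  have hPH : ∀ i ≤ n, IsHyperbolicSet f (P i) := by
    intro i hi
    obtain ⟨z, hz, hzP⟩ := (h.piece i hi).1
    rw [← hzP]
    exact hrec.hyp hz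
  have hPc : ∀ i ≤ n, IsClosed (P i) := fun i hi => (h.piece i hi).1.isClosed
  set S : ℕ → Set M := fun i => range fun k : ℤ => zi f.toEquiv k (q i) with hS
  have hSP : ∀ i ≤ n, S i ⊆ P i := by
    rintro i hi _ ⟨k, rfl⟩
    exact hPinv i hi _ (hqP i hi) k
  have hqzi : ∀ i ≤ n, zi f.toEquiv m (q i) = q i := fun i hi => by
    rw [zi_nat_apply]
    exact hqm i hi
  have hSfin : ∀ i ≤ n, (S i).Finite := fun i hi => finite_range_zi hm (hqzi i hi)
  have key : ∀ l ≤ n, ∃ g ∈ N, NearEq f g L ∧ ∃ x : ℕ → M, (∀ i < n, x i ∉ L) ∧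
      (∀ i < n, omegaL g.symm (x i) ⊆ P i ∧ omegaL g (x i) ⊆ P (i + 1)) ∧
      ∀ i < l, omegaL g.symm (x i) ⊆ S i ∧ omegaL g (x i) ⊆ S (i + 1) := by
    intro l
    induction l with
    | zero =>
      intro _
      refine ⟨f, hfN, NearEq.refl f L, y, fun i hi hyL => ?_, fun i hi => ?_, fun i hi => ?_⟩
      · obtain ⟨A, hA, hyA⟩ := hyL
        exact h.out i hi A hA.1 hyA
      · exact ⟨(h.goes i hi).bwd, (h.goes i hi).fwd⟩
      · omega
    | succ l ih =>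
      intro hl
      obtain ⟨g, hg, hfg, x, hx1, hx2, hx3⟩ := ih (by omega)
      exact hN.connect_step hr hc hL hLinv hPL hPinv
        (fun i hi => (hPH i hi).dhyp hc hr (hPc i hi) (hPinv i hi))
        (fun i hi => (hPH i hi).dhyp_symm hc hr (hPc i hi) (hPinv i hi))
        (fun i hi => (h.piece i hi).1.ct)
        (fun i hi j hj hij => h.inj i hi j hj (hf.piece_eq (h.piece i hi.le) (h.piece j hj.le) hij))
        hqP (fun i => rfl) (fun i hi => (hSfin i hi).isClosed) (by omega) hg hfg hx1 hx2 hx3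
  obtain ⟨g, hg, hfg, x, hx1, -, hx3⟩ := key n le_rfl
  have hziL : ∀ y ∈ L, ∀ k, zi g.toEquiv k y = zi f.toEquiv k y := fun y hy k =>
    hfg.zi hLinv hy k
  have hSm : ∀ i ≤ n, ∀ p ∈ S i, g^[m] p = p := by
    rintro i hi _ ⟨k, rfl⟩
    have h1 : zi f.toEquiv k (q i) ∈ L := hPL i hi (hSP i hi ⟨k, rfl⟩)
    change g^[m] (zi f.toEquiv k (q i)) = zi f.toEquiv k (q i)
    rw [← zi_nat_apply, hziL _ h1, zi_comm, hqzi i hi]
  obtain ⟨p, x', hp, hx'⟩ := exists_phases (f := g.toHomeomorph) (m := m) (L := L)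
    (hfg.inv hLinv) (S := S) (q := q 0) ⟨0, by simp [zi_zero]⟩ n
    (by
      rintro i hi _ ⟨k, rfl⟩ j
      have h1 : zi f.toEquiv k (q i) ∈ L := hPL i hi (hSP i hi ⟨k, rfl⟩)
      have h2 := hziL _ h1 j
      rw [← zi_add] at h2
      exact ⟨j + k, h2.symm⟩)
    (by
      rintro i hi _ ⟨a, rfl⟩ _ ⟨b, rfl⟩
      have h1 : zi f.toEquiv a (q i) ∈ L := hPL i hi (hSP i hi ⟨a, rfl⟩)
      have h2 := hziL _ h1 (b - a)
      rw [← zi_add, sub_add_cancel] at h2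
      exact ⟨b - a, h2.symm⟩)
    (fun i hi => by
      obtain ⟨u, hu, v, hv, huv⟩ := exists_asy (f := g.toHomeomorph) hm (hSfin i hi.le)
        (hSm i hi.le) (hSfin (i + 1) hi) (hSm (i + 1) hi) (hx3 i hi).1 (hx3 i hi).2
      refine ⟨x i, hx1 i hi, u, hu, v, hv, huv, fun k hk hkx => hk ?_⟩
      exact not_periodic_of_omegaL (f := g.toHomeomorph) (L := L)
        ((hx3 i hi).2.trans ((hSP (i + 1) hi).trans (hPL (i + 1) hi))) (hx1 i hi) hkx)
  refine ⟨m, hm, hdvd, g, hg, p, x', hfg, ⟨hm, h.hn, fun i hi => ?_, ?_, fun i hi => (hx' i hi).2⟩,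
    fun i hi => hPL i hi (hSP i hi (hp i hi)), fun i hi => (hx' i hi).1⟩
  · rw [zi_nat_apply]
    exact hSm i hi _ (hp i hi)
  · have h1 : p n ∈ S 0 := by
      have h2 := hp n le_rfl
      have h3 : S n = S 0 := by
        have : P n = P 0 := h.close
        simp only [hS, hq, this]
      rwa [h3] at h2
    obtain ⟨a, ha⟩ := hp 0 (by omega)
    obtain ⟨b, hb⟩ := h1
    refine ⟨b - a, ?_⟩
    have h2 : p 0 ∈ L := hPL 0 (by omega) (hSP 0 (by omega) (hp 0 (by omega)))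
    rw [hziL _ h2, ← ha, ← hb, ← zi_add, sub_add_cancel]

end PRH
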