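import Pool.Agent.OmSt2.Orb

/-!
# Periodic points of the hull near a given point (module PerNear)

HEADER. `Λ` closed, `ZInv f Λ`, `Sh f Λ`, `CT f Λ` (chain transitive: `Chn f Λ δ' x y` for all `δ' > 0`,
`x, y ∈ Λ`). Let `a ∈ Λ`, `η > 0`, and `δ, ε > 0`. Let `ε₀` be the number of `Sh.exp` (or `Sh.unif`), and
`ε' = min (η / 2) (min ε (ε₀ / 2))`; `Sh.shadow` for `ε'` gives `δ₁`; let `δ' = min δ δ₁`. Take a `δ'`-chain
`c 0 = a, c 1, ..., c L = a` in `Λ` (`CT`), and extend it periodically: `p n = c (n mod L)`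
(`(n % (L : ℤ)).toNat`), a `δ'`-pseudo-orbit in `Λ` of period `L`. Let `x` be the shadowing point:
`dist (zi f n x) (p n) ≤ ε'` for all `n`. Then `x ∈ Hull f Λ δ ε`, `dist x a = dist x (p 0) ≤ ε' < η`, and
`y = zi f L x` satisfies `dist (zi f n y) (p n) ≤ ε'` too (periodicity), so
`dist (zi f n x) (zi f n y) ≤ 2 ε' ≤ ε₀` and `zi f n x` is within `ε' ≤ ε₀` of `p n ∈ Λ`: `x = y` by `Sh.exp`.
So `f^[L] x = x`.
-/

open Set Filter Topology Metric

namespace PRH

open OmSt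

theorem exists_periodic_near {X : Type*} [MetricSpace X] [CompactSpace X] {f : X ≃ₜ X} {Λ : Set X}
    (hS : Sh f Λ) (hct : CT f Λ) {a : X} (ha : a ∈ Λ) {δ ε : ℝ} (hδ : 0 < δ)
    (hε : 0 < ε) {η : ℝ} (hη : 0 < η) :
    ∃ x ∈ Hull f Λ δ ε, dist x a < η ∧ x ∈ Function.periodicPts f := by
  obtain ⟨ε₀, hε₀, hexp⟩ := hS.exp
  obtain ⟨ε', hε'⟩ : ∃ ε', ε' = min (η / 2) (min ε (ε₀ / 2)) := ⟨_, rfl⟩
  have hε'0 : 0 < ε' := by
    rw [hε']
    exact lt_min (half_pos hη) (lt_min hε (half_pos hε₀))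
  have he1 : ε' ≤ η / 2 := by rw [hε']; exact min_le_left _ _
  have he2 : ε' ≤ ε := by rw [hε']; exact (min_le_right _ _).trans (min_le_left _ _)
  have he3 : ε' ≤ ε₀ / 2 := by rw [hε']; exact (min_le_right _ _).trans (min_le_right _ _)
  obtain ⟨δ₁, hδ₁, hsh⟩ := hS.shadow ε' hε'0
  obtain ⟨c, L, hL, hc0, hcL, hcΛ, hcj⟩ := hct (min δ δ₁) (lt_min hδ hδ₁) a ha a ha
  have hL0 : (0 : ℤ) < L := by exact_mod_cast hL
  obtain ⟨p, hp⟩ : ∃ p : ℤ → X, p = fun n => c ((n % (L : ℤ)).toNat) := ⟨_, rfl⟩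
  have hr0 : ∀ n : ℤ, 0 ≤ n % (L : ℤ) := fun n => Int.emod_nonneg n hL0.ne'
  have hr1 : ∀ n : ℤ, n % (L : ℤ) < L := fun n => Int.emod_lt_of_pos n hL0
  have hpΛ : ∀ n, p n ∈ Λ := by
    intro n
    rw [hp]
    apply hcΛ
    have := hr1 n
    have := hr0 n
    omega
  have hpj : ∀ n, dist (f (p n)) (p (n + 1)) ≤ min δ δ₁ := by
    intro n
    have h0 := hr0 n
    have h1 := hr1 n
    have h2 := hcj (n % (L : ℤ)).toNat (by omega)
    have h3 : c ((n % (L : ℤ)).toNat + 1) = p (n + 1) := by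
      rw [hp]
      change _ = c (((n + 1) % (L : ℤ)).toNat)
      have h4 : (n + 1) % (L : ℤ) = (n % (L : ℤ) + 1) % (L : ℤ) := (Int.emod_add_emod n L 1).symm
      rw [h4]
      rcases lt_or_ge (n % (L : ℤ) + 1) (L : ℤ) with h5 | h5
      · rw [Int.emod_eq_of_lt (by omega) h5]
        congr 1
        omega
      · have h6 : n % (L : ℤ) + 1 = L := by omega
        rw [h6, Int.emod_self, Int.toNat_zero, hc0]
        have h7 : (n % (L : ℤ)).toNat + 1 = L := by omega
        rw [h7, hcL]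
    rw [h3] at h2
    rw [hp] at h2 ⊢
    exact h2
  obtain ⟨x, hx⟩ := hsh p hpΛ (fun n => (hpj n).trans (min_le_right _ _))
  refine ⟨x, ⟨p, hpΛ, fun n => (hpj n).trans (min_le_left _ _), fun n => (hx n).trans he2⟩, ?_, ?_⟩
  · have h1 := hx 0
    rw [zi_zero] at h1
    have h2 : p 0 = a := by
      rw [hp]
      change c (((0 : ℤ) % (L : ℤ)).toNat) = a
      rw [Int.zero_emod, Int.toNat_zero, hc0]
    rw [h2] at h1
    linarith
  · have hxy : x = zi f.toEquiv L x := by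
      apply hexp
      · intro n
        exact ⟨p n, hpΛ n, (hx n).trans (by linarith)⟩
      · intro n
        rw [← zi_add]
        have h1 := hx (n + L)
        have h2 : p (n + L) = p n := by
          rw [hp]
          change c (((n + L) % (L : ℤ)).toNat) = c ((n % (L : ℤ)).toNat)
          rw [Int.add_emod_right]
        rw [h2] at h1
        calc dist (zi f.toEquiv n x) (zi f.toEquiv (n + L) x)
            ≤ dist (zi f.toEquiv n x) (p n) + dist (zi f.toEquiv (n + L) x) (p n) :=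
              dist_triangle_right _ _ _
          _ ≤ ε₀ := by linarith [hx n]
    refine Function.mk_mem_periodicPts hL ?_
    rw [zi_nat] at hxy
    exact hxy.symm

end PRH
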