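import Pool.Agent.OmSt2.Hom3
import Pool.Agent.PRH.PerNear
import Pool.Agent.PRH.AStab

/-!
# No transverse homoclinic orbit away from `LL f m` (module NoTr)

HEADER. The model is `OmSt.Stab.no_transverse` (Pool/Agent/OmSt2/Hom3.lean, lines 41-83): copy its proof up to
`exists_hull` (with `hN.fix_finite` etc. unchanged; `hfN` is `hN.mem`). There
`obtain ⟨δ, hδ, ε, hε, -, z, hz, hzH⟩ := exists_hull h.isClosed .. HomO.zinv hS h.ct`:
`z` is recurrent for `g` and `omegaL g z = Hull g Λ δ ε`, `Λ = Orb g q ∪ Orb g a`. `LL f m` is closed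
(`hf.isClosed_LL`) and `a ∉ LL f m`, so there is `η > 0` with `ball a η ∩ LL f m = ∅`. By
`exists_periodic_near` there is `x ∈ Hull g Λ δ ε = omegaL g z`, `dist x a < η`, `x` periodic for `g`.
`hN.cnt g hg m hm hdvd hf hfg.eqOn q hqf z hz (q ∈ omegaL g z) x .. ..` gives `x ∈ LL f m`: contradiction.
-/

open Set Filter Topology Manifold ContDiff Metric

set_option linter.unusedSectionVars false

namespace PRH

open OmSt

universe u v

variable {E : Type u} [NormedAddCommGroup E] [NormedSpace ℝ E] [FiniteDimensional ℝ E]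
  {M : Type v} [MetricSpace M] [CompactSpace M] [ChartedSpace E M] [IsManifold 𝓘(ℝ, E) ∞ M]
  {r : ℕ∞}

/-- From a homoclinic orbit with uniform dichotomies to a contradiction. -/
theorem AStab.no_transverse {N : Set (Dyn E M r)} {f : Dyn E M r} {m₀ : ℕ} (hN : AStab f N m₀)
    (hr : 1 ≤ r) {m : ℕ} (hdvd : m₀ ∣ m) (hrec : HypRec f) (hf : PH f.toHomeomorph)
    {s : Finset M} {K : M → Set M} {ρ₀ : ℝ} (hc : Cov E s K ρ₀) {g : Dyn E M r} (hg : g ∈ N)
    {q a : M} (hfg : NearEq f g (LL f.toHomeomorph m)) (hq : q ∈ LL f.toHomeomorph m)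
    (h : HomO g.toHomeomorph m q a) (ha : a ∉ LL f.toHomeomorph m) {κ : ℝ}
    (hD : DHyp s K g (Orb g.toHomeomorph a) κ) : False := by
  have hm := h.hm
  have hLinv : Inv f (LL f.toHomeomorph m) := LL_zinv (f := f.toHomeomorph)
  have hqf : f^[m] q = q := by
    have h1 : zi g.toEquiv m q = zi f.toEquiv m q := hfg.zi hLinv hq m
    rw [zi_nat_apply, zi_nat_apply] at h1
    rw [← h1]
    exact h.hq
  obtain ⟨P, hP, hqP⟩ := id hq
  have hPL : P ⊆ LL f.toHomeomorph m := subset_sUnion_of_mem hP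
  have hPinv : Inv f P := hP.1.1.zinv
  have hPH : IsHyperbolicSet f P := by
    obtain ⟨z, hz, hzP⟩ := hP.1.1
    rw [← hzP]
    exact hrec.hyp hz
  obtain ⟨κ', hκ'⟩ := hPH.dhyp hc hr hP.1.1.isClosed hPinv
  have hDP : DHyp s K g P κ' := hκ'.near hc hfg hPinv hPL
  have hqO : Orb g.toHomeomorph q ⊆ P := by
    rintro _ ⟨k, rfl⟩
    have h1 : zi g.toEquiv k q = zi f.toEquiv k q := hfg.zi hLinv hq k
    change zi g.toEquiv k q ∈ P
    rw [h1]
    exact hPinv q hqP k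
  have hDΛ := (hDP.mono hqO).union hD
  have hS : Sh g.toHomeomorph (Orb g.toHomeomorph q ∪ Orb g.toHomeomorph a) :=
    sh_of_dhyp hc hr (HomO.zinv) hDΛ
  obtain ⟨δ, hδ, ε, hε, -, z, hz, hzH⟩ := exists_hull h.isClosed
    ⟨q, Or.inl (self_mem_Orb _ _)⟩ HomO.zinv hS h.ct
  have hsub := subset_hull (f := g.toHomeomorph)
    (Λ := Orb g.toHomeomorph q ∪ Orb g.toHomeomorph a) HomO.zinv hδ.le hε.le
  rw [← hzH] at hsub
  have hcl : IsClosed (LL f.toHomeomorph m) := hf.isClosed_LL hm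
  obtain ⟨η, hη, hηb⟩ := Metric.isOpen_iff.1 hcl.isOpen_compl a ha
  obtain ⟨x, hx, hxa, hxp⟩ := exists_periodic_near hS h.ct (Or.inr (self_mem_Orb _ _)) hδ hε hη
  rw [← hzH] at hx
  exact hηb hxa (hN.cnt g hg m hm hdvd hf hfg.eqOn q hqf z hz
    (hsub (Or.inl (self_mem_Orb _ _))) x hx hxp)

end PRH
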