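import Pool.Agent.OmSt2.Hom3
import Pool.Agent.PRH.NoTr
import Pool.Agent.PRH.FInduct

/-!
# There is no homoclinic orbit away from the set `LL f m` (adapted from OmSt2.Hom3)
-/

open Set Filter Topology Manifold ContDiff Metric

set_option linter.unusedSectionVars false

namespace PRH

open OmSt

universe u v

variable {E : Type u} [NormedAddCommGroup E] [NormedSpace ℝ E] [FiniteDimensional ℝ E]
  {M : Type v} [MetricSpace M] [CompactSpace M] [ChartedSpace E M] [IsManifold 𝓘(ℝ, E) ∞ M]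
  {r : ℕ∞}

theorem AStab.no_homoclinic' {N : Set (Dyn E M r)} {f : Dyn E M r} {m₀ : ℕ} (hN : AStab f N m₀)
    (hr : 1 ≤ r) (hrec : HypRec f) (hf : PH f.toHomeomorph)
    {g : Dyn E M r} (hg : g ∈ N) {m : ℕ} (hdvd : m₀ ∣ m) {p x : ℕ → M}
    (hLC : LCyc f g (LL f.toHomeomorph m) m 1 p x) : False := by
  classical
  have h := hLC.cyc
  set L : Set M := LL f.toHomeomorph m with hLdef
  have hL : IsClosed L := hf.isClosed_LL h.hm
  have hLinv : Inv f L := LL_zinv (f := f.toHomeomorph)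
  have hLg : Inv g L := hLC.near.inv hLinv
  have hziL : ∀ (k : ℤ) (z : M), z ∉ L → zi g.toEquiv k z ∉ L := fun k z hz hmem => hz (by
    have h2 := hLg _ hmem (-k)
    rwa [← zi_add, neg_add_cancel, zi_zero] at h2)
  have hm := h.hm
  have hmz : (0 : ℤ) < m := by exact_mod_cast hm
  have hqm : g^[m] (p 0) = p 0 := by
    have h1 := h.per 0 (by omega)
    rw [zi_nat] at h1
    exact h1
  obtain ⟨s₀, hs₀⟩ := h.close
  obtain ⟨K, hK, hdich⟩ := (isHyp_linAt hr hqm (hN.isHyp hr hg hm hqm)).dich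
  have hη : 0 < 1 / (2 * (K + 1)) := by positivity
  have hKη : K * (1 / (2 * (K + 1))) ≤ 1 / 2 := by
    rw [mul_one_div, div_le_div_iff₀ (by positivity) (by norm_num)]
    nlinarith
  obtain ⟨ρ, hρ, hρt, -, hloc1, hloc2⟩ := exists_local hr hqm univ_mem hη
  set e := chartAt E (p 0) with he
  have hmax : e ∈ IsManifold.maximalAtlas 𝓘(ℝ, E) ∞ M := IsManifold.chart_mem_maximalAtlas (p 0)
  have hqe : p 0 ∈ e.source := mem_chart_source E (p 0)
  set c := e (p 0) with hc
  set φ : E → E := fun z => e (g^[m] (e.symm z)) with hφ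
  have hreg : e.source ∩ e ⁻¹' closedBall c (ρ / 2) ∈ 𝓝 (p 0) :=
    inter_mem (e.open_source.mem_nhds hqe)
      ((e.continuousAt hqe) (closedBall_mem_nhds _ (half_pos hρ)))
  -- the point `a`
  obtain ⟨k₀, hk₀⟩ := eventually_atBot.1 ((h.conn 0 (by omega)).bwd.eventually hreg)
  set a := zi g.toEquiv (m * k₀) (x 0) with ha0
  have hconn : IsConn g.toEquiv m (p 0) (p 1) a := (h.conn 0 (by omega)).shift k₀
  have ha : ∀ k : ℤ, k ≤ 0 → zi g.toEquiv (m * k) a ∈ e.source ∩ e ⁻¹' closedBall c (ρ / 2) := by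
    intro k hk
    have h1 := hk₀ (k + k₀) (by linarith)
    rw [mul_add, zi_add] at h1
    exact h1
  have haL : a ∉ L := hziL _ _ (hLC.xL 0 (by omega))
  clear_value a
  -- the point `b`
  have hasy' := hconn.toAsy.translate g.toHomeomorph (-s₀)
  have hq1 : zi g.toEquiv (-s₀) (p 1) = p 0 := by
    rw [hs₀, ← zi_add, neg_add_cancel, zi_zero]
  have hfw : Tendsto (fun k : ℤ => zi g.toEquiv (m * k) (zi g.toEquiv (-s₀) a)) atTop
      (𝓝 (p 0)) := by
    have := hasy'.fwd
    change Tendsto _ _ (𝓝 (zi g.toEquiv (-s₀) (p 1))) at this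
    rw [hq1] at this
    exact this
  obtain ⟨k₂, hk₂⟩ := eventually_atTop.1 (hfw.eventually hreg)
  set k₁ : ℤ := max k₂ (|s₀| + 1) with hk₁
  have hJpos : 0 < m * k₁ - s₀ := by
    have h1 : |s₀| + 1 ≤ k₁ := le_max_right _ _
    have h2 : s₀ ≤ |s₀| := le_abs_self _
    have h3 : 0 ≤ |s₀| := abs_nonneg _
    nlinarith
  obtain ⟨J, hJ⟩ := Int.eq_ofNat_of_zero_le hJpos.le
  have hJ0 : 0 < J := by omega
  set b := g^[J] a with hb0
  have hbz : b = zi g.toEquiv J a := (zi_nat g.toEquiv J a).symm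
  clear_value b
  have hbk : ∀ k : ℤ, zi g.toEquiv (m * k) b =
      zi g.toEquiv (m * (k + k₁)) (zi g.toEquiv (-s₀) a) := by
    intro k
    have e1 : (m : ℤ) * k + J = m * (k + k₁) + -s₀ := by
      have hJ' : (J : ℤ) = m * k₁ - s₀ := hJ.symm
      rw [hJ']
      ring
    rw [hbz, ← zi_add, ← zi_add, e1]
  have hb : ∀ k : ℤ, 0 ≤ k → zi g.toEquiv (m * k) b ∈ e.source ∩ e ⁻¹' closedBall c (ρ / 2) := by
    intro k hk
    rw [hbk]
    exact hk₂ (k + k₁) (by have := le_max_left k₂ (|s₀| + 1); linarith)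
  have hbfw : Tendsto (fun k : ℤ => zi g.toEquiv (m * k) b) atTop (𝓝 (p 0)) := by
    simp only [hbk]
    exact hfw.comp (tendsto_atTop_add_const_right _ k₁ tendsto_id)
  have hae : a ∈ e.source := by
    have := (ha 0 le_rfl).1
    rwa [mul_zero, zi_zero] at this
  have hbe : b ∈ e.source := by
    have := (hb 0 le_rfl).1
    rwa [mul_zero, zi_zero] at this
  -- the neighbourhood of `a`
  have hcyc : ZCyc g.toEquiv m 1 p (fun _ => a) := by
    refine ⟨h.hm, h.hn, h.per, h.close, fun i hi => ?_⟩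
    have : i = 0 := by omega
    subst this
    exact hconn
  obtain ⟨U, hU, haU, hUL, hUy, hUp⟩ := hcyc.exists_open (f := g.toHomeomorph)
    (fun i j hij hj => by omega) (l := 0) (by omega) (O := Lᶜ) (hL.isOpen_compl.mem_nhds haL)
  obtain ⟨W, hW, hWc, hWU, -⟩ := exists_gap hU haU
  have hWa : ∀ k : ℤ, k ≠ 0 → zi g.toEquiv k a ∉ W := fun k hk h1 =>
    hk (hUy 0 (by omega) k (hWU h1)).2
  obtain ⟨Ψ, ρ₀, hρ₀, hρ₀t, hρ₀W, hΨW, hΨ⟩ := exists_localFam hmax (e.map_source hae) (W := W)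
    (by rwa [e.left_inv hae])
  -- the sequence in the chart
  set ξ : ℤ → E := fun k => if k ≤ 0 then e (zi g.toEquiv (m * k) a) else
    e (zi g.toEquiv (m * (k - 1)) b) with hξ
  have hξn : ∀ k, k ≤ 0 → ξ k = e (zi g.toEquiv (m * k) a) := fun k hk => by simp [hξ, hk]
  have hξp : ∀ k, 0 < k → ξ k = e (zi g.toEquiv (m * (k - 1)) b) := fun k hk => by
    simp [hξ, not_le.2 hk]
  have hξ0 : ξ 0 = e a := by rw [hξn 0 le_rfl, mul_zero, zi_zero]
  have hξsn : ∀ k, k ≤ 0 → e.symm (ξ k) = zi g.toEquiv (m * k) a := fun k hk => by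
    rw [hξn k hk, e.left_inv (ha k hk).1]
  have hξsp : ∀ k, 0 < k → e.symm (ξ k) = zi g.toEquiv (J + m * (k - 1)) a := fun k hk => by
    rw [hξp k hk, e.left_inv (hb (k - 1) (by omega)).1, hbz, ← zi_add]
    congr 1
    ring
  have hξmem : ∀ k, ξ k ∈ closedBall c (ρ / 2) := by
    intro k
    rcases le_or_gt k 0 with hk | hk
    · rw [hξn k hk]
      exact (ha k hk).2
    · rw [hξp k hk]
      exact (hb (k - 1) (by omega)).2
  have hξmem' : ∀ k, ξ k ∈ closedBall c ρ := fun k =>
    closedBall_subset_closedBall (by linarith) (hξmem k)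
  have hξtop : Tendsto ξ atTop (𝓝 c) := by
    have h1 : Tendsto (fun k : ℤ => e (zi g.toEquiv (m * (k + -1)) b)) atTop (𝓝 c) :=
      (e.continuousAt hqe).tendsto.comp (hbfw.comp (tendsto_atTop_add_const_right _ (-1) tendsto_id))
    refine h1.congr' ?_
    filter_upwards [eventually_gt_atTop (0 : ℤ)] with k hk
    rw [hξp k hk]
    rfl
  have hξbot : Tendsto ξ atBot (𝓝 c) := by
    have h1 : Tendsto (fun k : ℤ => e (zi g.toEquiv (m * k) a)) atBot (𝓝 c) :=
      (e.continuousAt hqe).tendsto.comp hconn.bwd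
    refine h1.congr' ?_
    filter_upwards [eventually_le_atBot (0 : ℤ)] with k hk
    rw [hξn k hk]
  -- the linear maps
  set A : E →L[ℝ] E := linAt g m (p 0) with hA
  set A₀ : E →L[ℝ] E := fderiv ℝ (fun z => e (g^[J] (e.symm z))) (e a) with hA₀
  have hbe' : g^[J] a ∈ e.source := hb0 ▸ hbe
  obtain ⟨A₀', hA₀'⟩ := exists_right_inv hr hmax hae hbe'
  set D₀ : E →L[ℝ] E := A₀ - A with hD₀
  set Ak : ℤ → E →L[ℝ] E := fun k => if k = 0 then A else fderiv ℝ φ (ξ k) with hAk
  have hdich2 : Dich Ak (2 * K) := by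
    refine hdich.perturb hK hη.le hKη fun k => ?_
    simp only [hAk]
    split_ifs
    · rw [sub_self, norm_zero]
      exact hη.le
    · exact (hloc1 _ (hξmem' k)).2.2
  have hfin := hdich2.generic (by positivity) D₀
  have hAk0 : Ak 0 = A := by simp [hAk]
  rw [hAk0] at hfin
  -- the choice of the parameter
  have hgood : ∀ᶠ t : ℝ in 𝓝[≠] 0, ∃ K', 0 ≤ K' ∧
      Dich (Function.update Ak 0 (A + (1 + t) • D₀)) K' := by
    have h1 : ({t : ℝ | ¬ ∃ K', 0 ≤ K' ∧
        Dich (Function.update Ak 0 (A + (1 + t) • D₀)) K'} \ {0}).Finite := by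
      refine Set.Finite.subset (hfin.preimage (f := fun t : ℝ => 1 + t)
        (fun s _ t _ hst => by simpa using hst)) ?_
      rintro t ⟨ht, -⟩
      exact ht
    have h2 : ({t : ℝ | ¬ ∃ K', 0 ≤ K' ∧
        Dich (Function.update Ak 0 (A + (1 + t) • D₀)) K'} \ {0})ᶜ ∈ 𝓝 (0 : ℝ) :=
      h1.isClosed.isOpen_compl.mem_nhds (fun h => h.2 rfl)
    filter_upwards [Filter.Eventually.filter_mono nhdsWithin_le_nhds h2, self_mem_nhdsWithin]
      with t ht ht0
    by_contra hcon
    exact ht ⟨hcon, ht0⟩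
  have hB : Tendsto (fun t : ℝ => ((0, t • (A₀' * D₀)) : E × (E →L[ℝ] E))) (𝓝 0) (𝓝 0) := by
    have : Continuous (fun t : ℝ => ((0, t • (A₀' * D₀)) : E × (E →L[ℝ] E))) := by fun_prop
    exact this.tendsto' _ _ (by simp)
  have hsrcev := Ψ.eventually_not_mem g m (K := e.symm '' closedBall c ρ) (C := e.sourceᶜ)
    ((isCompact_closedBall c ρ).image_of_continuousOn (e.continuousOn_symm.mono hρt))
    e.open_source.isClosed_compl (by
      rintro _ ⟨z, hz, rfl⟩ h1
      exact h1 (hloc1 z hz).1)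
  have hev := hB.eventually ((hN.fam Ψ g hg).and (hΨ.and hsrcev))
  obtain ⟨t, ⟨K', hK', hdich3⟩, hgN, hform, hsrc⟩ :=
    (hgood.and (Filter.Eventually.filter_mono nhdsWithin_le_nhds hev)).exists
  set B : E →L[ℝ] E := t • (A₀' * D₀) with hBdef
  set ψ := Ψ.toFun (0, B) with hψ
  have hψW : ∀ z ∉ W, ψ z = z := fun z hz => hΨW _ z hz
  have hψa : ψ a = a := by
    have h1 := (hform (e a) (mem_closedBall_self hρ₀.le)).1
    simp only [sub_self, map_zero, add_zero, e.left_inv hae] at h1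
    exact h1
  have hzia : ∀ k : ℤ, zi (pert g ψ).toEquiv k a = zi g.toEquiv k a := by
    refine fun k => zi_pert (fun l => ?_) k
    by_cases hl : l = 0
    · rw [hl, zi_zero]
      exact hψa
    · exact hψW _ (hWa l hl)
  have hiter : ∀ (n : ℕ) (l : ℤ), (pert g ψ)^[n] (zi g.toEquiv l a) = zi g.toEquiv (n + l) a := by
    intro n l
    have h1 : zi (pert g ψ).toEquiv n (zi g.toEquiv l a) = (pert g ψ)^[n] (zi g.toEquiv l a) :=
      zi_nat (pert g ψ).toEquiv n _
    rw [← h1, ← hzia l, ← zi_add, hzia]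
  have hJa : (pert g ψ)^[J] a = b := by
    have h1 := hiter J 0
    rw [zi_zero, add_zero, zi_nat] at h1
    exact h1.trans hb0.symm
  -- the derivatives
  have hderiv : (fun k => fderiv ℝ (chm (pert g ψ) e m J k) (ξ k)) =
      Function.update Ak 0 (A + (1 + t) • D₀) := by
    funext k
    by_cases hk : k = 0
    · subst hk
      rw [Function.update_self, chm_zero, hξ0]
      have hT : HasFDerivAt (fun z => e (g^[J] (e.symm z))) A₀ (e a + B (e a - e a)) := by
        rw [sub_self, map_zero, add_zero]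
        exact ((contDiffAt_chart_iterate hr hmax hmax J (e.map_source hae)
          (by rw [e.left_inv hae]; exact hbe')).differentiableAt (by simp)).hasFDerivAt
      have hlin : HasFDerivAt (fun z => z + B (z - e a)) (1 + B) (e a) :=
        (hasFDerivAt_id (𝕜 := ℝ) (e a)).add
          (B.hasFDerivAt.comp (e a) ((hasFDerivAt_id (𝕜 := ℝ) (e a)).sub_const (e a)))
      have h3 := HasFDerivAt.comp (g := fun z => e (g^[J] (e.symm z)))
        (f := fun z => z + B (z - e a)) (e a) hT hlin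
      have h4 : (fun z => e ((pert g ψ)^[J] (e.symm z))) =ᶠ[𝓝 (e a)]
          (fun z => e (g^[J] (e.symm z))) ∘ (fun z => z + B (z - e a)) := by
        have h5 : ∀ᶠ y in 𝓝 a, (pert g ψ)^[J] y = g^[J] (ψ y) := by
          refine eventually_iterate_eq' hWc hψW hJ0 fun s hs hsJ => ?_
          rw [hψa]
          have h6 := hWa s (by exact_mod_cast hs.ne')
          rw [zi_nat] at h6
          exact h6
        have h7 : Tendsto e.symm (𝓝 (e a)) (𝓝 a) := by
          have := e.continuousAt_symm (e.map_source hae)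
          rwa [ContinuousAt, e.left_inv hae] at this
        filter_upwards [h7.eventually h5, closedBall_mem_nhds (e a) hρ₀] with z hz hzb
        rw [hz, (hform z hzb).1]
        simp
      rw [(h3.congr_of_eventuallyEq h4).fderiv]
      have e1 : A₀ * (1 + B) = A + (1 + t) • D₀ := by
        rw [mul_add, mul_one, hBdef, mul_smul_comm, ← mul_assoc, hA₀', one_mul, add_smul, one_smul,
          hD₀]
        abel
      exact e1
    · rw [Function.update_of_ne hk, chm_of_ne hk]
      have hAkk : Ak k = fderiv ℝ φ (ξ k) := by simp [hAk, hk]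
      rw [hAkk]
      refine Filter.EventuallyEq.fderiv_eq ?_
      have h5 : ∀ᶠ y in 𝓝 (e.symm (ξ k)), (pert g ψ)^[m] y = g^[m] y := by
        refine eventually_iterate_eq hWc hψW fun s hs => ?_
        have hsz : (s : ℤ) < m := by exact_mod_cast hs
        have hs0 : (0 : ℤ) ≤ s := by positivity
        rcases lt_or_gt_of_ne hk with hk' | hk'
        · rw [hξsn k hk'.le]
          have h6 : zi g.toEquiv s (zi g.toEquiv (m * k) a) = g^[s] (zi g.toEquiv (m * k) a) :=
            zi_nat g.toEquiv s _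
          rw [← h6, ← zi_add]
          refine hWa _ ?_
          have : (m : ℤ) * k ≤ m * (-1) := by
            have : k ≤ -1 := by omega
            nlinarith
          omega
        · rw [hξsp k hk']
          have h6 : zi g.toEquiv s (zi g.toEquiv (J + m * (k - 1)) a) =
              g^[s] (zi g.toEquiv (J + m * (k - 1)) a) := zi_nat g.toEquiv s _
          rw [← h6, ← zi_add]
          refine hWa _ ?_
          have h8 : 0 ≤ (m : ℤ) * (k - 1) := mul_nonneg hmz.le (by omega)
          have h9 : (0 : ℤ) < J := by exact_mod_cast hJ0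
          omega
      have h7 : ContinuousAt e.symm (ξ k) := e.continuousAt_symm (hρt (hξmem' k))
      filter_upwards [h7.eventually h5] with z hz
      rw [hz]
  -- the contradiction
  obtain ⟨s, Kc, ρc, hcov, -⟩ := exists_cov (M := M) E (U := fun _ => univ) (fun b => univ_mem)
  have hfg' : NearEq f (pert g ψ) L := hLC.near.step hWc (fun z hz hzL => hUL (hWU hz) hzL)
    (fun z hz => by rw [pert_apply, hψW z hz])
  have hconn' : IsConn (pert g ψ).toEquiv m (p 0) (p 1) a := hconn.congr hzia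
  have hp0L : p 0 ∈ L := hLC.pL 0 (by omega)
  have hp0 : ∀ k, zi (pert g ψ).toEquiv k (p 0) = zi g.toEquiv k (p 0) := fun k => by
    rw [hfg'.zi hLinv hp0L, hLC.near.zi hLinv hp0L]
  have hmeq : ∀ k, zi (pert g ψ).toEquiv (tt m J k) a = e.symm (ξ k) := by
    intro k
    rw [hzia]
    unfold tt
    split_ifs with hk
    · rw [hξsn k hk]
    · rw [hξsp k (by omega)]
  have hξs : ∀ k, ξ k ∈ e.target := fun k => hρt (hξmem' k)
  have hmeq' : ∀ k, e (zi (pert g ψ).toEquiv (tt m J k) a) = ξ k := fun k => by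
    rw [hmeq, e.right_inv (hξs k)]
  obtain ⟨κ, hκ⟩ := exists_dhyp_of_blocks hcov (g := pert g ψ) hr hm hJ0 (q := p 0) (a := a)
    (C₀ := e.symm '' closedBall c ρ)
    ((isCompact_closedBall c ρ).image_of_continuousOn (e.continuousOn_symm.mono hρt)) (by
      rintro _ ⟨z, hz, rfl⟩
      exact e.map_target (hρt hz)) (fun k => by
      rw [hmeq]
      exact ⟨ξ k, hξmem' k, rfl⟩) hK' (by
      have h1 : (fun k => fderiv ℝ (fun z => chartAt E (p 0) ((pert g ψ)^[tm m J k]
          ((chartAt E (p 0)).symm z))) (chartAt E (p 0) (zi (pert g ψ).toEquiv (tt m J k) a))) =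
          fun k => fderiv ℝ (chm (pert g ψ) e m J k) (ξ k) := by
        funext k
        have h2 := hmeq' k
        rw [← h2]
        rfl
      rw [h1, hderiv]
      exact hdich3)
  have hlim : omegaL (pert g ψ) a ⊆ Orb (pert g ψ).toHomeomorph (p 0) ∧
      omegaL (pert g ψ).symm a ⊆ Orb (pert g ψ).toHomeomorph (p 0) := by
    have hp1L : p 1 ∈ L := hLC.pL 1 le_rfl
    have hp1 : ∀ k, zi (pert g ψ).toEquiv k (p 1) = zi g.toEquiv k (p 1) := fun k => by
      rw [hfg'.zi hLinv hp1L, hLC.near.zi hLinv hp1L]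
    have h1 := hconn'.toAsy.omegaL_subset (f := (pert g ψ).toHomeomorph) hm
      (by
        change zi (pert g ψ).toEquiv m (p 0) = p 0
        rw [hp0]
        exact h.per 0 (by omega))
      (by
        change zi (pert g ψ).toEquiv m (p 1) = p 1
        rw [hp1]
        exact h.per 1 (by omega))
    refine ⟨h1.1.trans ?_, h1.2⟩
    rintro _ ⟨k, rfl⟩
    refine ⟨k + s₀, ?_⟩
    change zi (pert g ψ).toEquiv (k + s₀) (p 0) = zi (pert g ψ).toEquiv k (p 1)
    rw [hp0, hp1, hs₀, zi_add]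
  refine hN.no_transverse hr hdvd hrec hf hcov hgN hfg' hp0L ⟨hm, ?_, hlim.1, hlim.2⟩ haL hκ
  have h1 := hp0 m
  rw [zi_nat_apply, zi_nat_apply] at h1
  exact h1.trans hqm

end PRH
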