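import Pool.Agent.OmSt2.Final2
import Pool.Agent.PRH.FHom3
import Pool.Agent.PRH.FMerge3

/-!
# Axiom A (adapted from OmSt2.Final2)
-/

open Set Filter Topology Manifold ContDiff Metric

set_option linter.unusedSectionVars false

namespace PRH

open OmSt

universe u v

variable {E : Type u} [NormedAddCommGroup E] [NormedSpace ℝ E] [FiniteDimensional ℝ E]
  {M : Type v} [MetricSpace M] [CompactSpace M] [ChartedSpace E M] [IsManifold 𝓘(ℝ, E) ∞ M]
  {r : ℕ∞}

theorem AStab.no_lcyc {N : Set (Dyn E M r)} {f : Dyn E M r} {m₀ : ℕ} (hN : AStab f N m₀)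
    (hr : 1 ≤ r) (hrec : HypRec f) (hf : PH f.toHomeomorph) (m n : ℕ) (hdvd : m₀ ∣ m) :
    ∀ g ∈ N, ∀ p x : ℕ → M, ¬ LCyc f g (LL f.toHomeomorph m) m n p x := by
  induction n using Nat.strong_induction_on with
  | _ n IH =>
  intro g hg p x h
  have hm := h.cyc.hm
  rcases Nat.lt_or_ge n 2 with hn | hn
  · have hn1 : n = 1 := by have := h.cyc.hn; omega
    subst hn1
    exact hN.no_homoclinic' hr hrec hf hg hdvd h
  · by_cases hd : ∀ i j, i < j → j < n → ∀ s : ℤ, p j ≠ zi g.toEquiv s (p i)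
    · obtain ⟨g', hg', p', x', h'⟩ := hN.merge' hr hg (hf.isClosed_LL hm)
        (LL_zinv (f := f.toHomeomorph)) h hn hd
      exact IH (n - 1) (by omega) g' hg' p' x' h'
    · push Not at hd
      obtain ⟨i, j, hij, hj, s, hs⟩ := hd
      refine IH (j - i) (by omega) g hg (fun k => p (i + k)) (fun k => x (i + k))
        ⟨h.near, ⟨hm, by omega, fun k hk => h.cyc.per _ (by omega), ⟨s, ?_⟩, fun k hk => ?_⟩,
        fun k hk => h.pL _ (by omega), fun k hk => h.xL _ (by omega)⟩
      · have e1 : i + (j - i) = j := by omega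
        simp only [e1, add_zero]
        exact hs
      · exact h.cyc.conn (i + k) (by omega)

/-- Axiom A from hyperbolic recurrence and stability. -/
theorem AStab.axiomA {N : Set (Dyn E M r)} {f : Dyn E M r} {m₀ : ℕ} (hS : AStab f N m₀)
    (hr : 1 ≤ r) (hrec : HypRec f) : AxiomA f := by
  have hPH : PH f.toHomeomorph := hrec.ph hr fun n hn => hS.fix_finite hr n hn f hS.mem
  have hmain : {P | Piece f.toHomeomorph P}.Finite ∧
      nonwandering f ⊆ ⋃₀ {P | Piece f.toHomeomorph P} := by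
    by_contra hcon
    obtain ⟨n, P, y, hP⟩ := hPH.exists_cycle hcon
    obtain ⟨m, -, hdvd, g, hg, p, x, hcyc⟩ := hS.exists_lcyc hr hrec hPH hP
    exact hS.no_lcyc hr hrec hPH m n hdvd g hg p x hcyc
  refine ⟨(sUnion_hyp hrec hPH hmain.1).mono hmain.2, fun x hx => ?_⟩
  obtain ⟨P, hP, hxP⟩ := hmain.2 hx
  exact closure_mono inter_subset_right (hPH.dense_periodic hP hxP)

end PRH
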