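import Pool.Agent.PRH.Dim

/-!
# The splitting (module FSplit)

HEADER. `NB.symm`: `nn` of the inverse cocycle is `nn z v (-i)`, so `C.NB Λ → C.symm.NB Λ`.
`NB.split`: `NB.Sp_decay` for `C` and `Λ = ω(x)` (closed: `isClosed_omegaL`; invariant: `omegaL_zinv`), and
for `C.symm` (`symm_Sp`, `symm_nn`, `zi_symm_eq`): take the larger `c` and the larger `μ`
(`c₁ μ₁^n ≤ c μ^n`). `NB.isCompl`.
-/

open Set Filter Topology Metric OmSt

namespace PRH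

namespace LCoc

variable {Z : Type*} [MetricSpace Z] [CompactSpace Z] {E : Type*} [NormedAddCommGroup E]
  [NormedSpace ℝ E] [FiniteDimensional ℝ E] {C : LCoc Z E}

omit [CompactSpace Z] [FiniteDimensional ℝ E] in
theorem NB.symm {Λ : Set Z} (h : C.NB Λ) : C.symm.NB Λ := by
  intro z hz v K hK
  apply h z hz v K
  intro i
  have h1 := hK (-i)
  rwa [symm_nn, neg_neg] at h1

theorem NB.split {x : Z} (hx : x ∈ omegaL C.G x) (h : C.NB (omegaL C.G x)) :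
    ∃ (c μ : ℝ), 0 < c ∧ 0 < μ ∧ μ < 1 ∧ ∀ y ∈ omegaL C.G x, IsCompl (C.Sp y) (C.Up y) ∧
      (∀ v ∈ C.Sp y, ∀ n : ℕ, C.nn y v n ≤ c * μ ^ n * C.N y v) ∧
      (∀ v ∈ C.Up y, ∀ n : ℕ, C.nn y v (-(n : ℤ)) ≤ c * μ ^ n * C.N y v) := by
  have hinv : ∀ z ∈ omegaL C.G x, ∀ i : ℤ, zi C.G.toEquiv i z ∈ omegaL C.G x :=
    fun z hz i => omegaL_zinv C.G x z hz i
  obtain ⟨c₁, μ₁, hc₁, hμ₁, hμ₁', h₁⟩ := NB.Sp_decay (isClosed_omegaL _ _) hinv h
  have hinv' : ∀ z ∈ omegaL C.G x, ∀ i : ℤ, zi C.symm.G.toEquiv i z ∈ omegaL C.G x := by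
    intro z hz i
    have e : zi C.symm.G.toEquiv i z = zi C.G.toEquiv (-i) z := zi_symm_eq C.G i z
    rw [e]
    exact hinv z hz (-i)
  obtain ⟨c₂, μ₂, hc₂, hμ₂, hμ₂', h₂⟩ := NB.Sp_decay (C := C.symm) (isClosed_omegaL _ _) hinv' h.symm
  have hkey : ∀ {a b r : ℝ} {n : ℕ}, 0 ≤ r → a * b ^ n ≤ max c₁ c₂ * max μ₁ μ₂ ^ n →
      a * b ^ n * r ≤ max c₁ c₂ * max μ₁ μ₂ ^ n * r := fun hr hab => mul_le_mul_of_nonneg_right hab hr
  refine ⟨max c₁ c₂, max μ₁ μ₂, lt_max_of_lt_left hc₁, lt_max_of_lt_left hμ₁, max_lt hμ₁' hμ₂', ?_⟩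
  intro y hy
  refine ⟨NB.isCompl hx h hy, ?_, ?_⟩
  · intro v hv n
    refine (h₁ y hy v hv n).trans (hkey (C.N_nonneg y v) ?_)
    gcongr
    · exact le_max_left _ _
    · exact le_max_left _ _
  · intro v hv n
    have hv' : v ∈ C.symm.Sp y := by
      rw [symm_Sp]
      exact hv
    have h3 := h₂ y hy v hv' n
    rw [symm_nn] at h3
    refine h3.trans (hkey (C.N_nonneg y v) ?_)
    gcongr
    · exact le_max_right _ _
    · exact le_max_right _ _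

end LCoc

end PRH
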