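import Pool.Agent.PRH.PChart

/-!
# A fixed vector contradicts hyperbolicity (module FixVec)

HEADER. Let `κ = pchart Θ ι e e'`, `x = Θ.symm (p₀, q₀) ∈ κ.source`, `G x = x`. By `exists_chart_conj`
(Pool/Agent/OmSt/Base2.lean) for `κ ∈ maximalAtlas`: `HasFDerivAt (fun u => κ (G (κ.symm u))) (L * D G x * L') (κ x)`
with `L * L' = 1 = L' * L`. On the other hand, for `u` near `κ x`,
`κ (G (κ.symm u)) = ι.symm (e (H (e.symm (ι u).1)), e' (B (e'.symm (ι u).2)))` (`κ.symm u = Θ.symm (..)`;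
the hypothesis on `G` near `(p₀, q₀)`, continuity of `κ.symm`), so its directional derivative at `κ x` in the
direction `ι.symm (v, 0)` is `ι.symm (𝒟 v, 0) = ι.symm (v, 0)`: restrict to the line / the affine subspace
`u = ι.symm (y, e' q₀)`, `y` near `e p₀`: there `e' (B (e'.symm (e' q₀))) = e' (B q₀) = e' q₀` is constant, so
`κ (G (κ.symm (ι.symm (y, e' q₀)))) = ι.symm (e (H (e.symm y)), e' q₀)`; compose the `HasFDerivAt` with the
affine map `y ↦ ι.symm (y, e' q₀)` and compare with `HasFDerivAt (fun y => e (H (e.symm y))) 𝒟 (e p₀)`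
(uniqueness of derivatives). So `(L * D G x * L') (ι.symm (v, 0)) = ι.symm (𝒟 v, 0) = ι.symm (v, 0)`, and
`w = L' (ι.symm (v, 0))` satisfies `D G x w = w`. By `IsHyp` (`IsHyp.conj` not even needed) `w = 0`: with
`T ^ n * P`, `T' ^ n * (1 - P)`: `w = T^n w`, `P w = T^n (P w) → 0`, `(1 - P) w = T'^n ((1-P) w) → 0`. (A proof
is in Pool/Agent/PCE/Star.lean, `not_eig_one`.) So `ι.symm (v, 0) = L w = 0`, `v = 0`.
-/

open Set Filter Topology Manifold ContDiff Metric

namespace PRH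

open OmSt

theorem isHyp_fix {E : Type*} [NormedAddCommGroup E] [NormedSpace ℝ E] {T : E →L[ℝ] E}
    (hT : IsHyp T) {v : E} (hv : T v = v) : v = 0 := by
  obtain ⟨T', Q, c, μ, h1, h2, h3, h4, hc, hμ0, hμ1, hb⟩ := hT
  have hpow : ∀ n : ℕ, (T ^ n) v = v := by
    intro n
    induction n with
    | zero => rfl
    | succ n ih => rw [pow_succ]; change (T ^ n) (T v) = v; rw [hv, ih]
  have hv' : T' v = v := by
    have := congrArg (fun L : E →L[ℝ] E => L v) h2
    change T' (T v) = v at this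
    rwa [hv] at this
  have hpow' : ∀ n : ℕ, (T' ^ n) v = v := by
    intro n
    induction n with
    | zero => rfl
    | succ n ih => rw [pow_succ]; change (T' ^ n) (T' v) = v; rw [hv', ih]
  have hcomm : Commute T Q := h4.symm
  have hcomm' : Commute T' Q := by
    change T' * Q = Q * T'
    calc T' * Q = T' * (Q * T) * T' := by rw [mul_assoc, mul_assoc, h1, mul_one]
      _ = T' * (T * Q) * T' := by rw [h4]
      _ = (T' * T) * Q * T' := by simp only [mul_assoc]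
      _ = Q * T' := by rw [h2, one_mul]
  have hlim : Tendsto (fun n : ℕ => c * μ ^ n * ‖v‖) atTop (𝓝 0) := by
    have := ((tendsto_pow_atTop_nhds_zero_of_lt_one hμ0 hμ1).const_mul c).mul_const ‖v‖
    simpa using this
  have hQ : Q v = 0 := by
    rw [← norm_le_zero_iff]
    refine ge_of_tendsto hlim (Eventually.of_forall fun n => ?_)
    have e1 : Q v = (T ^ n * Q) v := by
      rw [(hcomm.pow_left n).eq]
      change Q v = Q ((T ^ n) v)
      rw [hpow]
    rw [e1]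
    exact ((T ^ n * Q).le_opNorm v).trans (by gcongr; exact (hb n).1)
  have hQ' : v - Q v = 0 := by
    rw [← norm_le_zero_iff]
    refine ge_of_tendsto hlim (Eventually.of_forall fun n => ?_)
    have e1 : v - Q v = (T' ^ n * (1 - Q)) v := by
      have : Commute (T' ^ n) (1 - Q) := (Commute.one_right _).sub_right (hcomm'.pow_left n)
      rw [this.eq]
      change v - Q v = (T' ^ n) v - Q ((T' ^ n) v)
      rw [hpow']
    rw [e1]
    exact ((T' ^ n * (1 - Q)).le_opNorm v).trans (by gcongr; exact (hb n).2)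
  rw [hQ, sub_zero] at hQ'
  exact hQ'

variable {E : Type*} [NormedAddCommGroup E] [NormedSpace ℝ E]
  {E' : Type*} [NormedAddCommGroup E'] [NormedSpace ℝ E']
  {F : Type*} [NormedAddCommGroup F] [NormedSpace ℝ F]
  {M : Type*} [TopologicalSpace M] [ChartedSpace E M] [IsManifold 𝓘(ℝ, E) ∞ M]
  {N : Type*} [TopologicalSpace N] [ChartedSpace E' N] [IsManifold 𝓘(ℝ, E') ∞ N]
  {X : Type*} [TopologicalSpace X] [ChartedSpace F X] [IsManifold 𝓘(ℝ, F) ∞ X]

theorem fix_vec (Θ : Diffeomorph 𝓘(ℝ, F) (𝓘(ℝ, E).prod 𝓘(ℝ, E')) X (M × N) ∞)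
    (ι : F ≃L[ℝ] E × E') {e : OpenPartialHomeomorph M E}
    (he : e ∈ IsManifold.maximalAtlas 𝓘(ℝ, E) ∞ M) {e' : OpenPartialHomeomorph N E'}
    (he' : e' ∈ IsManifold.maximalAtlas 𝓘(ℝ, E') ∞ N) {p₀ : M} {q₀ : N} (hp : p₀ ∈ e.source)
    (hq : q₀ ∈ e'.source) {G : X → X}
    (hG : MDifferentiableAt 𝓘(ℝ, F) 𝓘(ℝ, F) G (Θ.symm (p₀, q₀))) {H : M → M} {B : N → N}
    (hH : H p₀ = p₀) (hB : B q₀ = q₀)
    (hloc : ∀ᶠ z : M × N in 𝓝 (p₀, q₀), G (Θ.symm z) = Θ.symm (H z.1, B z.2)) {Dv : E →L[ℝ] E}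
    (hD : HasFDerivAt (fun u => e (H (e.symm u))) Dv (e p₀))
    (hhyp : IsHyp (D G (Θ.symm (p₀, q₀)) : F →L[ℝ] F)) {v : E} (hv : Dv v = v) : v = 0 := by
  set κ := pchart Θ ι e e' with hκ
  have hκm : κ ∈ IsManifold.maximalAtlas 𝓘(ℝ, F) ∞ X := pchart_mem_maximalAtlas Θ ι he he'
  set x := Θ.symm (p₀, q₀) with hx
  have hΘx : Θ x = (p₀, q₀) := Θ.apply_symm_apply _
  have hxs : x ∈ κ.source := by
    rw [hκ, mem_pchart_source, hΘx]
    exact ⟨hp, hq⟩
  have hGx : G x = x := by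
    have h0 := hloc.self_of_nhds
    rw [hH, hB] at h0
    exact h0
  obtain ⟨L, L', h1, h2, h3⟩ := exists_chart_conj hκm hxs
  have h4 := h3 G hG hGx
  have hκx : κ x = ι.symm (e p₀, e' q₀) := by rw [hκ, pchart_apply, hΘx]
  rw [hκx] at h4
  have hpair : HasFDerivAt (fun y : E => (y, e' q₀)) (ContinuousLinearMap.inl ℝ E E') (e p₀) := by
    have h0 := (hasFDerivAt_id (𝕜 := ℝ) (e p₀)).prodMk (hasFDerivAt_const (𝕜 := ℝ) (e' q₀) (e p₀))
    exact h0
  have hj : HasFDerivAt (fun y : E => ι.symm (y, e' q₀))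
      ((ι.symm : E × E' →L[ℝ] F).comp (ContinuousLinearMap.inl ℝ E E')) (e p₀) :=
    (ι.symm : E × E' →L[ℝ] F).hasFDerivAt.comp (e p₀) hpair
  have h5 : HasFDerivAt (fun y => κ (G (κ.symm (ι.symm (y, e' q₀)))))
      ((L * D G x * L').comp ((ι.symm : E × E' →L[ℝ] F).comp (ContinuousLinearMap.inl ℝ E E')))
      (e p₀) :=
    HasFDerivAt.comp (e p₀) (g := fun z => κ (G (κ.symm z))) (f := fun y : E => ι.symm (y, e' q₀))
      h4 hj
  have h6 : (fun y => κ (G (κ.symm (ι.symm (y, e' q₀))))) =ᶠ[𝓝 (e p₀)]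
      (fun y => ι.symm (e (H (e.symm y)), e' q₀)) := by
    have hc : Tendsto (fun y => (e.symm y, q₀)) (𝓝 (e p₀)) (𝓝 (p₀, q₀)) := by
      have hc1 : Tendsto e.symm (𝓝 (e p₀)) (𝓝 p₀) := by
        have := e.continuousAt_symm (e.map_source hp)
        have h0 : Tendsto e.symm (𝓝 (e p₀)) (𝓝 (e.symm (e p₀))) := this
        rwa [e.left_inv hp] at h0
      exact hc1.prodMk_nhds tendsto_const_nhds
    filter_upwards [hc.eventually hloc] with y hy
    rw [hκ, pchart_symm_apply, ι.apply_symm_apply]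
    simp only
    rw [e'.left_inv hq, hy, pchart_apply, Θ.apply_symm_apply]
    simp only
    rw [hB]
  have h7 : HasFDerivAt (fun y => ι.symm (e (H (e.symm y)), e' q₀))
      ((ι.symm : E × E' →L[ℝ] F).comp ((ContinuousLinearMap.inl ℝ E E').comp Dv)) (e p₀) := by
    have h0 := hD.prodMk (hasFDerivAt_const (𝕜 := ℝ) (e' q₀) (e p₀))
    exact (ι.symm : E × E' →L[ℝ] F).hasFDerivAt.comp (e p₀) h0
  have h8 := (h5.congr_of_eventuallyEq h6.symm).unique h7
  have h9 : L ((D G x : F →L[ℝ] F) (L' (ι.symm (v, 0)))) = ι.symm (v, 0) := by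
    have h0 := congrArg (fun A : E →L[ℝ] F => A v) h8
    have h01 : L ((D G x : F →L[ℝ] F) (L' (ι.symm (v, 0)))) = ι.symm (Dv v, 0) := h0
    rw [h01, hv]
  have h11 : (D G x : F →L[ℝ] F) (L' (ι.symm (v, 0))) = L' (ι.symm (v, 0)) := by
    have h0 : (L' * L) ((D G x : F →L[ℝ] F) (L' (ι.symm (v, 0))))
        = (D G x : F →L[ℝ] F) (L' (ι.symm (v, 0))) := by rw [h2]; rfl
    rw [← h0]
    show L' (L ((D G x : F →L[ℝ] F) (L' (ι.symm (v, 0))))) = L' (ι.symm (v, 0))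
    rw [h9]
  have h12 : L' (ι.symm (v, 0)) = 0 := isHyp_fix hhyp h11
  have h13 : ι.symm (v, (0 : E')) = 0 := by
    have h0 : (L * L') (ι.symm (v, 0)) = ι.symm (v, 0) := by rw [h1]; rfl
    rw [← h0]
    show L (L' (ι.symm (v, 0))) = 0
    rw [h12, map_zero]
  have h14 : (v, (0 : E')) = 0 := by
    apply ι.symm.injective
    rw [h13, map_zero]
  exact congrArg Prod.fst h14

end PRH
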