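import Pool.Agent.PRH.CocCpt

/-!
# Limits of subspaces (module Grass)

HEADER.

`exists_lim_subspaces`: let `e : E ≃L EuclideanSpace ℝ (Fin d)` (`toEuclidean`). For every `k` let
`V' k = (V k).map e`, of dimension `c`; take an orthonormal basis of `V' k` (`stdOrthonormalBasis ℝ (V' k)`,
reindexed by `Fin c`), as vectors `b k j` of the Euclidean space: orthonormal family in `V' k`. The unit
sphere is compact, so along a subsequence `b (φ k) j → b' j` for all `j : Fin c` (`Fin c → Euclidean` is a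
proper space: the sequence `k ↦ (fun j => b k j)` is bounded, `tendsto_subseq_of_bounded`). The limit
family is orthonormal (the inner products `⟪b k i, b k j⟫` are constant and converge), hence linearly
independent. Put `w k j = e.symm (b (φ k) j)`, `w' j = e.symm (b' j)`.

`exists_lim_fibres`: `z k → z'`; for large `k` (say `k ≥ k₀`) `z k ∈ S z'` and `T z' (z k)` is bijective
(`T_mul`, `T_mul'`). Apply the first statement to the subspaces `(V (k + k₀)).map (T z' (z (k + k₀)))`
(`finrank` is preserved). With `w k j = T z' (z _) (v k j)`, `v k j = T' z' (z _) (w k j) ∈ V _`, and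
`v' j = T' z' z' (w' j)`; `Conv.of_chart`; linear independence of `v'`: `T' z' z'` is injective.
-/

open Set Filter Topology Metric OmSt

namespace PRH

/-- an orthonormal family in a subspace of the Euclidean space -/
theorem Grass_on {d c : ℕ} (V : Submodule ℝ (EuclideanSpace ℝ (Fin d)))
    (hV : Module.finrank ℝ V = c) :
    ∃ b : Fin c → EuclideanSpace ℝ (Fin d), Orthonormal ℝ b ∧ ∀ j, b j ∈ V := by
  subst hV
  refine ⟨fun j => ((stdOrthonormalBasis ℝ V) j : EuclideanSpace ℝ (Fin d)), ?_, ?_⟩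
  · exact (stdOrthonormalBasis ℝ V).orthonormal.comp_linearIsometry V.subtypeₗᵢ
  · intro j
    exact ((stdOrthonormalBasis ℝ V) j).2

theorem Grass_bdd {d c : ℕ} {b : Fin c → EuclideanSpace ℝ (Fin d)} (h : Orthonormal ℝ b) :
    b ∈ Metric.closedBall (0 : Fin c → EuclideanSpace ℝ (Fin d)) 1 := by
  rw [mem_closedBall_zero_iff, pi_norm_le_iff_of_nonneg zero_le_one]
  intro j
  exact (h.1 j).le

theorem exists_lim_subspaces {E : Type*} [NormedAddCommGroup E] [NormedSpace ℝ E]
    [FiniteDimensional ℝ E] {c : ℕ} (V : ℕ → Submodule ℝ E)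
    (hV : ∀ k, Module.finrank ℝ (V k) = c) :
    ∃ (φ : ℕ → ℕ) (w : Fin c → ℕ → E) (w' : Fin c → E), StrictMono φ ∧
      (∀ j k, w j k ∈ V (φ k)) ∧ LinearIndependent ℝ w' ∧
      ∀ j, Tendsto (w j) atTop (𝓝 (w' j)) := by
  let e := toEuclidean (E := E)
  have hfin : ∀ k, Module.finrank ℝ ((V k).map e.toLinearEquiv.toLinearMap) = c := by
    intro k
    rw [← hV k]
    exact (Submodule.equivMapOfInjective e.toLinearEquiv.toLinearMap e.injective (V k)).symm.finrank_eq
  choose b hb hbV using fun k => Grass_on _ (hfin k)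
  obtain ⟨b', -, φ, hφ, hlim⟩ := tendsto_subseq_of_bounded
    (Metric.isBounded_closedBall (x := (0 : Fin c → EuclideanSpace ℝ (Fin _))) (r := 1))
    (fun k => Grass_bdd (hb k))
  have hlimj : ∀ j, Tendsto (fun k => b (φ k) j) atTop (𝓝 (b' j)) := by
    intro j
    exact (tendsto_pi_nhds.1 hlim) j
  have hon : Orthonormal ℝ b' := by
    rw [orthonormal_iff_ite]
    intro i j
    have h1 : Tendsto (fun k => inner ℝ (b (φ k) i) (b (φ k) j)) atTop
        (𝓝 (inner ℝ (b' i) (b' j))) := (hlimj i).inner (hlimj j)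
    have h2 : (fun k => inner ℝ (b (φ k) i) (b (φ k) j)) = fun _ => if i = j then (1 : ℝ) else 0 := by
      funext k
      exact (orthonormal_iff_ite.1 (hb (φ k))) i j
    rw [h2] at h1
    exact tendsto_nhds_unique h1 tendsto_const_nhds
  refine ⟨φ, fun j k => e.symm (b (φ k) j), fun j => e.symm (b' j), hφ, ?_, ?_, ?_⟩
  · intro j k
    obtain ⟨x, hx, hxe⟩ := Submodule.mem_map.1 (hbV (φ k) j)
    have : e.symm (b (φ k) j) = x := by
      rw [← hxe]
      exact e.symm_apply_apply x
    show e.symm (b (φ k) j) ∈ V (φ k)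
    rw [this]
    exact hx
  · exact hon.linearIndependent.map' e.symm.toLinearEquiv.toLinearMap
      (LinearMap.ker_eq_bot.2 e.symm.injective)
  · intro j
    exact (e.symm.continuous.tendsto _).comp (hlimj j)

namespace LCoc

variable {Z : Type*} [MetricSpace Z] {E : Type*} [NormedAddCommGroup E] [NormedSpace ℝ E]
  [FiniteDimensional ℝ E] (C : LCoc Z E)

theorem exists_lim_fibres {z : ℕ → Z} {z' : Z} (hz : Tendsto z atTop (𝓝 z')) {c : ℕ}
    (V : ℕ → Submodule ℝ E) (hV : ∀ k, Module.finrank ℝ (V k) = c) :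
    ∃ (φ : ℕ → ℕ) (v : Fin c → ℕ → E) (v' : Fin c → E), StrictMono φ ∧
      (∀ j k, v j k ∈ V (φ k)) ∧ LinearIndependent ℝ v' ∧
      ∀ j, C.Conv (z ∘ φ) (v j) z' (v' j) := by
  obtain ⟨k₀, hk₀⟩ := eventually_atTop.1
    (hz.eventually ((C.S_open z').mem_nhds (C.S_self z')))
  have hinj : ∀ k, k₀ ≤ k → Function.Injective (C.T z' (z k)) := by
    intro k hk x y hxy
    have h1 := C.T_mul' z' (z k) (hk₀ k hk)
    have h2 : ∀ x, C.T' z' (z k) (C.T z' (z k) x) = x := by
      intro x
      have := congrArg (fun L : E →L[ℝ] E => L x) h1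
      simpa using this
    rw [← h2 x, ← h2 y, hxy]
  obtain ⟨φ, w, w', hφ, hw, hli, hlim⟩ := exists_lim_subspaces (c := c)
    (fun k => (V (k + k₀)).map (C.T z' (z (k + k₀)) : E →ₗ[ℝ] E)) (by
      intro k
      rw [← hV (k + k₀)]
      exact (Submodule.equivMapOfInjective (C.T z' (z (k + k₀)) : E →ₗ[ℝ] E)
        (hinj _ (by omega)) (V (k + k₀))).symm.finrank_eq)
  have hφ' : StrictMono (fun k => φ k + k₀) := fun a b hab => by
    have := hφ hab
    show φ a + k₀ < φ b + k₀
    omega
  refine ⟨fun k => φ k + k₀, fun j k => C.T' z' (z (φ k + k₀)) (w j k),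
    fun j => C.T' z' z' (w' j), hφ', ?_, ?_, ?_⟩
  · intro j k
    obtain ⟨x, hx, hxw⟩ := Submodule.mem_map.1 (hw j k)
    have h1 := C.T_mul' z' (z (φ k + k₀)) (hk₀ _ (by omega))
    have h2 : C.T' z' (z (φ k + k₀)) (w j k) = x := by
      rw [← hxw]
      have := congrArg (fun L : E →L[ℝ] E => L x) h1
      simpa using this
    show C.T' z' (z (φ k + k₀)) (w j k) ∈ V (φ k + k₀)
    rw [h2]
    exact hx
  · refine hli.map' (C.T' z' z' : E →ₗ[ℝ] E) (LinearMap.ker_eq_bot.2 ?_)
    intro x y hxy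
    have h1 := C.T_mul z' z' (C.S_self z')
    have h2 : ∀ x, C.T z' z' (C.T' z' z' x) = x := by
      intro x
      have := congrArg (fun L : E →L[ℝ] E => L x) h1
      simpa using this
    have hxy' : C.T' z' z' x = C.T' z' z' y := hxy
    rw [← h2 x, ← h2 y, hxy']
  · intro j
    refine Conv.of_chart (hz.comp hφ'.tendsto_atTop) (C.S_self z') ?_
    have h3 : (fun k => C.T z' ((z ∘ fun k => φ k + k₀) k) (C.T' z' (z (φ k + k₀)) (w j k))) = w j := by
      funext k
      have h1 := C.T_mul z' (z (φ k + k₀)) (hk₀ _ (by omega))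
      have := congrArg (fun L : E →L[ℝ] E => L (w j k)) h1
      simpa using this
    rw [h3]
    exact hlim j

end LCoc

end PRH
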