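import Mathlib

/-!
# Horseshoes
-/

open Set Filter Topology

namespace PRH

/-- `π` is an embedding of the full shift on two symbols, which conjugates the shift with the
restriction of `A^m` to its image. -/
structure IsHorseshoe {N : Type*} [TopologicalSpace N] (A : N → N) (m : ℕ)
    (π : (ℤ → Bool) → N) : Prop where
  pos : 0 < m
  cont : Continuous π
  inj : Function.Injective π
  semi : ∀ ω, A^[m] (π ω) = π (fun i => ω (i + 1))

/-- `A` has a horseshoe: some iterate of `A` has an invariant set on which it is topologically conjugate
to the full two-sided shift on two symbols. -/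
def Horseshoe {N : Type*} [TopologicalSpace N] (A : N → N) : Prop :=
  ∃ (m : ℕ) (π : (ℤ → Bool) → N), IsHorseshoe A m π

/-- The sequence with a single `1`, at the place `0`. -/
def dl : ℤ → Bool := fun i => decide (i = 0)

/-- The sequences in which the gaps between the `1`s are at least `L`. -/
def YL (L : ℕ) : Set (ℤ → Bool) :=
  {ω | ∀ i j : ℤ, ω i = true → ω j = true → i < j → (L : ℤ) ≤ j - i}

/-- The starting times `T 0 = 0`, `T (i + 1) = T i + n i`. -/
def TT (n : ℕ → ℕ) (i : ℕ) : ℕ := ∑ l ∈ Finset.range i, n l

end PRH
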