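import Pool.Agent.PRH.CocBasic

/-!
# The stable and the unstable subspaces of a cocycle (module Sub)

HEADER. All the statements are immediate from `nn_smul`, `nn_add_le`, `nn_shift`, `zi_add`, `A_add`.

* `C.symm`: the inverse cocycle, `G⁻¹`, `A' i z = A (-i) z`; `zi G.symm.toEquiv i = zi G.toEquiv (-i)`.
* `Sp z`: the vectors with bounded forward orbit; `Up z`: bounded backward orbit. Submodules.
-/

open Set Filter Topology Metric OmSt

namespace PRH

namespace LCoc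

variable {Z : Type*} [MetricSpace Z] {E : Type*} [NormedAddCommGroup E] [NormedSpace ℝ E]

theorem zi_symm_eq (G : Z ≃ₜ Z) (i : ℤ) (z : Z) : zi G.symm.toEquiv i z = zi G.toEquiv (-i) z := by
  have h : (G.symm.toEquiv : Equiv.Perm Z) = (G.toEquiv : Equiv.Perm Z)⁻¹ := rfl
  unfold zi
  rw [h, inv_zpow, zpow_neg]

/-- The inverse cocycle. -/
def symm (C : LCoc Z E) : LCoc Z E where
  G := C.G.symm
  A := fun i z => C.A (-i) z
  A_zero := fun z => by simp [C.A_zero]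
  A_add := fun i j z => by
    rw [zi_symm_eq, neg_add]
    exact C.A_add (-i) (-j) z
  S := C.S
  S_open := C.S_open
  S_self := C.S_self
  T := C.T
  T' := C.T'
  T_mul := C.T_mul
  T_mul' := C.T_mul'
  cont := fun i b b' z hz hz' => by
    rw [zi_symm_eq] at hz'
    have h := C.cont (-i) b b' z hz hz'
    simp only [zi_symm_eq]
    exact h
  N := C.N
  N_smul := C.N_smul
  N_add := C.N_add
  N_pos := C.N_pos
  N_cont := C.N_cont

variable (C : LCoc Z E)

theorem symm_nn (z : Z) (v : E) (i : ℤ) : C.symm.nn z v i = C.nn z v (-i) := by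
  show C.N (zi C.G.symm.toEquiv i z) (C.A (-i) z v) = C.N (zi C.G.toEquiv (-i) z) (C.A (-i) z v)
  rw [zi_symm_eq]

/-- Vectors with bounded forward orbit. -/
def Sp (z : Z) : Submodule ℝ E where
  carrier := {v | ∃ K : ℝ, ∀ n : ℕ, C.nn z v n ≤ K}
  add_mem' := by
    rintro v w ⟨K, hK⟩ ⟨L, hL⟩
    exact ⟨K + L, fun n => (C.nn_add_le z v w n).trans (add_le_add (hK n) (hL n))⟩
  zero_mem' := ⟨0, fun n => by
    have h := C.nn_smul z 0 (0 : E) n
    rw [zero_smul, abs_zero, zero_mul] at h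
    exact h.le⟩
  smul_mem' := by
    rintro c v ⟨K, hK⟩
    exact ⟨|c| * K, fun n => by
      rw [C.nn_smul]
      exact mul_le_mul_of_nonneg_left (hK n) (abs_nonneg c)⟩

/-- Vectors with bounded backward orbit. -/
def Up (z : Z) : Submodule ℝ E where
  carrier := {v | ∃ K : ℝ, ∀ n : ℕ, C.nn z v (-(n : ℤ)) ≤ K}
  add_mem' := by
    rintro v w ⟨K, hK⟩ ⟨L, hL⟩
    exact ⟨K + L, fun n => (C.nn_add_le z v w (-(n : ℤ))).trans (add_le_add (hK n) (hL n))⟩
  zero_mem' := ⟨0, fun n => by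
    have h := C.nn_smul z 0 (0 : E) (-(n : ℤ))
    rw [zero_smul, abs_zero, zero_mul] at h
    exact h.le⟩
  smul_mem' := by
    rintro c v ⟨K, hK⟩
    exact ⟨|c| * K, fun n => by
      rw [C.nn_smul]
      exact mul_le_mul_of_nonneg_left (hK n) (abs_nonneg c)⟩

theorem mem_Sp {z : Z} {v : E} : v ∈ C.Sp z ↔ ∃ K : ℝ, ∀ n : ℕ, C.nn z v n ≤ K := Iff.rfl

theorem mem_Up {z : Z} {v : E} : v ∈ C.Up z ↔ ∃ K : ℝ, ∀ n : ℕ, C.nn z v (-(n : ℤ)) ≤ K := Iff.rfl

theorem symm_Sp (z : Z) : C.symm.Sp z = C.Up z := by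
  ext v
  rw [mem_Sp, mem_Up]
  simp only [symm_nn]

theorem Sub_fin_bdd (z : Z) (v : E) (s : ℤ → ℤ) (N : ℕ) :
    ∃ K : ℝ, ∀ n : ℕ, n < N → C.nn z v (s n) ≤ K := by
  induction N with
  | zero => exact ⟨0, fun n hn => absurd hn (Nat.not_lt_zero n)⟩
  | succ N ih =>
    obtain ⟨K, hK⟩ := ih
    refine ⟨max K (C.nn z v (s N)), fun n hn => ?_⟩
    rcases Nat.lt_succ_iff_lt_or_eq.1 hn with h | h
    · exact (hK n h).trans (le_max_left _ _)
    · subst h
      exact le_max_right _ _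

theorem A_mem_Sp {z : Z} {v : E} (hv : v ∈ C.Sp z) (i : ℤ) : C.A i z v ∈ C.Sp (zi C.G.toEquiv i z) := by
  rw [mem_Sp] at hv ⊢
  obtain ⟨K, hK⟩ := hv
  obtain ⟨L, hL⟩ := C.Sub_fin_bdd z v (fun n => n + i) i.natAbs
  refine ⟨max K L, fun n => ?_⟩
  rw [C.nn_shift]
  rcases lt_or_ge n i.natAbs with h | h
  · exact (hL n h).trans (le_max_right _ _)
  · have h1 : 0 ≤ (n : ℤ) + i := by omega
    obtain ⟨m, hm⟩ := Int.eq_ofNat_of_zero_le h1
    rw [hm]
    exact (hK m).trans (le_max_left _ _)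

theorem A_mem_Up {z : Z} {v : E} (hv : v ∈ C.Up z) (i : ℤ) : C.A i z v ∈ C.Up (zi C.G.toEquiv i z) := by
  rw [mem_Up] at hv ⊢
  obtain ⟨K, hK⟩ := hv
  obtain ⟨L, hL⟩ := C.Sub_fin_bdd z v (fun n => -n + i) i.natAbs
  refine ⟨max K L, fun n => ?_⟩
  rw [C.nn_shift]
  rcases lt_or_ge n i.natAbs with h | h
  · exact (hL n h).trans (le_max_right _ _)
  · have h1 : 0 ≤ (n : ℤ) - i := by omega
    obtain ⟨m, hm⟩ := Int.eq_ofNat_of_zero_le h1
    have h2 : -(n : ℤ) + i = -(m : ℤ) := by omega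
    rw [h2]
    exact (hK m).trans (le_max_left _ _)

/-- The dimension of `Sp` is constant along orbits. -/
theorem finrank_Sp_zi (z : Z) (i : ℤ) :
    Module.finrank ℝ (C.Sp (zi C.G.toEquiv i z)) = Module.finrank ℝ (C.Sp z) := by
  have h : C.Sp (zi C.G.toEquiv i z) = (C.Sp z).map (C.A i z : E →ₗ[ℝ] E) := by
    ext w
    rw [Submodule.mem_map]
    constructor
    · intro hw
      have h1 := C.A_mem_Sp hw (-i)
      rw [← zi_add, neg_add_cancel, zi_zero] at h1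
      refine ⟨_, h1, ?_⟩
      have h2 := C.A_mul_neg i z
      have h3 := DFunLike.congr_fun h2 w
      simpa using h3
    · rintro ⟨v, hv, rfl⟩
      exact C.A_mem_Sp hv i
  rw [h]
  exact (LinearEquiv.finrank_eq
    (Submodule.equivMapOfInjective (C.A i z : E →ₗ[ℝ] E) (C.A_injective i z) (C.Sp z))).symm

theorem NB.disjoint {C : LCoc Z E} {Λ : Set Z} (h : C.NB Λ) {z : Z} (hz : z ∈ Λ) :
    Disjoint (C.Sp z) (C.Up z) := by
  rw [Submodule.disjoint_def]
  intro v hv hv'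
  rw [mem_Sp] at hv
  rw [mem_Up] at hv'
  obtain ⟨K, hK⟩ := hv
  obtain ⟨L, hL⟩ := hv'
  refine h z hz v (max K L) fun i => ?_
  rcases Int.eq_nat_or_neg i with ⟨n, rfl | rfl⟩
  · exact (hK n).trans (le_max_left _ _)
  · exact (hL n).trans (le_max_right _ _)

end LCoc

end PRH
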