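import Pool.Agent.PRH.CocCpt
import Pool.Agent.PRH.Sub

/-!
# Uniform growth in one direction (module HalfMax)

HEADER. `HalfMax`: otherwise for every `n` there are `z_n ∈ Λ`, `v_n` with `nn z_n v_n i < 2 N z_n v_n` for
all `|i| ≤ n`; in particular (`i = 0`) `N z_n v_n > 0`; normalize `N z_n v_n = 1` (`nn_smul`). By
`exists_conv`, along a subsequence `Conv` to `(z', v')`, `z' ∈ Λ` (closed), `N z' v' = 1`, and for every `i`:
`nn z' v' i ≤ 2` (`Conv.nn`, `φ k ≥ |i|` for large `k`). So `v' = 0` by `NB`, contradiction to `N z' v' = 1`.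

`Sp_decay`: Let `n₀` be the number of `HalfMax`; we may take `n₀ ≥ 1`. Let `K₀ ≥ 1` be a common bound of
`exists_bound` for `i = 0, ..., n₀`: `nn z v i ≤ K₀ N z v`. Let `z ∈ Λ`, `v ∈ Sp z`, `a_i = nn z v i`, `i ≥ 0`,
bounded. For `i ≥ n₀` (apply `HalfMax` at `zi i z ∈ Λ`, `A i z v`, and `nn_shift`):
`a_i ≤ (1/2) a_{i + j}` for some `|j| ≤ n₀`, `i + j ≥ 0`. So with `s_m = sup_{i ≥ m} a_i` (finite):
`s_{m + n₀} ≤ (1/2) s_m`, and `s_0 ≤ max (max_{i < n₀} a_i, s_{n₀}) ≤ max (K₀ a_0, s_0 / 2)`, so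
`s_0 ≤ K₀ a_0` (if `s_0 > 0` then `s_0 > s_0 / 2`). Hence `a_{i} ≤ 2^{-⌊i / n₀⌋} K₀ a_0 ≤ 2 K₀ μ^i a_0` with
`μ = 2^{-1/n₀}` (real power) — choose `μ` with `μ ^ n₀ = 1/2`, `0 < μ < 1`: `i = q n₀ + r`, `r < n₀`,
`(1/2)^q = μ^(q n₀) = μ^i μ^(-r) ≤ μ^i * μ^(-n₀) = 2 μ^i`.
To avoid suprema one can prove by induction on `q`: `∀ i ≥ q n₀, a_i ≤ (1/2)^q B` for every upper bound `B`
of the sequence `a`; then the optimal bound `B = K₀ a_0` is obtained from: if `B` is an upper bound then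
`max (K₀ a_0) (B / 2)` is an upper bound; iterate (`B / 2^k → 0`; if `a_0 = 0` then `v = 0` and all is
trivial).
-/

open Set Filter Topology Metric OmSt

namespace PRH

namespace LCoc

variable {Z : Type*} [MetricSpace Z] [CompactSpace Z] {E : Type*} [NormedAddCommGroup E]
  [NormedSpace ℝ E] [FiniteDimensional ℝ E] {C : LCoc Z E}

theorem NB.halfMax {Λ : Set Z} (hΛ : IsClosed Λ) (h : C.NB Λ) :
    ∃ n : ℕ, ∀ z ∈ Λ, ∀ v : E, ∃ i : ℤ, |i| ≤ n ∧ 2 * C.N z v ≤ C.nn z v i := by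
  by_contra hcon
  push Not at hcon
  choose z hz v hv using hcon
  have hpos : ∀ n, 0 < C.N (z n) (v n) := by
    intro n
    have h1 := hv n 0 (by simp)
    rw [C.nn_zero] at h1
    linarith
  set w : ℕ → E := fun n => (C.N (z n) (v n))⁻¹ • v n with hw
  have hw1 : ∀ n, C.N (z n) (w n) = 1 := by
    intro n
    simp only [hw]
    rw [C.N_smul, abs_of_pos (inv_pos.2 (hpos n)), inv_mul_cancel₀ (hpos n).ne']
  have hw2 : ∀ (n : ℕ) (i : ℤ), |i| ≤ n → C.nn (z n) (w n) i ≤ 2 := by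
    intro n i hi
    have h1 := hv n i hi
    simp only [hw]
    rw [C.nn_smul, abs_of_pos (inv_pos.2 (hpos n)), inv_mul_le_iff₀ (hpos n)]
    linarith
  obtain ⟨φ, z', v', hφ, hconv⟩ := C.exists_conv (z := z) (v := w) (K := 1) (fun k => (hw1 k).le)
  have hz' : z' ∈ Λ := hΛ.mem_of_tendsto hconv.1 (Eventually.of_forall fun k => hz (φ k))
  have hN : C.N z' v' = 1 := by
    have h1 := hconv.norm
    have h2 : (fun k => C.N ((z ∘ φ) k) ((w ∘ φ) k)) = fun _ => (1 : ℝ) := by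
      funext k
      exact hw1 (φ k)
    rw [h2] at h1
    exact tendsto_nhds_unique h1 tendsto_const_nhds |>.symm ▸ rfl
  have hv0 : v' = 0 := by
    refine h z' hz' v' 2 fun i => ?_
    refine le_of_tendsto (hconv.nn i) ?_
    filter_upwards [eventually_ge_atTop i.natAbs] with k hk
    apply hw2
    have h1 : k ≤ φ k := hφ.id_le k
    rw [Int.abs_eq_natAbs]
    exact_mod_cast hk.trans h1
  rw [hv0, C.N_zero] at hN
  exact zero_ne_one hN

theorem HalfMax_pow {n₀ : ℕ} (h0 : 0 < n₀) : ∃ μ : ℝ, 0 < μ ∧ μ < 1 ∧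
    ∀ i : ℕ, (1 / 2 : ℝ) ^ (i / n₀) ≤ 2 * μ ^ i := by
  set μ : ℝ := (1 / 2 : ℝ) ^ (1 / (n₀ : ℝ)) with hμ
  have hn : (0 : ℝ) < n₀ := by exact_mod_cast h0
  have hμ0 : 0 < μ := Real.rpow_pos_of_pos (by norm_num) _
  have hμ1 : μ < 1 := Real.rpow_lt_one (by norm_num) (by norm_num) (by positivity)
  have hμn : μ ^ n₀ = 1 / 2 := by
    rw [hμ, ← Real.rpow_natCast, ← Real.rpow_mul (by norm_num), one_div_mul_cancel hn.ne', Real.rpow_one]
  refine ⟨μ, hμ0, hμ1, fun i => ?_⟩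
  have e : i = n₀ * (i / n₀) + i % n₀ := (Nat.div_add_mod i n₀).symm
  have hr : i % n₀ ≤ n₀ := (Nat.mod_lt i h0).le
  have h1 : μ ^ i = (1 / 2 : ℝ) ^ (i / n₀) * μ ^ (i % n₀) := by
    conv_lhs => rw [e]
    rw [pow_add, pow_mul, hμn]
  have h2 : 1 / 2 ≤ μ ^ (i % n₀) := by
    rw [← hμn]
    exact pow_le_pow_of_le_one hμ0.le hμ1.le hr
  rw [h1]
  have h3 : (0 : ℝ) < (1 / 2) ^ (i / n₀) := by positivity
  nlinarith

theorem NB.Sp_decay {Λ : Set Z} (hΛ : IsClosed Λ) (hinv : ∀ z ∈ Λ, ∀ i : ℤ, zi C.G.toEquiv i z ∈ Λ)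
    (h : C.NB Λ) : ∃ (c μ : ℝ), 0 < c ∧ 0 < μ ∧ μ < 1 ∧ ∀ z ∈ Λ, ∀ v ∈ C.Sp z, ∀ n : ℕ,
      C.nn z v n ≤ c * μ ^ n * C.N z v := by
  obtain ⟨n₁, hn₁⟩ := NB.halfMax hΛ h
  set n₀ := n₁ + 1 with hn₀
  have hb : ∀ i : ℕ, ∃ K > 0, ∀ (z : Z) (v : E), C.nn z v i ≤ K * C.N z v := fun i => C.exists_bound i
  choose K hK0 hK using hb
  set K₀ := 1 + ∑ i ∈ Finset.range (n₀ + 1), K i with hK₀
  have hKsum : ∀ i ≤ n₀, K i ≤ K₀ := by
    intro i hi
    have := Finset.single_le_sum (f := K) (fun j _ => (hK0 j).le) (Finset.mem_range.2 (Nat.lt_succ_of_le hi))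
    linarith
  have hK₀1 : 1 ≤ K₀ := by
    have := Finset.sum_nonneg (s := Finset.range (n₀ + 1)) (f := K) (fun j _ => (hK0 j).le)
    linarith
  obtain ⟨μ, hμ0, hμ1, hμ⟩ := HalfMax_pow (n₀ := n₀) (Nat.succ_pos _)
  refine ⟨K₀ * 2, μ, by positivity, hμ0, hμ1, ?_⟩
  intro z hz v hv n
  obtain ⟨B, hB⟩ := hv
  set a : ℕ → ℝ := fun n => C.nn z v n with ha
  have ha0 : ∀ n, 0 ≤ a n := fun n => C.nn_nonneg z v n
  have ha00 : a 0 = C.N z v := by
    simp only [ha, Nat.cast_zero]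
    exact C.nn_zero z v
  have hsmall : ∀ i ≤ n₀, a i ≤ K₀ * a 0 := by
    intro i hi
    rw [ha00]
    exact (hK i z v).trans (mul_le_mul_of_nonneg_right (hKsum i hi) (C.N_nonneg z v))
  have hhalf : ∀ i, n₀ ≤ i → ∃ j, i ≤ j + n₀ ∧ 2 * a i ≤ a j := by
    intro i hi
    obtain ⟨i', hi', h2⟩ := hn₁ (zi C.G.toEquiv i z) (hinv z hz i) (C.A i z v)
    rw [C.nn_shift] at h2
    have hi'' := abs_le.1 hi'
    have h3 : 0 ≤ i' + i := by omega
    obtain ⟨j, hj⟩ := Int.eq_ofNat_of_zero_le h3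
    refine ⟨j, by omega, ?_⟩
    rw [hj] at h2
    exact h2
  have hbdd : BddAbove (range a) := ⟨B, by rintro _ ⟨n, rfl⟩; exact hB n⟩
  have hsup : ∀ n, a n ≤ K₀ * a 0 := by
    set s := ⨆ n, a n with hs
    have h1 : ∀ n, a n ≤ s := fun n => le_ciSup hbdd n
    have h2 : s ≤ max (K₀ * a 0) (s / 2) := by
      refine ciSup_le fun i => ?_
      rcases le_or_gt i n₀ with hi | hi
      · exact (hsmall i hi).trans (le_max_left _ _)
      · obtain ⟨j, -, hj⟩ := hhalf i hi.le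
        have := h1 j
        exact le_trans (by linarith) (le_max_right _ _)
    have h3 : s ≤ K₀ * a 0 := by
      rcases le_max_iff.1 h2 with h3 | h3
      · exact h3
      · have : 0 ≤ K₀ * a 0 := mul_nonneg (by linarith) (ha0 0)
        linarith
    exact fun n => (h1 n).trans h3
  have hdec : ∀ q i, q * n₀ ≤ i → 2 ^ q * a i ≤ K₀ * a 0 := by
    intro q
    induction q with
    | zero =>
      intro i _
      rw [pow_zero, one_mul]
      exact hsup i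
    | succ q ih =>
      intro i hi
      rw [Nat.succ_mul] at hi
      obtain ⟨j, hj1, hj2⟩ := hhalf i (by omega)
      have h1 := ih j (by omega)
      have h2 : (2 : ℝ) ^ q * (2 * a i) ≤ 2 ^ q * a j := mul_le_mul_of_nonneg_left hj2 (by positivity)
      rw [pow_succ]
      linarith
  have h1 := hdec (n / n₀) n (Nat.div_mul_le_self n n₀)
  have h2 : a n ≤ (1 / 2 : ℝ) ^ (n / n₀) * (K₀ * a 0) := by
    have h3 : (1 / 2 : ℝ) ^ (n / n₀) * (2 ^ (n / n₀) * a n) = a n := by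
      rw [← mul_assoc, ← mul_pow]
      norm_num
    rw [← h3]
    exact mul_le_mul_of_nonneg_left h1 (by positivity)
  have h3 := hμ n
  have h4 : 0 ≤ K₀ * a 0 := mul_nonneg (by linarith) (ha0 0)
  have h5 : (1 / 2 : ℝ) ^ (n / n₀) * (K₀ * a 0) ≤ (2 * μ ^ n) * (K₀ * a 0) :=
    mul_le_mul_of_nonneg_right h3 h4
  rw [← ha00]
  calc C.nn z v n = a n := rfl
    _ ≤ (2 * μ ^ n) * (K₀ * a 0) := h2.trans h5
    _ = K₀ * 2 * μ ^ n * a 0 := by ring

end LCoc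

end PRH
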