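import Pool.Agent.PRH.ProdDyn

/-!
# Hyperbolic periodic points of a factor (module HypFactor)

HEADER.

`IsHyp.bdd_zero`: let `T', P, c, μ` be as in `IsHyp`. If `w : ℤ → F` is bounded and `T (w i) = w (i + 1)`, then
`P (w 0) = P (T^n (w (-n))) = T^n (P (w (-n))) `, norm `≤ c μ^n sup ‖w‖ → 0`, and
`(1 - P) (w 0) = (1-P) (T'^n (w n)) = T'^n ((1 - P) (w n)) → 0` (`P` commutes with `T` and `T'`). So `w 0 = 0`.

`isHyp_of_intertwine`: `T * j = j * S^k`, `j : E →L F` injective, `S S' = S' S = 1`. Apply `hyp_or` (Pool/Agent/OmSt/,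
see how `Stab.isHyp` in Pool/Agent/OmSt/Hyper.lean uses it) to `S`, `S'`: either `IsHyp S`; or `S v = σ v`, `v ≠ 0`,
`‖σ‖ = 1`: then `w i = σ^(k i) • j v` (`zpow`) is bounded with `T (w i) = w (i+1)`: contradiction; or
`ι : ℂ →ₗ[ℝ] E` injective, `S (ι ζ) = ι (τ ζ)`, `‖τ‖ = 1`: `w i = j (ι (τ^(k i)))` is bounded
(`‖τ^(k i)‖ = 1`, `ι` continuous), `T (w i) = w (i + 1)`, `w 0 = j (ι 1) ≠ 0`.

`isHyp_factor`: let `f = prodDyn Θ g A`, `j : M → X`, `j y = Θ.symm (y, a₀)`. `f^[n * k] (j y) = j (g^[n * k] y)`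
(`prodDyn_iter`, `A^[n * k] a₀ = a₀`). Taking derivatives at `p` (`g^[n k] p = p`):
`D f^[n k] (j p) ∘ Dj = Dj ∘ D g^[n k] p`, and `D g^[n * k] p = (D g^[n] p)^k` (`D_iterate_mul`). `Dj` is
injective: `(y ↦ (Θ (j y)).1) = id`. `j` is smooth. `S' = D g.symm^[n] ..` from `Dyn.D_inv`.
-/

open Set Filter Topology Manifold ContDiff Metric

namespace PRH

open OmSt

theorem isHyp_bdd_zero {F : Type*} [NormedAddCommGroup F] [NormedSpace ℝ F] {T : F →L[ℝ] F}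
    (hT : IsHyp T) {w : ℤ → F} {K : ℝ} (hw : ∀ i, ‖w i‖ ≤ K) (hTw : ∀ i, T (w i) = w (i + 1)) :
    w 0 = 0 := by
  obtain ⟨T', P, c, μ, h1, h2, hPP, hPT, hc, hμ0, hμ1, hb⟩ := hT
  have hK : 0 ≤ K := (norm_nonneg _).trans (hw 0)
  have hpow : ∀ (n : ℕ) (i : ℤ), (T ^ n) (w i) = w (i + n) := by
    intro n
    induction n with
    | zero => intro i; simp
    | succ n ih =>
      intro i
      rw [pow_succ']
      change T ((T ^ n) (w i)) = _
      rw [ih, hTw]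
      congr 1
      push_cast
      ring
  have hlim : Tendsto (fun n : ℕ => c * μ ^ n * K) atTop (𝓝 0) := by
    have h3 := (tendsto_pow_atTop_nhds_zero_of_lt_one hμ0 hμ1).const_mul c
    have h4 := h3.mul_const K
    simpa using h4
  have hPn : ∀ n : ℕ, P * T ^ n = T ^ n * P := fun n =>
    (show Commute P T from hPT).pow_right n
  have hTn : ∀ n : ℕ, T' ^ n * T ^ n = 1 := by
    intro n
    have h3 : Commute T' T := by
      change T' * T = T * T'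
      rw [h1, h2]
    rw [← h3.mul_pow, h2, one_pow]
  have e1 : P (w 0) = 0 := by
    rw [← norm_le_zero_iff]
    refine ge_of_tendsto' hlim fun n => ?_
    have h3 : P (w 0) = (T ^ n * P) (w (-(n : ℤ))) := by
      rw [← hPn n]
      change P (w 0) = P ((T ^ n) (w (-(n : ℤ))))
      rw [hpow n, neg_add_cancel]
    rw [h3]
    calc ‖(T ^ n * P) (w (-(n : ℤ)))‖ ≤ ‖T ^ n * P‖ * ‖w (-(n : ℤ))‖ := ContinuousLinearMap.le_opNorm _ _
      _ ≤ (c * μ ^ n) * K := by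
        exact mul_le_mul (hb n).1 (hw _) (norm_nonneg _) (by positivity)
  have e2 : (1 - P) (w 0) = 0 := by
    rw [← norm_le_zero_iff]
    refine ge_of_tendsto' hlim fun n => ?_
    have h3 : (1 - P) (w 0) = (T' ^ n * (1 - P)) (w (n : ℤ)) := by
      have h5 : w (n : ℤ) = (T ^ n) (w 0) := by rw [hpow n, zero_add]
      rw [h5]
      change _ = ((T' ^ n * (1 - P)) * T ^ n) (w 0)
      have h6 : (T' ^ n * (1 - P)) * T ^ n = 1 - P := by
        rw [mul_assoc, sub_mul, one_mul, hPn n, ← mul_one (T ^ n), mul_assoc (T ^ n) 1 P, one_mul,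
          ← mul_sub, ← mul_assoc, hTn, one_mul]
      rw [h6]
    rw [h3]
    calc ‖(T' ^ n * (1 - P)) (w (n : ℤ))‖ ≤ ‖T' ^ n * (1 - P)‖ * ‖w (n : ℤ)‖ :=
          ContinuousLinearMap.le_opNorm _ _
      _ ≤ (c * μ ^ n) * K := by
        exact mul_le_mul (hb n).2 (hw _) (norm_nonneg _) (by positivity)
  have e3 : w 0 = P (w 0) + (1 - P) (w 0) := by
    change w 0 = P (w 0) + (w 0 - P (w 0))
    abel
  rw [e3, e1, e2, add_zero]

theorem isHyp_of_intertwine {E : Type*} [NormedAddCommGroup E] [NormedSpace ℝ E]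
    [FiniteDimensional ℝ E] {F : Type*} [NormedAddCommGroup F] [NormedSpace ℝ F] {T : F →L[ℝ] F}
    (hT : IsHyp T) {S S' : E →L[ℝ] E} (h1 : S * S' = 1) (h2 : S' * S = 1) {j : E →L[ℝ] F}
    (hj : Function.Injective j) {k : ℕ} (h : ∀ v, T (j v) = j ((S ^ k) v)) : IsHyp S := by
  rcases hyp_or h1 h2 with h3 | ⟨v, hv, σ, hσ, hTv⟩ | ⟨ι, hι, τ, hτ, hTι⟩
  · exact h3
  · exfalso
    have hpow : ∀ n : ℕ, (S ^ n) v = σ ^ n • v := by
      intro n
      induction n with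
      | zero => simp
      | succ n ih =>
        rw [pow_succ']
        change S ((S ^ n) v) = _
        rw [ih, map_smul, hTv, smul_smul, pow_succ]
    have hσ0 : σ ^ k ≠ 0 := by
      refine pow_ne_zero _ fun h0 => ?_
      rw [h0] at hσ
      simp at hσ
    have hw := isHyp_bdd_zero hT (w := fun i : ℤ => ((σ ^ k) ^ i) • j v) (K := ‖j v‖)
      (fun i => by
        simp only [norm_smul, norm_zpow, norm_pow, Real.norm_eq_abs, hσ, one_pow, one_zpow, one_mul]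
        exact le_rfl)
      (fun i => by
        simp only [map_smul]
        rw [h v, hpow, map_smul, smul_smul, zpow_add_one₀ hσ0])
    simp only [zpow_zero, one_smul] at hw
    exact hv (hj (by rw [hw, map_zero]))
  · exfalso
    have hpow : ∀ (n : ℕ) (ζ : ℂ), (S ^ n) (ι ζ) = ι (τ ^ n * ζ) := by
      intro n
      induction n with
      | zero => intro ζ; simp
      | succ n ih =>
        intro ζ
        rw [pow_succ']
        change S ((S ^ n) (ι ζ)) = _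
        rw [ih, hTι, ← mul_assoc, pow_succ']
    have hτ0 : τ ^ k ≠ 0 := by
      refine pow_ne_zero _ fun h0 => ?_
      rw [h0] at hτ
      simp at hτ
    let J : ℂ →L[ℝ] F := j.comp (LinearMap.toContinuousLinearMap ι)
    have hJ : ∀ ζ, J ζ = j (ι ζ) := fun ζ => rfl
    have hw := isHyp_bdd_zero hT (w := fun i : ℤ => J ((τ ^ k) ^ i)) (K := ‖J‖)
      (fun i => by
        refine (J.le_opNorm _).trans ?_
        simp only [norm_zpow, norm_pow, hτ, one_pow, one_zpow, mul_one]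
        exact le_rfl)
      (fun i => by
        simp only [hJ]
        rw [h, hpow, zpow_add_one₀ hτ0, mul_comm])
    simp only [zpow_zero, hJ] at hw
    have h4 : ι 1 = 0 := hj (by rw [hw, map_zero])
    have h5 : (1 : ℂ) = 0 := hι (by rw [h4, map_zero])
    exact one_ne_zero h5

variable {E : Type*} [NormedAddCommGroup E] [NormedSpace ℝ E] [FiniteDimensional ℝ E]
  {E' : Type*} [NormedAddCommGroup E'] [NormedSpace ℝ E']
  {F : Type*} [NormedAddCommGroup F] [NormedSpace ℝ F]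
  {M : Type*} [TopologicalSpace M] [ChartedSpace E M] [IsManifold 𝓘(ℝ, E) ∞ M]
  {N : Type*} [TopologicalSpace N] [ChartedSpace E' N] [IsManifold 𝓘(ℝ, E') ∞ N]
  {X : Type*} [TopologicalSpace X] [ChartedSpace F X] [IsManifold 𝓘(ℝ, F) ∞ X] {r : ℕ∞}

theorem isHyp_factor (Θ : Diffeomorph 𝓘(ℝ, F) (𝓘(ℝ, E).prod 𝓘(ℝ, E')) X (M × N) ∞)
    (hr : 1 ≤ r) (g : Dyn E M r) (A : Dyn E' N r) {p : M} {a₀ : N} {n k : ℕ}
    (hp : g^[n] p = p) (ha : A^[n * k] a₀ = a₀)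
    (h : IsHyp (D (prodDyn Θ g A)^[n * k] (Θ.symm (p, a₀)) : F →L[ℝ] F)) :
    IsHyp (D g^[n] p : E →L[ℝ] E) := by
  set j : M → X := fun y => Θ.symm (y, a₀) with hjdef
  have hjs : ContMDiff 𝓘(ℝ, E) 𝓘(ℝ, F) ∞ j :=
    Θ.symm.contMDiff.comp (contMDiff_id.prodMk contMDiff_const)
  have hjd : MDifferentiable 𝓘(ℝ, E) 𝓘(ℝ, F) j := hjs.mdifferentiable (by simp)
  have hπs : ContMDiff 𝓘(ℝ, F) 𝓘(ℝ, E) ∞ (fun x : X => (Θ x).1) :=
    contMDiff_fst.comp Θ.contMDiff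
  have hπd : MDifferentiable 𝓘(ℝ, F) 𝓘(ℝ, E) (fun x : X => (Θ x).1) :=
    hπs.mdifferentiable (by simp)
  set J : E →L[ℝ] F := mfderiv 𝓘(ℝ, E) 𝓘(ℝ, F) j p with hJdef
  have hJinj : Function.Injective J := by
    set Q : F →L[ℝ] E := mfderiv 𝓘(ℝ, F) 𝓘(ℝ, E) (fun x : X => (Θ x).1) (j p) with hQdef
    have h1 : (fun x : X => (Θ x).1) ∘ j = id := by
      funext y
      simp [hjdef]
    have h2 : mfderiv 𝓘(ℝ, E) 𝓘(ℝ, E) ((fun x : X => (Θ x).1) ∘ j) p = Q.comp J :=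
      mfderiv_comp p (hπd _) (hjd p)
    have h3 : Q.comp J = ContinuousLinearMap.id ℝ E := by
      rw [← h2, h1]
      exact mfderiv_id
    intro v w hvw
    have h4 : (Q.comp J) v = (Q.comp J) w := by
      change Q (J v) = Q (J w)
      rw [hvw]
    rw [h3] at h4
    exact h4
  have hpk : g^[n * k] p = p := by
    have h1 : Function.IsPeriodicPt g n p := hp
    exact h1.mul_const k
  have hcomm : (prodDyn Θ g A)^[n * k] ∘ j = j ∘ g^[n * k] := by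
    funext y
    change (prodDyn Θ g A)^[n * k] (Θ.symm (y, a₀)) = Θ.symm (g^[n * k] y, a₀)
    rw [prodDyn_iter, ha]
  have hder : ∀ v : E, (D (prodDyn Θ g A)^[n * k] (Θ.symm (p, a₀)) : F →L[ℝ] F) (J v) =
      J (((D g^[n] p : E →L[ℝ] E) ^ k) v) := by
    intro v
    have h1 : (mfderiv 𝓘(ℝ, E) 𝓘(ℝ, F) ((prodDyn Θ g A)^[n * k] ∘ j) p : E →L[ℝ] F) =
        (D (prodDyn Θ g A)^[n * k] (Θ.symm (p, a₀)) : F →L[ℝ] F).comp J :=
      mfderiv_comp p (mdiff_iterate (Dyn.mdiff (prodDyn Θ g A) hr) _ _) (hjd p)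
    have h2 : (mfderiv 𝓘(ℝ, E) 𝓘(ℝ, F) (j ∘ g^[n * k]) p : E →L[ℝ] F) =
        (mfderiv 𝓘(ℝ, E) 𝓘(ℝ, F) j (g^[n * k] p) : E →L[ℝ] F).comp
          (D g^[n * k] p : E →L[ℝ] E) :=
      mfderiv_comp p (hjd _) (mdiff_iterate (Dyn.mdiff g hr) _ _)
    have h3 : (D g^[n * k] p : E →L[ℝ] E) = (D g^[n] p : E →L[ℝ] E) ^ k :=
      D_iterate_mul (Dyn.mdiff g hr) n k hp
    let DJ : M → (E →L[ℝ] F) := fun y => mfderiv 𝓘(ℝ, E) 𝓘(ℝ, F) j y
    have h4 : (mfderiv 𝓘(ℝ, E) 𝓘(ℝ, F) j (g^[n * k] p) : E →L[ℝ] F) = J :=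
      congrArg DJ hpk
    let DG : (M → X) → (E →L[ℝ] F) := fun G => mfderiv 𝓘(ℝ, E) 𝓘(ℝ, F) G p
    have h6 : (mfderiv 𝓘(ℝ, E) 𝓘(ℝ, F) ((prodDyn Θ g A)^[n * k] ∘ j) p : E →L[ℝ] F) =
        (mfderiv 𝓘(ℝ, E) 𝓘(ℝ, F) (j ∘ g^[n * k]) p : E →L[ℝ] F) :=
      congrArg DG hcomm
    have h5 : (D (prodDyn Θ g A)^[n * k] (Θ.symm (p, a₀)) : F →L[ℝ] F).comp J =
        J.comp ((D g^[n] p : E →L[ℝ] E) ^ k) := by
      rw [← h3, ← h1, h6, h2, h4]
      rfl
    exact congrArg (fun L : E →L[ℝ] F => L v) h5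
  obtain ⟨hi1, hi2⟩ := Dyn.D_inv g hr n (x := p)
  exact isHyp_of_intertwine h hi2 hi1 hJinj hder

end PRH
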