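import Pool.Agent.PRH.Bridge
import Pool.Agent.PRH.FSplit

/-!
# Hyperbolicity and bounded vectors (module HypNB)

HEADER.

`isHyperbolicSet_of_NB`: let `C = lcoc g hr γ`, `x ∈ ω(x)`. `NB.split` gives `c, μ`. Apply
`isHyperbolicSet_of_split` (Pool/Agent/PCE/Split.lean) with `K = omegaL g x` (closed `isClosed_omegaL`,
invariant `inv_omegaL`: `g x = zi 1 x`, `g.symm x = zi (-1) x`), `S = C.Sp`, `U = C.Up`;
`D g x = A 1 x` (`zi σ 1 = g` as functions), `A_mem_Sp`, `A_mem_Up`; the norms: for `m : ℕ`,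
`nn x v m = rnorm γ (g^[m] x) (D g^[m] x v)` (`zi σ m = g^[m]` as functions, `zi_nat`) and
`nn x v (-m) = rnorm γ (g.symm^[m] x) (D g.symm^[m] x v)` (`zi_neg`).

`NB_of_isHyperbolicSet`: let `P` be the field of projections, `γ` the metric, `c, μ` the constants of
`IsHyperbolicSet` for `γ`. Let `z ∈ Λ` (invariant), `v` with `nn z v i ≤ K` for all `i`. Write
`v_i = A i z v` at `z_i = zi i z`, `v_i = P v_i + (1 - P) v_i`. The invariance of the images gives
`A n (P v) = P (A n v)`: `D g` maps `stableSp P z` onto `stableSp P (g z)`, `unstableSp` onto `unstableSp`, hence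
`D g (P w) = P (D g w)` for all `w` (as `w = P w + (w - P w)`, `P w ∈ stableSp`, `w - P w ∈ unstableSp`), and by
induction for all iterates. Stable part of `v`: `P v = A n (z_{-n}) (P v_{-n})`, so
`rnorm (P v) ≤ c μ^n rnorm (P v_{-n})`, and `rnorm (P w) ≤ C' rnorm w` on `Λ` (uniform bound of the
projections: `IsHyperbolicSet.hypF`, see Pool/Agent/OmSt2/RM2.lean, gives it for compact `Λ`; look at the
structure `HypF`), so `rnorm (P v) ≤ c μ^n C' K → 0`, `P v = 0`. Similarly for the unstable part.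
(ALTERNATIVE: `IsHyperbolicSet.dhyp` gives a uniform dichotomy `Dich (fun n => fderiv ...) κ` in charts along
the orbit of `z`, `Pool/Agent/OmSt2/PHyp.lean`; and a bounded solution of the homogeneous equation of a
dichotomy vanishes (`Dich` contains the uniqueness); the chart norms and `rnorm` are comparable:
`exists_comparison`. Choose whichever is shorter.)
-/

open Set Filter Topology Manifold ContDiff Metric OmSt

set_option linter.unusedSectionVars false

namespace PRH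

variable {E : Type*} [NormedAddCommGroup E] [NormedSpace ℝ E] [FiniteDimensional ℝ E]
  {M : Type*} [MetricSpace M] [CompactSpace M] [ChartedSpace E M] [IsManifold 𝓘(ℝ, E) ∞ M]
  {r : ℕ∞}

theorem hypnb_zi_neg_one (g : Dyn E M r) : zi g.toEquiv (-1) = g.symm := by
  have h := bridge_zi_neg g 1
  simpa using h

theorem hypnb_zi_one (g : Dyn E M r) : zi g.toEquiv 1 = g :=
  funext fun x => zi_one_apply g x

theorem isHyperbolicSet_of_NB (g : Dyn E M r) (hr : 1 ≤ r) (γ : RMetric E M) {x : M}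
    (hx : x ∈ omegaL g x) (h : (lcoc g hr γ).NB (omegaL g x)) :
    IsHyperbolicSet g (omegaL g x) := by
  obtain ⟨c, μ, hc, hμ0, hμ1, hs⟩ := LCoc.NB.split (C := lcoc g hr γ) hx h
  refine isHyperbolicSet_of_split hr g (isClosed_omegaL g x) ?_ ?_ γ
    (fun y => (lcoc g hr γ).Sp y) (fun y => (lcoc g hr γ).Up y) (fun y hy => (hs y hy).1) ?_ ?_
    hc hμ0 hμ1 ?_ ?_
  · intro y hy
    have h1 := inv_omegaL g x y hy 1
    rwa [hypnb_zi_one] at h1
  · intro y hy
    have h1 := inv_omegaL g x y hy (-1)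
    rwa [hypnb_zi_neg_one] at h1
  · intro y hy v hv
    have h1 := (lcoc g hr γ).A_mem_Sp hv 1
    change (D (zi g.toEquiv 1) y : E →L[ℝ] E) v ∈ (lcoc g hr γ).Sp (zi g.toEquiv 1 y) at h1
    rwa [hypnb_zi_one] at h1
  · intro y hy v hv
    have h1 := (lcoc g hr γ).A_mem_Up hv 1
    change (D (zi g.toEquiv 1) y : E →L[ℝ] E) v ∈ (lcoc g hr γ).Up (zi g.toEquiv 1 y) at h1
    rwa [hypnb_zi_one] at h1
  · intro y hy v hv m
    have h1 := (hs y hy).2.1 v hv m
    rw [lcoc_nn, lcoc_N, bridge_zi_nat] at h1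
    exact h1
  · intro y hy v hv m
    have h1 := (hs y hy).2.2 v hv m
    rw [lcoc_nn, lcoc_N, bridge_zi_neg] at h1
    exact h1

theorem hypnb_bound {γ : RMetric E M} {g : Dyn E M r} {Λ : Set M} {P : M → E →L[ℝ] E} {c μ : ℝ}
    (h : HypF γ g Λ P c μ) :
    ∃ C > 0, ∀ x ∈ Λ, ∀ v : E, rnorm γ x (P x v : E) ≤ C * rnorm γ x v := by
  have h1 : ∀ x : M, ∃ C > 0, ∀ᶠ y in 𝓝 x, y ∈ Λ → ∀ v : E,
      rnorm γ y (P y v : E) ≤ C * rnorm γ y v := by
    intro b
    obtain ⟨C, hC, h1⟩ := exists_comparison γ b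
    obtain ⟨C', hC', h2⟩ := h.bdd b
    refine ⟨C * (C' * C), by positivity, ?_⟩
    filter_upwards [h1, h2, (chartAt E b).open_source.mem_nhds (mem_chart_source E b)]
      with y hy1 hy2 hys hyΛ v
    have e1 : (Dc b y : E →L[ℝ] E) (P y v) = ((Dc b y : E →L[ℝ] E) * P y *
        (Dc' b y : E →L[ℝ] E)) ((Dc b y : E →L[ℝ] E) v) := by
      change _ = (Dc b y : E →L[ℝ] E) (P y ((Dc' b y : E →L[ℝ] E) ((Dc b y : E →L[ℝ] E) v)))
      rw [Dc'_Dc hys]
    calc rnorm γ y (P y v : E) ≤ C * ‖(Dc b y : E →L[ℝ] E) (P y v)‖ := (hy1 _).2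
      _ ≤ C * (C' * ‖(Dc b y : E →L[ℝ] E) v‖) := by
        gcongr
        rw [e1]
        refine (ContinuousLinearMap.le_opNorm _ _).trans ?_
        gcongr
        exact hy2 hyΛ
      _ ≤ C * (C' * (C * rnorm γ y v)) := by
        gcongr
        exact (hy1 v).1
      _ = _ := by ring
  obtain ⟨C, hC, h2⟩ : ∃ C > 0, ∀ x ∈ (univ : Set M), x ∈ Λ → ∀ v : E,
      rnorm γ x (P x v : E) ≤ C * rnorm γ x v := by
    refine isCompact_univ.induction_on
      (p := fun X => ∃ C > 0, ∀ x ∈ X, x ∈ Λ → ∀ v : E, rnorm γ x (P x v : E) ≤ C * rnorm γ x v)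
      ⟨1, one_pos, by simp⟩ (fun s t hst ⟨C, hC, ht⟩ => ⟨C, hC, fun x hx => ht x (hst hx)⟩)
      (fun s t ⟨C, hC, hs⟩ ⟨C', hC', ht⟩ => ⟨C + C', by positivity, fun x hx hxΛ v => ?_⟩)
      (fun x _ => ?_)
    · have hn := spl_rnorm_nonneg γ x v
      rcases hx with hx | hx
      · refine (hs x hx hxΛ v).trans ?_
        gcongr
        linarith
      · refine (ht x hx hxΛ v).trans ?_
        gcongr
        linarith
    · obtain ⟨C, hC, h2⟩ := h1 x
      exact ⟨_, mem_nhdsWithin_of_mem_nhds h2, C, hC, fun y hy => hy⟩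
  exact ⟨C, hC, fun x hx v => h2 x (mem_univ x) hx v⟩

theorem hypnb_mem {g : Dyn E M r} {Λ : Set M} (hΛ : Inv g Λ) {x : M} (hx : x ∈ Λ) (n : ℕ) :
    g^[n] x ∈ Λ := by
  have h1 := hΛ x hx n
  rwa [bridge_zi_nat] at h1

theorem hypnb_mem' {g : Dyn E M r} {Λ : Set M} (hΛ : Inv g Λ) {x : M} (hx : x ∈ Λ) (n : ℕ) :
    g.symm^[n] x ∈ Λ := by
  have h1 := hΛ x hx (-(n : ℤ))
  rwa [bridge_zi_neg] at h1

theorem hypnb_comm {γ : RMetric E M} {g : Dyn E M r} (hr : 1 ≤ r) {Λ : Set M} (hΛ : Inv g Λ)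
    {P : M → E →L[ℝ] E} {c μ : ℝ} (h : HypF γ g Λ P c μ) {x : M} (hx : x ∈ Λ) (n : ℕ) :
    P (g^[n] x) * (D g^[n] x : E →L[ℝ] E) = (D g^[n] x : E →L[ℝ] E) * P x := by
  induction n with
  | zero =>
    change P x * (D (id : M → M) x : E →L[ℝ] E) = (D (id : M → M) x : E →L[ℝ] E) * P x
    rw [D_id, mul_one, one_mul]
  | succ n ih =>
    rw [D_iterate_succ (Dyn.mdiff g hr), Function.iterate_succ_apply', ← mul_assoc,
      h.comm _ (hypnb_mem hΛ hx n), mul_assoc, ih, mul_assoc]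

theorem NB_of_isHyperbolicSet (g : Dyn E M r) (hr : 1 ≤ r) (γ : RMetric E M) {Λ : Set M}
    (hcl : IsClosed Λ) (hΛ : Inv g Λ) (h : IsHyperbolicSet g Λ) : (lcoc g hr γ).NB Λ := by
  obtain ⟨P, c, μ, hP⟩ := h.hypF hcl γ
  obtain ⟨C, hC, hb⟩ := hypnb_bound hP
  have hc := hP.hc
  have hμ0 := hP.hμ0
  have hlim : ∀ B : ℝ, Tendsto (fun n : ℕ => c * μ ^ n * B) atTop (𝓝 0) := by
    intro B
    have h1 := ((tendsto_pow_atTop_nhds_zero_of_lt_one hμ0.le hP.hμ1).const_mul c).mul_const B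
    simpa using h1
  intro z hz v K hK
  have hK1 : ∀ n : ℕ, rnorm γ (g^[n] z) ((D g^[n] z : E →L[ℝ] E) v) ≤ K := by
    intro n
    have h1 := hK n
    rw [lcoc_nn, bridge_zi_nat] at h1
    exact h1
  have hK2 : ∀ n : ℕ, rnorm γ (g.symm^[n] z) ((D g.symm^[n] z : E →L[ℝ] E) v) ≤ K := by
    intro n
    have h1 := hK (-(n : ℤ))
    rw [lcoc_nn, bridge_zi_neg] at h1
    exact h1
  -- the stable part
  have hs : P z v = 0 := by
    refine spl_rnorm_eq_zero γ z (ge_of_tendsto' (hlim (C * K)) fun n => ?_)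
    obtain ⟨y, hy⟩ : ∃ y, y = g.symm^[n] z := ⟨_, rfl⟩
    have hyz : g^[n] y = z := by
      rw [hy]
      exact (Function.LeftInverse.iterate g.apply_symm_apply n) z
    have hyΛ : y ∈ Λ := by rw [hy]; exact hypnb_mem' hΛ hz n
    have h1 := hK2 n
    rw [← hy] at h1
    set u : E := (D g.symm^[n] z : E →L[ℝ] E) v with hu
    have h2 : (D g^[n] y : E →L[ℝ] E) u = v := by
      have h3 := (Dyn.D_inv g hr n (x := y)).2
      rw [hyz] at h3
      exact congrArg (fun L : E →L[ℝ] E => L v) h3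
    have h3 : P z v = (D g^[n] y : E →L[ℝ] E) (P y u) := by
      have h4 := congrArg (fun L : E →L[ℝ] E => L u) (hypnb_comm hr hΛ hP hyΛ n)
      change P (g^[n] y) ((D g^[n] y : E →L[ℝ] E) u) = (D g^[n] y : E →L[ℝ] E) (P y u) at h4
      rw [h2, hyz] at h4
      exact h4
    have h4 := hP.fwd y hyΛ n (P y u) (congrArg (fun L : E →L[ℝ] E => L u) (hP.idem y hyΛ))
    rw [hyz, ← h3] at h4
    refine h4.trans ?_
    have h5 := hb y hyΛ u
    gcongr
    exact h5.trans (by gcongr)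
  -- the unstable part
  have hu : v - P z v = 0 := by
    refine spl_rnorm_eq_zero γ z (ge_of_tendsto' (hlim (2 * (K + C * K))) fun n => ?_)
    obtain ⟨y, hy⟩ : ∃ y, y = g^[n] z := ⟨_, rfl⟩
    have hyz : g.symm^[n] y = z := by
      rw [hy]
      exact (Function.LeftInverse.iterate g.symm_apply_apply n) z
    have hyΛ : y ∈ Λ := by rw [hy]; exact hypnb_mem hΛ hz n
    have h1 := hK1 n
    rw [← hy] at h1
    set u : E := (D g^[n] z : E →L[ℝ] E) v with hu
    have h3 : (D g^[n] z : E →L[ℝ] E) (v - P z v) = u - P y u := by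
      have h4 := congrArg (fun L : E →L[ℝ] E => L v) (hypnb_comm hr hΛ hP hz n)
      change P (g^[n] z) ((D g^[n] z : E →L[ℝ] E) v) = (D g^[n] z : E →L[ℝ] E) (P z v) at h4
      rw [map_sub, ← h4, ← hy]
    have h4 : v - P z v = (D g.symm^[n] y : E →L[ℝ] E) (u - P y u) := by
      rw [← h3]
      have h5 := (Dyn.D_inv g hr n (x := z)).1
      rw [← hy] at h5
      exact (congrArg (fun L : E →L[ℝ] E => L (v - P z v)) h5).symm
    have h5 := hP.bwd y hyΛ n (u - P y u) (by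
      rw [map_sub, sub_eq_zero]
      exact (congrArg (fun L : E →L[ℝ] E => L u) (hP.idem y hyΛ)).symm)
    rw [hyz, ← h4] at h5
    refine h5.trans ?_
    have h6 := hb y hyΛ u
    have h7 := spl_rnorm_sub_le γ y u (P y u)
    gcongr
    refine h7.trans ?_
    have h8 : C * rnorm γ y u ≤ C * K := by gcongr
    linarith
  rw [hs, sub_zero] at hu
  exact hu

end PRH
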