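import Pool.Agent.PRH.Bridge

/-!
# Powers of a diffeomorphism (module Iter)

HEADER.
* `iter g m`: recursion on `m` with `Diffeomorph.trans`/`refl`, or direct: `toFun = g^[m]`,
  `invFun = g.symm^[m]`, smoothness `contMDiff_iterate`.
* `zi_iter`: `zi (iter g m).toEquiv i x = zi g.toEquiv (m * i) x`: `(iter g m).toEquiv = g.toEquiv ^ m` in
  `Equiv.Perm M`, `zpow_mul`, `zpow_natCast`.
* `iter_nn`: from `zi_iter` as functions (`funext`).
* `omegaL_iter`: let `z ∈ ω_g(x)`, i.e. `g^[n_k] x → z` for some `n_k → ∞` (`mem_omegaL_iff`). Infinitely many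
  `n_k` are congruent to the same `j` modulo `m`: for every `j < m` let `P_j` be the statement
  `z ∈ ω_{g^m}(g^j x)`; if all fail, then for every `j` there are `ε_j > 0`, `N_j` with
  `dist ((g^[m])^[n] (g^[j] x)) z ≥ ε_j` for `n ≥ N_j`; take `ε = min ε_j`, `N = m * (max N_j + 1)`; a number
  `n ≥ N` with `dist (g^[n] x) z < ε` has `n = m q + j`, `q ≥ N_j`: contradiction.
* `NB_of_iter`: if `v` is bounded under the cocycle of `g` it is bounded under the cocycle of `iter g m`
  (`iter_nn`), and `z ∈ ω_g(x) ⊆ ⋃_{j < m} ω_{g^m}(g^j x)`.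
-/

open Set Filter Topology Manifold ContDiff Metric OmSt

namespace PRH

section

variable {E : Type*} [NormedAddCommGroup E] [NormedSpace ℝ E]
  {M : Type*} [TopologicalSpace M] [ChartedSpace E M] {r : ℕ∞}

/-- Powers of a diffeomorphism. -/
noncomputable def iter (g : Dyn E M r) (m : ℕ) : Dyn E M r where
  toFun := g^[m]
  invFun := g.symm^[m]
  left_inv := (Function.LeftInverse.iterate (f := g) (g := g.symm) g.symm_apply_apply m)
  right_inv := (Function.LeftInverse.iterate (f := g.symm) (g := g) g.apply_symm_apply m)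
  contMDiff_toFun := contMDiff_iterate g.contMDiff m
  contMDiff_invFun := contMDiff_iterate g.symm.contMDiff m

theorem iter_apply (g : Dyn E M r) (m : ℕ) (x : M) : iter g m x = g^[m] x := rfl

theorem iter_toEquiv (g : Dyn E M r) (m : ℕ) :
    (iter g m).toEquiv = (g.toEquiv ^ m : Equiv.Perm M) := by
  ext x
  rw [← Equiv.Perm.iterate_eq_pow]
  rfl

theorem zi_iter (g : Dyn E M r) (m : ℕ) (i : ℤ) (x : M) :
    zi (iter g m).toEquiv i x = zi g.toEquiv (m * i) x := by
  unfold zi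
  rw [iter_toEquiv, zpow_mul, zpow_natCast]

end

variable {E : Type*} [NormedAddCommGroup E] [NormedSpace ℝ E] [FiniteDimensional ℝ E]
  {M : Type*} [MetricSpace M] [CompactSpace M] [ChartedSpace E M] [IsManifold 𝓘(ℝ, E) ∞ M]
  {r : ℕ∞}

theorem iter_nn (g : Dyn E M r) (hr : 1 ≤ r) (γ : RMetric E M) (m : ℕ) (z : M) (v : E) (i : ℤ) :
    (lcoc (iter g m) hr γ).nn z v i = (lcoc g hr γ).nn z v (m * i) := by
  have h : zi (iter g m).toEquiv i = zi g.toEquiv (m * i) := funext fun x => zi_iter g m i x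
  rw [lcoc_nn, lcoc_nn, h]

theorem omegaL_iter (g : Dyn E M r) {m : ℕ} (hm : 0 < m) {x z : M} (hz : z ∈ omegaL g x) :
    ∃ y : M, z ∈ omegaL (iter g m) y := by
  by_contra hcon
  push Not at hcon
  have key : ∀ j : ℕ, ∃ ε > 0, ∃ N : ℕ, ∀ n ≥ N, ε ≤ dist ((iter g m)^[n] (g^[j] x)) z := by
    intro j
    have h := hcon (g^[j] x)
    rw [mem_omegaL_iff] at h
    push Not at h
    obtain ⟨ε, hε, N, hN⟩ := h
    exact ⟨ε, hε, N, hN⟩
  choose ε hε N hN using key
  obtain ⟨j₀, hj₀, hj₀'⟩ := Finset.exists_min_image (Finset.range m) ε ⟨0, Finset.mem_range.2 hm⟩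
  obtain ⟨n, hn, hn'⟩ := (mem_omegaL_iff.1 hz) (ε j₀) (hε j₀) (m * ((Finset.range m).sup N + 1))
  have hj : n % m < m := Nat.mod_lt _ hm
  have h1 : N (n % m) ≤ n / m := by
    have h2 : N (n % m) ≤ (Finset.range m).sup N := Finset.le_sup (Finset.mem_range.2 hj)
    have h3 : (Finset.range m).sup N + 1 ≤ n / m := by
      rw [Nat.le_div_iff_mul_le hm, mul_comm]
      exact hn
    omega
  have h4 := hN (n % m) (n / m) h1
  have h5 := hj₀' (n % m) (Finset.mem_range.2 hj)
  have h6 : (iter g m)^[n / m] (g^[n % m] x) = g^[n] x := by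
    have h7 : ((iter g m : Dyn E M r) : M → M) = g^[m] := rfl
    rw [h7, ← Function.iterate_mul, ← Function.iterate_add_apply, Nat.div_add_mod]
  rw [h6] at h4
  linarith

theorem NB_of_iter (g : Dyn E M r) (hr : 1 ≤ r) (γ : RMetric E M) {m : ℕ} (hm : 0 < m)
    (h : ∀ y : M, (lcoc (iter g m) hr γ).NB (omegaL (lcoc (iter g m) hr γ).G y)) (x : M) :
    (lcoc g hr γ).NB (omegaL g x) := by
  intro z hz v K hK
  obtain ⟨y, hy⟩ := omegaL_iter g hm hz
  exact h y z hy v K fun i => by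
    rw [iter_nn]
    exact hK _

end PRH
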