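import Pool.Agent.PRH.NearRet
import Pool.Agent.PRH.Config

/-!
# No bounded vectors over ω-limit sets (module NoBdd)

HEADER. Suppose `z ∈ ω(x₁)`, `nn z v i ≤ K` for all `i`, `v ≠ 0`. Write `z_i = zi i z`, `v_i = A i z v ≠ 0`,
`a_i = nn z v i = N z_i v_i > 0`. By `Star.finite_large`, `{i | c₀ ≤ a_i}` is finite for all `c₀ > 0`;
so for every `θ > 0` we have `a_i < θ` for all but finitely many `i ∈ ℤ`.

Step 1 (limits). The sequence `(z_i, a_i⁻¹ • v_i)`, `i = 0, 1, 2, ...`, has norm `1`; `exists_conv`: a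
strictly increasing sequence `s : ℕ → ℕ` with `Conv` to `(q₀, w₀')`, `N q₀ w₀' = 1`, `W₀ := T q₀ q₀ w₀' ≠ 0`.
Similarly `(z_{-i}, a_{-i}⁻¹ • v_{-i})`: `t : ℕ → ℕ` strictly increasing, limit `(q₁, w₁')`,
`W₁ := T q₁ q₁ w₁' ≠ 0`. Let `ω_k = T q₀ z_{s k} (a_{s k}⁻¹ • v_{s k}) → W₀`,
`ω'_k = T q₁ z_{-t k} (a_{-t k}⁻¹ • v_{-t k}) → W₁`.

Step 2. `Star.config` gives `L₀` and then, with `c 0 = q₀`, `c 1 = q₁` (`c = ![q₀, q₁]`), `ε > 0`.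

Step 3 (choice of times). Choose `k₀` such that for `k, l ≥ k₀`: `dist z_{s k} q₀ < ε` and
`‖ω_k - ω_l‖ < (ε / 2) ‖ω_l‖`; the same for `t`, `q₁`, `ω'`. Let `b = s k₀`; choose `k > k₀` with
`b' = s k ≥ b + L₀` and `a_{b'} < a_b`. Let `a'' = t k₀`; choose `l > k₀` with `a' = t l ≥ a'' + L₀`,
`a' + b ≥ L₀` and `a_{-a'} < a_{-a''}`.
Put `V 1 = z_{-a'}`, `n 1 1 = a' - a''`, `n 1 0 = a' + b`, `n 0 0 = b' - b`.
`u = ω_{k₀} = T q₀ z_b (a_b⁻¹ • v_b)`, `u' = ω'_l = T q₁ z_{-a'} (a_{-a'}⁻¹ • v_{-a'})`.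

Step 4 (vertex 1). `X 1 0 u' = T q₀ z_b (a_{-a'}⁻¹ • v_b) = (a_b / a_{-a'}) • u` exactly
(`κ = a_b / a_{-a'}`). `X 1 1 u' = (a_{-a''} / a_{-a'}) • ω'_{k₀}`; `lam' = a_{-a''} / a_{-a'} > 1`;
`‖lam' • u' - X 1 1 u'‖ = lam' ‖ω'_l - ω'_{k₀}‖ < (ε/2) lam' ‖ω'_{k₀}‖ = (ε/2) ‖X 1 1 u'‖`.

Step 5 (vertex 0). `z_b ∈ ω(x₁)` (`omegaL_zinv`), so there are points
`x_k = zi k x₁` (`k : ℕ` arbitrarily large) arbitrarily close to `z_b` (`mem_omegaL_iff`). With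
`n = b' - b`: by `cont n q₀ q₀ z_b` the operators `T q₀ (zi n x) * A n x * T' q₀ x` are continuous at
`x = z_b` (`z_b, z_{b'} ∈ S q₀`), with the value `Y = T q₀ z_{b'} * A n z_b * T' q₀ z_b`,
and `Y u = (a_{b'} / a_b) • ω_k` (`k` with `s k = b'`), `lam = a_{b'} / a_b < 1`:
`‖lam • u - Y u‖ = lam ‖ω_{k₀} - ω_k‖ < (ε/2) ‖Y u‖ < ε ‖Y u‖` (`Y u ≠ 0`). So for `x` close enough to
`z_b`: `‖lam • u - X₀ u‖ < ε ‖X₀ u‖`, `X₀ = T q₀ (zi n x) * A n x * T' q₀ x`, `dist x q₀ < ε`,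
`dist (zi n x) q₀ < ε`. Fix such a point `V 0 = x_k`.
Since `z_{-a'} ∈ ω(x₁)` too, there is `l' ≥ k + L₀` with `zi l' x₁` so close to `z_{-a'}` that
`dist (zi l' x₁) q₁ < ε`; `n 0 1 = l' - k`. Now `Star.config` gives the contradiction.

HINT: prove first small lemmas: `T b (zi n x) (A n x (T' b' x (T b' x w))) = T b (zi n x) (A n x w)` for
`x ∈ S b'`; `A n (zi i z) (A i z v) = A (n + i) z v`, `zi n (zi i z) = zi (n + i) z`.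
-/

open Set Filter Topology Metric OmSt

namespace PRH

namespace LCoc

variable {Z : Type*} [MetricSpace Z] [CompactSpace Z] {E : Type*} [NormedAddCommGroup E]
  [NormedSpace ℝ E] [FiniteDimensional ℝ E] {C : LCoc Z E}

/-- normalized images of `v` -/
noncomputable def NoBdd_w (C : LCoc Z E) (z : Z) (v : E) (i : ℤ) : E :=
  (C.nn z v i)⁻¹ • C.A i z v

omit [CompactSpace Z] [FiniteDimensional ℝ E] in
theorem NoBdd_norm {z : Z} {v : E} (hv : v ≠ 0) (i : ℤ) :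
    C.N (zi C.G.toEquiv i z) (NoBdd_w C z v i) = 1 := by
  have h1 := C.nn_pos z hv i
  unfold NoBdd_w
  rw [C.N_smul, abs_of_pos (inv_pos.2 h1)]
  exact inv_mul_cancel₀ h1.ne'

omit [CompactSpace Z] [FiniteDimensional ℝ E] in
theorem NoBdd_seg {z : Z} {v : E} (hv : v ≠ 0) (p q : Z) (i j m : ℤ)
    (hz : zi C.G.toEquiv i z ∈ C.S p) (hm : m + i = j) :
    (C.T q (zi C.G.toEquiv m (zi C.G.toEquiv i z)) * C.A m (zi C.G.toEquiv i z) *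
      C.T' p (zi C.G.toEquiv i z)) (C.T p (zi C.G.toEquiv i z) (NoBdd_w C z v i))
      = (C.nn z v j / C.nn z v i) • C.T q (zi C.G.toEquiv j z) (NoBdd_w C z v j) := by
  subst hm
  have h1 : C.T' p (zi C.G.toEquiv i z) (C.T p (zi C.G.toEquiv i z) (NoBdd_w C z v i))
      = NoBdd_w C z v i := by
    have := congrArg (fun L : E →L[ℝ] E => L (NoBdd_w C z v i)) (C.T_mul' p _ hz)
    exact this
  have h2 : C.A m (zi C.G.toEquiv i z) (C.A i z v) = C.A (m + i) z v := by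
    rw [C.A_add]
    rfl
  rw [ContinuousLinearMap.mul_apply, ContinuousLinearMap.mul_apply, h1]
  unfold NoBdd_w
  rw [map_smul, map_smul, map_smul, h2, ← zi_add, smul_smul]
  congr 1
  have h3 := (C.nn_pos z hv (m + i)).ne'
  field_simp

/-- limits of normalized vectors -/
theorem NoBdd_lim {z : Z} {v : E} (hv : v ≠ 0) (σ : ℕ → ℤ) :
    ∃ (s : ℕ → ℕ) (q : Z) (W : E), StrictMono s ∧ W ≠ 0 ∧
      Tendsto (fun k => zi C.G.toEquiv (σ (s k)) z) atTop (𝓝 q) ∧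
      Tendsto (fun k => C.T q (zi C.G.toEquiv (σ (s k)) z) (NoBdd_w C z v (σ (s k)))) atTop (𝓝 W) := by
  obtain ⟨s, q, w, hs, hc⟩ := C.exists_conv (z := fun k => zi C.G.toEquiv (σ k) z)
    (v := fun k => NoBdd_w C z v (σ k)) (K := 1) (fun k => (NoBdd_norm hv (σ k)).le)
  refine ⟨s, q, C.T q q w, hs, ?_, hc.1, hc.2⟩
  intro h0
  have h1 := hc.norm
  have h2 : (fun k => C.N (((fun k => zi C.G.toEquiv (σ k) z) ∘ s) k)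
      (((fun k => NoBdd_w C z v (σ k)) ∘ s) k)) = fun _ => (1 : ℝ) := by
    funext k
    exact NoBdd_norm hv (σ (s k))
  rw [h2] at h1
  have h3 : C.N q w = 1 := tendsto_nhds_unique h1 tendsto_const_nhds
  have h4 : C.T' q q (C.T q q w) = w := by
    have := congrArg (fun L : E →L[ℝ] E => L w) (C.T_mul' q q (C.S_self q))
    exact this
  rw [h0, map_zero] at h4
  rw [← h4, C.N_zero] at h3
  exact zero_ne_one h3

omit [FiniteDimensional ℝ E] in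
theorem NoBdd_pair {ω : ℕ → E} {W : E} (hW : W ≠ 0) (h : Tendsto ω atTop (𝓝 W)) {ε : ℝ} (hε : 0 < ε) :
    ∃ k₀, ∀ k ≥ k₀, ∀ l ≥ k₀, ‖ω k - ω l‖ < ε / 2 * ‖ω l‖ := by
  have hn : 0 < ‖W‖ := norm_pos_iff.2 hW
  obtain ⟨δ, hδ⟩ : ∃ δ, δ = min (‖W‖ / 2) (ε * ‖W‖ / 8) := ⟨_, rfl⟩
  have hδ0 : 0 < δ := by rw [hδ]; positivity
  have hδ1 : δ ≤ ‖W‖ / 2 := by rw [hδ]; exact min_le_left _ _
  have hδ2 : δ ≤ ε * ‖W‖ / 8 := by rw [hδ]; exact min_le_right _ _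
  obtain ⟨k₀, hk₀⟩ := Metric.tendsto_atTop.1 h δ hδ0
  refine ⟨k₀, fun k hk l hl => ?_⟩
  have h1 := hk₀ k hk
  have h2 := hk₀ l hl
  have h3 : dist (ω k) (ω l) < 2 * δ := by
    have := dist_triangle_right (ω k) (ω l) W
    linarith
  rw [dist_eq_norm] at h3
  have h4 : ‖W‖ ≤ dist (ω l) W + ‖ω l‖ := by
    rw [dist_comm, dist_eq_norm]
    have := norm_add_le (W - ω l) (ω l)
    rwa [sub_add_cancel] at this
  have h5 : ‖W‖ / 2 < ‖ω l‖ := by linarith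
  have h6 : ε / 2 * (‖W‖ / 2) < ε / 2 * ‖ω l‖ := mul_lt_mul_of_pos_left h5 (by positivity)
  have h7 : ε / 2 * (‖W‖ / 2) = ε * ‖W‖ / 4 := by ring
  linarith

theorem NoBdd_small (hS : C.Star) {z : Z} {v : E} {K : ℝ} (hv : ∀ i : ℤ, C.nn z v i ≤ K)
    {θ : ℝ} (hθ : 0 < θ) {σ : ℕ → ℤ} (hσ : Function.Injective σ) :
    ∀ᶠ k in atTop, C.nn z v (σ k) < θ := by
  have h1 := (hS.finite_large hv hθ).preimage (f := σ) hσ.injOn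
  rw [← Nat.cofinite_eq_atTop]
  refine (h1.eventually_cofinite_notMem).mono ?_
  intro k hk
  by_contra hcon
  exact hk (not_lt.1 hcon)

theorem Star.noBdd (hS : C.Star) {x₁ : Z} : C.NB (omegaL C.G x₁) := by
  intro z hz v K hK
  by_contra hv
  -- limits
  obtain ⟨s, q₀, W₀, hs, hW₀, hq₀, hω⟩ := NoBdd_lim (C := C) (z := z) hv (fun k => (k : ℤ))
  obtain ⟨t, q₁, W₁, ht, hW₁, hq₁, hω'⟩ := NoBdd_lim (C := C) (z := z) hv (fun k => -(k : ℤ))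
  have hσ1 : Function.Injective (fun k : ℕ => (k : ℤ)) := Nat.cast_injective
  have hσ2 : Function.Injective (fun k : ℕ => -(k : ℤ)) := fun k l h => by
    have : -(k : ℤ) = -(l : ℤ) := h
    omega
  obtain ⟨L₀, hL₀⟩ := hS.config
  obtain ⟨ε, hε, hball, hconf⟩ := hL₀ ![q₀, q₁]
  have hball0 : ball q₀ ε ⊆ C.S q₀ := hball 0
  have hball1 : ball q₁ ε ⊆ C.S q₁ := hball 1
  -- times for q₀
  obtain ⟨k₁, hk₁⟩ := NoBdd_pair hW₀ hω hε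
  obtain ⟨k₂, hk₂⟩ := Metric.tendsto_atTop.1 hq₀ ε hε
  obtain ⟨k₀, hk₀⟩ : ∃ k₀, k₀ = max k₁ k₂ := ⟨_, rfl⟩
  have hk01 : k₁ ≤ k₀ := by rw [hk₀]; exact le_max_left _ _
  have hk02 : k₂ ≤ k₀ := by rw [hk₀]; exact le_max_right _ _
  obtain ⟨b, hb⟩ : ∃ b : ℕ, b = s k₀ := ⟨_, rfl⟩
  have hab : 0 < C.nn z v b := C.nn_pos z hv b
  obtain ⟨k, hk, hkb, hka⟩ : ∃ k, k₀ ≤ k ∧ b + L₀ ≤ s k ∧ C.nn z v (s k) < C.nn z v b := by
    have e1 := hs.tendsto_atTop.eventually (NoBdd_small hS hK hab hσ1)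
    have e2 := hs.tendsto_atTop.eventually (eventually_ge_atTop (b + L₀))
    obtain ⟨k, h1, h2, h3⟩ := ((eventually_ge_atTop k₀).and (e2.and e1)).exists
    exact ⟨k, h1, h2, h3⟩
  obtain ⟨b', hb'⟩ : ∃ b' : ℕ, b' = s k := ⟨_, rfl⟩
  rw [← hb'] at hkb hka
  -- times for q₁
  obtain ⟨l₁, hl₁⟩ := NoBdd_pair hW₁ hω' hε
  obtain ⟨l₂, hl₂⟩ := Metric.tendsto_atTop.1 hq₁ ε hε
  obtain ⟨l₀, hl₀⟩ : ∃ l₀, l₀ = max l₁ l₂ := ⟨_, rfl⟩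
  have hl01 : l₁ ≤ l₀ := by rw [hl₀]; exact le_max_left _ _
  have hl02 : l₂ ≤ l₀ := by rw [hl₀]; exact le_max_right _ _
  obtain ⟨a2, ha2⟩ : ∃ a2 : ℕ, a2 = t l₀ := ⟨_, rfl⟩
  have haa : 0 < C.nn z v (-(a2 : ℤ)) := C.nn_pos z hv _
  obtain ⟨l, hl, hla, hlb, hlc⟩ : ∃ l, l₀ ≤ l ∧ a2 + L₀ ≤ t l ∧ L₀ ≤ t l ∧
      C.nn z v (-(t l : ℤ)) < C.nn z v (-(a2 : ℤ)) := by
    have e1 := ht.tendsto_atTop.eventually (NoBdd_small hS hK haa hσ2)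
    have e2 := ht.tendsto_atTop.eventually (eventually_ge_atTop (a2 + L₀))
    have e3 := ht.tendsto_atTop.eventually (eventually_ge_atTop L₀)
    obtain ⟨l, h1, h2, h3, h4⟩ := ((eventually_ge_atTop l₀).and (e2.and (e3.and e1))).exists
    exact ⟨l, h1, h2, h3, h4⟩
  obtain ⟨a1, ha1⟩ : ∃ a1 : ℕ, a1 = t l := ⟨_, rfl⟩
  rw [← ha1] at hla hlb hlc
  have haa1 : 0 < C.nn z v (-(a1 : ℤ)) := C.nn_pos z hv _
  have hab' : 0 < C.nn z v b' := C.nn_pos z hv _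
  -- distances
  have d0 : dist (zi C.G.toEquiv (b : ℤ) z) q₀ < ε := by
    rw [hb]; exact hk₂ k₀ hk02
  have d0' : dist (zi C.G.toEquiv (b' : ℤ) z) q₀ < ε := by
    rw [hb']; exact hk₂ k (hk02.trans hk)
  have d1 : dist (zi C.G.toEquiv (-(a2 : ℤ)) z) q₁ < ε := by
    rw [ha2]; exact hl₂ l₀ hl02
  have d1' : dist (zi C.G.toEquiv (-(a1 : ℤ)) z) q₁ < ε := by
    rw [ha1]; exact hl₂ l (hl02.trans hl)
  -- vectors
  obtain ⟨u, hu⟩ : ∃ u, u = C.T q₀ (zi C.G.toEquiv (b : ℤ) z) (NoBdd_w C z v b) := ⟨_, rfl⟩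
  obtain ⟨w, hw⟩ : ∃ w, w = C.T q₀ (zi C.G.toEquiv (b' : ℤ) z) (NoBdd_w C z v b') := ⟨_, rfl⟩
  obtain ⟨u', hu'⟩ : ∃ u', u' = C.T q₁ (zi C.G.toEquiv (-(a1 : ℤ)) z) (NoBdd_w C z v (-(a1 : ℤ))) :=
    ⟨_, rfl⟩
  obtain ⟨w', hw'⟩ : ∃ w', w' = C.T q₁ (zi C.G.toEquiv (-(a2 : ℤ)) z) (NoBdd_w C z v (-(a2 : ℤ))) :=
    ⟨_, rfl⟩
  have n0 : ‖u - w‖ < ε / 2 * ‖w‖ := by
    rw [hu, hw, hb, hb']
    exact hk₁ k₀ hk01 k (hk01.trans hk)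
  have n0' : ‖w - u‖ < ε / 2 * ‖u‖ := by
    rw [hu, hw, hb, hb']
    exact hk₁ k (hk01.trans hk) k₀ hk01
  have n1 : ‖u' - w'‖ < ε / 2 * ‖w'‖ := by
    rw [hu', hw', ha1, ha2]
    exact hl₁ l (hl01.trans hl) l₀ hl01
  have n1' : ‖w' - u'‖ < ε / 2 * ‖u'‖ := by
    rw [hu', hw', ha1, ha2]
    exact hl₁ l₀ hl01 l (hl01.trans hl)
  have pos_of : ∀ x y : E, ‖x‖ < ε / 2 * ‖y‖ → y ≠ 0 := by
    intro x y h h0
    rw [h0, norm_zero, mul_zero] at h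
    exact absurd h (not_lt.2 (norm_nonneg _))
  have hu0 : u ≠ 0 := pos_of _ _ n0'
  have hw0 : w ≠ 0 := pos_of _ _ n0
  have hu0' : u' ≠ 0 := pos_of _ _ n1'
  have hw0' : w' ≠ 0 := pos_of _ _ n1
  -- the general estimate
  have est : ∀ (x y : E) (c : ℝ), 0 < c → y ≠ 0 → ‖x - y‖ < ε / 2 * ‖y‖ →
      ‖c • x - c • y‖ < ε * ‖c • y‖ := by
    intro x y c hc hy h
    rw [← smul_sub, norm_smul, norm_smul, Real.norm_of_nonneg hc.le]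
    have h1 : 0 < ‖y‖ := norm_pos_iff.2 hy
    have h2 : c * ‖x - y‖ < c * (ε / 2 * ‖y‖) := mul_lt_mul_of_pos_left h hc
    have h3 : c * (ε / 2 * ‖y‖) ≤ ε * (c * ‖y‖) := by
      have : 0 < ε * (c * ‖y‖) := by positivity
      nlinarith
    linarith
  -- the loop at q₀
  have hm0 : ((b' - b : ℕ) : ℤ) + (b : ℤ) = b' := by omega
  have seg0 := NoBdd_seg (C := C) (z := z) hv q₀ q₀ b b' ((b' - b : ℕ) : ℤ) (hball0 d0) hm0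
  rw [← hu, ← hw] at seg0
  have hzb : zi C.G.toEquiv ((b' - b : ℕ) : ℤ) (zi C.G.toEquiv (b : ℤ) z) = zi C.G.toEquiv (b' : ℤ) z := by
    rw [← zi_add, hm0]
  have lam_pos : 0 < C.nn z v b' / C.nn z v b := div_pos hab' hab
  obtain ⟨Ψ, hΨ⟩ : ∃ Ψ : Z → E →L[ℝ] E, Ψ = fun x => C.T q₀ (zi C.G.toEquiv ((b' - b : ℕ) : ℤ) x) *
      C.A ((b' - b : ℕ) : ℤ) x * C.T' q₀ x := ⟨_, rfl⟩
  have cΨ : ContinuousAt Ψ (zi C.G.toEquiv (b : ℤ) z) := by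
    rw [hΨ]
    exact C.cont ((b' - b : ℕ) : ℤ) q₀ q₀ _ (hball0 d0) (by rw [hzb]; exact hball0 d0')
  have hΨb : Ψ (zi C.G.toEquiv (b : ℤ) z) u = (C.nn z v b' / C.nn z v b) • w := by
    rw [hΨ]
    exact seg0
  have cΨu : ContinuousAt (fun x => Ψ x u) (zi C.G.toEquiv (b : ℤ) z) :=
    cΨ.clm_apply continuousAt_const
  have ev1 : ∀ᶠ x in 𝓝 (zi C.G.toEquiv (b : ℤ) z),
      ‖(C.nn z v b' / C.nn z v b) • u - Ψ x u‖ < ε * ‖Ψ x u‖ := by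
    refine ContinuousAt.eventually_lt (continuousAt_const.sub cΨu).norm
      (continuousAt_const.mul cΨu.norm) ?_
    rw [hΨb]
    exact est u w _ lam_pos hw0 n0
  have ev2 : ∀ᶠ x in 𝓝 (zi C.G.toEquiv (b : ℤ) z), dist x q₀ < ε :=
    isOpen_ball.mem_nhds d0
  have ev3 : ∀ᶠ x in 𝓝 (zi C.G.toEquiv (b : ℤ) z),
      dist (zi C.G.toEquiv ((b' - b : ℕ) : ℤ) x) q₀ < ε := by
    have hc := (continuous_zi C.G ((b' - b : ℕ) : ℤ)).continuousAt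
      (x := zi C.G.toEquiv (b : ℤ) z)
    refine hc.eventually (p := fun y => dist y q₀ < ε) ?_
    rw [hzb]
    exact isOpen_ball.mem_nhds d0'
  obtain ⟨δ, hδ, hδ'⟩ := Metric.eventually_nhds_iff.1 (ev1.and (ev2.and ev3))
  obtain ⟨k', -, hk'⟩ := mem_omegaL_iff.1 (omegaL_zinv C.G x₁ z hz (b : ℤ)) δ hδ 0
  have hk'' : dist (zi C.G.toEquiv (k' : ℤ) x₁) (zi C.G.toEquiv (b : ℤ) z) < δ := by
    rw [zi_nat]
    exact hk'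
  obtain ⟨c1, c2, c3⟩ := hδ' hk''
  obtain ⟨l', hl', hl''⟩ := mem_omegaL_iff.1 (omegaL_zinv C.G x₁ z hz (-(a1 : ℤ)))
    (ε - dist (zi C.G.toEquiv (-(a1 : ℤ)) z) q₁) (by linarith) (k' + L₀)
  have c4 : dist (zi C.G.toEquiv (l' : ℤ) x₁) q₁ < ε := by
    have h1 : dist (zi C.G.toEquiv (l' : ℤ) x₁) (zi C.G.toEquiv (-(a1 : ℤ)) z)
        < ε - dist (zi C.G.toEquiv (-(a1 : ℤ)) z) q₁ := by
      rw [zi_nat]
      exact hl''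
    have h2 := dist_triangle (zi C.G.toEquiv (l' : ℤ) x₁) (zi C.G.toEquiv (-(a1 : ℤ)) z) q₁
    linarith
  have hm01 : ((l' - k' : ℕ) : ℤ) + (k' : ℤ) = l' := by omega
  have hm11 : ((a1 - a2 : ℕ) : ℤ) + -(a1 : ℤ) = -(a2 : ℤ) := by omega
  have hm10 : ((a1 + b : ℕ) : ℤ) + -(a1 : ℤ) = b := by push_cast; omega
  have seg1 := NoBdd_seg (C := C) (z := z) hv q₁ q₁ (-(a1 : ℤ)) (-(a2 : ℤ)) ((a1 - a2 : ℕ) : ℤ)
    (hball1 d1') hm11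
  rw [← hu', ← hw'] at seg1
  have seg2 := NoBdd_seg (C := C) (z := z) hv q₁ q₀ (-(a1 : ℤ)) (b : ℤ) ((a1 + b : ℕ) : ℤ)
    (hball1 d1') hm10
  rw [← hu', ← hu] at seg2
  refine hconf ![zi C.G.toEquiv (k' : ℤ) x₁, zi C.G.toEquiv (-(a1 : ℤ)) z]
    ![![b' - b, l' - k'], ![a1 + b, a1 - a2]] ?_ ?_ u u' (C.nn z v b' / C.nn z v b)
    (C.nn z v (-(a2 : ℤ)) / C.nn z v (-(a1 : ℤ))) (C.nn z v b / C.nn z v (-(a1 : ℤ))) hu0 hu0'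
    lam_pos ((div_lt_one hab).2 hka) ((one_lt_div haa1).2 hlc) (div_pos hab haa1).ne' ?_ ?_ ?_
  · rw [Fin.forall_fin_two]
    exact ⟨c2, d1'⟩
  · rw [Fin.forall_fin_two]
    constructor
    · rw [Fin.forall_fin_two]
      refine ⟨⟨?_, c3⟩, ⟨?_, ?_⟩⟩
      · show L₀ ≤ b' - b
        omega
      · show L₀ ≤ l' - k'
        omega
      · show dist (zi C.G.toEquiv ((l' - k' : ℕ) : ℤ) (zi C.G.toEquiv (k' : ℤ) x₁)) q₁ < ε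
        rw [← zi_add, hm01]
        exact c4
    · rw [Fin.forall_fin_two]
      refine ⟨⟨?_, ?_⟩, ⟨?_, ?_⟩⟩
      · show L₀ ≤ a1 + b
        omega
      · show dist (zi C.G.toEquiv ((a1 + b : ℕ) : ℤ) (zi C.G.toEquiv (-(a1 : ℤ)) z)) q₀ < ε
        rw [← zi_add, hm10]
        exact d0
      · show L₀ ≤ a1 - a2
        omega
      · show dist (zi C.G.toEquiv ((a1 - a2 : ℕ) : ℤ) (zi C.G.toEquiv (-(a1 : ℤ)) z)) q₁ < ε
        rw [← zi_add, hm11]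
        exact d1
  · rw [hΨ] at c1
    exact c1
  · show ‖_ - (C.T q₁ (zi C.G.toEquiv ((a1 - a2 : ℕ) : ℤ) (zi C.G.toEquiv (-(a1 : ℤ)) z)) *
      C.A ((a1 - a2 : ℕ) : ℤ) (zi C.G.toEquiv (-(a1 : ℤ)) z) *
      C.T' q₁ (zi C.G.toEquiv (-(a1 : ℤ)) z)) u'‖ < ε *
      ‖(C.T q₁ (zi C.G.toEquiv ((a1 - a2 : ℕ) : ℤ) (zi C.G.toEquiv (-(a1 : ℤ)) z)) *
      C.A ((a1 - a2 : ℕ) : ℤ) (zi C.G.toEquiv (-(a1 : ℤ)) z) *
      C.T' q₁ (zi C.G.toEquiv (-(a1 : ℤ)) z)) u'‖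
    rw [seg1]
    exact est u' w' _ (div_pos haa haa1) hw0' n1
  · exact seg2

end LCoc

end PRH
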