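import Pool.Agent.PRH.StarFin
import Pool.Agent.PRH.NoBdd
import Pool.Agent.PRH.HypNB
import Pool.Agent.PRH.NBProd
import Pool.Agent.PCE.Final

/-!
# The main theorem, metric version
-/

open Set Filter Topology Manifold ContDiff Metric OmSt

namespace PRH

variable {E : Type*} [NormedAddCommGroup E] [NormedSpace ℝ E] [FiniteDimensional ℝ E]
  {E' : Type*} [NormedAddCommGroup E'] [NormedSpace ℝ E'] [FiniteDimensional ℝ E']
  {F : Type*} [NormedAddCommGroup F] [NormedSpace ℝ F] [FiniteDimensional ℝ F]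
  {M : Type*} [MetricSpace M] [CompactSpace M] [ChartedSpace E M] [IsManifold 𝓘(ℝ, E) ∞ M]
  {N : Type*} [MetricSpace N] [CompactSpace N] [ChartedSpace E' N] [IsManifold 𝓘(ℝ, E') ∞ N]
  {X : Type*} [MetricSpace X] [CompactSpace X] [ChartedSpace F X] [IsManifold 𝓘(ℝ, F) ∞ X]
  {r : ℕ∞}

theorem exists_iota (Θ : Diffeomorph 𝓘(ℝ, F) (𝓘(ℝ, E).prod 𝓘(ℝ, E')) X (M × N) ∞) (x : X) :
    Nonempty (F ≃L[ℝ] E × E') :=
  ⟨Θ.mfderivToContinuousLinearEquiv (by simp) x⟩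

theorem nb_of_horseshoe (hr : 1 ≤ r)
    (Θ : Diffeomorph 𝓘(ℝ, F) (𝓘(ℝ, E).prod 𝓘(ℝ, E')) X (M × N) ∞)
    {g : Dyn E M r} {A : Dyn E' N r} {f : Dyn F X r} (hf : ∀ x, Θ (f x) = (g (Θ x).1, A (Θ x).2))
    (hstab : OmegaStable f) (γ : RMetric E M) (hA : Horseshoe A) (x : M) :
    (lcoc g hr γ).NB (omegaL g x) := by
  obtain ⟨m, π, hπ⟩ := hA
  obtain ⟨ι⟩ := exists_iota Θ (Θ.symm (x, π dl))
  have hS := star_of_omegaStable hr Θ ι hf hstab γ hπ
  exact NB_of_iter g hr γ hπ.pos (fun y => hS.noBdd) x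

theorem main1 (hr : 1 ≤ r) (Θ : Diffeomorph 𝓘(ℝ, F) (𝓘(ℝ, E).prod 𝓘(ℝ, E')) X (M × N) ∞)
    {g : Dyn E M r} {A : Dyn E' N r} {f : Dyn F X r} (hf : ∀ x, Θ (f x) = (g (Θ x).1, A (Θ x).2))
    (hstab : OmegaStable f) (hA : Horseshoe A) (x : M) (hx : Recurrent g x) :
    IsHyperbolicSet g (closure (range fun n : ℕ => g^[n] x)) := by
  obtain ⟨γ⟩ := exists_rmetric (E := E) (M := M)
  have h1 : closure (range fun n : ℕ => g^[n] x) = omegaL g x :=
    closure_orbit_eq (f := g.toHomeomorph) hx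
  rw [h1]
  exact isHyperbolicSet_of_NB g hr γ (mem_omegaL_self (f := g.toHomeomorph) hx)
    (nb_of_horseshoe hr Θ hf hstab γ hA x)

theorem recurrent_factor {X Y : Type*} [TopologicalSpace X] [TopologicalSpace Y] {f : X → X}
    {g : Y → Y} {p : X → Y} (hp : Continuous p) (h : ∀ x, p (f x) = g (p x)) {x : X}
    (hx : Recurrent f x) : Recurrent g (p x) := by
  intro U hU N
  obtain ⟨n, hn, h1⟩ := hx (p ⁻¹' U) (hp.continuousAt hU) N
  refine ⟨n, hn, ?_⟩
  have h2 : ∀ k : ℕ, p (f^[k] x) = g^[k] (p x) := by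
    intro k
    induction k with
    | zero => rfl
    | succ k ih => rw [Function.iterate_succ_apply', Function.iterate_succ_apply', h, ih]
  rw [← h2]
  exact h1

theorem main2 (hr : 1 ≤ r) (Θ : Diffeomorph 𝓘(ℝ, F) (𝓘(ℝ, E).prod 𝓘(ℝ, E')) X (M × N) ∞)
    {g : Dyn E M r} {A : Dyn E' N r} {f : Dyn F X r} (hf : ∀ x, Θ (f x) = (g (Θ x).1, A (Θ x).2))
    (hstab : OmegaStable f) (hA : Horseshoe A)
    (h : Horseshoe g ∨ ∀ y, Recurrent A y → IsHyperbolicSet A (closure (range fun n : ℕ => A^[n] y))) :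
    AxiomA f := by
  obtain ⟨γM⟩ := exists_rmetric (E := E) (M := M)
  obtain ⟨γN⟩ := exists_rmetric (E := E') (M := N)
  obtain ⟨γX⟩ := exists_rmetric (E := F) (M := X)
  refine (main_metric3 hr f hstab).2 fun x hx _ => ?_
  have h1 : closure (range fun n : ℕ => f^[n] x) = omegaL f x :=
    closure_orbit_eq (f := f.toHomeomorph) hx
  rw [h1]
  refine isHyperbolicSet_of_NB f hr γX (mem_omegaL_self (f := f.toHomeomorph) hx) ?_
  refine NB_prod hr Θ hf γM γN γX (nb_of_horseshoe hr Θ hf hstab γM hA _) ?_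
  rcases h with hg | hrec
  · refine nb_of_horseshoe hr (Θ.trans (Diffeomorph.prodComm 𝓘(ℝ, E) 𝓘(ℝ, E') M N ∞)) (g := A)
      (A := g) (f := f) (fun z => ?_) hstab γN hg _
    change (Θ (f z)).swap = _
    rw [hf]
    rfl
  · have hy : Recurrent A (Θ x).2 := recurrent_factor (p := fun z => (Θ z).2)
      (continuous_snd.comp Θ.continuous) (fun z => by simp [hf]) hx
    have h2 := hrec _ hy
    have h3 : closure (range fun n : ℕ => A^[n] (Θ x).2) = omegaL A (Θ x).2 :=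
      closure_orbit_eq (f := A.toHomeomorph) hy
    rw [h3] at h2
    exact NB_of_isHyperbolicSet A hr γN (isClosed_omegaL _ _) (inv_omegaL A _) h2

end PRH
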