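import Pool.Agent.PRH.AStab
import Pool.Agent.PRH.HypFactor
import Pool.Agent.PRH.CntProd

/-!
# The factors of stable products are stable in the weak sense (module PStab)

HEADER. Let `𝒩 ∋ f` be the open set of `OmegaStable f`, a stable set (`Stab`, see the proof of `main_metric3`,
Pool/Agent/OmSt2/Final3.lean), `f = prodDyn Θ g A` (`eq_prodDyn`). `N₀ = {g' | prodDyn Θ g' A ∈ 𝒩}`.
* `mem`: `f ∈ 𝒩`.
* `fam`: `pert_prodDyn` and `Fam.eventually_mem` for the family `prodFam Θ Ψ`.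
* `hyp`: `g' ∈ N₀`, `g'^[n] p = p`, `n > 0`: `A^[m₀] a₀ = a₀`, so `A^[n * m₀] a₀ = a₀` and
  `(prodDyn Θ g' A)^[n * m₀] (Θ.symm (p, a₀)) = Θ.symm (p, a₀)`; `Stab.isHyp` and `isHyp_factor` (`k = m₀`).
* `fin`: the injective map `p ↦ Θ.symm (p, a₀)` maps `Fix(g'^n)` into `Fix((prodDyn Θ g' A)^(n * m₀))`, which is
  finite by `Stab.fix_finite`.
* `cnt`: `m = m₀ * k`: `A^[m] a₀ = a₀`; `cnt_prod`.
-/

open Set Filter Topology Manifold ContDiff Metric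

namespace PRH

open OmSt

universe u v

variable {E : Type u} [NormedAddCommGroup E] [NormedSpace ℝ E] [FiniteDimensional ℝ E]
  {E' : Type*} [NormedAddCommGroup E'] [NormedSpace ℝ E'] [FiniteDimensional ℝ E']
  {F : Type*} [NormedAddCommGroup F] [NormedSpace ℝ F] [FiniteDimensional ℝ F]
  {M : Type v} [MetricSpace M] [CompactSpace M] [ChartedSpace E M] [IsManifold 𝓘(ℝ, E) ∞ M]
  {N : Type*} [MetricSpace N] [CompactSpace N] [ChartedSpace E' N] [IsManifold 𝓘(ℝ, E') ∞ N]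
  {X : Type*} [MetricSpace X] [CompactSpace X] [ChartedSpace F X] [IsManifold 𝓘(ℝ, F) ∞ X]
  {r : ℕ∞}

theorem exists_astab (hr : 1 ≤ r) (Θ : Diffeomorph 𝓘(ℝ, F) (𝓘(ℝ, E).prod 𝓘(ℝ, E')) X (M × N) ∞)
    {g : Dyn E M r} {A : Dyn E' N r} {f : Dyn F X r} (hf : ∀ x, Θ (f x) = (g (Θ x).1, A (Θ x).2))
    (hstab : OmegaStable f) {m₀ : ℕ} (hm₀ : 0 < m₀) {a₀ : N} (ha : A^[m₀] a₀ = a₀) :
    ∃ N₀ : Set (Dyn E M r), AStab g N₀ m₀ := by
  obtain ⟨𝒩, hN, hfN, hconj⟩ := hstab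
  have hS : Stab 𝒩 := ⟨hN, fun g₁ hg₁ g' hg' =>
    ((hconj g₁ hg₁).symm (Dyn.isOpenMap f) f.continuous).trans (Dyn.isOpenMap f) f.continuous
      (hconj g' hg')⟩
  have hfe : f = prodDyn Θ g A := eq_prodDyn Θ hf
  rw [hfe] at hfN
  have hmul : ∀ k : ℕ, A^[m₀ * k] a₀ = a₀ := by
    intro k
    have h1 : Function.IsPeriodicPt A m₀ a₀ := ha
    exact h1.mul_const k
  refine ⟨{g' | prodDyn Θ g' A ∈ 𝒩}, ⟨hm₀, hfN, ?_, ?_, ?_, ?_⟩⟩
  · intro V _ _ Ψ g' hg'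
    have h1 := (prodFam Θ Ψ).eventually_mem (prodDyn Θ g' A) hS.isOpen hg'
    filter_upwards [h1] with v hv
    show prodDyn Θ (pert g' (Ψ.toFun v)) A ∈ 𝒩
    rw [← pert_prodDyn]
    exact hv
  · intro g' hg' p n hn hp
    have h1 : A^[n * m₀] a₀ = a₀ := by rw [mul_comm]; exact hmul n
    have h2 : (prodDyn Θ g' A)^[n * m₀] (Θ.symm (p, a₀)) = Θ.symm (p, a₀) := by
      rw [prodDyn_iter, h1]
      have h3 : Function.IsPeriodicPt g' n p := hp
      have h4 : g'^[n * m₀] p = p := h3.mul_const m₀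
      rw [h4]
    exact isHyp_factor Θ hr g' A hp h1 (hS.isHyp hr hg' (Nat.mul_pos hn hm₀) h2)
  · intro g' hg' n hn
    have h1 := hS.fix_finite hr (n * m₀) (Nat.mul_pos hn hm₀) _ hg'
    refine Set.Finite.of_injOn (f := fun p => Θ.symm (p, a₀)) ?_ ?_ h1
    · intro p hp
      show (prodDyn Θ g' A)^[n * m₀] (Θ.symm (p, a₀)) = Θ.symm (p, a₀)
      have h2 : A^[n * m₀] a₀ = a₀ := by rw [mul_comm]; exact hmul n
      rw [prodDyn_iter, h2]
      have h3 : Function.IsPeriodicPt g' n p := hp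
      have h4 : g'^[n * m₀] p = p := h3.mul_const m₀
      rw [h4]
    · intro p _ p' _ h
      exact (Prod.ext_iff.1 (Θ.symm.injective h)).1
  · intro g' hg' m hm hdvd hPH heq q hq z hz hqz p hpz hp
    obtain ⟨k, rfl⟩ := hdvd
    exact cnt_prod Θ (hS.conj _ hfN _ hg') (fun n hn => hS.fix_finite hr n hn _ hfN)
      (fun n hn => hS.fix_finite hr n hn _ hg') hPH hm (hmul k) heq hq hz hqz hpz hp

end PRH
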