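import Pool.Agent.PRH.Main
import Pool.Agent.PRH.FFinal
import Pool.Agent.PRH.PStab

/-!
# Axiom A for the factor
-/

open Set Filter Topology Manifold ContDiff Metric OmSt

namespace PRH

universe u v

variable {E : Type u} [NormedAddCommGroup E] [NormedSpace ℝ E] [FiniteDimensional ℝ E]
  {E' : Type*} [NormedAddCommGroup E'] [NormedSpace ℝ E'] [FiniteDimensional ℝ E']
  {F : Type*} [NormedAddCommGroup F] [NormedSpace ℝ F] [FiniteDimensional ℝ F]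
  {M : Type v} [MetricSpace M] [CompactSpace M] [ChartedSpace E M] [IsManifold 𝓘(ℝ, E) ∞ M]
  {N : Type*} [MetricSpace N] [CompactSpace N] [ChartedSpace E' N] [IsManifold 𝓘(ℝ, E') ∞ N]
  {X : Type*} [MetricSpace X] [CompactSpace X] [ChartedSpace F X] [IsManifold 𝓘(ℝ, F) ∞ X]
  {r : ℕ∞}

theorem main3 (hr : 1 ≤ r) (Θ : Diffeomorph 𝓘(ℝ, F) (𝓘(ℝ, E).prod 𝓘(ℝ, E')) X (M × N) ∞)
    {g : Dyn E M r} {A : Dyn E' N r} {f : Dyn F X r} (hf : ∀ x, Θ (f x) = (g (Θ x).1, A (Θ x).2))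
    (hstab : OmegaStable f) (hA : Horseshoe A) : AxiomA g := by
  obtain ⟨m, π, hπ⟩ := id hA
  obtain ⟨N₀, hN₀⟩ := exists_astab hr Θ hf hstab hπ.pos (a₀ := π (fun _ => false))
    (hπ.semi fun _ => false)
  exact hN₀.axiomA hr (fun x hx => main1 hr Θ hf hstab hA x hx)

/-- The conjugacy with the factors exchanged. -/
theorem swap_eq (Θ : Diffeomorph 𝓘(ℝ, F) (𝓘(ℝ, E).prod 𝓘(ℝ, E')) X (M × N) ∞)
    {g : Dyn E M r} {A : Dyn E' N r} {f : Dyn F X r} (hf : ∀ x, Θ (f x) = (g (Θ x).1, A (Θ x).2))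
    (x : X) : (Θ.trans (Diffeomorph.prodComm 𝓘(ℝ, E) 𝓘(ℝ, E') M N ∞)) (f x) =
      (A ((Θ.trans (Diffeomorph.prodComm 𝓘(ℝ, E) 𝓘(ℝ, E') M N ∞)) x).1,
        g ((Θ.trans (Diffeomorph.prodComm 𝓘(ℝ, E) 𝓘(ℝ, E') M N ∞)) x).2) := by
  change (Θ (f x)).swap = _
  rw [hf]
  rfl

end PRH
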