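import Pool.Agent.PRH.WalkDef

/-!
# Calculus of walks (module Walk)

HEADER (all proofs are short).

* `Walk.mono`: induction. `Walk.trans`: induction on the second walk (`snoc` = append a letter at
  the end; use `mul_assoc`). `Walk.pow`: induction from `trans`.
* `Reach.of_letter`: `𝓛 = {(i,j,B)}`.
* `Reach.mono`: enlarge. `Reach.trans`: `𝓛₁ ∪ 𝓛₂`, `Set.encard_union_le`.
* `Walk.last`: the last letter of a walk: a walk `T` from `i` to `j` can be written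
  `T = ((1 + B) * X k j) * T'` where `T' = 1` and `k = i`, or `T'` is a walk from `i` to `k`,
  and `(k, j, B) ∈ 𝓛` (case distinction on the last step).
* `Reach.pert`: let `𝓛` be the letters of the walk `T` (finite, since `encard ≤ n`), `ε' < ε` with
  `‖l.2.2‖ ≤ ε'` for all `l ∈ 𝓛` (`𝓛` is finite; if `𝓛` is empty there is no walk), and `δ > 0` with
  `ε' + δ + δ ε' < ε`. Given `‖β‖ < δ` write `T = (1 + B) X T'` (last letter `(k, j, B)`); then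
  `(1 + β)(1 + B) = 1 + (β + B + β B)`, the new letter `(k, j, β + B + β * B)` is added to `𝓛`.
* `Reach.pert_pow`: the same, with the walk `T ^ m` (same letters `𝓛`; its last letter is an element
  of `𝓛`, so the new letter set is `insert (k, i, β + B + β * B) 𝓛`, where `(k, i, B)` is the last
  letter; the number `δ` depends on `𝓛` only, so it does not depend on `m`).
* `Reach.scal_pow`: choose first `δ₁` for one modification: the walk `(1 + η) • T` uses `𝓛` and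
  the new letter `(k, i, η + B + η B)` (last letter of `T` modified by `β = η • 1`, norm `≤ η`;
  note `‖(1 : E →L E)‖ ≤ 1`), then a second modification by `β` of the last letter of
  `((1 + η) • T) ^ a` (which is an element of `insert new 𝓛`, of norm `≤ ε' + δ₁ + δ₁ ε' =: ε''`, where
  `δ₁` is chosen with `ε'' < ε`, and then `δ ≤ δ₁` with `ε'' + δ + δ ε'' < ε`).
-/

open Set Filter Topology

namespace PRH

variable {E : Type*} [NormedAddCommGroup E] [NormedSpace ℝ E]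
  {X : Fin 2 → Fin 2 → E →L[ℝ] E} {𝓛 𝓛' : Set (Letter E)} {i j k : Fin 2} {T T' Q : E →L[ℝ] E}
  {ε ε' : ℝ} {n n' : ℕ}

theorem Walk.mono (h : Walk X 𝓛 i j T) (hs : 𝓛 ⊆ 𝓛') : Walk X 𝓛' i j T := by
  induction h with
  | single h => exact Walk.single (hs h)
  | snoc _ h ih => exact Walk.snoc ih (hs h)

theorem Walk.trans (h : Walk X 𝓛 i j T) (h' : Walk X 𝓛 j k T') : Walk X 𝓛 i k (T' * T) := by
  induction h' with
  | single h1 => exact Walk.snoc h h1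
  | snoc _ h1 ih =>
    rw [mul_assoc]
    exact Walk.snoc ih h1

theorem Walk.pow (h : Walk X 𝓛 i i Q) {m : ℕ} (hm : 0 < m) : Walk X 𝓛 i i (Q ^ m) := by
  induction m with
  | zero => exact absurd hm (lt_irrefl _)
  | succ m ih =>
    rcases Nat.eq_zero_or_pos m with h0 | h0
    · rw [h0, zero_add, pow_one]
      exact h
    · rw [pow_succ']
      exact (ih h0).trans h

/-- the last letter can be replaced -/
theorem Walk_last (h : Walk X 𝓛 i j T) : ∃ (k : Fin 2) (B : E →L[ℝ] E), (k, j, B) ∈ 𝓛 ∧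
    ∀ β : E →L[ℝ] E, Walk X (insert (k, j, β + B + β * B) 𝓛) i j ((1 + β) * T) := by
  cases h with
  | single h1 =>
    rename_i B
    refine ⟨i, B, h1, fun β => ?_⟩
    have e : (1 + β) * ((1 + B) * X i j) = (1 + (β + B + β * B)) * X i j := by
      rw [← mul_assoc]
      congr 1
      rw [add_mul, one_mul, mul_add, mul_one]
      abel
    rw [e]
    exact Walk.single (mem_insert _ _)
  | snoc h0 h1 =>
    rename_i k' T' B
    refine ⟨k', B, h1, fun β => ?_⟩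
    have e : (1 + β) * ((1 + B) * X k' j * T') = (1 + (β + B + β * B)) * X k' j * T' := by
      rw [← mul_assoc, ← mul_assoc]
      congr 2
      rw [add_mul, one_mul, mul_add, mul_one]
      abel
    rw [e]
    exact Walk.snoc (h0.mono (subset_insert _ _)) (mem_insert _ _)

theorem Walk_norm {B β : E →L[ℝ] E} {b δ : ℝ} (hB : ‖B‖ ≤ b) (hβ : ‖β‖ ≤ δ) :
    ‖β + B + β * B‖ ≤ δ + b + δ * b := by
  have hδ : 0 ≤ δ := le_trans (norm_nonneg _) hβ
  have h1 : ‖β * B‖ ≤ δ * b :=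
    le_trans (ContinuousLinearMap.opNorm_comp_le β B) (mul_le_mul hβ hB (norm_nonneg _) hδ)
  calc ‖β + B + β * B‖ ≤ ‖β + B‖ + ‖β * B‖ := norm_add_le _ _
    _ ≤ ‖β‖ + ‖B‖ + ‖β * B‖ := by gcongr; exact norm_add_le _ _
    _ ≤ _ := by linarith

/-- a uniform bound of the letters -/
theorem Walk_bd (h0 : 𝓛.encard ≤ n) (h1 : ∀ l ∈ 𝓛, ‖l.2.2‖ < ε) (hne : 𝓛.Nonempty) :
    ∃ b : ℝ, 0 ≤ b ∧ b < ε ∧ ∀ l ∈ 𝓛, ‖l.2.2‖ ≤ b := by
  have hf : 𝓛.Finite := by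
    apply Set.finite_of_encard_le_coe h0
  obtain ⟨l, hl, hl'⟩ := hf.exists_maximalFor (fun l => ‖l.2.2‖) 𝓛 hne
  refine ⟨‖l.2.2‖, norm_nonneg _, h1 l hl, fun l' hl1 => ?_⟩
  rcases le_total ‖l'.2.2‖ ‖l.2.2‖ with h | h
  · exact h
  · exact hl' hl1 h

theorem Walk_ne (h : Walk X 𝓛 i j T) : 𝓛.Nonempty := by
  cases h with
  | single h => exact ⟨_, h⟩
  | snoc _ h => exact ⟨_, h⟩

theorem Walk_delta {b ε : ℝ} (hb : 0 ≤ b) (h : b < ε) : ∃ δ : ℝ, 0 < δ ∧ δ + b + δ * b < ε := by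
  refine ⟨(ε - b) / (2 * (1 + b)), by
    apply div_pos <;> linarith, ?_⟩
  have h1 : (ε - b) / (2 * (1 + b)) * (1 + b) = (ε - b) / 2 := by
    field_simp
  nlinarith

theorem Walk_enc {l : Letter E} (h0 : 𝓛.encard ≤ n) : (insert l 𝓛).encard ≤ (n + 1 : ℕ) := by
  refine le_trans (Set.encard_insert_le _ _) ?_
  push_cast
  gcongr

theorem Reach.of_letter {B : E →L[ℝ] E} (hB : ‖B‖ < ε) : Reach X ε 1 i j ((1 + B) * X i j) := by
  refine ⟨{(i, j, B)}, ?_, ?_, Walk.single (mem_singleton _)⟩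
  · rw [Set.encard_singleton]
    norm_num
  · intro l hl
    rw [mem_singleton_iff.1 hl]
    exact hB

theorem Reach.mono (h : Reach X ε n i j T) (hε : ε ≤ ε') (hn : n ≤ n') : Reach X ε' n' i j T := by
  obtain ⟨𝓛, h0, h1, h2⟩ := h
  refine ⟨𝓛, le_trans h0 (by exact_mod_cast hn), fun l hl => lt_of_lt_of_le (h1 l hl) hε, h2⟩

theorem Reach.trans (h : Reach X ε n i j T) (h' : Reach X ε n' j k T') :
    Reach X ε (n + n') i k (T' * T) := by
  obtain ⟨𝓛, h0, h1, h2⟩ := h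
  obtain ⟨𝓛', h0', h1', h2'⟩ := h'
  refine ⟨𝓛 ∪ 𝓛', ?_, ?_, (h2.mono subset_union_left).trans (h2'.mono subset_union_right)⟩
  · refine le_trans (Set.encard_union_le _ _) ?_
    push_cast
    exact add_le_add h0 h0'
  · rintro l (hl | hl)
    · exact h1 l hl
    · exact h1' l hl

theorem Reach.pow (h : Reach X ε n i i Q) {m : ℕ} (hm : 0 < m) : Reach X ε n i i (Q ^ m) := by
  obtain ⟨𝓛, h0, h1, h2⟩ := h
  exact ⟨𝓛, h0, h1, h2.pow hm⟩

theorem Reach.pert_pow (h : Reach X ε n i i Q) :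
    ∃ δ > 0, ∀ β : E →L[ℝ] E, ‖β‖ < δ → ∀ m : ℕ, 0 < m →
      Reach X ε (n + 1) i i ((1 + β) * Q ^ m) := by
  obtain ⟨𝓛, h0, h1, h2⟩ := h
  obtain ⟨b, hb0, hb, hl⟩ := Walk_bd h0 h1 (Walk_ne h2)
  obtain ⟨δ, hδ, hδ'⟩ := Walk_delta hb0 hb
  refine ⟨δ, hδ, fun β hβ m hm => ?_⟩
  obtain ⟨k, B, hB, hw⟩ := Walk_last (h2.pow hm)
  refine ⟨_, Walk_enc h0, ?_, hw β⟩
  intro l hl'
  rcases mem_insert_iff.1 hl' with rfl | h3
  · exact lt_of_le_of_lt (Walk_norm (hl _ hB) hβ.le) hδ'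
  · exact h1 l h3

theorem Reach.pert (h : Reach X ε n i j T) :
    ∃ δ > 0, ∀ β : E →L[ℝ] E, ‖β‖ < δ → Reach X ε (n + 1) i j ((1 + β) * T) := by
  obtain ⟨𝓛, h0, h1, h2⟩ := h
  obtain ⟨b, hb0, hb, hl⟩ := Walk_bd h0 h1 (Walk_ne h2)
  obtain ⟨δ, hδ, hδ'⟩ := Walk_delta hb0 hb
  refine ⟨δ, hδ, fun β hβ => ?_⟩
  obtain ⟨k, B, hB, hw⟩ := Walk_last h2
  refine ⟨_, Walk_enc h0, ?_, hw β⟩
  intro l hl'
  rcases mem_insert_iff.1 hl' with rfl | h3
  · exact lt_of_le_of_lt (Walk_norm (hl _ hB) hβ.le) hδ'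
  · exact h1 l h3

theorem Reach.scal_pow (h : Reach X ε n i i Q) :
    ∃ δ > 0, ∀ η : ℝ, 0 ≤ η → η < δ → ∀ β : E →L[ℝ] E, ‖β‖ < δ → ∀ a : ℕ, 0 < a →
      Reach X ε (n + 2) i i ((1 + β) * ((1 + η) • Q) ^ a) := by
  obtain ⟨𝓛, h0, h1, h2⟩ := h
  obtain ⟨b, hb0, hb, hl⟩ := Walk_bd h0 h1 (Walk_ne h2)
  obtain ⟨δ₁, hδ₁, hδ₁'⟩ := Walk_delta hb0 hb
  have hb2 : 0 ≤ δ₁ + b + δ₁ * b := by positivity
  obtain ⟨δ₂, hδ₂, hδ₂'⟩ := Walk_delta hb2 hδ₁'
  refine ⟨min δ₁ δ₂, lt_min hδ₁ hδ₂, fun η hη0 hη β hβ a ha => ?_⟩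
  obtain ⟨k, B, hB, hw⟩ := Walk_last h2
  have hη' : ‖(η • (1 : E →L[ℝ] E))‖ ≤ δ₁ := by
    rw [norm_smul, Real.norm_of_nonneg hη0]
    have h3 : ‖(1 : E →L[ℝ] E)‖ ≤ 1 := ContinuousLinearMap.norm_id_le
    have h4 : η ≤ δ₁ := (lt_of_lt_of_le hη (min_le_left _ _)).le
    nlinarith [norm_nonneg (1 : E →L[ℝ] E)]
  have hw1 := hw (η • (1 : E →L[ℝ] E))
  have e1 : (1 + η • (1 : E →L[ℝ] E)) * Q = (1 + η) • Q := by
    rw [add_mul, one_mul, smul_mul_assoc, one_mul, add_smul, one_smul]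
  rw [e1] at hw1
  obtain ⟨k', B', hB', hw'⟩ := Walk_last (hw1.pow ha)
  have hbd : ∀ l ∈ insert (k, i, η • (1 : E →L[ℝ] E) + B + η • (1 : E →L[ℝ] E) * B) 𝓛,
      ‖l.2.2‖ ≤ δ₁ + b + δ₁ * b := by
    intro l hl'
    rcases mem_insert_iff.1 hl' with rfl | h3
    · exact Walk_norm (hl _ hB) hη'
    · have h5 := hl l h3
      have h6 : 0 ≤ δ₁ * b := by positivity
      linarith
  refine ⟨_, Walk_enc (Walk_enc h0), ?_, hw' β⟩
  intro l hl'
  rcases mem_insert_iff.1 hl' with rfl | h3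
  · refine lt_of_le_of_lt (Walk_norm (hbd _ hB') (lt_of_lt_of_le hβ (min_le_right _ _)).le) hδ₂'
  · exact lt_of_le_of_lt (hbd l h3) hδ₁'

end PRH
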