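import Pool.Agent.PRH.CocCpt
import Pool.Agent.PRH.Walk
import Pool.Agent.PRH.LinPert

/-!
# Bounded vectors tend to zero (module NearRet)

HEADER. Suppose the set `I = {i : ℤ | c₀ ≤ nn z v i}` is infinite. Take an injective sequence
`i : ℕ → ℤ` in `I` (`Set.Infinite.natEmbedding`), `z_k = zi (i k) z`, `v_k = A (i k) z v`,
`N (z_k) (v_k) = nn z v (i k) ≤ K`. `exists_conv`: along a subsequence `Conv` to `(z', v')`;
`N z' v' ≥ c₀ > 0` (`Conv.norm`), so `v' ≠ 0` and `w := T z' z' v' ≠ 0`.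
Apply `Star` with `J = 1`: `L₀`; `c = fun _ => z'`: `ε > 0`. The vectors `w_k = T z' z_k v_k → w`. For all
large `k, l` (in the subsequence): `dist z_k z' < ε`, `z_k ∈ S z'` and `‖w_k - w_l‖ < ε ‖w_l‖` (limit
`w ≠ 0`). Fix such a `k`; since the sequence `i` is injective there is a large `l` with
`|i l - i k| ≥ L₀` and `≥ 1`... Let `a, b` be `i k, i l` in increasing order, `n = b - a ≥ L₀`
(as a natural number), `V = fun _ => zi a z`, `n i j = n`. `zi n (zi a z) = zi b z` (`zi_add`),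
`A n (zi a z) (A a z v) = A b z v` (`A_add`).
`X i j = T z' (zi b z) * A n (zi a z) * T' z' (zi a z) =: X₀`, `X₀ (w_a) = T z' (zi b z) (A b z v) = w_b`.
`exists_pert` with `x = w_b`, `y = w_a`: `‖w_a - w_b‖ < ε ‖w_b‖`: `β`, `‖β‖ < ε`, `(1 + β) w_b = w_a`.
`Reach.of_letter`: `T = (1 + β) * X₀`, `T w_a = w_a`, `w_a ≠ 0`: contradiction with `Star`.
(For the statement `Reach (C.X c V n) ε 1 0 0 T`: `Reach.of_letter hβ` with `i = j = 0`.)
-/

open Set Filter Topology Metric OmSt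

namespace PRH

namespace LCoc

variable {Z : Type*} [MetricSpace Z] [CompactSpace Z] {E : Type*} [NormedAddCommGroup E]
  [NormedSpace ℝ E] [FiniteDimensional ℝ E] {C : LCoc Z E}

theorem NearRet_step (hS : C.Star) {z z' : Z} {v v' : E} (hw0 : C.T z' z' v' ≠ 0) :
    ∃ (L₀ : ℕ) (ε η : ℝ), 0 < ε ∧ 0 < η ∧ ∀ a b : ℤ, a + L₀ ≤ b →
      dist (zi C.G.toEquiv a z) z' < ε → zi C.G.toEquiv a z ∈ C.S z' →
      ‖C.T z' (zi C.G.toEquiv a z) (C.A a z v) - C.T z' z' v'‖ < η →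
      dist (zi C.G.toEquiv b z) z' < ε →
      ‖C.T z' (zi C.G.toEquiv b z) (C.A b z v) - C.T z' z' v'‖ < η → False := by
  obtain ⟨L₀, hL⟩ := hS 1
  obtain ⟨ε, hε, hst⟩ := hL (fun _ => z')
  set w := C.T z' z' v' with hw
  have hwp : 0 < ‖w‖ := norm_pos_iff.mpr hw0
  refine ⟨L₀, ε, min (‖w‖ / 2) (ε * ‖w‖ / 4), hε, lt_min (by positivity) (by positivity), ?_⟩
  intro a b hab ha1 ha2 ha3 hb1 hb3
  have ha4 := lt_of_lt_of_le ha3 (min_le_right _ _)
  have hb4 := lt_of_lt_of_le hb3 (min_le_left _ _)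
  have hb5 := lt_of_lt_of_le hb3 (min_le_right _ _)
  set n := (b - a).toNat with hn
  have hn' : (n : ℤ) = b - a := Int.toNat_of_nonneg (by omega)
  have hzb : zi C.G.toEquiv n (zi C.G.toEquiv a z) = zi C.G.toEquiv b z := by
    rw [← zi_add, hn']
    congr 1
    omega
  have hAb : C.A n (zi C.G.toEquiv a z) (C.A a z v) = C.A b z v := by
    have h1 := C.A_add n a z
    have h2 : (n : ℤ) + a = b := by omega
    rw [h2] at h1
    rw [h1]
    rfl
  set wa := C.T z' (zi C.G.toEquiv a z) (C.A a z v) with hwa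
  set wb := C.T z' (zi C.G.toEquiv b z) (C.A b z v) with hwb
  have hwbn : ‖w‖ / 2 ≤ ‖wb‖ := by
    have h1 : ‖w‖ ≤ ‖wb‖ + ‖wb - w‖ := by
      have := norm_sub_norm_le w wb
      rw [norm_sub_rev] at this
      linarith
    linarith
  have hwb0 : wb ≠ 0 := by
    rw [← norm_pos_iff]
    linarith
  have hd : ‖wa - wb‖ < ε * ‖wb‖ := by
    have h1 : ‖wa - wb‖ ≤ ‖wa - w‖ + ‖wb - w‖ := by
      have := norm_sub_le (wa - w) (wb - w)
      rwa [sub_sub_sub_cancel_right] at this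
    have h2 : ε * (‖w‖ / 2) ≤ ε * ‖wb‖ := mul_le_mul_of_nonneg_left hwbn hε.le
    linarith
  obtain ⟨β, hβ, hβ2⟩ := exists_pert hwb0 hd
  have hX : C.X (fun _ => z') (fun _ => zi C.G.toEquiv a z) (fun _ _ => n) 0 0 wa = wb := by
    have h1 : C.T' z' (zi C.G.toEquiv a z) wa = C.A a z v := by
      have h2 := C.T_mul' z' _ ha2
      have h3 : (C.T' z' (zi C.G.toEquiv a z) * C.T z' (zi C.G.toEquiv a z)) (C.A a z v)
          = C.A a z v := by rw [h2]; rfl
      exact h3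
    show C.T z' (zi C.G.toEquiv n (zi C.G.toEquiv a z))
      (C.A n (zi C.G.toEquiv a z) (C.T' z' (zi C.G.toEquiv a z) wa)) = wb
    rw [h1, hAb, hzb]
  have hR := Reach.of_letter (X := C.X (fun _ => z') (fun _ => zi C.G.toEquiv a z) (fun _ _ => n))
    (i := 0) (j := 0) hβ
  have hfix := hst (fun _ => zi C.G.toEquiv a z) (fun _ _ => n) (fun _ => ha1)
    (fun _ _ => ⟨by show L₀ ≤ n; omega, by show dist (zi C.G.toEquiv n (zi C.G.toEquiv a z)) z' < ε; rw [hzb]; exact hb1⟩)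
    _ hR wa (by
      show (1 + β) (C.X (fun _ => z') (fun _ => zi C.G.toEquiv a z) (fun _ _ => n) 0 0 wa) = wa
      rw [hX, hβ2])
  rw [hfix] at ha3
  have h5 := lt_of_lt_of_le ha3 (min_le_left _ _)
  rw [zero_sub, norm_neg] at h5
  linarith

theorem Star.finite_large (hS : C.Star) {z : Z} {v : E} {K : ℝ} (hv : ∀ i : ℤ, C.nn z v i ≤ K)
    {c₀ : ℝ} (hc : 0 < c₀) : {i : ℤ | c₀ ≤ C.nn z v i}.Finite := by
  by_contra hinf
  have hinf : {i : ℤ | c₀ ≤ C.nn z v i}.Infinite := hinf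
  obtain ⟨f, hf, hfc⟩ : ∃ f : ℕ → ℤ, Function.Injective f ∧ ∀ k, c₀ ≤ C.nn z v (f k) :=
    ⟨fun k => (hinf.natEmbedding _ k : ℤ), fun a b h =>
      (hinf.natEmbedding _).injective (Subtype.ext h), fun k => (hinf.natEmbedding _ k).2⟩
  obtain ⟨φ, z', v', hφ, hconv⟩ := C.exists_conv (z := fun k => zi C.G.toEquiv (f k) z)
    (v := fun k => C.A (f k) z v) (K := K) (fun k => hv (f k))
  have hN0 : c₀ ≤ C.N z' v' := ge_of_tendsto' hconv.norm (fun k => hfc (φ k))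
  have hv' : v' ≠ 0 := by
    rintro rfl
    rw [C.N_zero] at hN0
    linarith
  have hw0 : C.T z' z' v' ≠ 0 := by
    intro h
    apply hv'
    have h1 := C.T_mul' z' z' (C.S_self z')
    have h2 : (C.T' z' z' * C.T z' z') v' = v' := by rw [h1]; rfl
    have h3 : C.T' z' z' (C.T z' z' v') = v' := h2
    rw [h, map_zero] at h3
    exact h3.symm
  obtain ⟨L₀, ε, η, hε, hη, hstep⟩ := NearRet_step (v := v) (z := z) hS hw0
  have hZ : Tendsto (fun k => zi C.G.toEquiv (f (φ k)) z) atTop (𝓝 z') := hconv.1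
  have hW : Tendsto (fun k => C.T z' (zi C.G.toEquiv (f (φ k)) z) (C.A (f (φ k)) z v)) atTop
    (𝓝 (C.T z' z' v')) := hconv.2
  have e1 : ∀ᶠ k in atTop, dist (zi C.G.toEquiv (f (φ k)) z) z' < ε :=
    (tendsto_iff_dist_tendsto_zero.mp hZ).eventually (gt_mem_nhds hε)
  have e2 : ∀ᶠ k in atTop, zi C.G.toEquiv (f (φ k)) z ∈ C.S z' :=
    hZ.eventually ((C.S_open z').mem_nhds (C.S_self z'))
  have e3 : ∀ᶠ k in atTop,
      ‖C.T z' (zi C.G.toEquiv (f (φ k)) z) (C.A (f (φ k)) z v) - C.T z' z' v'‖ < η :=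
    (tendsto_iff_norm_sub_tendsto_zero.mp hW).eventually (gt_mem_nhds hη)
  obtain ⟨k, h1, h2, h3⟩ := (e1.and (e2.and e3)).exists
  have hinj : Function.Injective (fun l => f (φ l)) := hf.comp hφ.injective
  have e4 : ∀ᶠ l in atTop, f (φ l) ∉ Set.Icc (f (φ k) - L₀) (f (φ k) + L₀) := by
    have h4 := hinj.tendsto_cofinite
    rw [Nat.cofinite_eq_atTop] at h4
    exact h4.eventually ((Set.finite_Icc _ _).compl_mem_cofinite)
  obtain ⟨l, h4, h5, h6, h7⟩ := (e1.and (e2.and (e3.and e4))).exists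
  rw [Set.mem_Icc, not_and_or, not_le, not_le] at h7
  rcases h7 with h7 | h7
  · exact hstep (f (φ l)) (f (φ k)) (by omega) h4 h5 h6 h1 h3
  · exact hstep (f (φ k)) (f (φ l)) (by omega) h1 h2 h3 h4 h6

end LCoc

end PRH
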