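import Pool.Agent.PRH.PDef
import Pool.Agent.PRH.HDef

/-!
# Orbits along a schedule (module OrbChain)

Purely topological: `Θ : X ≃ₜ M × N`, `f' : X → X`.

HEADER. Write `y_i = A^[i] y`.

`step_free`: (induction on `t`). Claim: for `t : ℕ`, `q₀ : N`, if `A^[i] q₀ ∈ WD` for all `i < t`, then for all
`p` and all `q` near `q₀`: `f'^[t] (Θ.symm (p, q)) = Θ.symm (g^[t] p, A^[t] q)`. Indeed `WD` is open and
`A^[i]` continuous, so for `q` near `q₀` all `A^[i] q ∈ WD`, `i < t`.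

`segment`: one trigger followed by free steps: if `τ ≥ 1`, near `(p₀, q₀)`:
`f' (Θ.symm (p, q)) = Θ.symm (g (α p), A q)` and `A^[i] q₀ ∈ WD` for `0 < i < τ`, then near `(p₀, q₀)`:
`f'^[τ] (Θ.symm (p, q)) = Θ.symm (g^[τ] (α p), A^[τ] q)`: `f'^[τ] = f'^[τ - 1] ∘ f'` and `step_free` at the
point `A q₀` with `t = τ - 1` (`A q → A q₀`).

`orbit_chain`: induction on `K`: for `z` near `(P 0, y)`,
`f'^[t K] (Θ.symm z) = Θ.symm (comps h K z.1, A^[t K] z.2)`, with `h j = g^[τ j] ∘ α j`, `t K = TT τ K`, and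
`comps h K` is continuous at `P 0` with the value `P K`. In the step apply `segment` at the point
`(P K, A^[t K] y)` and use that `z ↦ (comps h K z.1, A^[t K] z.2)` is continuous at `(P 0, y)`;
`f'^[t (K+1)] = f'^[τ K] ∘ f'^[t K]` (`TT` is a `Finset.range` sum: `Finset.sum_range_succ`).
-/

open Set Filter Topology

namespace PRH

variable {M N X : Type*} [TopologicalSpace M] [TopologicalSpace N] [TopologicalSpace X]

theorem OrbChain_free (Θ : X ≃ₜ M × N) {g : M → M} {A : N → N}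
    (hA : Continuous A) {f' : X → X} {WD : Set N} (hWD : IsOpen WD)
    (hfree : ∀ p : M, ∀ q ∈ WD, f' (Θ.symm (p, q)) = Θ.symm (g p, A q)) (t : ℕ) (q₀ : N)
    (h : ∀ i < t, A^[i] q₀ ∈ WD) :
    ∀ᶠ q in 𝓝 q₀, ∀ p : M, f'^[t] (Θ.symm (p, q)) = Θ.symm (g^[t] p, A^[t] q) := by
  induction t with
  | zero => exact Eventually.of_forall fun q p => rfl
  | succ t ih =>
    have h1 := ih fun i hi => h i (Nat.lt_succ_of_lt hi)
    have h2 : ∀ᶠ q in 𝓝 q₀, A^[t] q ∈ WD :=
      (hA.iterate t).continuousAt.eventually (hWD.mem_nhds (h t (Nat.lt_succ_self t)))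
    filter_upwards [h1, h2] with q hq1 hq2 p
    rw [Function.iterate_succ_apply', hq1 p, hfree _ _ hq2, ← Function.iterate_succ_apply' g,
      ← Function.iterate_succ_apply' A]

theorem OrbChain_segment (Θ : X ≃ₜ M × N) {g : M → M} {A : N → N}
    (hA : Continuous A) {f' : X → X} {WD : Set N} (hWD : IsOpen WD)
    (hfree : ∀ p : M, ∀ q ∈ WD, f' (Θ.symm (p, q)) = Θ.symm (g p, A q)) {α : M → M} {p₀ : M}
    {q₀ : N} {t : ℕ} (ht : 0 < t)
    (htrig : ∀ᶠ z : M × N in 𝓝 (p₀, q₀), f' (Θ.symm z) = Θ.symm (g (α z.1), A z.2))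
    (hD : ∀ i, 0 < i → i < t → A^[i] q₀ ∈ WD) :
    ∀ᶠ z : M × N in 𝓝 (p₀, q₀), f'^[t] (Θ.symm z) = Θ.symm (g^[t] (α z.1), A^[t] z.2) := by
  obtain ⟨t, rfl⟩ := Nat.exists_eq_succ_of_ne_zero ht.ne'
  have h1 := OrbChain_free Θ hA hWD hfree t (A q₀) (by
    intro i hi
    rw [← Function.iterate_succ_apply]
    exact hD (i + 1) (Nat.succ_pos i) (Nat.succ_lt_succ hi))
  have h2 : ∀ᶠ z : M × N in 𝓝 (p₀, q₀),
      ∀ p : M, f'^[t] (Θ.symm (p, A z.2)) = Θ.symm (g^[t] p, A^[t] (A z.2)) := by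
    have hc : Tendsto (fun z : M × N => A z.2) (𝓝 (p₀, q₀)) (𝓝 (A q₀)) :=
      (hA.comp continuous_snd).continuousAt
    exact hc.eventually h1
  filter_upwards [htrig, h2] with z hz1 hz2
  rw [Nat.succ_eq_add_one, Function.iterate_succ_apply, hz1, hz2, Function.iterate_succ_apply,
    Function.iterate_succ_apply]

theorem orbit_chain (Θ : X ≃ₜ M × N) {g : M → M} (hg : Continuous g) {A : N → N}
    (hA : Continuous A) {f' : X → X} {WD : Set N} (hWD : IsOpen WD)
    (hfree : ∀ p : M, ∀ q ∈ WD, f' (Θ.symm (p, q)) = Θ.symm (g p, A q)) {α : ℕ → M → M} {P : ℕ → M}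
    {y : N} {τ : ℕ → ℕ} {K : ℕ} (hτ : ∀ j < K, 0 < τ j)
    (hα : ∀ j < K, ContinuousAt (α j) (P j)) (hP : ∀ j < K, g^[τ j] (α j (P j)) = P (j + 1))
    (htrig : ∀ j < K, ∀ᶠ z : M × N in 𝓝 (P j, A^[TT τ j] y),
      f' (Θ.symm z) = Θ.symm (g (α j z.1), A z.2))
    (hD : ∀ j < K, ∀ i, TT τ j < i → i < TT τ (j + 1) → A^[i] y ∈ WD) :
    ContinuousAt (comps (fun j => g^[τ j] ∘ α j) K) (P 0) ∧
    comps (fun j => g^[τ j] ∘ α j) K (P 0) = P K ∧
    ∀ᶠ z : M × N in 𝓝 (P 0, y), f'^[TT τ K] (Θ.symm z) =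
      Θ.symm (comps (fun j => g^[τ j] ∘ α j) K z.1, A^[TT τ K] z.2) := by
  induction K with
  | zero =>
    refine ⟨continuousAt_id, rfl, ?_⟩
    have h0 : TT τ 0 = 0 := by simp [TT]
    rw [h0]
    exact Eventually.of_forall fun z => rfl
  | succ K ih =>
    obtain ⟨i1, i2, i3⟩ := ih (fun j hj => hτ j (Nat.lt_succ_of_lt hj))
      (fun j hj => hα j (Nat.lt_succ_of_lt hj)) (fun j hj => hP j (Nat.lt_succ_of_lt hj))
      (fun j hj => htrig j (Nat.lt_succ_of_lt hj)) (fun j hj => hD j (Nat.lt_succ_of_lt hj))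
    have hT : TT τ (K + 1) = TT τ K + τ K := by simp [TT, Finset.sum_range_succ]
    have hKK := Nat.lt_succ_self K
    have hseg := OrbChain_segment Θ hA hWD hfree (hτ K hKK) (htrig K hKK) (by
      intro i hi0 hi
      rw [← Function.iterate_add_apply]
      apply hD K hKK (i + TT τ K)
      · omega
      · omega)
    have hα' : ContinuousAt (α K) (comps (fun j => g^[τ j] ∘ α j) K (P 0)) := by
      rw [i2]; exact hα K hKK
    refine ⟨?_, ?_, ?_⟩
    · have : ContinuousAt (g^[τ K] ∘ α K) (comps (fun j => g^[τ j] ∘ α j) K (P 0)) :=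
        ContinuousAt.comp (hg.iterate (τ K)).continuousAt hα'
      exact ContinuousAt.comp this i1
    · change g^[τ K] (α K (comps (fun j => g^[τ j] ∘ α j) K (P 0))) = P (K + 1)
      rw [i2]
      exact hP K hKK
    · have hc : Tendsto (fun z : M × N => (comps (fun j => g^[τ j] ∘ α j) K z.1, A^[TT τ K] z.2))
          (𝓝 (P 0, y)) (𝓝 (P K, A^[TT τ K] y)) := by
        have c1 : ContinuousAt (fun z : M × N => comps (fun j => g^[τ j] ∘ α j) K z.1) (P 0, y) :=
          ContinuousAt.comp (f := fun z : M × N => z.1) (x := (P 0, y)) i1 continuousAt_fst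
        have c2 : ContinuousAt (fun z : M × N => A^[TT τ K] z.2) (P 0, y) :=
          ((hA.iterate _).comp continuous_snd).continuousAt
        have c3 := c1.prodMk c2
        have : (comps (fun j => g^[τ j] ∘ α j) K (P 0, y).1, A^[TT τ K] (P 0, y).2) =
            (P K, A^[TT τ K] y) := by
          simp only [i2]
        unfold ContinuousAt at c3
        rw [← this]
        exact c3
      have h5 := hc.eventually hseg
      filter_upwards [i3, h5] with z hz1 hz2
      rw [hT, Nat.add_comm, Function.iterate_add_apply, hz1, hz2, Function.iterate_add_apply]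
      rfl

end PRH
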