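import Pool.Agent.OmSt2.Final3

/-!
# Product diffeomorphisms and product families (module ProdDyn)

HEADER. `X ≅ M × N` by `Θ` (a `C^∞` diffeomorphism). All the statements are direct.
* `prodDyn`: smoothness: `Θ.symm ∘ (g × A) ∘ Θ` is a composition of `C^r` maps (`r ≤ ∞`:
  `Θ.contMDiff.of_le`, `ContMDiff.prodMap` or `ContMDiff.prodMk (g.contMDiff.comp contMDiff_fst) ..`).
* `prodFam`: `toFun v = Θ.symm ∘ (Ψ v × id) ∘ Θ`; its inverse is `Θ.symm ∘ ((Ψ v)⁻¹ × id) ∘ Θ`; `smooth`: for `v`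
  near `0` (by `Ψ.smooth`) the map `(v, x) ↦ Θ.symm (Ψ v (Θ x).1, (Θ x).2)` is smooth at `(v, x)`: composition of
  `(v, x) ↦ (v, (Θ x).1)`, `Ψ` and `Θ.symm`.
* `pert_prodDyn`: `ext x`, `pert_apply`, with `x = Θ.symm (Θ x)`.
-/

open Set Filter Topology Manifold ContDiff Metric

namespace PRH

open OmSt

variable {E : Type*} [NormedAddCommGroup E] [NormedSpace ℝ E]
  {E' : Type*} [NormedAddCommGroup E'] [NormedSpace ℝ E']
  {F : Type*} [NormedAddCommGroup F] [NormedSpace ℝ F]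
  {M : Type*} [TopologicalSpace M] [ChartedSpace E M]
  {N : Type*} [TopologicalSpace N] [ChartedSpace E' N]
  {X : Type*} [TopologicalSpace X] [ChartedSpace F X]
  {V : Type*} [NormedAddCommGroup V] [NormedSpace ℝ V] {r : ℕ∞}
  (Θ : Diffeomorph 𝓘(ℝ, F) (𝓘(ℝ, E).prod 𝓘(ℝ, E')) X (M × N) ∞)

/-- The diffeomorphism of `X ≅ M × N` which corresponds to `g × A`. -/
noncomputable def prodDyn (g : Dyn E M r) (A : Dyn E' N r) : Dyn F X r where
  toFun x := Θ.symm (g (Θ x).1, A (Θ x).2)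
  invFun x := Θ.symm (g.symm (Θ x).1, A.symm (Θ x).2)
  left_inv := by
    intro x
    simp
  right_inv := by
    intro x
    simp
  contMDiff_toFun := by
    have hn : ((r : ℕ∞) : WithTop ℕ∞) ≤ ∞ := by exact_mod_cast le_top
    have hΘ := Θ.contMDiff.of_le hn
    have hΘs := Θ.symm.contMDiff.of_le hn
    exact hΘs.comp ((g.contMDiff.comp (contMDiff_fst.comp hΘ)).prodMk
      (A.contMDiff.comp (contMDiff_snd.comp hΘ)))
  contMDiff_invFun := by
    have hn : ((r : ℕ∞) : WithTop ℕ∞) ≤ ∞ := by exact_mod_cast le_top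
    have hΘ := Θ.contMDiff.of_le hn
    have hΘs := Θ.symm.contMDiff.of_le hn
    exact hΘs.comp ((g.symm.contMDiff.comp (contMDiff_fst.comp hΘ)).prodMk
      (A.symm.contMDiff.comp (contMDiff_snd.comp hΘ)))

theorem prodDyn_apply (g : Dyn E M r) (A : Dyn E' N r) (x : X) :
    prodDyn Θ g A x = Θ.symm (g (Θ x).1, A (Θ x).2) := rfl

theorem prodDyn_iter (g : Dyn E M r) (A : Dyn E' N r) (n : ℕ) (p : M) (q : N) :
    (prodDyn Θ g A)^[n] (Θ.symm (p, q)) = Θ.symm (g^[n] p, A^[n] q) := by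
  induction n generalizing p q with
  | zero => rfl
  | succ n ih =>
    rw [Function.iterate_succ_apply, Function.iterate_succ_apply, Function.iterate_succ_apply,
      ← ih (g p) (A q), prodDyn_apply, Θ.apply_symm_apply]

theorem eq_prodDyn {g : Dyn E M r} {A : Dyn E' N r} {f : Dyn F X r}
    (hf : ∀ x, Θ (f x) = (g (Θ x).1, A (Θ x).2)) : f = prodDyn Θ g A := by
  ext x
  rw [prodDyn_apply, ← hf, Θ.symm_apply_apply]

/-- The family of the diffeomorphisms `Ψ v × id`. -/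
noncomputable def prodFam (Ψ : Fam E M V) : Fam F X V where
  toFun v :=
    { toFun := fun x => Θ.symm (Ψ.toFun v (Θ x).1, (Θ x).2)
      invFun := fun x => Θ.symm ((Ψ.toFun v).symm (Θ x).1, (Θ x).2)
      left_inv := by
        intro x
        simp
      right_inv := by
        intro x
        simp
      contMDiff_toFun := by
        exact Θ.symm.contMDiff.comp (((Ψ.toFun v).contMDiff.comp
          (contMDiff_fst.comp Θ.contMDiff)).prodMk (contMDiff_snd.comp Θ.contMDiff))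
      contMDiff_invFun := by
        exact Θ.symm.contMDiff.comp (((Ψ.toFun v).symm.contMDiff.comp
          (contMDiff_fst.comp Θ.contMDiff)).prodMk (contMDiff_snd.comp Θ.contMDiff)) }
  map_zero := by
    intro x
    change Θ.symm (Ψ.toFun 0 (Θ x).1, (Θ x).2) = x
    rw [Ψ.map_zero, Prod.mk.eta, Θ.symm_apply_apply]
  smooth := by
    filter_upwards [Ψ.smooth] with v hv x
    change ContMDiffAt (𝓘(ℝ, V).prod 𝓘(ℝ, F)) 𝓘(ℝ, F) ∞
      (fun p : V × X => Θ.symm (Ψ.toFun p.1 (Θ p.2).1, (Θ p.2).2)) (v, x)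
    have h1 : ContMDiffAt (𝓘(ℝ, V).prod 𝓘(ℝ, F)) (𝓘(ℝ, E).prod 𝓘(ℝ, E')) ∞
        (fun p : V × X => Θ p.2) (v, x) :=
      (Θ.contMDiff.contMDiffAt).comp (v, x) contMDiffAt_snd
    have h2 : ContMDiffAt (𝓘(ℝ, V).prod 𝓘(ℝ, F)) 𝓘(ℝ, E) ∞
        (fun p : V × X => (Θ p.2).1) (v, x) := contMDiffAt_fst.comp (v, x) h1
    have h3 : ContMDiffAt (𝓘(ℝ, V).prod 𝓘(ℝ, F)) 𝓘(ℝ, E') ∞
        (fun p : V × X => (Θ p.2).2) (v, x) := contMDiffAt_snd.comp (v, x) h1
    have h4 : ContMDiffAt (𝓘(ℝ, V).prod 𝓘(ℝ, F)) (𝓘(ℝ, V).prod 𝓘(ℝ, E)) ∞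
        (fun p : V × X => (p.1, (Θ p.2).1)) (v, x) := contMDiffAt_fst.prodMk h2
    have h5 : ContMDiffAt (𝓘(ℝ, V).prod 𝓘(ℝ, F)) 𝓘(ℝ, E) ∞
        (fun p : V × X => Ψ.toFun p.1 (Θ p.2).1) (v, x) :=
      ContMDiffAt.comp (g := fun p : V × M => Ψ.toFun p.1 p.2) (v, x) (hv (Θ x).1) h4
    exact (Θ.symm.contMDiff.contMDiffAt).comp (v, x) (h5.prodMk h3)

theorem pert_prodDyn (Ψ : Fam E M V) (g : Dyn E M r) (A : Dyn E' N r) (v : V) :
    pert (prodDyn Θ g A) ((prodFam Θ Ψ).toFun v) = prodDyn Θ (pert g (Ψ.toFun v)) A := by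
  ext x
  rw [pert_apply, prodDyn_apply, prodDyn_apply, pert_apply]
  change Θ.symm (g (Θ (Θ.symm (Ψ.toFun v (Θ x).1, (Θ x).2))).1,
    A (Θ (Θ.symm (Ψ.toFun v (Θ x).1, (Θ x).2))).2) = _
  rw [Θ.apply_symm_apply]

end PRH
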