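import Pool.Agent.PRH.SymK
import Pool.Agent.PRH.SymSeq

/-!
# Scheduled periodic orbits of the base (module Schedule)

HEADER. Let `L ≥ max L₁ J` with `L ≥ 1` (`IsHorseshoe.exists_L`), `L₀ = 2 L + 2 J + 1`.
`C a = π '' {ω ∈ YL L | ω 0 = true ∧ ω (-(L + a)) = true}`,
`D = π '' {ω ∈ YL L | ¬ (ω 0 = true ∧ ∃ b : Fin J, ω (-(L + b)) = true)} ∪
     ⋃ t ∈ Finset.Ioo 0 m, A^[t] '' (π '' YL L)`.
Compactness: closed subsets of the compact space `ℤ → Bool`, continuous images, finite union.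
`C a ⊆ U` by `exists_L`. `C a ∩ C b = ∅` for `a ≠ b`: `π` is injective, and `ω (-(L+a)) = ω (-(L+b)) = true`
would give `L ≤ |a - b| < J ≤ L`. `C a ∩ π '' {...} = ∅` by injectivity, `C a ∩ A^[t] '' (π '' YL L) = ∅` by
`exists_L`.
Word: `ω` from `exists_word_seq`, `y = π ω`: `A^[m * TT n k] y = π (ω (· + TT n k)) = y`. For `l < k`:
`A^[m * TT n l] y = π (fun i => ω (i + TT n l)) ∈ C (a l)` (`YL L` is shift invariant). For
`m * TT n l < j < m * TT n (l + 1)`: `j = m * i' + t`, `t < m`; if `t = 0` then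
`TT n l < i' < TT n (l+1)`, `A^[j] y = π (ω (· + i'))` is in the first part of `D`; if `t > 0`:
`A^[j] y = A^[t] (A^[m * i'] y)` is in the second part (`Function.iterate_add_apply`).
-/

open Set Filter Topology

namespace PRH

theorem IsHorseshoe.schedule {N : Type*} [TopologicalSpace N] [T2Space N] {A : N → N} {m : ℕ}
    {π : (ℤ → Bool) → N} (h : IsHorseshoe A m π) (hA : Continuous A)
    (hA' : Function.Injective A) {U : Set N} (hU : U ∈ 𝓝 (π dl)) (J : ℕ) :
    ∃ (L₀ : ℕ) (C : Fin J → Set N) (D : Set N), 0 < L₀ ∧ (∀ a, IsCompact (C a)) ∧ IsCompact D ∧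
      (∀ a, C a ⊆ U) ∧ (∀ a b, a ≠ b → Disjoint (C a) (C b)) ∧ (∀ a, Disjoint (C a) D) ∧
      ∀ (a : ℕ → Fin J) (n : ℕ → ℕ) (k : ℕ), 0 < k → (∀ i, L₀ ≤ n i) →
        ∃ y : N, A^[m * TT n k] y = y ∧ ∀ l < k, A^[m * TT n l] y ∈ C (a l) ∧
          ∀ j : ℕ, m * TT n l < j → j < m * TT n (l + 1) → A^[j] y ∈ D := by
  obtain ⟨L₁, hL₁⟩ := h.exists_L hA hA' hU
  obtain ⟨L, hLL, hLJ, hL1⟩ : ∃ L : ℕ, L₁ ≤ L ∧ J ≤ L ∧ 1 ≤ L :=
    ⟨max L₁ (max J 1), le_max_left _ _, (le_max_left _ _).trans (le_max_right _ _),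
      (le_max_right _ _).trans (le_max_right _ _)⟩
  obtain ⟨hLU, hLt⟩ := hL₁ L hLL
  have hk : ∀ k : ℤ, Continuous (fun ω : ℤ → Bool => ω k) := fun k => continuous_apply k
  have ho : ∀ k : ℤ, IsOpen {ω : ℤ → Bool | ω k = true} := fun k =>
    (isOpen_discrete ({true} : Set Bool)).preimage (hk k)
  have hc : ∀ k : ℤ, IsClosed {ω : ℤ → Bool | ω k = true} := fun k =>
    (isClosed_discrete ({true} : Set Bool)).preimage (hk k)
  refine ⟨2 * L + 2 * J + 1,
    fun a => π '' {ω | ω ∈ YL L ∧ (ω 0 = true ∧ ω (-((L : ℤ) + (a : ℕ))) = true)},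
    π '' {ω | ω ∈ YL L ∧ ¬ (ω 0 = true ∧ ∃ b : Fin J, ω (-((L : ℤ) + (b : ℕ))) = true)} ∪
      ⋃ t ∈ Finset.Ioo 0 m, A^[t] '' (π '' YL L), by omega, ?_, ?_, ?_, ?_, ?_, ?_⟩
  · intro a
    apply IsCompact.image _ h.cont
    apply IsClosed.isCompact
    exact (isClosed_YL L).inter ((hc 0).inter (hc _))
  · apply IsCompact.union
    · apply IsCompact.image _ h.cont
      apply IsClosed.isCompact
      have : {ω : ℤ → Bool | ω ∈ YL L ∧
          ¬ (ω 0 = true ∧ ∃ b : Fin J, ω (-((L : ℤ) + (b : ℕ))) = true)} =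
          YL L ∩ ({ω : ℤ → Bool | ω 0 = true} ∩
            ⋃ b : Fin J, {ω : ℤ → Bool | ω (-((L : ℤ) + (b : ℕ))) = true})ᶜ := by
        ext ω
        simp
      rw [this]
      exact (isClosed_YL L).inter ((ho 0).inter (isOpen_iUnion fun b => ho _)).isClosed_compl
    · apply Finset.isCompact_biUnion
      intro t _
      apply IsCompact.image _ (hA.iterate t)
      apply IsCompact.image _ h.cont
      exact (isClosed_YL L).isCompact
  · rintro a _ ⟨ω, ⟨hω, h0, _⟩, rfl⟩
    exact hLU ω hω h0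
  · intro a b hab
    rw [Set.disjoint_left]
    rintro _ ⟨ω, ⟨hω, h0, h1⟩, rfl⟩ ⟨ω', ⟨hω', h0', h1'⟩, he⟩
    have he := h.inj he
    subst he
    have hab' : (a : ℕ) ≠ b := fun hh => hab (Fin.ext hh)
    have haJ := a.2
    have hbJ := b.2
    rcases lt_or_gt_of_ne hab' with hlt | hlt
    · have := hω _ _ h1' h1 (by omega)
      omega
    · have := hω _ _ h1 h1' (by omega)
      omega
  · intro a
    rw [Set.disjoint_left]
    rintro _ ⟨ω, ⟨hω, h0, h1⟩, rfl⟩ hD
    rcases hD with ⟨ω', ⟨hω', hn⟩, he⟩ | hD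
    · have he := h.inj he
      subst he
      exact hn ⟨h0, a, h1⟩
    · simp only [Set.mem_iUnion, Finset.mem_Ioo] at hD
      obtain ⟨t, ⟨ht0, htm⟩, _, ⟨ω', hω', rfl⟩, he⟩ := hD
      exact hLt ω' hω' ω hω h0 t ht0 htm he
  · intro a n k hk hn
    obtain ⟨ω, hω, hper, hw⟩ := exists_word_seq hLJ a n hk
      (fun i => (by omega : 2 * L + 2 * J ≤ 2 * L + 2 * J + 1).trans (hn i))
    have hshift : ∀ q : ℕ, (fun i : ℤ => ω (i + q)) ∈ YL L := by
      intro q i j hi hj hij
      have := hω (i + q) (j + q) hi hj (by omega)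
      omega
    refine ⟨π ω, ?_, ?_⟩
    · rw [h.iter]
      congr 1
      funext i
      exact hper i
    · intro l hl
      obtain ⟨w1, w2, w3⟩ := hw l hl
      constructor
      · rw [h.iter]
        refine ⟨_, ⟨hshift _, ?_, ?_⟩, rfl⟩
        · show ω (0 + (TT n l : ℤ)) = true
          rw [zero_add]; exact w1
        · show ω (-((L : ℤ) + (a l : ℕ)) + (TT n l : ℤ)) = true
          rw [show -((L : ℤ) + (a l : ℕ)) + (TT n l : ℤ) = (TT n l : ℤ) - (L + (a l : ℕ)) by ring]
          exact w2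
      · intro j hj1 hj2
        have hm := h.pos
        have hdm : m * (j / m) + j % m = j := Nat.div_add_mod j m
        have hmod : j % m < m := Nat.mod_lt j hm
        rcases Nat.eq_zero_or_pos (j % m) with h0 | h0
        · left
          have hj : m * (j / m) = j := by omega
          rw [← hj, h.iter]
          refine ⟨_, ⟨hshift _, ?_⟩, rfl⟩
          have hlt1 : TT n l < j / m := by
            by_contra hcon
            have : m * (j / m) ≤ m * TT n l := Nat.mul_le_mul_left m (by omega)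
            omega
          have hlt2 : j / m < TT n (l + 1) := by
            by_contra hcon
            have : m * TT n (l + 1) ≤ m * (j / m) := Nat.mul_le_mul_left m (by omega)
            omega
          have hn := w3 (j / m : ℕ) (by exact_mod_cast hlt1) (by exact_mod_cast hlt2)
          rintro ⟨g0, b, gb⟩
          apply hn
          refine ⟨?_, b, ?_⟩
          · have : ω (0 + ((j / m : ℕ) : ℤ)) = true := g0
            rwa [zero_add] at this
          · have : ω (-((L : ℤ) + (b : ℕ)) + ((j / m : ℕ) : ℤ)) = true := gb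
            rwa [show -((L : ℤ) + (b : ℕ)) + ((j / m : ℕ) : ℤ) =
              ((j / m : ℕ) : ℤ) - (L + (b : ℕ)) by ring] at this
        · right
          simp only [Set.mem_iUnion, Finset.mem_Ioo]
          refine ⟨j % m, ⟨h0, hmod⟩, A^[m * (j / m)] (π ω), ?_, ?_⟩
          · rw [h.iter]
            exact ⟨_, hshift _, rfl⟩
          · rw [← Function.iterate_add_apply]
            congr 1
            omega

end PRH
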