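import Pool.Agent.PRH.AffStep
import Pool.Agent.PRH.FamJ
import Pool.Agent.PRH.OrbChain
import Pool.Agent.PRH.ChainDeriv
import Pool.Agent.PRH.FixVec

/-!
# The core of the perturbation argument (module StarCore)

HEADER. Symbols: `G = iter g m`, `𝒩` a stable set containing `f`, `t : Fin J → Fin 2` the targets of the
letters.

1. `exists_famJ` with `e a = chartAt E (c (t a))`, centre `chartAt E (c (t a)) (c (t a))`, and `C`, `D`, `q`:
   `Ψ, ρ, W, WD`. By `Fam.eventually_mem` and the last statement of `exists_famJ` there is `δ > 0` such that for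
   `‖v‖ < δ` (`v : Fin J → E × (E →L[ℝ] E)`, sup norm: `pi_norm_lt_iff`) `pert f (Ψ.toFun v) ∈ 𝒩` and the affine
   formula holds.
2. `norm_prm_lt` with `δ`, `ρ`: this is the `ε` of the statement.
3. Let `V, n, ℓ, K, a, w` be given. Write `s_j = (ℓ (a j)).1`, `t_j = (ℓ (a j)).2.1 = t (a j)`,
   `B_j = (ℓ (a j)).2.2`, `p b = g^[m * n s t] (V s)` for `b : Fin J`, `ℓ b = (s, t, B)` (the arrival point of the
   letter `b`; `zi (iter g m) n = g^[m n]`, so `dist (p b) (c t) < ε`). Parameter: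
   `v b = prm (c t) (V t) (p b) B`, `‖v b‖ < δ`. `f' = pert f (Ψ.toFun v)`, so `f' x = f (Ψ.toFun v x)`.
   `P j = p (a j)`, `α j = alf (c t_j) (v (a j))`, `α j (P j) = V t_j` (`alf_prm`);
   `ν j = n t_j t_{j+1} ≥ L₀ ≥ 1`, `τ j = m * ν j`; `g^[τ j] (V t_j) = p (a (j+1)) = P (j + 1)` for `j ≤ K`,
   because `s_{j+1} = t_j`. `TT τ j = m * TT ν j` (`Finset.mul_sum`). `P (K + 1) = P 0`.
   The schedule `hsch` for `a`, `ν`, `k = K + 1` gives `y`.
4. `orbit_chain` (with `K + 1`, `Θ.toHomeomorph`): `hfree`: `q ∈ WD`: `Ψ v (Θ.symm (p, q)) = Θ.symm (p, q)` and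
   `f (Θ.symm (p, q)) = Θ.symm (g p, A q)` (from `hf`). `htrig`: for `(p, q)` near `(P j, A^[TT τ j] y)`:
   `p ∈ (chartAt ..).source`, `chart p ∈ ball .. ρ`, `q ∈ W (a j)` (`A^[..] y ∈ C (a j)`), so with `u = chart p`:
   `Ψ v (Θ.symm (p, q)) = Ψ v (Θ.symm (chart.symm u, q)) = Θ.symm (chart.symm (u + ...), q) = Θ.symm (α j p, q)`.
   `hD` from the schedule. Conclusion: near `(P 0, y)`, with `n₁ = TT τ (K + 1)`:
   `f'^[n₁] (Θ.symm z) = Θ.symm (H z.1, A^[n₁] z.2)`, `H = comps (fun j => g^[τ j] ∘ α j) (K + 1)`,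
   `H (P 0) = P (K + 1) = P 0`, `A^[n₁] y = y`. So `x₀ = Θ.symm (P 0, y)` is fixed by `f'^[n₁]`, `n₁ > 0`.
5. `Stab.isHyp`: `IsHyp (D f'^[n₁] x₀)`.
6. `chain_deriv` with `ch j = chartAt E (c t_j)` and
   `Dv j = X c V n t_j t_{j+1} * (1 + B_j)` (`hasFDerivAt_alf` and `lcoc_X`; note
   `(iter g m)^[k] = g^[m * k]`: `Function.iterate_mul`, `iter_apply`).
7. `fix_vec` with `e = chartAt E (c t_0)` (`= ch (K + 1)`, since `t_{K+1} = t_0`), `e' = chartAt E' q`, `p₀ = P 0`,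
   `q₀ = y ∈ C (a 0) ⊆ (chartAt E' q).source`, `G = f'^[n₁]`, `H`, `B = A^[n₁]`: `w = 0`.
-/

open Set Filter Topology Manifold ContDiff Metric OmSt

namespace PRH

variable {E : Type*} [NormedAddCommGroup E] [NormedSpace ℝ E] [FiniteDimensional ℝ E]
  {E' : Type*} [NormedAddCommGroup E'] [NormedSpace ℝ E'] [FiniteDimensional ℝ E']
  {F : Type*} [NormedAddCommGroup F] [NormedSpace ℝ F] [FiniteDimensional ℝ F]
  {M : Type*} [MetricSpace M] [CompactSpace M] [ChartedSpace E M] [IsManifold 𝓘(ℝ, E) ∞ M]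
  {N : Type*} [TopologicalSpace N] [T2Space N] [ChartedSpace E' N] [IsManifold 𝓘(ℝ, E') ∞ N]
  {X : Type*} [TopologicalSpace X] [T2Space X] [CompactSpace X] [ChartedSpace F X]
  [IsManifold 𝓘(ℝ, F) ∞ X] {r : ℕ∞}

theorem star_core (hr : 1 ≤ r) (Θ : Diffeomorph 𝓘(ℝ, F) (𝓘(ℝ, E).prod 𝓘(ℝ, E')) X (M × N) ∞)
    (ι : F ≃L[ℝ] E × E') {g : Dyn E M r} {A : Dyn E' N r} {f : Dyn F X r}
    (hf : ∀ x, Θ (f x) = (g (Θ x).1, A (Θ x).2)) {𝒩 : Set (Dyn F X r)} (h𝒩 : Stab 𝒩)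
    (hf𝒩 : f ∈ 𝒩) (γ : RMetric E M) {m : ℕ} (hm : 0 < m) {q : N} {J L₀ : ℕ} (hL₀ : 0 < L₀)
    {C : Fin J → Set N} {D : Set N} (hC : ∀ a, IsCompact (C a)) (hD : IsCompact D)
    (hCs : ∀ a, C a ⊆ (chartAt E' q).source) (hCC : ∀ a b, a ≠ b → Disjoint (C a) (C b))
    (hCD : ∀ a, Disjoint (C a) D)
    (hsch : ∀ (a : ℕ → Fin J) (n : ℕ → ℕ) (k : ℕ), 0 < k → (∀ i, L₀ ≤ n i) →
        ∃ y : N, A^[m * TT n k] y = y ∧ ∀ l < k, A^[m * TT n l] y ∈ C (a l) ∧
          ∀ j : ℕ, m * TT n l < j → j < m * TT n (l + 1) → A^[j] y ∈ D)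
    (c : Fin 2 → M) (t : Fin J → Fin 2) :
    ∃ ε > 0, ∀ (V : Fin 2 → M) (n : Fin 2 → Fin 2 → ℕ), (∀ i, dist (V i) (c i) < ε) →
      (∀ i j, L₀ ≤ n i j ∧ dist (zi (iter g m).toEquiv (n i j) (V i)) (c j) < ε) →
      ∀ ℓ : Fin J → Letter E, (∀ b, (ℓ b).2.1 = t b) → (∀ b, ‖(ℓ b).2.2‖ < ε) →
      ∀ (K : ℕ) (a : ℕ → Fin J), (∀ j ≤ K, (ℓ (a (j + 1))).1 = (ℓ (a j)).2.1) →
        a (K + 1) = a 0 → ∀ w : E,
        prods (fun j => (lcoc (iter g m) hr γ).X c V n (ℓ (a j)).2.1 (ℓ (a (j + 1))).2.1 *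
          (1 + (ℓ (a j)).2.2)) (K + 1) w = w → w = 0 := by
  classical
  obtain ⟨Ψ, ρ, W, WD, hρ, hρt, hWo, hWDo, hCW, hDWD, hΨD, hΨev⟩ := exists_famJ Θ ι
    (e := fun a => chartAt E (c (t a))) (c := fun a => chartAt E (c (t a)) (c (t a)))
    (fun a => IsManifold.chart_mem_maximalAtlas _)
    (fun a => (chartAt E (c (t a))).map_source (mem_chart_source E (c (t a)))) (q := q)
    hC hD hCC hCD hCs
  have hev := (Ψ.eventually_mem f h𝒩.isOpen hf𝒩).and hΨev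
  obtain ⟨δ, hδ, hδs⟩ := Metric.eventually_nhds_iff.1 hev
  obtain ⟨ε, hε, hε1, hε2⟩ := norm_prm_lt (E := E) c hδ hρ
  refine ⟨ε, hε, fun V n hV hn ℓ hℓt hℓε K a ha haK w hw => ?_⟩
  simp only [hℓt] at hw ha
  have hiter : ∀ k : ℕ, (iter g m : M → M)^[k] = g^[m * k] := by
    intro k
    have h1 : (iter g m : M → M) = g^[m] := funext fun x => iter_apply g m x
    rw [h1, Function.iterate_mul]
  have hzi : ∀ (k : ℕ) (x : M), zi (iter g m).toEquiv k x = g^[m * k] x := by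
    intro k x
    rw [zi_nat, ← hiter k]
    rfl
  -- the points of arrival
  set p : Fin J → M := fun b => g^[m * n (ℓ b).1 (t b)] (V (ℓ b).1) with hpdef
  have hp : ∀ b, dist (p b) (c (t b)) < ε := by
    intro b
    have h1 := (hn (ℓ b).1 (t b)).2
    rwa [hzi] at h1
  set v : Fin J → E × (E →L[ℝ] E) := fun b => prm (c (t b)) (V (t b)) (p b) (ℓ b).2.2 with hvdef
  have hvδ : ‖v‖ < δ :=
    (pi_norm_lt_iff hδ).2 fun b => hε2 (t b) _ _ _ (hV _) (hp b) (hℓε b)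
  obtain ⟨hf'𝒩, hΨv⟩ := hδs (y := v) (by rwa [dist_zero_right])
  set f' : Dyn F X r := pert f (Ψ.toFun v) with hf'
  have hfΘ : ∀ (p : M) (q : N), f (Θ.symm (p, q)) = Θ.symm (g p, A q) := by
    intro p q
    have h1 := hf (Θ.symm (p, q))
    rw [Θ.apply_symm_apply] at h1
    rw [← h1, Θ.symm_apply_apply]
  have hVs : ∀ i, V i ∈ (chartAt E (c i)).source := fun i => (hε1 i _ (hV i)).1
  have hps : ∀ b, p b ∈ (chartAt E (c (t b))).source := fun b => (hε1 _ _ (hp b)).1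
  -- the schedule
  set ν : ℕ → ℕ := fun j => n (t (a j)) (t (a (j + 1))) with hν
  -- only the values with `j ≤ K` matter
  obtain ⟨y, hy1, hy2⟩ := hsch a ν (K + 1) (Nat.succ_pos K) (fun i => (hn _ _).1)
  set τ : ℕ → ℕ := fun j => m * ν j with hτ
  have hTT : ∀ j, TT τ j = m * TT ν j := by
    intro j
    simp only [TT, hτ, Finset.mul_sum]
  set P : ℕ → M := fun j => p (a j) with hPdef
  set α : ℕ → M → M := fun j => alf (c (t (a j))) (v (a j)) with hα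
  have hαP : ∀ j, α j (P j) = V (t (a j)) := fun j => alf_prm _ _ (hVs _)
  have hτ0 : ∀ j, 0 < τ j := fun j => Nat.mul_pos hm (lt_of_lt_of_le hL₀ (hn _ _).1)
  have hPs : ∀ j < K + 1, g^[τ j] (α j (P j)) = P (j + 1) := by
    intro j hj
    rw [hαP]
    simp only [hPdef, hpdef, hτ, hν]
    rw [ha j (by omega)]
  have hαc : ∀ j, ContinuousAt (α j) (P j) := fun j => alf_cont _ (hVs _) (hps _)
  have hchain := orbit_chain Θ.toHomeomorph (g := g) g.continuous (A := A) A.continuous (f' := f')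
    hWDo (fun p q hq => by
      change f' (Θ.symm (p, q)) = Θ.symm (g p, A q)
      rw [hf', pert_apply, hΨD v p q hq, hfΘ]) (α := α) (P := P) (y := y) (τ := τ) (K := K + 1)
    (fun j _ => hτ0 j) (fun j _ => hαc j) hPs (fun j hj => by
      have h1 : A^[TT τ j] y ∈ W (a j) := by
        rw [hTT]
        exact hCW _ (hy2 j hj).1
      have h2 := hε1 (t (a j)) (P j) (hp (a j))
      have h3 : ∀ᶠ z : M × N in 𝓝 (P j, A^[TT τ j] y), z.1 ∈ (chartAt E (c (t (a j)))).source :=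
        continuousAt_fst.eventually ((chartAt E (c (t (a j)))).open_source.mem_nhds h2.1)
      have h4 : ∀ᶠ z : M × N in 𝓝 (P j, A^[TT τ j] y), chartAt E (c (t (a j))) z.1 ∈
          ball (chartAt E (c (t (a j))) (c (t (a j)))) ρ :=
        (ContinuousAt.comp (x := (P j, A^[TT τ j] y))
          ((chartAt E (c (t (a j)))).continuousAt h2.1) continuousAt_fst).eventually
          (isOpen_ball.mem_nhds h2.2)
      have h5 : ∀ᶠ z : M × N in 𝓝 (P j, A^[TT τ j] y), z.2 ∈ W (a j) :=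
        continuousAt_snd.eventually ((hWo (a j)).mem_nhds h1)
      filter_upwards [h3, h4, h5] with z hz3 hz4 hz5
      change f' (Θ.symm z) = Θ.symm (g (α j z.1), A z.2)
      have h6 := (hΨv (a j) _ (ball_subset_closedBall hz4)).2 z.2 hz5
      rw [(chartAt E (c (t (a j)))).left_inv hz3] at h6
      have h7 : Ψ.toFun v (Θ.symm z) = Θ.symm (α j z.1, z.2) := h6
      rw [hf', pert_apply, h7, hfΘ]) (fun j hj i hi hi' => by
      rw [hTT] at hi hi'
      exact hDWD ((hy2 j hj).2 i hi hi'))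
  obtain ⟨-, hval, hloc⟩ := hchain
  have hP0 : P (K + 1) = P 0 := by
    simp only [hPdef, haK]
  set n₁ := TT τ (K + 1) with hn₁
  have hn₁0 : 0 < n₁ := by
    rw [hn₁, TT, Finset.sum_range_succ]
    exact Nat.add_pos_right _ (hτ0 K)
  have hAy : A^[n₁] y = y := by rw [hn₁, hTT]; exact hy1
  have hfix : f'^[n₁] (Θ.symm (P 0, y)) = Θ.symm (P 0, y) := by
    have h1 := hloc.self_of_nhds
    have h2 : f'^[n₁] (Θ.symm (P 0, y)) =
        Θ.symm (comps (fun j => g^[τ j] ∘ α j) (K + 1) (P 0), A^[n₁] y) := h1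
    rw [h2, hval, hP0, hAy]
  have hhyp : IsHyp (OmSt.D f'^[n₁] (Θ.symm (P 0, y)) : F →L[ℝ] F) := h𝒩.isHyp hr hf'𝒩 hn₁0 hfix
  have hderiv := chain_deriv (h := fun j => g^[τ j] ∘ α j) (P := P)
    (ch := fun j => chartAt E (c (t (a j))))
    (Dv := fun j => (lcoc (iter g m) hr γ).X c V n (t (a j)) (t (a (j + 1))) *
      (1 + (ℓ (a j)).2.2)) (K := K + 1) (fun j _ => hps _) hPs
    (fun j _ => ContinuousAt.comp (g.continuous.iterate _).continuousAt (hαc j)) (fun j hj => by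
      have hV' : g^[τ j] (V (t (a j))) ∈ (chartAt E (c (t (a (j + 1))))).source := by
        have h1 := hPs j hj
        rw [hαP] at h1
        rw [h1]
        exact hps _
      have h2 := hasFDerivAt_alf g hr (τ j) (c := c (t (a j))) (c' := c (t (a (j + 1))))
        (V := V (t (a j))) (p := P j) (ℓ (a j)).2.2 (hVs _) (hps _) hV'
      have h3 := lcoc_X (iter g m) hr γ (c := c) (V := V) (n := n) (t (a j)) (t (a (j + 1)))
        (hVs _) (by rw [hiter]; exact hV')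
      rw [hiter] at h3
      rw [h3]
      exact h2)
  have hch : chartAt E (c (t (a (K + 1)))) = chartAt E (c (t (a 0))) := by rw [haK]
  have hy0 : y ∈ (chartAt E' q).source := by
    have h1 := (hy2 0 (Nat.succ_pos K)).1
    have h2 : A^[m * TT ν 0] y = y := by simp [TT]
    rw [h2] at h1
    exact hCs _ h1
  simp only [hch] at hderiv
  exact fix_vec Θ ι (e := chartAt E (c (t (a 0)))) (IsManifold.chart_mem_maximalAtlas _)
    (e' := chartAt E' q) (IsManifold.chart_mem_maximalAtlas _) (p₀ := P 0) (q₀ := y) (hps _) hy0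
    (G := f'^[n₁]) (mdiff_iterate (Dyn.mdiff f' hr) n₁ _)
    (H := comps (fun j => g^[τ j] ∘ α j) (K + 1)) (B := A^[n₁]) (hval.trans hP0) hAy hloc hderiv
    hhyp hw

end PRH
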