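import Pool.Agent.PRH.WalkDef
import Pool.Agent.PRH.PDef

/-!
# Walks as sequences (module WalkSeq)

HEADER. `seqR X ℓ K = X_K (1 + B_K) X_{K-1} ⋯ (1 + B_1) X_0`, where `ℓ n = (s_n, t_n, B_n)` and
`X_n = X t_n t_{n+1}`.

`Walk.exists_list`: by induction on the walk: if `Walk X 𝓛 i j T` there are `K` and `ℓ : ℕ → Letter E` with
`ℓ (n + 1) ∈ 𝓛` for `n ≤ K`, `(ℓ 1).1 = i`, `(ℓ (n + 2)).1 = (ℓ (n + 1)).2.1` for `n < K`,
`(ℓ (K + 1)).2.1 = j` such that for every choice of `ℓ 0` with `(ℓ 0).2.1 = i`: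
`T = (1 + (ℓ (K + 1)).2.2) * seqR X ℓ K`. (`single`: `K = 0`; `snoc`: `ℓ' = Function.update ℓ (K + 2) new`.
`seqR X ℓ K` depends only on `(ℓ n).2.1` for `n ≤ K + 1` and `(ℓ n).2.2` for `1 ≤ n ≤ K`.)
For a closed walk put `ℓ 0 = ℓ (K + 1)` (its target is `i`), and redefine `ℓ n = ℓ 0` for `n > K + 1`.

`seqR_prods`: `seqR X ℓ K * (1 + (ℓ 0).2.2) = prods (fun j => X_j * (1 + (ℓ j).2.2)) (K + 1)`: induction on `K`.
`fix_prods`: if `T = (1 + B_{K+1}) * seqR X ℓ K`, `B_{K+1} = B_0`, `T v = v`, `v ≠ 0`, then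
`w = seqR X ℓ K v` satisfies `(1 + B_0) w = v`, so `w ≠ 0`, and
`prods .. (K + 1) w = seqR X ℓ K ((1 + B_0) w) = seqR X ℓ K v = w`.
-/

open Set Filter Topology

namespace PRH

variable {E : Type*} [NormedAddCommGroup E] [NormedSpace ℝ E]

/-- `seqR X ℓ K = X_K (1 + B_K) ⋯ (1 + B_1) X_0`. -/
noncomputable def seqR (X : Fin 2 → Fin 2 → E →L[ℝ] E) (ℓ : ℕ → Letter E) : ℕ → (E →L[ℝ] E)
  | 0 => X (ℓ 0).2.1 (ℓ 1).2.1
  | (j + 1) => X (ℓ (j + 1)).2.1 (ℓ (j + 2)).2.1 * (1 + (ℓ (j + 1)).2.2) * seqR X ℓ j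

variable {X : Fin 2 → Fin 2 → E →L[ℝ] E} {𝓛 : Set (Letter E)}

theorem WalkSeq_congr {ℓ ℓ' : ℕ → Letter E} {K : ℕ} (h : ∀ n ≤ K + 1, ℓ n = ℓ' n) :
    seqR X ℓ K = seqR X ℓ' K := by
  induction K with
  | zero =>
    show X (ℓ 0).2.1 (ℓ 1).2.1 = X (ℓ' 0).2.1 (ℓ' 1).2.1
    rw [h 0 (by omega), h 1 (by omega)]
  | succ K ih =>
    show X (ℓ (K + 1)).2.1 (ℓ (K + 2)).2.1 * (1 + (ℓ (K + 1)).2.2) * seqR X ℓ K =
      X (ℓ' (K + 1)).2.1 (ℓ' (K + 2)).2.1 * (1 + (ℓ' (K + 1)).2.2) * seqR X ℓ' K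
    rw [ih (fun n hn => h n (by omega)), h (K + 1) (by omega), h (K + 2) (by omega)]

theorem WalkSeq_list {i j : Fin 2} {T : E →L[ℝ] E} (h : Walk X 𝓛 i j T) :
    ∃ (K : ℕ) (ℓ : ℕ → Letter E), (∀ n ≤ K, ℓ (n + 1) ∈ 𝓛) ∧ (ℓ 1).1 = i ∧
      (∀ n < K, (ℓ (n + 2)).1 = (ℓ (n + 1)).2.1) ∧ (ℓ (K + 1)).2.1 = j ∧
      ∀ l0 : Letter E, l0.2.1 = i →
        T = (1 + (ℓ (K + 1)).2.2) * seqR X (Function.update ℓ 0 l0) K := by
  induction h with
  | @single j B h =>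
    refine ⟨0, fun _ => (i, j, B), fun n _ => h, rfl, fun n hn => by omega, rfl, ?_⟩
    intro l0 hl0
    show (1 + B) * X i j = (1 + B) * X (Function.update (fun _ => (i, j, B)) 0 l0 0).2.1
      (Function.update (fun _ => ((i, j, B) : Letter E)) 0 l0 1).2.1
    rw [Function.update_self, Function.update_of_ne one_ne_zero, hl0]
  | @snoc j k T B hw h ih =>
    obtain ⟨K, ℓ, h1, h2, h3, h4, h5⟩ := ih
    have hne : ∀ n ≤ K, n + 1 ≠ K + 2 := fun n hn => by omega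
    refine ⟨K + 1, Function.update ℓ (K + 2) (j, k, B), ?_, ?_, ?_, ?_, ?_⟩
    · intro n hn
      by_cases hn' : n + 1 = K + 2
      · rw [hn', Function.update_self]; exact h
      · rw [Function.update_of_ne hn']; exact h1 n (by omega)
    · rw [Function.update_of_ne (by omega : (1 : ℕ) ≠ K + 2)]; exact h2
    · intro n hn
      rw [Function.update_of_ne (by omega : n + 1 ≠ K + 2)]
      by_cases hn' : n = K
      · subst hn'
        rw [Function.update_self]; exact h4.symm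
      · rw [Function.update_of_ne (by omega : n + 2 ≠ K + 2)]
        exact h3 n (by omega)
    · rw [Function.update_self]
    · intro l0 hl0
      rw [Function.update_self]
      set ℓ' := Function.update (Function.update ℓ (K + 2) (j, k, B)) 0 l0 with hℓ'
      have e1 : ℓ' (K + 1) = ℓ (K + 1) := by
        rw [hℓ', Function.update_of_ne (by omega : K + 1 ≠ 0),
          Function.update_of_ne (by omega : K + 1 ≠ K + 2)]
      have e2 : ℓ' (K + 2) = (j, k, B) := by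
        rw [hℓ', Function.update_of_ne (by omega : K + 2 ≠ 0), Function.update_self]
      have e3 : seqR X ℓ' K = seqR X (Function.update ℓ 0 l0) K := by
        apply WalkSeq_congr
        intro n hn
        by_cases h0 : n = 0
        · subst h0
          rw [hℓ', Function.update_self, Function.update_self]
        · rw [hℓ', Function.update_of_ne h0, Function.update_of_ne (by omega : n ≠ K + 2),
            Function.update_of_ne h0]
      show (1 + B) * X j k * T = (1 + B) *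
        (X (ℓ' (K + 1)).2.1 (ℓ' (K + 2)).2.1 * (1 + (ℓ' (K + 1)).2.2) * seqR X ℓ' K)
      rw [e1, e2, e3, h4, h5 l0 hl0]
      simp only [mul_assoc]

theorem Walk.exists_seq {i : Fin 2} {T : E →L[ℝ] E} (h : Walk X 𝓛 i i T) :
    ∃ (K : ℕ) (ℓ : ℕ → Letter E), (∀ n, ℓ n ∈ 𝓛) ∧ (∀ n ≤ K, (ℓ (n + 1)).1 = (ℓ n).2.1) ∧
      ℓ (K + 1) = ℓ 0 ∧ T = (1 + (ℓ (K + 1)).2.2) * seqR X ℓ K := by
  obtain ⟨K, ℓ, h1, h2, h3, h4, h5⟩ := WalkSeq_list h
  refine ⟨K, fun n => if n = 0 then ℓ (K + 1) else if n ≤ K + 1 then ℓ n else ℓ (K + 1),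
    ?_, ?_, ?_, ?_⟩
  · intro n
    dsimp only
    split_ifs with c1 c2
    · exact h1 K le_rfl
    · obtain ⟨n', rfl⟩ := Nat.exists_eq_succ_of_ne_zero c1
      exact h1 n' (by omega)
    · exact h1 K le_rfl
  · intro n hn
    dsimp only
    rw [if_neg (by omega : n + 1 ≠ 0), if_pos (by omega : n + 1 ≤ K + 1)]
    by_cases hn0 : n = 0
    · subst hn0
      rw [if_pos rfl, h4]; exact h2
    · rw [if_neg hn0, if_pos (by omega)]
      obtain ⟨n', rfl⟩ := Nat.exists_eq_succ_of_ne_zero hn0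
      exact h3 n' (by omega)
  · dsimp only
    rw [if_neg (by omega : K + 1 ≠ 0), if_pos le_rfl, if_pos rfl]
  · dsimp only
    rw [if_neg (by omega : K + 1 ≠ 0), if_pos le_rfl, h5 (ℓ (K + 1)) h4]
    congr 1
    apply WalkSeq_congr
    intro n hn
    by_cases hn0 : n = 0
    · subst hn0
      rw [Function.update_self, if_pos rfl]
    · rw [Function.update_of_ne hn0, if_neg hn0, if_pos hn]

theorem seqR_prods (ℓ : ℕ → Letter E) (K : ℕ) : seqR X ℓ K * (1 + (ℓ 0).2.2) =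
    prods (fun j => X (ℓ j).2.1 (ℓ (j + 1)).2.1 * (1 + (ℓ j).2.2)) (K + 1) := by
  induction K with
  | zero =>
    show X (ℓ 0).2.1 (ℓ 1).2.1 * (1 + (ℓ 0).2.2) =
      X (ℓ 0).2.1 (ℓ 1).2.1 * (1 + (ℓ 0).2.2) * 1
    rw [mul_one]
  | succ K ih =>
    show X (ℓ (K + 1)).2.1 (ℓ (K + 2)).2.1 * (1 + (ℓ (K + 1)).2.2) * seqR X ℓ K *
        (1 + (ℓ 0).2.2) = X (ℓ (K + 1)).2.1 (ℓ (K + 1 + 1)).2.1 * (1 + (ℓ (K + 1)).2.2) *
          prods (fun j => X (ℓ j).2.1 (ℓ (j + 1)).2.1 * (1 + (ℓ j).2.2)) (K + 1)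
    rw [← ih, mul_assoc _ (seqR X ℓ K)]

theorem fix_prods {ℓ : ℕ → Letter E} {K : ℕ} (h0 : ℓ (K + 1) = ℓ 0) {v : E} (hv0 : v ≠ 0)
    (hv : ((1 + (ℓ (K + 1)).2.2) * seqR X ℓ K) v = v) : ∃ w : E, w ≠ 0 ∧
      prods (fun j => X (ℓ j).2.1 (ℓ (j + 1)).2.1 * (1 + (ℓ j).2.2)) (K + 1) w = w := by
  have hv' : (1 + (ℓ 0).2.2) (seqR X ℓ K v) = v := by
    rw [← h0]; exact hv
  refine ⟨seqR X ℓ K v, ?_, ?_⟩
  · intro h
    rw [h, map_zero] at hv'
    exact hv0 hv'.symm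
  · rw [← seqR_prods]
    show seqR X ℓ K ((1 + (ℓ 0).2.2) (seqR X ℓ K v)) = seqR X ℓ K v
    rw [hv']

end PRH
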