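import Pool.Agent.PRH.StarCore
import Pool.Agent.PRH.Schedule
import Pool.Agent.PRH.WalkSeq

/-!
# Ω-stability implies `Star` (module StarFin)

HEADER. Let `𝒩 ∋ f` be the open set of `OmegaStable f`; it is a stable set (`Stab`; see the proof of
`main_metric3`, Pool/Agent/OmSt2/Final3.lean). Let `J` be given; we may assume `1 ≤ J` (for `J = 0` there is no
walk: a letter set with `encard ≤ 0` is empty, and a walk uses at least one letter). `IsHorseshoe.schedule`
with `U = (chartAt E' (π dl)).source` (`q = π dl`) and `J`: `L₀, C, D`. This `L₀` is the one of `Star`.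
For `c` take for every `t : Fin J → Fin 2` the number `ε_t` of `star_core`, and let `ε > 0` be the minimum (finite
type; e.g. `Finset.exists_min_image`, or `Finite` + `Finset.inf'`).
Let `V, n` be as in `Star`, `Reach X ε J 0 0 T` with letters `𝓛` (`encard ≤ J`), `T v = v`; suppose `v ≠ 0`.
`𝓛` is finite and nonempty with at most `J` elements: there is `ℓ' : Fin J → Letter E` with `range ℓ' = 𝓛`
(surjection of `Fin J` onto a nonempty finite set of cardinality `≤ J`).
`Walk.exists_seq`: `K, ℓ`; for every `n` choose `a n : Fin J` with `ℓ' (a n) = ℓ n`, as a function of `ℓ n`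
(`a n = σ (ℓ n)` with a right inverse `σ` of `ℓ'` on `𝓛`), so that `a (K + 1) = a 0`.
`fix_prods` gives `w ≠ 0` with `prods .. (K + 1) w = w`; `star_core` (with `t b = (ℓ' b).2.1`) gives `w = 0`:
contradiction.
-/

open Set Filter Topology Manifold ContDiff Metric OmSt

namespace PRH

variable {E : Type*} [NormedAddCommGroup E] [NormedSpace ℝ E] [FiniteDimensional ℝ E]
  {E' : Type*} [NormedAddCommGroup E'] [NormedSpace ℝ E'] [FiniteDimensional ℝ E']
  {F : Type*} [NormedAddCommGroup F] [NormedSpace ℝ F] [FiniteDimensional ℝ F]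
  {M : Type*} [MetricSpace M] [CompactSpace M] [ChartedSpace E M] [IsManifold 𝓘(ℝ, E) ∞ M]
  {N : Type*} [TopologicalSpace N] [T2Space N] [ChartedSpace E' N] [IsManifold 𝓘(ℝ, E') ∞ N]
  {X : Type*} [TopologicalSpace X] [T2Space X] [CompactSpace X] [ChartedSpace F X]
  [IsManifold 𝓘(ℝ, F) ∞ X] {r : ℕ∞}

theorem StarFin_ne {E : Type*} [NormedAddCommGroup E] [NormedSpace ℝ E]
    {X : Fin 2 → Fin 2 → E →L[ℝ] E} {𝓛 : Set (Letter E)} (h : 𝓛 = ∅) {i j : Fin 2}
    {T : E →L[ℝ] E} (hw : Walk X 𝓛 i j T) : False := by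
  subst h
  cases hw with
  | single h => exact h
  | snoc _ h => exact h

theorem star_of_omegaStable (hr : 1 ≤ r)
    (Θ : Diffeomorph 𝓘(ℝ, F) (𝓘(ℝ, E).prod 𝓘(ℝ, E')) X (M × N) ∞) (ι : F ≃L[ℝ] E × E')
    {g : Dyn E M r} {A : Dyn E' N r} {f : Dyn F X r} (hf : ∀ x, Θ (f x) = (g (Θ x).1, A (Θ x).2))
    (hstab : OmegaStable f) (γ : RMetric E M) {m : ℕ} {π : (ℤ → Bool) → N}
    (hπ : IsHorseshoe A m π) : (lcoc (iter g m) hr γ).Star := by
  obtain ⟨𝒩, hN, hfN, hconj⟩ := hstab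
  have hS : Stab 𝒩 := ⟨hN, fun g₁ hg₁ g' hg' =>
    ((hconj g₁ hg₁).symm (Dyn.isOpenMap f) f.continuous).trans (Dyn.isOpenMap f) f.continuous
      (hconj g' hg')⟩
  intro J
  rcases Nat.eq_zero_or_pos J with rfl | hJ
  · refine ⟨0, fun c => ⟨1, one_pos, ?_⟩⟩
    intro V n _ _ T hT v _
    obtain ⟨𝓛, hc, _, hw⟩ := hT
    have h0 : 𝓛 = ∅ := by
      rw [← Set.encard_eq_zero]
      simpa using hc
    exact absurd hw (StarFin_ne h0)
  · obtain ⟨L₀, C, D, hL₀, hC, hD, hCs, hCC, hCD, hsch⟩ := hπ.schedule A.continuous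
      A.injective (U := (chartAt E' (π dl)).source)
      ((chartAt E' (π dl)).open_source.mem_nhds (mem_chart_source E' (π dl))) J
    refine ⟨L₀, fun c => ?_⟩
    have key := fun t : Fin J → Fin 2 =>
      star_core hr Θ ι hf hS hfN γ hπ.pos (q := π dl) hL₀ hC hD hCs hCC hCD hsch c t
    choose ε hε hkey using key
    obtain ⟨t0, ht0⟩ := Finite.exists_min ε
    refine ⟨ε t0, hε t0, ?_⟩
    intro V n hV hn T hT v hv
    obtain ⟨𝓛, hcard, hnorm, hw⟩ := hT
    by_contra hv0
    have hne : 𝓛.Nonempty := by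
      rw [Set.nonempty_iff_ne_empty]
      exact fun h0 => StarFin_ne h0 hw
    have hfin : 𝓛.Finite := Set.finite_of_encard_le_coe hcard
    have : Fintype 𝓛 := hfin.fintype
    have : Nonempty 𝓛 := hne.to_subtype
    have hc2 : Fintype.card 𝓛 ≤ Fintype.card (Fin J) := by
      rw [Fintype.card_fin]
      have h1 : 𝓛.encard = Fintype.card 𝓛 := by
        rw [Set.encard_eq_coe_toFinset_card, Set.toFinset_card]
      rw [h1] at hcard
      exact_mod_cast hcard
    obtain ⟨e⟩ := Function.Embedding.nonempty_of_card_le hc2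
    have hsig : ∀ x : Letter E, ∃ b : Fin J, x ∈ 𝓛 →
        ((Function.invFun e b : 𝓛) : Letter E) = x := by
      intro x
      by_cases hx : x ∈ 𝓛
      · exact ⟨e ⟨x, hx⟩, fun _ => by rw [Function.leftInverse_invFun e.injective ⟨x, hx⟩]⟩
      · exact ⟨⟨0, hJ⟩, fun h => absurd h hx⟩
    choose σ hσ using hsig
    obtain ⟨K, ℓ, hmem, hchain, hK, hT⟩ := hw.exists_seq
    obtain ⟨w, hw0, hw1⟩ := fix_prods (X := (lcoc (iter g m) hr γ).X c V n) hK
      (v := v) hv0 (by rw [← hT]; exact hv)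
    apply hw0
    set ℓ' : Fin J → Letter E := fun b => ((Function.invFun e b : 𝓛) : Letter E) with hℓ'
    have hσ' : ∀ k, ℓ' (σ (ℓ k)) = ℓ k := fun k => hσ _ (hmem k)
    refine hkey (fun b => (ℓ' b).2.1) V n
      (fun i => (hV i).trans_le (ht0 _)) (fun i j => ⟨(hn i j).1, ((hn i j).2).trans_le (ht0 _)⟩)
      ℓ' (fun b => rfl) (fun b => (hnorm _ (Function.invFun e b : 𝓛).2).trans_le (ht0 _))
      K (fun k => σ (ℓ k)) ?_ ?_ w ?_
    · intro j hj
      show (ℓ' (σ (ℓ (j + 1)))).1 = (ℓ' (σ (ℓ j))).2.1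
      rw [hσ', hσ']
      exact hchain j hj
    · show σ (ℓ (K + 1)) = σ (ℓ 0)
      rw [hK]
    · simp only [hσ']
      exact hw1

end PRH
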